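import Pool.Agent.H574.CF.Dens2

/-!
# The limit of the proportion of the triples without an obstruction
-/

set_option autoImplicit false

namespace Pool.Agent.H574.CF.Dens

open Filter Topology Finset

open Classical in
/-- the factors of the product over the bad prime numbers -/
noncomputable def fac (n : ℕ) : ℝ := if BadPrime n then 1 - 1 / (n : ℝ) ^ 3 else 1

lemma fac_le (n : ℕ) : fac n ≤ 1 := by
  unfold fac
  split_ifs
  · have : (0 : ℝ) ≤ 1 / (n : ℝ) ^ 3 := by positivity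
    linarith
  · exact le_rfl

lemma fac_ge (n : ℕ) : 1 - 1 / (n : ℝ) ^ 3 ≤ fac n := by
  unfold fac
  split_ifs
  · exact le_rfl
  · have : (0 : ℝ) ≤ 1 / (n : ℝ) ^ 3 := by positivity
    linarith

lemma cube_lt {n : ℕ} (hn : 2 ≤ n) : 1 / (n : ℝ) ^ 3 ≤ 1 / 8 := by
  have h : (2 : ℝ) ≤ n := by exact_mod_cast hn
  refine one_div_le_one_div_of_le (by norm_num) ?_
  calc (8 : ℝ) = 2 ^ 3 := by norm_num
    _ ≤ (n : ℝ) ^ 3 := by gcongr

lemma fac_pos (n : ℕ) : 0 < fac n := by
  unfold fac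
  split_ifs with h
  · have := cube_lt h.1.two_le
    linarith
  · exact one_pos

lemma multipliable_fac : Multipliable fac := by
  have h1 : Summable fun n : ℕ => fac n - 1 := by
    refine Summable.of_norm_bounded (g := fun n : ℕ => 1 / (n : ℝ) ^ 3)
      (Real.summable_one_div_nat_pow.2 (by norm_num)) fun n => ?_
    have h2 := fac_le n
    have h3 := fac_ge n
    rw [Real.norm_eq_abs, abs_le]
    constructor <;> linarith
  have h4 := Real.multipliable_one_add_of_summable h1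
  have h5 : (fun n : ℕ => 1 + (fac n - 1)) = fac := by
    funext n
    ring
  rwa [h5] at h4

/-- the product over the bad prime numbers -/
noncomputable def kap : ℝ := ∏' n, fac n

lemma hasProd_fac : HasProd fac kap := multipliable_fac.hasProd

lemma tendsto_fac : Tendsto (fun n : ℕ => ∏ i ∈ range n, fac i) atTop (𝓝 kap) :=
  hasProd_fac.tendsto_prod_nat

lemma prod_anti {m n : ℕ} (h : m ≤ n) : ∏ i ∈ range n, fac i ≤ ∏ i ∈ range m, fac i := by
  induction n, h using Nat.le_induction with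
  | base => exact le_rfl
  | succ n _ ih =>
    rw [prod_range_succ]
    have h1 : 0 ≤ ∏ i ∈ range n, fac i := prod_nonneg fun i _ => (fac_pos i).le
    nlinarith [fac_le n]

lemma prod_ge (z : ℕ) (hz : 1 ≤ z) (n : ℕ) :
    (∏ i ∈ range (z + 1), fac i) * (1 - 1 / (2 * (z : ℝ) * (z + 1))) ≤
      ∏ i ∈ range (z + 1 + n), fac i := by
  have key : ∀ n : ℕ, (∏ i ∈ range (z + 1), fac i) * (1 - ∑ p ∈ Ioc z (z + n), 1 / (p : ℝ) ^ 3) ≤
      ∏ i ∈ range (z + 1 + n), fac i := by
    intro n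
    induction n with
    | zero => simp
    | succ n ih =>
      have h0 : z + 1 + n = z + n + 1 := by ring
      have h00 : z + 1 + (n + 1) = z + n + 1 + 1 := by ring
      rw [← add_assoc z n 1, sum_Ioc_succ_top (by omega), h00, prod_range_succ _ (z + n + 1)]
      rw [h0] at ih
      have h1 : 0 ≤ ∏ i ∈ range (z + n + 1), fac i := prod_nonneg fun i _ => (fac_pos i).le
      have h2 : ∏ i ∈ range (z + n + 1), fac i ≤ ∏ i ∈ range (z + 1), fac i :=
        prod_anti (by omega)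
      have h3 := fac_ge (z + n + 1)
      have h4 : (0 : ℝ) ≤ 1 / (((z + n + 1 : ℕ)) : ℝ) ^ 3 := by positivity
      nlinarith [mul_le_mul_of_nonneg_left h3 h1, mul_le_mul_of_nonneg_right h2 h4]
  refine le_trans ?_ (key n)
  have h1 : 0 ≤ ∏ i ∈ range (z + 1), fac i := prod_nonneg fun i _ => (fac_pos i).le
  refine mul_le_mul_of_nonneg_left ?_ h1
  have := sum_cubes z hz (z + n)
  linarith

lemma prod24 : ∏ i ∈ range 24, fac i =
    (1 - 1 / 2 ^ 3) * (1 - 1 / 3 ^ 3) * (1 - 1 / 5 ^ 3) * (1 - 1 / 11 ^ 3) * (1 - 1 / 17 ^ 3) *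
      (1 - 1 / 23 ^ 3) := by
  have hb : ∀ n : ℕ, BadPrime n → fac n = 1 - 1 / (n : ℝ) ^ 3 := fun n hn => by
    unfold fac
    rw [if_pos hn]
  have hg : ∀ n : ℕ, ¬ BadPrime n → fac n = 1 := fun n hn => by
    unfold fac
    rw [if_neg hn]
  have g0 : fac 0 = 1 := hg _ (by unfold BadPrime; norm_num)
  have g1 : fac 1 = 1 := hg _ (by unfold BadPrime; norm_num)
  have g2 : fac 2 = 1 - 1 / 2 ^ 3 := by rw [hb 2 ⟨by norm_num, by norm_num⟩]; norm_num
  have g3 : fac 3 = 1 - 1 / 3 ^ 3 := by rw [hb 3 ⟨by norm_num, by norm_num⟩]; norm_num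
  have g4 : fac 4 = 1 := hg _ (by unfold BadPrime; norm_num)
  have g5 : fac 5 = 1 - 1 / 5 ^ 3 := by rw [hb 5 ⟨by norm_num, by norm_num⟩]; norm_num
  have g6 : fac 6 = 1 := hg _ (by unfold BadPrime; norm_num)
  have g7 : fac 7 = 1 := hg _ (by unfold BadPrime; norm_num)
  have g8 : fac 8 = 1 := hg _ (by unfold BadPrime; norm_num)
  have g9 : fac 9 = 1 := hg _ (by unfold BadPrime; norm_num)
  have g10 : fac 10 = 1 := hg _ (by unfold BadPrime; norm_num)
  have g11 : fac 11 = 1 - 1 / 11 ^ 3 := by rw [hb 11 ⟨by norm_num, by norm_num⟩]; norm_num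
  have g12 : fac 12 = 1 := hg _ (by unfold BadPrime; norm_num)
  have g13 : fac 13 = 1 := hg _ (by unfold BadPrime; norm_num)
  have g14 : fac 14 = 1 := hg _ (by unfold BadPrime; norm_num)
  have g15 : fac 15 = 1 := hg _ (by unfold BadPrime; norm_num)
  have g16 : fac 16 = 1 := hg _ (by unfold BadPrime; norm_num)
  have g17 : fac 17 = 1 - 1 / 17 ^ 3 := by rw [hb 17 ⟨by norm_num, by norm_num⟩]; norm_num
  have g18 : fac 18 = 1 := hg _ (by unfold BadPrime; norm_num)
  have g19 : fac 19 = 1 := hg _ (by unfold BadPrime; norm_num)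
  have g20 : fac 20 = 1 := hg _ (by unfold BadPrime; norm_num)
  have g21 : fac 21 = 1 := hg _ (by unfold BadPrime; norm_num)
  have g22 : fac 22 = 1 := hg _ (by unfold BadPrime; norm_num)
  have g23 : fac 23 = 1 - 1 / 23 ^ 3 := by rw [hb 23 ⟨by norm_num, by norm_num⟩]; norm_num
  simp only [prod_range_succ, range_zero, prod_empty, g0, g1, g2, g3, g4, g5, g6, g7, g8, g9, g10,
    g11, g12, g13, g14, g15, g16, g17, g18, g19, g20, g21, g22, g23]
  ring

theorem kap_bounds : 0.834 < kap ∧ kap < 0.835 := by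
  constructor
  · have h1 : (∏ i ∈ range 24, fac i) * (1 - 1 / (2 * ((23 : ℕ) : ℝ) * ((23 : ℕ) + 1))) ≤ kap := by
      refine ge_of_tendsto tendsto_fac ?_
      filter_upwards [eventually_ge_atTop 24] with n hn
      obtain ⟨k, rfl⟩ := Nat.exists_eq_add_of_le hn
      exact prod_ge 23 (by norm_num) k
    rw [prod24] at h1
    refine lt_of_lt_of_le ?_ h1
    norm_num
  · have h1 : kap ≤ ∏ i ∈ range 24, fac i := by
      refine le_of_tendsto tendsto_fac ?_
      filter_upwards [eventually_ge_atTop 24] with n hn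
      exact prod_anti hn
    rw [prod24] at h1
    refine lt_of_le_of_lt h1 ?_
    norm_num

/-- the prime numbers `2` modulo `3` up to `z` -/
def bads (z : ℕ) : Finset ℕ := (range (z + 1)).filter fun p => p.Prime ∧ p % 3 = 2

lemma mem_bads {z p : ℕ} : p ∈ bads z ↔ p ≤ z ∧ p.Prime ∧ p % 3 = 2 := by
  rw [bads, mem_filter, mem_range, Nat.lt_succ_iff]

lemma prod_bads {z : ℕ} (hz : 3 ≤ z) : ∏ i ∈ range (z + 1), fac i =
    26 / 27 * ∏ p ∈ bads z, (1 - 1 / (p : ℝ) ^ 3) := by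
  have h3 : 3 ∉ bads z := fun h => by
    have := (mem_bads.1 h).2.2
    omega
  have h1 : insert 3 (bads z) ⊆ range (z + 1) := by
    intro p hp
    rw [mem_insert, mem_bads] at hp
    rw [mem_range]
    omega
  rw [← prod_subset h1 fun p hp hp2 => ?_, prod_insert h3]
  · have h4 : fac 3 = 26 / 27 := by
      unfold fac
      rw [if_pos ⟨by norm_num, by norm_num⟩]
      norm_num
    rw [h4]
    congr 1
    refine prod_congr rfl fun p hp => ?_
    have h5 := mem_bads.1 hp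
    unfold fac
    rw [if_pos ⟨h5.2.1, Or.inr h5.2.2⟩]
  · unfold fac
    rw [if_neg]
    rintro ⟨h5, h6 | h6⟩
    · exact hp2 (mem_insert.2 (Or.inl h6))
    · exact hp2 (mem_insert.2 (Or.inr (mem_bads.2 ⟨by have := mem_range.1 hp; omega, h5, h6⟩)))

/-- the triples which occur -/
def Occ (t : ℕ × ℕ × ℕ) : Prop := 4 ≤ t.1 ∧ Mod3 t

/-- no obstruction -/
def NoObs (t : ℕ × ℕ × ℕ) : Prop := Fine3 t ∧ ∀ p : ℕ, p.Prime → p % 3 = 2 → ¬ DivAll p t

lemma card_small (D : ℕ) (s : Finset (ℕ × ℕ × ℕ)) (hs : ∀ t ∈ s, t ∈ tri D ∧ t.1 < 4) :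
    (s.card : ℝ) ≤ 16 * ((D + 1 : ℕ) : ℝ) := by
  have h1 : s ⊆ range 4 ×ˢ range 4 ×ˢ range (D + 1) := by
    rintro ⟨A, B, C⟩ ht
    obtain ⟨h1, h2⟩ := hs _ ht
    rw [mem_tri] at h1
    simp only at h1 h2
    simp only [mem_product, mem_range]
    omega
  have h2 := card_le_card h1
  rw [card_product, card_product, card_range, card_range] at h2
  have h3 : s.card ≤ 16 * (D + 1) := by linarith
  exact_mod_cast h3

lemma tendsto_small : Tendsto (fun D : ℕ => 16 * ((D + 1 : ℕ) : ℝ) / (D : ℝ) ^ 3) atTop (𝓝 0) := by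
  have h1 : Tendsto (fun D : ℕ => ((D : ℝ))⁻¹) atTop (𝓝 0) :=
    tendsto_inv_atTop_zero.comp tendsto_natCast_atTop_atTop
  have h2 := ((tendsto_ratio 1 0).mul (h1.mul h1)).const_mul 16
  rw [mul_zero, mul_zero, mul_zero] at h2
  refine h2.congr' ?_
  filter_upwards [eventually_gt_atTop 0] with D hD
  have : (D : ℝ) ≠ 0 := by positivity
  simp only [add_zero]
  field_simp

open Classical in
theorem lim_occ : Tendsto (fun D : ℕ => (((tri D).filter Occ).card : ℝ) / (D : ℝ) ^ 3) atTop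
    (𝓝 (5 / 162)) := by
  have h1 := lim_cls V9
  rw [card_V9] at h1
  have h2 : (((135 : ℕ) : ℝ) / ((9 : ℕ) : ℝ) ^ 3 / 6) = 5 / 162 := by norm_num
  rw [h2] at h1
  have h3 := h1.sub tendsto_small
  rw [sub_zero] at h3
  refine tendsto_of_tendsto_of_tendsto_of_le_of_le' h3 h1 ?_ ?_
  · filter_upwards [eventually_gt_atTop 0] with D hD
    have h4 : (0 : ℝ) < (D : ℝ) ^ 3 := by positivity
    rw [← sub_div, div_le_div_iff_of_pos_right h4, sub_le_iff_le_add]
    have h5 : (tri D).filter (fun t => cls 9 t ∈ V9) ⊆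
        (tri D).filter Occ ∪ (tri D).filter fun t => t.1 < 4 := by
      intro t ht
      obtain ⟨h5, h6⟩ := mem_filter.1 ht
      by_cases h7 : t.1 < 4
      · exact mem_union_right _ (mem_filter.2 ⟨h5, h7⟩)
      · exact mem_union_left _ (mem_filter.2 ⟨h5, by omega, mem_V9.1 h6⟩)
    have h6 : (((tri D).filter (fun t => cls 9 t ∈ V9)).card : ℝ) ≤
        ((tri D).filter Occ).card + ((tri D).filter fun t => t.1 < 4).card := by
      exact_mod_cast (card_le_card h5).trans (card_union_le _ _)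
    have h7 := card_small D ((tri D).filter fun t => t.1 < 4) fun t ht => mem_filter.1 ht
    linarith
  · filter_upwards [eventually_gt_atTop 0] with D hD
    have h4 : (0 : ℝ) < (D : ℝ) ^ 3 := by positivity
    rw [div_le_div_iff_of_pos_right h4]
    have h5 : (tri D).filter Occ ⊆ (tri D).filter (fun t => cls 9 t ∈ V9) := fun t ht => by
      obtain ⟨h5, h6⟩ := mem_filter.1 ht
      exact mem_filter.2 ⟨h5, mem_V9.2 h6.2⟩
    exact_mod_cast card_le_card h5

open Classical in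
theorem lim_noObs : Tendsto (fun D : ℕ => (((tri D).filter fun t => Occ t ∧ NoObs t).card : ℝ) /
    (D : ℝ) ^ 3) atTop (𝓝 (5 / 162 * kap)) := by
  have hz : Tendsto (fun z : ℕ => (((130 : ℕ) : ℝ) / ((9 : ℕ) : ℝ) ^ 3 / 6) *
      ∏ p ∈ bads z, (1 - 1 / (p : ℝ) ^ 3)) atTop (𝓝 (5 / 162 * kap)) := by
    have h1 := ((tendsto_add_atTop_iff_nat 1).2 tendsto_fac).const_mul (5 / 162 : ℝ)
    refine h1.congr' ?_
    filter_upwards [eventually_ge_atTop 3] with z hz
    rw [prod_bads hz]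
    norm_num
    ring
  rw [Metric.tendsto_atTop]
  intro ε hε
  have hz2 : Tendsto (fun z : ℕ => 1 / (z : ℝ)) atTop (𝓝 0) := tendsto_one_div_atTop_nhds_zero_nat
  obtain ⟨z, hz1, hz3, hz4⟩ := ((Metric.tendsto_nhds.1 hz (ε / 4) (by linarith)).and
    ((Metric.tendsto_nhds.1 hz2 (ε / 4) (by linarith)).and (eventually_ge_atTop 1))).exists
  have hlim := lim_set (bads z) 9 G9 fun p hp => by
    obtain ⟨-, h1, h2⟩ := mem_bads.1 hp
    refine ⟨h1, ?_⟩
    have h3 : Nat.Coprime 3 p := (Nat.coprime_primes Nat.prime_three h1).2 (by omega)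
    exact Nat.Coprime.pow_left 2 h3
  rw [card_G9] at hlim
  obtain ⟨N, hN⟩ := eventually_atTop.1 ((Metric.tendsto_nhds.1 hlim (ε / 4) (by linarith)).and
    ((Metric.tendsto_nhds.1 tendsto_small (ε / 4) (by linarith)).and (eventually_ge_atTop 1)))
  refine ⟨N, fun D hD => ?_⟩
  obtain ⟨h1, h2, h3⟩ := hN D hD
  have h4 : (0 : ℝ) < (D : ℝ) ^ 3 := by
    have : (0 : ℝ) < D := by exact_mod_cast h3
    positivity
  -- the two inclusions
  have i1 : ((tri D).filter fun t => Occ t ∧ NoObs t) ⊆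
      (tri D).filter fun t => cls 9 t ∈ G9 ∧ ∀ p ∈ bads z, cls p t ≠ 0 := by
    intro t ht
    obtain ⟨h5, h6, h7, h8⟩ := mem_filter.1 ht
    refine mem_filter.2 ⟨h5, mem_G9.2 ⟨h6.2, h7⟩, fun p hp hc => ?_⟩
    obtain ⟨-, h9, h10⟩ := mem_bads.1 hp
    exact h8 p h9 h10 (cls_zero.1 hc)
  have i2 : ((tri D).filter fun t => cls 9 t ∈ G9 ∧ ∀ p ∈ bads z, cls p t ≠ 0) ⊆
      ((tri D).filter fun t => Occ t ∧ NoObs t) ∪ (((tri D).filter fun t => t.1 < 4) ∪
        ((tri D).filter fun t => 4 ≤ t.1 ∧ ∃ p, z < p ∧ DivAll p t)) := by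
    intro t ht
    obtain ⟨h5, h6, h7⟩ := mem_filter.1 ht
    obtain ⟨h8, h9⟩ := mem_G9.1 h6
    by_cases h10 : t.1 < 4
    · exact mem_union_right _ (mem_union_left _ (mem_filter.2 ⟨h5, h10⟩))
    · by_cases h11 : ∃ p, z < p ∧ DivAll p t
      · exact mem_union_right _ (mem_union_right _ (mem_filter.2 ⟨h5, by omega, h11⟩))
      · push Not at h11
        refine mem_union_left _ (mem_filter.2 ⟨h5, ⟨by omega, h8⟩, h9, fun p hp hp2 hd => ?_⟩)
        by_cases h12 : p ≤ z
        · exact h7 p (mem_bads.2 ⟨h12, hp, hp2⟩) (cls_zero.2 hd)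
        · exact h11 p (by omega) hd
  have j1 : (((tri D).filter fun t => Occ t ∧ NoObs t).card : ℝ) / (D : ℝ) ^ 3 ≤
      (((tri D).filter fun t => cls 9 t ∈ G9 ∧ ∀ p ∈ bads z, cls p t ≠ 0).card : ℝ) /
        (D : ℝ) ^ 3 := by
    rw [div_le_div_iff_of_pos_right h4]
    exact_mod_cast card_le_card i1
  have j2 : (((tri D).filter fun t => cls 9 t ∈ G9 ∧ ∀ p ∈ bads z, cls p t ≠ 0).card : ℝ) /
        (D : ℝ) ^ 3 ≤ (((tri D).filter fun t => Occ t ∧ NoObs t).card : ℝ) / (D : ℝ) ^ 3 +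
          16 * ((D + 1 : ℕ) : ℝ) / (D : ℝ) ^ 3 + 1 / z := by
    have k1 : (((tri D).filter fun t => cls 9 t ∈ G9 ∧ ∀ p ∈ bads z, cls p t ≠ 0).card : ℝ) ≤
        ((tri D).filter fun t => Occ t ∧ NoObs t).card + (((tri D).filter fun t => t.1 < 4).card +
          ((tri D).filter fun t => 4 ≤ t.1 ∧ ∃ p, z < p ∧ DivAll p t).card) := by
      exact_mod_cast (card_le_card i2).trans ((card_union_le _ _).trans
        (Nat.add_le_add_left (card_union_le _ _) _))
    have k2 := card_small D ((tri D).filter fun t => t.1 < 4) fun t ht => mem_filter.1 ht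
    have k3 := tail z hz4 D
    have k4 : (1 : ℝ) / z = (D : ℝ) ^ 3 * (1 / z) / (D : ℝ) ^ 3 := by
      field_simp
    rw [k4, ← add_div, ← add_div, div_le_div_iff_of_pos_right h4]
    linarith
  rw [Real.dist_eq, abs_lt] at h1 h2 hz1 hz3 ⊢
  constructor <;> linarith [h1.1, h1.2, h2.1, h2.2, hz1.1, hz1.2, hz3.1, hz3.2]

open Classical in
/-- the proportion of the triples without an obstruction -/
theorem lim_ratio : Tendsto (fun D : ℕ => (((tri D).filter fun t => Occ t ∧ NoObs t).card : ℝ) /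
    ((tri D).filter Occ).card) atTop (𝓝 kap) := by
  have h1 := lim_noObs.div lim_occ (by norm_num)
  have h2 : (5 / 162 * kap) / (5 / 162) = kap := by
    field_simp
  rw [h2] at h1
  refine h1.congr' ?_
  filter_upwards [eventually_gt_atTop 0] with D hD
  have : (D : ℝ) ^ 3 ≠ 0 := by positivity
  simp only [Pi.div_apply]
  rw [div_div_div_cancel_right₀ this]

end Pool.Agent.H574.CF.Dens
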