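import Pool.Agent.H574.CF.Close
import Pool.Agent.H574.CF.Dens3

/-!
# The reduced form of a group of rank three
-/

set_option autoImplicit false

namespace Pool.Agent.H574.CF

open Pool.Agent.Q63.CF Pool.Agent.Y95.Q Module Dens

/-- `t = (A, B, C)` is the reduced form of `M`: `0 ≤ B ≤ A ≤ C`, and `M` is spanned by `h` and two
vectors `v`, `w` such that the discriminant of `y v + z w` is `2 (A y² + B y z + C z²)`. -/
def HasForm (M : Submodule ℤ L) (t : ℕ × ℕ × ℕ) : Prop :=
  t.2.1 ≤ t.1 ∧ t.1 ≤ t.2.2 ∧ ∃ v w : L, M = Submodule.span ℤ {h, v, w} ∧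
    ∀ y z : ℤ, disc (y • v + z • w) = 2 * (t.1 * y ^ 2 + t.2.1 * (y * z) + t.2.2 * z ^ 2)

/-- the mixed term of the discriminant -/
def mix (v w : L) : ℤ := 3 * ip v w - ip h v * ip h w

lemma ip_h_comb (x : ℤ) (v : L) : ip h (x • h + v) = 3 * x + ip h v := by
  rw [ip_add_right, ip_smul_right, ip_h_h]
  ring

lemma disc_add (v w : L) : disc (v + w) = disc v + 2 * mix v w + disc w := by
  unfold disc mix
  rw [ip_add_right, ip_add_left, ip_add_left, ip_add_right, ip_comm w v]
  ring

lemma disc_smul (y : ℤ) (v : L) : disc (y • v) = y ^ 2 * disc v := by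
  unfold disc
  rw [ip_smul_right, ip_smul_left, ip_smul_right]
  ring

lemma mix_smul (y z : ℤ) (v w : L) : mix (y • v) (z • w) = y * z * mix v w := by
  unfold mix
  rw [ip_smul_right, ip_smul_left, ip_smul_right, ip_smul_right]
  ring

lemma mix_comm (v w : L) : mix v w = mix w v := by
  unfold mix
  rw [ip_comm v w]
  ring

lemma disc_h : disc h = 0 := by
  unfold disc
  rw [ip_h_h]
  norm_num

lemma mix_h (v : L) : mix h v = 0 := by
  unfold mix
  rw [ip_h_h]
  ring

lemma disc_comb (y z : ℤ) (v w : L) :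
    disc (y • v + z • w) = disc v * y ^ 2 + 2 * mix v w * (y * z) + disc w * z ^ 2 := by
  rw [disc_add, disc_smul, disc_smul, mix_smul]
  ring

lemma disc_hcomb (x : ℤ) (v : L) : disc (x • h + v) = disc v := by
  have h1 : mix (x • h) v = 0 := by
    have := mix_smul x 1 h v
    rw [one_smul, mix_h] at this
    rw [this]
    ring
  rw [disc_add, disc_smul, disc_h, h1]
  ring

lemma disc_even (v : L) : ∃ k, disc v = 2 * k := by
  obtain ⟨r, hr⟩ := ip_h_char v
  rw [ip_comm v h] at hr
  have h1 : (3 * ip v v - ip h v ^ 2) % 2 = 0 := by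
    have h2 : ip v v = ip h v + (r + r) := by linarith
    rw [h2]
    obtain ⟨s, hs⟩ := Int.even_mul_succ_self (ip h v)
    obtain ⟨s', hs'⟩ := Int.even_mul_pred_self (ip h v)
    have h3 : 3 * (ip h v + (r + r)) - ip h v ^ 2 =
      2 * (ip h v + 3 * r) - ip h v * (ip h v - 1) := by ring
    rw [h3, hs']
    omega
  exact ⟨disc v / 2, by unfold disc; omega⟩

/-- the discriminants of the vectors of a good group -/
lemma disc_ge {M : Submodule ℤ L} (hM : IsGood M) {v : L} (hv : v ∈ M) :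
    8 ≤ disc v ∨ ∃ k : ℤ, v = k • h := by
  obtain ⟨k, hk⟩ : ∃ k : ℤ, (ip h v - 3 * k) ^ 2 ≤ 1 := by
    have h1 : ip h v % 3 = 0 ∨ ip h v % 3 = 1 ∨ ip h v % 3 = 2 := by omega
    rcases h1 with h1 | h1 | h1
    · exact ⟨ip h v / 3, by
        have : ip h v - 3 * (ip h v / 3) = 0 := by omega
        rw [this]; norm_num⟩
    · exact ⟨ip h v / 3, by
        have : ip h v - 3 * (ip h v / 3) = 1 := by omega
        rw [this]; norm_num⟩
    · exact ⟨ip h v / 3 + 1, by
        have : ip h v - 3 * (ip h v / 3 + 1) = -1 := by omega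
        rw [this]; norm_num⟩
  have h1 : disc v = disc ((-k) • h + v) := (disc_hcomb _ _).symm
  by_cases h0 : (-k) • h + v = 0
  · right
    refine ⟨k, ?_⟩
    have : v = -((-k) • h) := by
      rw [eq_neg_iff_add_eq_zero, add_comm]
      exact h0
    rw [this, neg_smul, neg_neg]
  · left
    have h2 := hM.pos _ (M.add_mem (M.smul_mem (-k) hM.mem) hv) h0
    rw [h1]
    unfold disc
    rw [ip_h_comb]
    have : (3 * -k + ip h v) ^ 2 = (ip h v - 3 * k) ^ 2 := by ring
    rw [this]
    linarith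

lemma disc_nonneg {M : Submodule ℤ L} (hM : IsGood M) {v : L} (hv : v ∈ M) : 0 ≤ disc v := by
  rcases disc_ge hM hv with h1 | ⟨k, rfl⟩
  · linarith
  · rw [disc_smul, disc_h]
    simp

/-- the coordinate -/
def co : L →ₗ[ℤ] ℤ where
  toFun v := (toL0 v).1 0
  map_add' v w := by simp
  map_smul' n v := by simp

lemma co_h : co h = 1 := by
  show (toL0 h).1 0 = 1
  rw [toL0_h]

/-- a group of rank three has a basis with `h` -/
lemma exists_span {M : Submodule ℤ L} (hM : h ∈ M) (hr : finrank ℤ M = 3) :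
    ∃ v w : L, M = Submodule.span ℤ {h, v, w} := by
  let K : Submodule ℤ L := M ⊓ LinearMap.ker co
  let φ : (ℤ × K) →ₗ[ℤ] M :=
    { toFun := fun x => ⟨x.1 • h + x.2, M.add_mem (M.smul_mem _ hM) x.2.2.1⟩
      map_add' := fun x y => Subtype.ext (by
        show (x.1 + y.1) • h + ((x.2 : L) + (y.2 : L)) = (x.1 • h + x.2) + (y.1 • h + y.2)
        rw [add_smul]
        abel)
      map_smul' := fun n x => Subtype.ext (by
        show (n * x.1) • h + n • (x.2 : L) = n • (x.1 • h + (x.2 : L))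
        rw [smul_add, mul_smul]) }
  have hφ : Function.Bijective φ := by
    constructor
    · intro x y hxy
      have h1 : x.1 • h + (x.2 : L) = y.1 • h + (y.2 : L) := congrArg Subtype.val hxy
      have h2 := congrArg co h1
      have hx : co (x.2 : L) = 0 := x.2.2.2
      have hy : co (y.2 : L) = 0 := y.2.2.2
      rw [map_add, map_add, map_smul, map_smul, co_h, hx, hy] at h2
      have h3 : x.1 = y.1 := by simpa using h2
      rw [h3] at h1
      exact Prod.ext h3 (Subtype.ext (add_left_cancel h1))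
    · rintro ⟨v, hv⟩
      refine ⟨(co v, ⟨v - co v • h, M.sub_mem hv (M.smul_mem _ hM), ?_⟩), Subtype.ext ?_⟩
      · show co (v - co v • h) = 0
        rw [map_sub, map_smul, co_h]
        simp
      · show co v • h + (v - co v • h) = v
        abel
  have h1 : finrank ℤ (ℤ × K) = 3 := by
    rw [← hr]
    exact LinearEquiv.finrank_eq (LinearEquiv.ofBijective φ hφ)
  have h2 : finrank ℤ K = 2 := by
    rw [finrank_prod, finrank_self] at h1
    omega
  let b := finBasisOfFinrankEq ℤ K h2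
  refine ⟨b 0, b 1, le_antisymm ?_ ?_⟩
  · intro v hv
    obtain ⟨⟨n, k⟩, hk⟩ := hφ.2 ⟨v, hv⟩
    have h3 : n • h + (k : L) = v := congrArg Subtype.val hk
    have h4 := b.sum_repr k
    rw [Fin.sum_univ_two] at h4
    have h5 : b.repr k 0 • (b 0 : L) + b.repr k 1 • (b 1 : L) = k := by
      have := congrArg Subtype.val h4
      simpa using this
    rw [← h3, ← h5, Submodule.mem_span_insert]
    exact ⟨n, _, Submodule.mem_span_pair.2 ⟨_, _, rfl⟩, rfl⟩
  · rw [Submodule.span_le]
    rintro x (rfl | rfl | rfl)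
    · exact hM
    · exact (b 0).2.1
    · exact (b 1).2.1

lemma mem_span3 {v w u : L} :
    u ∈ Submodule.span ℤ {h, v, w} ↔ ∃ x y z : ℤ, u = x • h + (y • v + z • w) := by
  rw [Submodule.mem_span_insert]
  constructor
  · rintro ⟨a, z, hz, rfl⟩
    obtain ⟨b, c, rfl⟩ := Submodule.mem_span_pair.1 hz
    exact ⟨a, b, c, rfl⟩
  · rintro ⟨x, y, z, rfl⟩
    exact ⟨x, _, Submodule.mem_span_pair.2 ⟨y, z, rfl⟩, rfl⟩

/-! ### change of the two vectors -/

lemma span_swap (v w : L) : Submodule.span ℤ {h, w, v} = Submodule.span ℤ {h, v, w} := by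
  ext u
  rw [mem_span3, mem_span3]
  constructor
  · rintro ⟨x, y, z, rfl⟩
    exact ⟨x, z, y, by rw [add_comm (y • w)]⟩
  · rintro ⟨x, y, z, rfl⟩
    exact ⟨x, z, y, by rw [add_comm (z • w)]⟩

lemma span_neg (v w : L) : Submodule.span ℤ {h, v, -w} = Submodule.span ℤ {h, v, w} := by
  ext u
  rw [mem_span3, mem_span3]
  constructor
  · rintro ⟨x, y, z, rfl⟩
    exact ⟨x, y, -z, by rw [smul_neg, neg_smul]⟩
  · rintro ⟨x, y, z, rfl⟩
    exact ⟨x, y, -z, by rw [smul_neg, neg_smul, neg_neg]⟩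

lemma span_add (v w : L) (k : ℤ) :
    Submodule.span ℤ {h, v, k • v + w} = Submodule.span ℤ {h, v, w} := by
  ext u
  rw [mem_span3, mem_span3]
  constructor
  · rintro ⟨x, y, z, rfl⟩
    exact ⟨x, y + z * k, z, by rw [smul_add, add_smul, mul_smul]; abel⟩
  · rintro ⟨x, y, z, rfl⟩
    exact ⟨x, y - z * k, z, by rw [smul_add, sub_smul, mul_smul]; abel⟩

lemma not_h {M : Submodule ℤ L} (hr : finrank ℤ M = 3) {v w : L}
    (hM : M = Submodule.span ℤ {h, v, w}) (k : ℤ) : v ≠ k • h := by
  classical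
  rintro rfl
  have h1 : M = Submodule.span ℤ (({h, w} : Finset L) : Set L) := by
    rw [hM]
    ext u
    rw [mem_span3, Finset.coe_pair, Submodule.mem_span_pair]
    constructor
    · rintro ⟨x, y, z, rfl⟩
      exact ⟨x + y * k, z, by rw [add_smul, mul_smul]; abel⟩
    · rintro ⟨x, z, rfl⟩
      exact ⟨x, 0, z, by simp⟩
  have h2 : finrank ℤ (Submodule.span ℤ (({h, w} : Finset L) : Set L)) ≤
      ({h, w} : Finset L).card := finrank_span_finset_le_card _
  rw [← h1, hr] at h2
  have := Finset.card_le_two (a := h) (b := w)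
  omega

lemma form_of {M : Submodule ℤ L} {v w : L} (hspan : M = Submodule.span ℤ {h, v, w})
    (h0 : 0 ≤ disc v) (hb : 0 ≤ mix v w) (hb1 : 2 * mix v w ≤ disc v)
    (hle : disc v ≤ disc w) : ∃ t, HasForm M t := by
  obtain ⟨a, ha⟩ := disc_even v
  obtain ⟨c, hc⟩ := disc_even w
  refine ⟨(a.toNat, (mix v w).toNat, c.toNat), ?_, ?_, v, w, hspan, fun y z => ?_⟩
  · show (mix v w).toNat ≤ a.toNat
    omega
  · show a.toNat ≤ c.toNat
    omega
  · show _ = 2 * ((a.toNat : ℤ) * y ^ 2 + ((mix v w).toNat : ℤ) * (y * z) + (c.toNat : ℤ) * z ^ 2)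
    rw [disc_comb, Int.toNat_of_nonneg hb, Int.toNat_of_nonneg (by omega : 0 ≤ a),
      Int.toNat_of_nonneg (by omega : 0 ≤ c), ha, hc]
    ring

/-- the reduced form exists -/
theorem exists_form {M : Submodule ℤ L} (hM : IsGood M) (hr : finrank ℤ M = 3) :
    ∃ t, HasForm M t := by
  let S : Set (L × L) := {p | M = Submodule.span ℤ {h, p.1, p.2}}
  have hne : S.Nonempty := by
    obtain ⟨v, w, hvw⟩ := exists_span hM.mem hr
    exact ⟨(v, w), hvw⟩
  let f : L × L → ℕ := fun p => (disc p.1).toNat + (disc p.2).toNat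
  obtain ⟨⟨v, w⟩, hp, hmin⟩ := WellFounded.has_min (measure f).wf S hne
  have hmem : ∀ p ∈ S, p.1 ∈ M ∧ p.2 ∈ M := by
    intro p hp
    have hp' : M = Submodule.span ℤ {h, p.1, p.2} := hp
    constructor
    · rw [hp']
      exact Submodule.subset_span (by simp)
    · rw [hp']
      exact Submodule.subset_span (by simp)
  have hpos : ∀ p ∈ S, 0 ≤ disc p.1 ∧ 0 ≤ disc p.2 := fun p hp =>
    ⟨disc_nonneg hM (hmem p hp).1, disc_nonneg hM (hmem p hp).2⟩
  have hmin' : ∀ p ∈ S, disc v + disc w ≤ disc p.1 + disc p.2 := by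
    intro p hp2
    have h1 : ¬ f p < f (v, w) := hmin p hp2
    have h2 := hpos p hp2
    have h3 := hpos _ hp
    simp only [f] at h1 h3
    omega
  have hvw : M = Submodule.span ℤ {h, v, w} := hp
  have g0 := hpos _ hp
  simp only at g0
  have k1 : ∀ k : ℤ, disc v + disc w ≤ disc v + disc (k • v + w) := fun k =>
    hmin' (v, k • v + w) (by
      show M = _
      rw [span_add, hvw])
  have k2 : ∀ k : ℤ, disc v + disc w ≤ disc (k • w + v) + disc w := fun k =>
    hmin' (k • w + v, w) (by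
      show M = _
      rw [span_swap, span_add, span_swap, hvw])
  have e1 : ∀ k : ℤ, disc (k • v + w) = disc v * k ^ 2 + 2 * mix v w * k + disc w := fun k => by
    have := disc_comb k 1 v w
    rw [one_smul] at this
    rw [this]
    ring
  have e2 : ∀ k : ℤ, disc (k • w + v) = disc w * k ^ 2 + 2 * mix v w * k + disc v := fun k => by
    have := disc_comb k 1 w v
    rw [one_smul, mix_comm w v] at this
    rw [this]
    ring
  have a1 := k1 1
  have a2 := k1 (-1)
  have a3 := k2 1
  have a4 := k2 (-1)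
  rw [e1] at a1 a2
  rw [e2] at a3 a4
  have m1 : mix v (-w) = - mix v w := by
    have := mix_smul 1 (-1) v w
    rw [one_smul, neg_smul, one_smul] at this
    rw [this]; ring
  have m2 : mix w (-v) = - mix v w := by
    have := mix_smul 1 (-1) w v
    rw [one_smul, neg_smul, one_smul, mix_comm w v] at this
    rw [this]; ring
  have d1 : disc (-w) = disc w := by
    have := disc_smul (-1) w
    rw [neg_smul, one_smul] at this
    rw [this]; ring
  have d2 : disc (-v) = disc v := by
    have := disc_smul (-1) v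
    rw [neg_smul, one_smul] at this
    rw [this]; ring
  rcases le_total (disc v) (disc w) with hle | hle
  · rcases le_total 0 (mix v w) with hb | hb
    · exact form_of hvw g0.1 hb (by linarith) hle
    · exact form_of (v := v) (w := -w) (by rw [span_neg, hvw]) g0.1 (by linarith) (by linarith)
        (by rw [d1]; exact hle)
  · rcases le_total 0 (mix v w) with hb | hb
    · exact form_of (v := w) (w := v) (by rw [span_swap, hvw]) g0.2 (by rw [mix_comm]; exact hb)
        (by rw [mix_comm]; linarith) hle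
    · exact form_of (v := w) (w := -v) (by rw [span_neg, span_swap, hvw]) g0.2 (by linarith)
        (by linarith) (by rw [d2]; exact hle)

/-! ### reduced forms -/

lemma qmin {A B C y z : ℤ} (hB : 0 ≤ B) (hBA : B ≤ A) (hAC : A ≤ C) (hz : z ≠ 0) :
    C ≤ A * y ^ 2 + B * (y * z) + C * z ^ 2 := by
  have hz1 : 1 ≤ |z| := Int.one_le_abs hz
  have hy0 : 0 ≤ |y| := abs_nonneg y
  have h1 : -(|y| * |z|) ≤ y * z := by
    rw [← abs_mul]
    exact neg_abs_le _
  have h2 : -(A * (|y| * |z|)) ≤ B * (y * z) := by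
    have h3 : -(B * (|y| * |z|)) ≤ B * (y * z) := by nlinarith
    have h4 : B * (|y| * |z|) ≤ A * (|y| * |z|) :=
      mul_le_mul_of_nonneg_right hBA (by positivity)
    linarith
  have hy2 : y ^ 2 = |y| ^ 2 := (sq_abs y).symm
  have hz2 : z ^ 2 = |z| ^ 2 := (sq_abs z).symm
  rw [hy2, hz2]
  rcases le_or_gt |z| |y| with hc | hc
  · have h5 : 0 ≤ A * (|y| * (|y| - |z|)) :=
      mul_nonneg (by linarith) (mul_nonneg hy0 (by linarith))
    have h6 : C * 1 ≤ C * |z| ^ 2 := mul_le_mul_of_nonneg_left (by nlinarith) (by linarith)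
    nlinarith
  · have h5 : A * (|y| * (|z| - |y|)) ≤ C * (|y| * (|z| - |y|)) :=
      mul_le_mul_of_nonneg_right hAC (mul_nonneg hy0 (by linarith))
    have h6 : 1 ≤ |z| ^ 2 - |y| * (|z| - |y|) := by nlinarith
    have h7 : C * 1 ≤ C * (|z| ^ 2 - |y| * (|z| - |y|)) :=
      mul_le_mul_of_nonneg_left h6 (by linarith)
    nlinarith

lemma qmin' {A B C y z : ℤ} (hB : 0 ≤ B) (hBA : B ≤ A) (hAC : A ≤ C) (hyz : y ≠ 0 ∨ z ≠ 0) :
    A ≤ A * y ^ 2 + B * (y * z) + C * z ^ 2 := by
  by_cases hz : z = 0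
  · subst hz
    have hy : y ≠ 0 := by simpa using hyz
    have h1 : 1 ≤ y ^ 2 := by
      have : 0 < y ^ 2 := by positivity
      omega
    nlinarith
  · exact hAC.trans (qmin hB hBA hAC hz)

/-- equivalent reduced forms are equal -/
lemma red_le {A B C A' C' α β γ δ : ℤ} (hB : 0 ≤ B) (hBA : B ≤ A) (hAC : A ≤ C)
    (hAC' : A' ≤ C') (h1 : A' = A * α ^ 2 + B * (α * β) + C * β ^ 2)
    (h2 : C' = A * γ ^ 2 + B * (γ * δ) + C * δ ^ 2)
    (hdet : α * δ - β * γ ≠ 0) : A ≤ A' ∧ C ≤ C' := by
  constructor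
  · rw [h1]
    refine qmin' hB hBA hAC ?_
    by_contra hcon
    push Not at hcon
    obtain ⟨rfl, rfl⟩ := hcon
    simp at hdet
  · by_cases hδ : δ = 0
    · subst hδ
      have hβ : β ≠ 0 := by
        rintro rfl
        simp at hdet
      have := qmin (y := α) hB hBA hAC hβ
      linarith
    · rw [h2]
      exact qmin hB hBA hAC hδ

end Pool.Agent.H574.CF
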