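import Pool.Agent.H574.CF.Univ

/-!
# The saturation of a subgroup, and loci of codimension two
-/

set_option autoImplicit false

namespace Pool.Agent.H574.CF

open Pool.Agent.Q63.CF Pool.Agent.Y95.Q Matrix Module

/-- the saturation -/
def satu (S : Submodule ℤ L) : Submodule ℤ L where
  carrier := {v | ∃ n : ℤ, n ≠ 0 ∧ n • v ∈ S}
  zero_mem' := ⟨1, one_ne_zero, by simp⟩
  add_mem' := by
    rintro v w ⟨n, hn, hv⟩ ⟨m, hm, hw⟩
    refine ⟨n * m, mul_ne_zero hn hm, ?_⟩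
    have : (n * m) • (v + w) = m • (n • v) + n • (m • w) := by
      rw [smul_add, smul_smul, smul_smul, mul_comm m n]
    rw [this]
    exact S.add_mem (S.smul_mem _ hv) (S.smul_mem _ hw)
  smul_mem' := by
    rintro c v ⟨n, hn, hv⟩
    refine ⟨n, hn, ?_⟩
    rw [smul_comm]
    exact S.smul_mem _ hv

lemma le_satu (S : Submodule ℤ L) : S ≤ satu S := fun v hv => ⟨1, one_ne_zero, by simpa using hv⟩

lemma sat_satu (S : Submodule ℤ L) : Saturated (satu S) := by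
  rintro n v hn ⟨m, hm, hv⟩
  exact ⟨m * n, mul_ne_zero hm hn, by rwa [mul_smul]⟩

lemma satu_le {S A : Submodule ℤ L} (hA : Saturated A) (h : S ≤ A) : satu S ≤ A := by
  rintro v ⟨n, hn, hv⟩
  exact hA n v hn (h hv)

instance : Module.Finite ℤ L := Module.Finite.equiv eL.symm

instance : Module.Free ℤ L := Module.Free.of_equiv eL.symm

instance : IsNoetherian ℤ L := isNoetherian_of_isNoetherianRing_of_finite ℤ L

lemma exists_mul (S : Submodule ℤ L) : ∃ N : ℤ, N ≠ 0 ∧ ∀ v ∈ satu S, N • v ∈ S := by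
  obtain ⟨T, hT⟩ := IsNoetherian.noetherian (satu S)
  have h1 : ∀ t : T, ∃ n : ℤ, n ≠ 0 ∧ n • (t : L) ∈ S := fun t => by
    have h2 : (t : L) ∈ Submodule.span ℤ (T : Set L) := Submodule.subset_span t.2
    rw [hT] at h2
    exact h2
  choose f hf0 hf using h1
  refine ⟨∏ t : T, f t, Finset.prod_ne_zero_iff.2 fun t _ => hf0 t, fun v hv => ?_⟩
  rw [← hT] at hv
  induction hv using Submodule.span_induction with
  | mem x hx =>
    obtain ⟨k, hk⟩ := Finset.dvd_prod_of_mem f (Finset.mem_univ (⟨x, hx⟩ : T))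
    rw [hk, mul_comm, mul_smul]
    exact S.smul_mem _ (hf ⟨x, hx⟩)
  | zero => simp
  | add x y _ _ hx hy =>
    rw [smul_add]
    exact S.add_mem hx hy
  | smul a x _ hx =>
    rw [smul_comm]
    exact S.smul_mem _ hx

lemma finrank_satu (S : Submodule ℤ L) : finrank ℤ (satu S) ≤ finrank ℤ S := by
  obtain ⟨N, hN, hS⟩ := exists_mul S
  let f : satu S →ₗ[ℤ] S :=
    { toFun := fun v => ⟨N • (v : L), hS v v.2⟩
      map_add' := fun v w => Subtype.ext (smul_add _ _ _)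
      map_smul' := fun c v => Subtype.ext (smul_comm _ _ _) }
  refine LinearMap.finrank_le_finrank_of_injective (f := f) fun v w hvw => ?_
  have h1 : N • (v : L) = N • (w : L) := congrArg Subtype.val hvw
  exact Subtype.ext (smul_right_injective _ hN h1)

/-- the member may be chosen such that the group has rank at most `n + 1` -/
theorem exists_small {A : Submodule ℤ L} (hA : IsGood A) {D : Finset ℤ} (hD : ∀ d ∈ D, In A d) :
    ∃ B : Submodule ℤ L, B ≤ A ∧ IsGood B ∧ finrank ℤ B ≤ D.card + 1 ∧ ∀ d ∈ D, In B d := by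
  classical
  have h1 : ∀ d : D, ∃ v ∈ A, Saturated (Submodule.span ℤ {h, v}) ∧ disc v = d :=
    fun d => hD d d.2
  choose v hv hs hd using h1
  let T : Finset L := insert h (Finset.univ.image v)
  have hT : (Submodule.span ℤ (T : Set L)) ≤ A := by
    rw [Submodule.span_le]
    intro x hx
    rcases Finset.mem_insert.1 hx with rfl | hx
    · exact hA.mem
    · obtain ⟨d, -, rfl⟩ := Finset.mem_image.1 hx
      exact hv d
  have hB := satu_le hA.sat hT
  refine ⟨satu (Submodule.span ℤ (T : Set L)), hB, ⟨?_, sat_satu _, fun w hw => hA.pos w (hB hw)⟩,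
    ?_, fun d hd' => ?_⟩
  · exact le_satu _ (Submodule.subset_span (Finset.mem_insert_self _ _))
  · refine (finrank_satu _).trans ((finrank_span_finset_le_card T).trans ?_)
    refine (Finset.card_insert_le _ _).trans ?_
    refine Nat.add_le_add_right (Finset.card_image_le.trans ?_) 1
    simp
  · refine ⟨v ⟨d, hd'⟩, le_satu _ (Submodule.subset_span (Finset.mem_insert_of_mem
      (Finset.mem_image_of_mem _ (Finset.mem_univ _)))), hs _, hd _⟩

lemma In.mono {A B : Submodule ℤ L} (hAB : A ≤ B) {d : ℤ} (hd : In A d) : In B d := by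
  obtain ⟨v, hv, h1, h2⟩ := hd
  exact ⟨v, hAB hv, h1, h2⟩

/-- a discriminant is admissible if and only if no bad prime number obstructs it -/
theorem adm_iff {d : ℤ} (hv : Valid d) : Admissible d ↔ ∀ p, BadPrime p → ¬ Obstructs p d := by
  constructor
  · intro hd p hp
    exact not_obs hd hv hp
  · intro hall
    obtain ⟨h6, hv6⟩ := hv
    have h2 := hall 2 ⟨Nat.prime_two, Or.inr rfl⟩
    have h3 := hall 3 ⟨Nat.prime_three, Or.inl rfl⟩
    rw [Obstructs, if_neg (by norm_num)] at h2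
    rw [Obstructs, if_pos rfl] at h3
    push_cast at h2
    refine ⟨h6, by omega, by omega, fun p hp hp2 hpd hp3 => ?_⟩
    have h5 := hall p ⟨hp, Or.inr hp3⟩
    rw [Obstructs, if_neg (by omega)] at h5
    apply h5
    obtain ⟨k, rfl⟩ := hpd
    have h7 : (p : ℤ) % 2 = 1 := by
      have := hp.eq_two_or_odd
      omega
    have h8 : (2 : ℤ) ∣ k := by
      have h9 : (2 : ℤ) ∣ (p : ℤ) * k := by omega
      rcases Int.prime_two.dvd_or_dvd h9 with h | h
      · omega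
      · exact h
    obtain ⟨s, rfl⟩ := h8
    exact ⟨s, by ring⟩

/-- the discriminants do not depend on the isometry -/
lemma in_transport {R : CubicFourfold → Submodule ℤ L → Prop} (hR : IsHodgeTheory R)
    {X : CubicFourfold} {A A' : Submodule ℤ L} (hX : R X A) (hX' : R X A') {d : ℤ}
    (hd : In A d) : In A' d := by
  obtain ⟨g, hg1, hg2, rfl⟩ := hR.unique X _ _ hX hX'
  obtain ⟨v, hv, hs, rfl⟩ := hd
  exact ⟨g v, ⟨v, hv, rfl⟩, sat_pair hg2 hs, disc_map hg1 hg2 v⟩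

lemma div_iff {R : CubicFourfold → Submodule ℤ L → Prop} (hR : IsHodgeTheory R)
    {X : CubicFourfold} {A : Submodule ℤ L} (hX : R X A) {d : ℤ} : X ∈ Div R d ↔ In A d := by
  constructor
  · rintro ⟨A', hX', hd⟩
    exact in_transport hR hX' hX hd
  · intro hd
    exact ⟨A, hX, hd⟩

/-- rank three lattices which force the local conditions -/
theorem exists_k3_locus {d₁ d₂ : ℤ} (h1 : Valid d₁) (h2 : Valid d₂) (h12 : d₁ < d₂) :
    ∃ M : Submodule ℤ L, IsGood M ∧ finrank ℤ M = 3 ∧ In M d₁ ∧ In M d₂ ∧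
      ∀ A : Submodule ℤ L, M ≤ A → Loc A := by
  obtain ⟨h16, h1v⟩ := h1
  obtain ⟨h26, h2v⟩ := h2
  obtain ⟨a, e', he', hd1⟩ := valid h1v
  obtain ⟨b, e, he, hd2⟩ := valid h2v
  -- it is enough to find `t`
  suffices key : ∃ t : ℤ, (3 * t - e' * e) ^ 2 ≤ d₁ * (d₂ - 9) ∧
      (∀ p : ℕ, p.Prime → p % 3 = 2 → ¬ (p : ℤ) ∣ 3 * t - e' * e) ∧
      ∃ y z : ℤ, (d₁ * y ^ 2 + 2 * (3 * t - e' * e) * y * z + d₂ * z ^ 2) % 3 = 2 ∨
        (d₁ * y ^ 2 + 2 * (3 * t - e' * e) * y * z + d₂ * z ^ 2) % 18 = 6 by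
    obtain ⟨t, ht, hp, y, z, hyz⟩ := key
    have hdisc : ∀ x y z, disc (cv a e' b e t x y z) =
        d₁ * y ^ 2 + 2 * (3 * t - e' * e) * y * z + d₂ * z ^ 2 := fun x y z =>
      disc_cv he' he hd1 hd2
    refine ⟨ML a e' b e t, good_ML he' he hd1 hd2 (by omega) ht, finrank_ML _ _ _ _ _,
      ⟨_, mem_ML.2 ⟨0, 1, 0, rfl⟩, sat_T a e' b e t, ?_⟩,
      ⟨_, mem_ML.2 ⟨0, 0, 1, rfl⟩, sat_S a e' b e t, ?_⟩, fun A hA => ⟨fun p hp1 hp2 => ?_,
      ⟨_, hA (mem_ML.2 ⟨0, y, z, rfl⟩), ?_⟩⟩⟩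
    · rw [hdisc]; ring
    · rw [hdisc]; ring
    · by_contra hcon
      push Not at hcon
      apply hp p hp1 hp2
      have g1 := hcon _ (hA (mem_ML.2 ⟨0, 1, 0, rfl⟩))
      have g2 := hcon _ (hA (mem_ML.2 ⟨0, 0, 1, rfl⟩))
      have g3 := hcon _ (hA (mem_ML.2 ⟨0, 1, 1, rfl⟩))
      rw [hdisc] at g1 g2 g3
      have c1 : (d₁ * 1 ^ 2 + 2 * (3 * t - e' * e) * 1 * 0 + d₂ * 0 ^ 2) / 2 = d₁ / 2 := by
        ring_nf
      have c2 : (d₁ * 0 ^ 2 + 2 * (3 * t - e' * e) * 0 * 1 + d₂ * 1 ^ 2) / 2 = d₂ / 2 := by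
        ring_nf
      have c3 : (d₁ * 1 ^ 2 + 2 * (3 * t - e' * e) * 1 * 1 + d₂ * 1 ^ 2) / 2 =
          d₁ / 2 + (3 * t - e' * e) + d₂ / 2 := by
        have : d₁ * 1 ^ 2 + 2 * (3 * t - e' * e) * 1 * 1 + d₂ * 1 ^ 2 =
          d₁ + 2 * (3 * t - e' * e) + d₂ := by ring
        rw [this]
        omega
      rw [c1] at g1
      rw [c2] at g2
      rw [c3] at g3
      have g4 := dvd_sub (dvd_sub g3 g1) g2
      have g5 : d₁ / 2 + (3 * t - e' * e) + d₂ / 2 - d₁ / 2 - d₂ / 2 = 3 * t - e' * e := by ring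
      rwa [g5] at g4
    · rw [hdisc]
      exact hyz
  have hpr : ∀ s : ℤ, s = -1 ∨ s = 3 ∨ s = 9 → ∀ p : ℕ, p.Prime → p % 3 = 2 → ¬ (p : ℤ) ∣ s := by
    intro s hs p hp hp2 hdvd
    have h9 : (p : ℤ) ∣ 3 ^ 2 := by
      rcases hs with rfl | rfl | rfl
      · exact hdvd.trans ⟨-9, by norm_num⟩
      · exact hdvd.trans ⟨3, by norm_num⟩
      · exact hdvd.trans ⟨1, by norm_num⟩
    have h10 : p ∣ 3 := hp.dvd_of_dvd_pow (by exact_mod_cast h9)
    have := (Nat.prime_dvd_prime_iff_eq hp Nat.prime_three).1 h10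
    omega
  have b1 : 8 ≤ d₁ := by omega
  have b2 : 3 ≤ d₂ - 9 := by omega
  have b3 : 24 ≤ d₁ * (d₂ - 9) := by nlinarith
  rcases zero_or_one he' with rfl | rfl <;> rcases zero_or_one he with rfl | rfl
  · -- both discriminants are divisible by six
    by_cases h22 : d₁ % 18 = 12 ∧ d₂ % 18 = 12
    · have b4 : 12 ≤ d₁ := by omega
      have b5 : 21 ≤ d₂ - 9 := by omega
      have b6 : 252 ≤ d₁ * (d₂ - 9) := by nlinarith
      refine ⟨3, by linarith, hpr _ (by norm_num), 1, 1, Or.inr ?_⟩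
      have : d₁ * 1 ^ 2 + 2 * (3 * 3 - 0 * 0) * 1 * 1 + d₂ * 1 ^ 2 = d₁ + d₂ + 18 := by ring
      rw [this]
      omega
    · refine ⟨1, by linarith, hpr _ (by norm_num), ?_⟩
      have c1 : d₁ % 18 = 0 ∨ d₁ % 18 = 6 ∨ d₁ % 18 = 12 := by omega
      have c2 : d₂ % 18 = 0 ∨ d₂ % 18 = 6 ∨ d₂ % 18 = 12 := by omega
      rcases c1 with c1 | c1 | c1
      · rcases c2 with c2 | c2 | c2
        · refine ⟨1, 1, Or.inr ?_⟩
          have : d₁ * 1 ^ 2 + 2 * (3 * 1 - 0 * 0) * 1 * 1 + d₂ * 1 ^ 2 = d₁ + d₂ + 6 := by ring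
          rw [this]
          omega
        · refine ⟨0, 1, Or.inr ?_⟩
          have : d₁ * 0 ^ 2 + 2 * (3 * 1 - 0 * 0) * 0 * 1 + d₂ * 1 ^ 2 = d₂ := by ring
          rw [this]
          omega
        · refine ⟨2, 1, Or.inr ?_⟩
          have : d₁ * 2 ^ 2 + 2 * (3 * 1 - 0 * 0) * 2 * 1 + d₂ * 1 ^ 2 = 4 * d₁ + 12 + d₂ := by
            ring
          rw [this]
          omega
      · refine ⟨1, 0, Or.inr ?_⟩
        have : d₁ * 1 ^ 2 + 2 * (3 * 1 - 0 * 0) * 1 * 0 + d₂ * 0 ^ 2 = d₁ := by ring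
        rw [this]
        omega
      · rcases c2 with c2 | c2 | c2
        · refine ⟨1, 2, Or.inr ?_⟩
          have : d₁ * 1 ^ 2 + 2 * (3 * 1 - 0 * 0) * 1 * 2 + d₂ * 2 ^ 2 = d₁ + 12 + 4 * d₂ := by
            ring
          rw [this]
          omega
        · refine ⟨0, 1, Or.inr ?_⟩
          have : d₁ * 0 ^ 2 + 2 * (3 * 1 - 0 * 0) * 0 * 1 + d₂ * 1 ^ 2 = d₂ := by ring
          rw [this]
          omega
        · exact absurd ⟨c1, c2⟩ h22
  · refine ⟨1, by linarith, hpr _ (by norm_num), 0, 1, Or.inl ?_⟩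
    have : d₁ * 0 ^ 2 + 2 * (3 * 1 - 0 * 1) * 0 * 1 + d₂ * 1 ^ 2 = d₂ := by ring
    rw [this]
    omega
  · refine ⟨1, by linarith, hpr _ (by norm_num), 1, 0, Or.inl ?_⟩
    have : d₁ * 1 ^ 2 + 2 * (3 * 1 - 1 * 0) * 1 * 0 + d₂ * 0 ^ 2 = d₁ := by ring
    rw [this]
    omega
  · refine ⟨0, by linarith, hpr _ (by norm_num), 1, 0, Or.inl ?_⟩
    have : d₁ * 1 ^ 2 + 2 * (3 * 0 - 1 * 1) * 1 * 0 + d₂ * 0 ^ 2 = d₁ := by ring
    rw [this]
    omega

end Pool.Agent.H574.CF
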