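import Mathlib

/-!
# Densities of periodic sets of reduced triples
-/

set_option autoImplicit false

namespace Pool.Agent.H574.CF.Dens

open Filter Topology Finset

/-- the triples `(A, B, C)` with `B ≤ A ≤ C ≤ D` -/
def tri (D : ℕ) : Finset (ℕ × ℕ × ℕ) :=
  (range (D + 1) ×ˢ range (D + 1) ×ˢ range (D + 1)).filter fun t => t.2.1 ≤ t.1 ∧ t.1 ≤ t.2.2

lemma mem_tri {D : ℕ} {t : ℕ × ℕ × ℕ} : t ∈ tri D ↔ t.2.1 ≤ t.1 ∧ t.1 ≤ t.2.2 ∧ t.2.2 ≤ D := by
  simp only [tri, mem_filter, mem_product, mem_range]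
  omega

lemma card_tri (D : ℕ) : 6 * (tri D).card = (D + 1) * (D + 2) * (D + 3) := by
  induction D with
  | zero => decide
  | succ D ih =>
    have h1 : tri (D + 1) = tri D ∪ ((range (D + 2)).sigma fun A => range (A + 1)).image
        fun x => (x.1, x.2, D + 1) := by
      ext ⟨A, B, C⟩
      simp only [mem_tri, mem_union, mem_image, mem_sigma, mem_range, Sigma.exists, Prod.mk.injEq]
      constructor
      · rintro ⟨h1, h2, h3⟩
        by_cases h4 : C = D + 1
        · exact Or.inr ⟨A, B, by omega, rfl, rfl, h4.symm⟩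
        · exact Or.inl ⟨h1, h2, by omega⟩
      · rintro (h | ⟨a, b, h1, rfl, rfl, rfl⟩) <;> omega
    have h2 : Disjoint (tri D) (((range (D + 2)).sigma fun A => range (A + 1)).image
        fun x => (x.1, x.2, D + 1)) := by
      rw [Finset.disjoint_left]
      rintro ⟨A, B, C⟩ h1 h2
      simp only [mem_image, mem_sigma, mem_range, Sigma.exists, Prod.mk.injEq] at h2
      rw [mem_tri] at h1
      obtain ⟨a, b, -, -, -, h5⟩ := h2
      have := h1.2.2
      simp only at this
      omega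
    rw [h1, card_union_of_disjoint h2, card_image_of_injective, card_sigma]
    · simp only [card_range]
      have h3 : ∀ n : ℕ, 2 * ∑ i ∈ range n, (i + 1) = n * (n + 1) := by
        intro n
        induction n with
        | zero => simp
        | succ n ih => rw [sum_range_succ, mul_add, ih]; ring
      have h4 := h3 (D + 2)
      nlinarith
    · rintro ⟨a, b⟩ ⟨c, d⟩ hh
      simp only [Prod.mk.injEq, and_true] at hh
      obtain ⟨rfl, rfl⟩ := hh
      rfl

/-- the class of a triple -/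
def cls (m : ℕ) (t : ℕ × ℕ × ℕ) : ZMod m × ZMod m × ZMod m := (t.1, t.2.1, t.2.2)

lemma cls_le {m : ℕ} [NeZero m] (c c' : ZMod m × ZMod m × ZMod m) (D : ℕ) :
    ((tri D).filter fun t => cls m t = c).card ≤
      ((tri (D + 3 * m)).filter fun t => cls m t = c').card := by
  have hm : 0 < m := NeZero.pos m
  refine card_le_card_of_injOn (fun t => (m * (t.1 / m + 1) + c'.1.val, m * (t.2.1 / m) + c'.2.1.val,
    m * (t.2.2 / m + 2) + c'.2.2.val)) ?_ ?_
  · rintro ⟨A, B, C⟩ ht
    simp only [coe_filter, Set.mem_ofPred_eq, mem_tri] at ht ⊢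
    obtain ⟨⟨h1, h2, h3⟩, -⟩ := ht
    have k1 := ZMod.val_lt c'.1
    have k2 := ZMod.val_lt c'.2.1
    have k3 := ZMod.val_lt c'.2.2
    have l1 : B / m ≤ A / m := Nat.div_le_div_right h1
    have l2 : A / m ≤ C / m := Nat.div_le_div_right h2
    have l3 : m * (C / m) ≤ C := Nat.mul_div_le C m
    have l4 : m * (B / m) ≤ m * (A / m) := Nat.mul_le_mul_left m l1
    have l5 : m * (A / m) ≤ m * (C / m) := Nat.mul_le_mul_left m l2
    refine ⟨⟨?_, ?_, ?_⟩, ?_⟩
    · rw [mul_add]; omega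
    · rw [mul_add, mul_add]; omega
    · rw [mul_add]; omega
    · unfold cls
      simp only [Nat.cast_add, Nat.cast_mul, CharP.cast_eq_zero, zero_mul, ZMod.natCast_val,
        ZMod.cast_id', id_eq, zero_add]
  · rintro ⟨A, B, C⟩ ht ⟨A', B', C'⟩ ht' hh
    simp only [coe_filter, Set.mem_ofPred_eq] at ht ht'
    have hc : cls m (A, B, C) = cls m (A', B', C') := ht.2.trans ht'.2.symm
    simp only [cls, Prod.mk.injEq] at hc hh
    obtain ⟨c1, c2, c3⟩ := hc
    obtain ⟨e1, e2, e3⟩ := hh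
    rw [ZMod.natCast_eq_natCast_iff'] at c1 c2 c3
    have f1 : m * (A / m) = m * (A' / m) := by
      rw [mul_add, mul_add] at e1; omega
    have f2 : m * (B / m) = m * (B' / m) := by omega
    have f3 : m * (C / m) = m * (C' / m) := by
      rw [mul_add, mul_add] at e3; omega
    have g1 : A = A' := by
      rw [← Nat.div_add_mod A m, ← Nat.div_add_mod A' m, f1, c1]
    have g2 : B = B' := by
      rw [← Nat.div_add_mod B m, ← Nat.div_add_mod B' m, f2, c2]
    have g3 : C = C' := by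
      rw [← Nat.div_add_mod C m, ← Nat.div_add_mod C' m, f3, c3]
    rw [g1, g2, g3]

lemma sum_cls {m : ℕ} [NeZero m] (X : Finset (ZMod m × ZMod m × ZMod m)) (D : ℕ) :
    ((tri D).filter fun t => cls m t ∈ X).card =
      ∑ c ∈ X, ((tri D).filter fun t => cls m t = c).card := by
  rw [card_eq_sum_card_fiberwise (f := cls m) (t := X) fun t ht => by
    simpa using (mem_filter.1 ht).2]
  refine sum_congr rfl fun c hc => ?_
  rw [filter_filter]
  congr 1
  refine filter_congr fun t _ => ?_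
  constructor
  · exact fun h => h.2
  · rintro rfl
    exact ⟨hc, rfl⟩

lemma card_cube (m : ℕ) [NeZero m] :
    (univ : Finset (ZMod m × ZMod m × ZMod m)).card = m ^ 3 := by
  rw [card_univ, Fintype.card_prod, Fintype.card_prod, ZMod.card]
  ring

lemma upper {m : ℕ} [NeZero m] (X : Finset (ZMod m × ZMod m × ZMod m)) (D : ℕ) :
    m ^ 3 * ((tri D).filter fun t => cls m t ∈ X).card ≤ X.card * (tri (D + 3 * m)).card := by
  have h1 : ∀ c, m ^ 3 * ((tri D).filter fun t => cls m t = c).card ≤ (tri (D + 3 * m)).card := by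
    intro c
    have h2 := sum_cls (m := m) univ (D + 3 * m)
    have h3 : (tri (D + 3 * m)).filter (fun t => cls m t ∈ univ) = tri (D + 3 * m) :=
      filter_true_of_mem fun t _ => mem_univ _
    rw [h3] at h2
    rw [h2, ← card_cube m, ← smul_eq_mul, ← sum_const]
    exact sum_le_sum fun c' _ => cls_le c c' D
  rw [sum_cls, mul_sum, ← smul_eq_mul (a := X.card), ← sum_const]
  exact sum_le_sum fun c _ => h1 c

lemma lower {m : ℕ} [NeZero m] (X : Finset (ZMod m × ZMod m × ZMod m)) (D : ℕ) :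
    X.card * (tri D).card ≤ m ^ 3 * ((tri (D + 3 * m)).filter fun t => cls m t ∈ X).card := by
  have h1 : ∀ c, (tri D).card ≤ m ^ 3 * ((tri (D + 3 * m)).filter fun t => cls m t = c).card := by
    intro c
    have h2 := sum_cls (m := m) univ D
    have h3 : (tri D).filter (fun t => cls m t ∈ univ) = tri D :=
      filter_true_of_mem fun t _ => mem_univ _
    rw [h3] at h2
    rw [h2, ← card_cube m, ← smul_eq_mul (a := (univ : Finset (ZMod m × ZMod m × ZMod m)).card),
      ← sum_const]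
    exact sum_le_sum fun c' _ => cls_le c' c D
  rw [sum_cls, mul_sum, ← smul_eq_mul (a := X.card), ← sum_const]
  exact sum_le_sum fun c _ => h1 c

lemma tendsto_ratio (a b : ℕ) :
    Tendsto (fun D : ℕ => ((D + a : ℕ) : ℝ) / ((D + b : ℕ) : ℝ)) atTop (𝓝 1) := by
  have h1 : Tendsto (fun D : ℕ => (((D + b : ℕ) : ℝ))⁻¹) atTop (𝓝 0) :=
    tendsto_inv_atTop_zero.comp (tendsto_natCast_atTop_atTop.comp (tendsto_add_atTop_nat b))
  have h2 : Tendsto (fun D : ℕ => 1 + ((a : ℝ) - b) * (((D + b : ℕ) : ℝ))⁻¹) atTop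
      (𝓝 (1 + ((a : ℝ) - b) * 0)) := tendsto_const_nhds.add (h1.const_mul _)
  rw [mul_zero, add_zero] at h2
  refine h2.congr' ?_
  filter_upwards [eventually_gt_atTop 0] with D hD
  have : ((D + b : ℕ) : ℝ) ≠ 0 := by positivity
  field_simp
  push_cast
  ring

lemma lim_tri (j k : ℕ) :
    Tendsto (fun D : ℕ => ((tri (D + j)).card : ℝ) / ((D + k : ℕ) : ℝ) ^ 3) atTop
      (𝓝 (1 / 6)) := by
  have h1 := (((tendsto_ratio (j + 1) k).mul (tendsto_ratio (j + 2) k)).mul
    (tendsto_ratio (j + 3) k)).const_mul (1 / 6 : ℝ)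
  rw [mul_one, mul_one, mul_one] at h1
  refine h1.congr' ?_
  filter_upwards [eventually_gt_atTop 0] with D hD
  have h2 : (6 : ℝ) * ((tri (D + j)).card : ℝ) = (D + j + 1) * (D + j + 2) * (D + j + 3) := by
    exact_mod_cast card_tri (D + j)
  have h3 : ((tri (D + j)).card : ℝ) = (D + j + 1) * (D + j + 2) * (D + j + 3) / 6 := by
    linarith
  rw [h3]
  have : ((D + k : ℕ) : ℝ) ≠ 0 := by positivity
  field_simp
  push_cast
  ring

/-- the density of a periodic set -/
theorem lim_cls {m : ℕ} [NeZero m] (X : Finset (ZMod m × ZMod m × ZMod m)) :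
    Tendsto (fun D : ℕ => (((tri D).filter fun t => cls m t ∈ X).card : ℝ) / (D : ℝ) ^ 3) atTop
      (𝓝 ((X.card : ℝ) / (m : ℝ) ^ 3 / 6)) := by
  have hm : (0 : ℝ) < (m : ℝ) ^ 3 := by
    have : (0 : ℝ) < m := by exact_mod_cast NeZero.pos m
    positivity
  rw [← tendsto_add_atTop_iff_nat (3 * m)]
  have h1 := (lim_tri 0 (3 * m)).const_mul ((X.card : ℝ) / (m : ℝ) ^ 3)
  have h2 := (lim_tri (3 * m + 3 * m) (3 * m)).const_mul ((X.card : ℝ) / (m : ℝ) ^ 3)
  have h0 : (X.card : ℝ) / (m : ℝ) ^ 3 * (1 / 6) = (X.card : ℝ) / (m : ℝ) ^ 3 / 6 := by ring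
  rw [h0] at h1 h2
  refine tendsto_of_tendsto_of_tendsto_of_le_of_le' h1 h2 ?_ ?_
  · filter_upwards [eventually_gt_atTop 0] with D hD
    have h3 : (X.card : ℝ) * (tri D).card ≤
        (m : ℝ) ^ 3 * ((tri (D + 3 * m)).filter fun t => cls m t ∈ X).card := by
      exact_mod_cast lower X D
    have h4 : (0 : ℝ) < ((D + 3 * m : ℕ) : ℝ) ^ 3 := by positivity
    rw [add_zero, ← mul_div_assoc, div_le_div_iff_of_pos_right h4, div_mul_eq_mul_div,
      div_le_iff₀ hm]
    linarith
  · filter_upwards [eventually_gt_atTop 0] with D hD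
    have h3 : (m : ℝ) ^ 3 * ((tri (D + 3 * m)).filter fun t => cls m t ∈ X).card ≤
        (X.card : ℝ) * (tri (D + 3 * m + 3 * m)).card := by
      exact_mod_cast upper X (D + 3 * m)
    have h4 : (0 : ℝ) < ((D + 3 * m : ℕ) : ℝ) ^ 3 := by positivity
    rw [← add_assoc, ← mul_div_assoc, div_le_div_iff_of_pos_right h4, div_mul_eq_mul_div,
      le_div_iff₀ hm]
    linarith

/-- the Chinese remainder theorem for triples -/
def crt {m p : ℕ} (h : m.Coprime p) : ZMod (m * p) × ZMod (m * p) × ZMod (m * p) ≃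
    (ZMod m × ZMod m × ZMod m) × (ZMod p × ZMod p × ZMod p) where
  toFun t := (((ZMod.chineseRemainder h t.1).1, (ZMod.chineseRemainder h t.2.1).1,
    (ZMod.chineseRemainder h t.2.2).1), ((ZMod.chineseRemainder h t.1).2,
    (ZMod.chineseRemainder h t.2.1).2, (ZMod.chineseRemainder h t.2.2).2))
  invFun u := ((ZMod.chineseRemainder h).symm (u.1.1, u.2.1),
    (ZMod.chineseRemainder h).symm (u.1.2.1, u.2.2.1),
    (ZMod.chineseRemainder h).symm (u.1.2.2, u.2.2.2))
  left_inv t := by simp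
  right_inv u := by simp

lemma crt_cls {m p : ℕ} (h : m.Coprime p) (t : ℕ × ℕ × ℕ) :
    crt h (cls (m * p) t) = (cls m t, cls p t) := by
  simp [crt, cls]

open Classical in
/-- the density of the triples in a periodic set which are not divisible by some primes -/
theorem lim_set (P : Finset ℕ) : ∀ (m : ℕ) [NeZero m] (X : Finset (ZMod m × ZMod m × ZMod m)),
    (∀ p ∈ P, p.Prime ∧ m.Coprime p) →
    Tendsto (fun D : ℕ => (((tri D).filter fun t => cls m t ∈ X ∧ ∀ p ∈ P, cls p t ≠ 0).card : ℝ) /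
      (D : ℝ) ^ 3) atTop
      (𝓝 ((X.card : ℝ) / (m : ℝ) ^ 3 / 6 * ∏ p ∈ P, (1 - 1 / (p : ℝ) ^ 3))) := by
  induction P using Finset.induction_on with
  | empty =>
    intro m _ X _
    simpa using lim_cls X
  | insert p P hp ih =>
    intro m _ X hX
    obtain ⟨hpp, hmp⟩ := hX p (mem_insert_self p P)
    have : NeZero p := ⟨hpp.ne_zero⟩
    have : NeZero (m * p) := ⟨mul_ne_zero (NeZero.ne m) hpp.ne_zero⟩
    have h1 := ih (m * p) ((X ×ˢ univ.erase 0).map (crt hmp).symm.toEmbedding) fun q hq => by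
      obtain ⟨hq1, hq2⟩ := hX q (mem_insert_of_mem hq)
      refine ⟨hq1, Nat.Coprime.mul_left hq2 ?_⟩
      rw [Nat.coprime_primes hpp hq1]
      rintro rfl
      exact hp hq
    have h2 : ∀ D, ((tri D).filter fun t => cls (m * p) t ∈
        (X ×ˢ univ.erase 0).map (crt hmp).symm.toEmbedding ∧ ∀ q ∈ P, cls q t ≠ 0) =
        (tri D).filter fun t => cls m t ∈ X ∧ ∀ q ∈ insert p P, cls q t ≠ 0 := by
      intro D
      refine filter_congr fun t _ => ?_
      rw [mem_map_equiv, Equiv.symm_symm, crt_cls, mem_product]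
      simp only [mem_erase, mem_univ, and_true, mem_insert, forall_eq_or_imp]
      tauto
    simp only [h2] at h1
    have h3 : ((((X ×ˢ univ.erase 0).map (crt hmp).symm.toEmbedding).card : ℕ) : ℝ) /
        ((m * p : ℕ) : ℝ) ^ 3 = (X.card : ℝ) / (m : ℝ) ^ 3 * (1 - 1 / (p : ℝ) ^ 3) := by
      rw [card_map, card_product, card_erase_of_mem (mem_univ _), card_cube]
      have hp0 : (p : ℝ) ≠ 0 := by exact_mod_cast hpp.ne_zero
      have hm0 : (m : ℝ) ≠ 0 := by exact_mod_cast NeZero.ne m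
      have h4 : 1 ≤ p ^ 3 := Nat.one_le_pow _ _ hpp.pos
      push_cast [h4]
      field_simp
    rw [h3] at h1
    rw [prod_insert hp]
    convert h1 using 2
    ring

end Pool.Agent.H574.CF.Dens
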