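import Pool.Agent.H574.CF.Ex

/-!
# Groups of Hodge classes with all discriminants which are obstructed by given prime numbers
-/

set_option autoImplicit false

namespace Pool.Agent.H574.CF

open Pool.Agent.Q63.CF Pool.Agent.Y95.Q Matrix Module

/-- the discriminants of the nonempty Hassett divisors -/
def Valid (d : ℤ) : Prop := 6 < d ∧ (d % 6 = 0 ∨ d % 6 = 2)

/-- the bad prime numbers -/
def BadPrime (p : ℕ) : Prop := p.Prime ∧ (p = 3 ∨ p % 3 = 2)

/-- the prime number `p` obstructs `d` -/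
def Obstructs (p : ℕ) (d : ℤ) : Prop :=
  if p = 3 then d % 18 = 0 ∨ d % 18 = 12 else 2 * (p : ℤ) ∣ d

/-- the coordinates in the second `E₈` -/
def uu (y : Fin 11 → ℤ) : Fin 8 → ℤ := ![y 8, y 2, y 3, y 4, y 5, y 9, y 10, y 6]

/-- the vectors `x h + c (ε t + e + N f) + b (e' + Q f') + (u, φ u)` -/
def wv0 (ε N Q : ℤ) (φ : Matrix (Fin 8) (Fin 8) ℤ) : (Fin 11 → ℤ) →ₗ[ℤ] L0 where
  toFun y := (![y 0 + ε * y 1, y 0, y 0], ![y 1, y 7], ![N * y 1, Q * y 7], uu y, φ.mulVec (uu y))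
  map_add' y z := by
    have hu : uu (y + z) = uu y + uu z := by
      funext i
      fin_cases i <;> simp [uu]
    refine Prod.ext_iff.2 ⟨?_, Prod.ext_iff.2 ⟨?_, Prod.ext_iff.2 ⟨?_,
      Prod.ext_iff.2 ⟨hu, ?_⟩⟩⟩⟩
    · funext i
      fin_cases i <;> simp
      ring
    · funext i
      fin_cases i <;> simp
    · funext i
      fin_cases i <;> simp <;> ring
    · show φ.mulVec (uu (y + z)) = _
      rw [hu]
      exact Matrix.mulVec_add φ _ _
  map_smul' n y := by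
    have hu : uu (n • y) = n • uu y := by
      funext i
      fin_cases i <;> simp [uu]
    refine Prod.ext_iff.2 ⟨?_, Prod.ext_iff.2 ⟨?_, Prod.ext_iff.2 ⟨?_,
      Prod.ext_iff.2 ⟨hu, ?_⟩⟩⟩⟩
    · funext i
      fin_cases i <;> simp
      ring
    · funext i
      fin_cases i <;> simp
    · funext i
      fin_cases i <;> simp <;> ring
    · show φ.mulVec (uu (n • y)) = _
      rw [hu]
      exact Matrix.mulVec_smul φ n _

/-- the same vectors in `L` -/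
def wv (ε N Q : ℤ) (φ : Matrix (Fin 8) (Fin 8) ℤ) : (Fin 11 → ℤ) →ₗ[ℤ] L :=
  toL0.symm.toLinearMap ∘ₗ wv0 ε N Q φ

/-- the group of rank eleven -/
def MW (ε N Q : ℤ) (φ : Matrix (Fin 8) (Fin 8) ℤ) : Submodule ℤ L := LinearMap.range (wv ε N Q φ)

section

variable (ε N Q : ℤ) (φ : Matrix (Fin 8) (Fin 8) ℤ)

lemma toL0_wv (c : Fin 11 → ℤ) : toL0 (wv ε N Q φ c) = wv0 ε N Q φ c := by
  simp [wv]

/-- the coordinates -/
def cy (v : L0) : Fin 11 → ℤ :=
  ![v.1 1, v.2.1 0, v.2.2.2.1 1, v.2.2.2.1 2, v.2.2.2.1 3, v.2.2.2.1 4, v.2.2.2.1 7, v.2.1 1,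
    v.2.2.2.1 0, v.2.2.2.1 5, v.2.2.2.1 6]

lemma cy_wv0 (y : Fin 11 → ℤ) : cy (wv0 ε N Q φ y) = y := by
  funext i
  fin_cases i <;> rfl

lemma cy_smul (n : ℤ) (v : L0) : cy (n • v) = n • cy v := by
  funext i
  fin_cases i <;> rfl

lemma wv_inj : Function.Injective (wv ε N Q φ) := by
  intro c d hcd
  rw [← cy_wv0 ε N Q φ c, ← cy_wv0 ε N Q φ d, ← toL0_wv, ← toL0_wv, hcd]

lemma wv_h : wv ε N Q φ (Pi.single 0 1) = h := by
  apply toL0.injective
  rw [toL0_wv, toL0_h]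
  have hu : uu (Pi.single 0 1) = 0 := by
    funext i
    fin_cases i <;> simp [uu]
  refine Prod.ext_iff.2 ⟨?_, Prod.ext_iff.2 ⟨?_, Prod.ext_iff.2 ⟨?_,
      Prod.ext_iff.2 ⟨hu, ?_⟩⟩⟩⟩
  · funext i
    fin_cases i <;> simp [wv0]
  · funext i
    fin_cases i <;> simp [wv0]
  · funext i
    fin_cases i <;> simp [wv0]
  · show φ.mulVec (uu (Pi.single 0 1)) = _
    rw [hu]
    exact Matrix.mulVec_zero φ

lemma sat_MW : Saturated (MW ε N Q φ) := by
  rintro n v hn ⟨c, hc⟩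
  refine ⟨cy (toL0 v), ?_⟩
  have h0 : wv0 ε N Q φ c = n • toL0 v := by rw [← toL0_wv, hc, map_smul]
  have h4 : c = n • cy (toL0 v) := by
    rw [← cy_smul, ← h0, cy_wv0]
  apply toL0.injective
  rw [toL0_wv]
  have h5 : n • wv0 ε N Q φ (cy (toL0 v)) = n • toL0 v := by
    rw [← h0, ← map_smul, ← h4]
  exact smul_right_injective _ hn h5

lemma ip_wv {φ φ' : Matrix (Fin 8) (Fin 8) ℤ}
    (h1 : φᵀ * CartanMatrix.E₈ = CartanMatrix.E₈ * φ') (h2 : φ' * φ = (Q - 1) • 1)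
    (y : Fin 11 → ℤ) :
    ip (wv ε N Q φ y) (wv ε N Q φ y) = (y 0 + ε * y 1) ^ 2 + 2 * y 0 ^ 2 + 2 * N * y 1 ^ 2 +
      2 * Q * (y 7 ^ 2 + e8q (uu y)) := by
  show ip0 (wv0 ε N Q φ y) (wv0 ε N Q φ y) = _
  have h3 := e8_phi h1 h2 (uu y) (uu y)
  rw [e8_self (uu y)] at h3
  show ![y 0 + ε * y 1, y 0, y 0] ⬝ᵥ ![y 0 + ε * y 1, y 0, y 0] +
    (![y 1, y 7] ⬝ᵥ ![N * y 1, Q * y 7] + ![N * y 1, Q * y 7] ⬝ᵥ ![y 1, y 7]) +
      e8 (uu y) (uu y) + e8 (φ.mulVec (uu y)) (φ.mulVec (uu y)) = _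
  rw [h3, e8_self]
  simp [dotProduct, Fin.sum_univ_three, Fin.sum_univ_two]
  ring

lemma ip_h_wv (y : Fin 11 → ℤ) : ip h (wv ε N Q φ y) = 3 * y 0 + ε * y 1 := by
  have h1 : ip h (wv ε N Q φ y) = ip0 (fun _ => 1, 0) (wv0 ε N Q φ y) := rfl
  rw [h1, ip0_h]
  show y 0 + ε * y 1 + y 0 + y 0 = _
  ring

lemma disc_wv {φ φ' : Matrix (Fin 8) (Fin 8) ℤ}
    (h1 : φᵀ * CartanMatrix.E₈ = CartanMatrix.E₈ * φ') (h2 : φ' * φ = (Q - 1) • 1)
    (y : Fin 11 → ℤ) :
    disc (wv ε N Q φ y) = (2 * ε ^ 2 + 6 * N) * y 1 ^ 2 + 6 * Q * (y 7 ^ 2 + e8q (uu y)) := by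
  unfold disc
  rw [ip_wv ε N Q h1 h2, ip_h_wv]
  ring

end

lemma good_MW {ε N Q : ℤ} {φ φ' : Matrix (Fin 8) (Fin 8) ℤ} (hE : 8 ≤ 2 * ε ^ 2 + 6 * N)
    (hQ : 2 ≤ Q) (h1 : φᵀ * CartanMatrix.E₈ = CartanMatrix.E₈ * φ') (h2 : φ' * φ = (Q - 1) • 1) :
    IsGood (MW ε N Q φ) where
  mem := ⟨_, wv_h ε N Q φ⟩
  sat := sat_MW ε N Q φ
  pos := by
    rintro _ ⟨y, rfl⟩ hy
    have h3 := disc_wv ε N Q h1 h2 y
    unfold disc at h3
    have n1 := sq_nonneg (y 7)
    have n2 := e8q_nonneg (uu y)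
    by_cases hcu : y 1 = 0 ∧ y 7 = 0 ∧ uu y = 0
    · obtain ⟨hc, hb, hu⟩ := hcu
      have hx : y 0 ≠ 0 := by
        intro hx
        apply hy
        have : y = 0 := by
          have hu' := fun i => congrFun hu i
          funext i
          fin_cases i
          · exact hx
          · exact hc
          · exact hu' 1
          · exact hu' 2
          · exact hu' 3
          · exact hu' 4
          · exact hu' 7
          · exact hb
          · exact hu' 0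
          · exact hu' 5
          · exact hu' 6
        rw [this, map_zero]
      have n3 : 1 ≤ y 0 ^ 2 := by
        have : 0 < y 0 ^ 2 := by positivity
        omega
      rw [ip_h_wv, hc, hb, hu] at h3
      have h0 : e8q (0 : Fin 8 → ℤ) = 0 := by simp [e8q]
      rw [h0] at h3
      nlinarith
    · have h8 : 8 ≤ (2 * ε ^ 2 + 6 * N) * y 1 ^ 2 + 6 * Q * (y 7 ^ 2 + e8q (uu y)) := by
        by_cases hc : y 1 = 0
        · have n4 : 1 ≤ y 7 ^ 2 + e8q (uu y) := by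
            by_cases hb : y 7 = 0
            · have hu : uu y ≠ 0 := fun h => hcu ⟨hc, hb, h⟩
              have := e8q_pos _ hu
              omega
            · have : 0 < y 7 ^ 2 := by positivity
              omega
          rw [hc]
          nlinarith
        · have n3 : 1 ≤ y 1 ^ 2 := by
            have : 0 < y 1 ^ 2 := by positivity
            omega
          have n5 : 0 ≤ 6 * Q * (y 7 ^ 2 + e8q (uu y)) := by positivity
          nlinarith
      have := sq_nonneg (ip h (wv ε N Q φ y))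
      omega

/-! ### the subgroups -/

lemma zx_zx {a r n : ℕ} (ha : a ≤ r) (y : Fin a → ℤ) :
    (zx (zx y : Fin r → ℤ) : Fin n → ℤ) = zx y := by
  funext i
  simp only [zx]
  split_ifs with h1 h2 h2
  · rfl
  · rfl
  · omega
  · rfl

/-- extension by zero as a linear map -/
def zxl (r : ℕ) : (Fin r → ℤ) →ₗ[ℤ] (Fin 11 → ℤ) where
  toFun := zx
  map_add' c d := by
    funext i
    simp only [zx, Pi.add_apply]
    split_ifs <;> simp
  map_smul' n c := by
    funext i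
    simp only [zx, Pi.smul_apply]
    split_ifs <;> simp

/-- the group of rank `r` -/
def MR (ε N Q : ℤ) (φ : Matrix (Fin 8) (Fin 8) ℤ) (r : ℕ) : Submodule ℤ L :=
  LinearMap.range (wv ε N Q φ ∘ₗ zxl r)

lemma MR_le (ε N Q : ℤ) (φ : Matrix (Fin 8) (Fin 8) ℤ) (r : ℕ) : MR ε N Q φ r ≤ MW ε N Q φ := by
  rintro _ ⟨c, rfl⟩
  exact ⟨_, rfl⟩

lemma mem_MR {ε N Q : ℤ} {φ : Matrix (Fin 8) (Fin 8) ℤ} {a r : ℕ} (ha : a ≤ r) (y : Fin a → ℤ) :
    wv ε N Q φ (zx y) ∈ MR ε N Q φ r :=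
  ⟨zx y, congrArg (wv ε N Q φ) (zx_zx ha y)⟩

lemma finrank_MR (ε N Q : ℤ) (φ : Matrix (Fin 8) (Fin 8) ℤ) {r : ℕ} (hr : r ≤ 11) :
    finrank ℤ (MR ε N Q φ r) = r := by
  have hinj : Function.Injective (wv ε N Q φ ∘ₗ zxl r) := fun c d hcd => by
    have h1 : (zx c : Fin 11 → ℤ) = zx d := wv_inj ε N Q φ hcd
    rw [← rs_zx hr c, ← rs_zx hr d, h1]
  unfold MR
  rw [LinearMap.finrank_range_of_inj hinj]
  simp

lemma sat_MR (ε N Q : ℤ) (φ : Matrix (Fin 8) (Fin 8) ℤ) {r : ℕ} (hr : r ≤ 11) :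
    Saturated (MR ε N Q φ r) := by
  rintro n v hn ⟨d, hd⟩
  obtain ⟨c, rfl⟩ := sat_MW ε N Q φ n v hn ⟨_, hd⟩
  rw [← map_smul] at hd
  have h1 : n • c = zx d := (wv_inj ε N Q φ hd).symm
  refine ⟨rs hr c, ?_⟩
  have h4 : zxl r (rs hr c) = c := zx_rs hr hn h1
  rw [LinearMap.comp_apply, h4]

lemma good_MR {ε N Q : ℤ} {φ φ' : Matrix (Fin 8) (Fin 8) ℤ} (hE : 8 ≤ 2 * ε ^ 2 + 6 * N)
    (hQ : 2 ≤ Q) (h1 : φᵀ * CartanMatrix.E₈ = CartanMatrix.E₈ * φ') (h2 : φ' * φ = (Q - 1) • 1)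
    {r : ℕ} (hr0 : 1 ≤ r) (hr : r ≤ 11) : IsGood (MR ε N Q φ r) := by
  have hg := good_MW hE hQ h1 h2
  refine ⟨?_, sat_MR _ _ _ _ hr, fun v hv => hg.pos v (MR_le _ _ _ _ _ hv)⟩
  have h3 : (zx (fun _ : Fin 1 => (1 : ℤ)) : Fin 11 → ℤ) = Pi.single 0 1 := by
    funext i
    fin_cases i <;> simp [zx]
  rw [← wv_h ε N Q φ, ← h3]
  exact mem_MR hr0 _

/-- `E₈` represents all positive integers primitively -/
lemma e8q_prim {k : ℤ} (hk : 1 ≤ k) : ∃ a b c d : ℤ, e8q ![0, a + d, b + d, 2 * d, c + d, 0, 0, 1] = k := by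
  obtain ⟨a, b, c, d, h⟩ := Nat.sum_four_squares (k - 1).toNat
  have h' : ((k - 1).toNat : ℤ) = (a : ℤ) ^ 2 + b ^ 2 + c ^ 2 + d ^ 2 := by exact_mod_cast h.symm
  rw [Int.toNat_of_nonneg (by omega)] at h'
  refine ⟨a, b, c, d, ?_⟩
  simp only [e8q]
  simp
  linear_combination h'.symm

lemma sat_wv (ε N Q : ℤ) (φ : Matrix (Fin 8) (Fin 8) ℤ) {c : Fin 11 → ℤ} (i : Fin 11)
    (hi : i ≠ 0) (hc : c i = 1) : Saturated (Submodule.span ℤ {h, wv ε N Q φ c}) := by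
  intro n v hn hv
  obtain ⟨x, y, hxy⟩ := Submodule.mem_span_pair.1 hv
  rw [← wv_h ε N Q φ, ← map_smul, ← map_smul, ← map_add] at hxy
  obtain ⟨d, rfl⟩ := sat_MW ε N Q φ n v hn ⟨_, hxy⟩
  rw [← map_smul] at hxy
  have h1 := wv_inj ε N Q φ hxy
  have h2 : y = n * d i := by
    have := congrFun h1 i
    simpa [hi, hc] using this
  refine Submodule.mem_span_pair.2 ⟨(d - d i • c) 0, d i, ?_⟩
  rw [← wv_h ε N Q φ, ← map_smul, ← map_smul, ← map_add]
  congr 1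
  have h3 : ∀ j, j ≠ 0 → d j - d i * c j = 0 := by
    intro j hj
    have h4 := congrFun h1 j
    simp only [Pi.add_apply, Pi.smul_apply, Pi.single_apply, if_neg hj, smul_eq_mul, mul_zero,
      zero_add, h2] at h4
    have h5 : n * (d j - d i * c j) = 0 := by linear_combination -h4
    rcases mul_eq_zero.1 h5 with h | h
    · exact absurd h hn
    · exact h
  funext j
  by_cases hj : j = 0
  · subst hj
    simp
  · have h4 := h3 j hj
    simp only [Pi.add_apply, Pi.smul_apply, Pi.single_apply, if_neg hj, smul_eq_mul, mul_zero,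
      zero_add]
    linarith

lemma in_add {ε N Q : ℤ} {φ φ' : Matrix (Fin 8) (Fin 8) ℤ}
    (h1 : φᵀ * CartanMatrix.E₈ = CartanMatrix.E₈ * φ') (h2 : φ' * φ = (Q - 1) • 1) {k : ℤ}
    (hk : 0 ≤ k) {r : ℕ} (hr : 7 ≤ r) : In (MR ε N Q φ r) (2 * ε ^ 2 + 6 * N + 6 * Q * k) := by
  obtain ⟨y, hy1, hy7, hy⟩ : ∃ y : Fin 7 → ℤ, y 1 = 1 ∧ (zx y : Fin 11 → ℤ) 7 = 0 ∧
      e8q (uu (zx y)) = k := by
    rcases hk.lt_or_eq with h | h
    · obtain ⟨a, b, c, d, hu⟩ := e8q_prim (show 1 ≤ k by omega)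
      refine ⟨![0, 1, a + d, b + d, 2 * d, c + d, 1], rfl, rfl, ?_⟩
      rw [← hu]
      congr 1
    · refine ⟨![0, 1, 0, 0, 0, 0, 0], rfl, rfl, ?_⟩
      rw [← h]
      have : uu (zx ![0, 1, 0, 0, 0, 0, 0]) = 0 := by
        funext i
        fin_cases i <;> rfl
      rw [this]
      simp [e8q]
  refine ⟨wv ε N Q φ (zx y), mem_MR hr y, sat_wv ε N Q φ 1 (by decide) hy1, ?_⟩
  rw [disc_wv ε N Q h1 h2, hy7, hy]
  have : (zx y : Fin 11 → ℤ) 1 = 1 := hy1
  rw [this]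
  ring

lemma in_mul {ε N Q : ℤ} {φ φ' : Matrix (Fin 8) (Fin 8) ℤ}
    (h1 : φᵀ * CartanMatrix.E₈ = CartanMatrix.E₈ * φ') (h2 : φ' * φ = (Q - 1) • 1) {k : ℤ}
    (hk : 1 ≤ k) {r : ℕ} (hr : 7 ≤ r) : In (MR ε N Q φ r) (6 * Q * k) := by
  obtain ⟨a, b, c, d, hu⟩ := e8q_prim hk
  refine ⟨wv ε N Q φ (zx ![0, 0, a + d, b + d, 2 * d, c + d, 1]), mem_MR hr _,
    sat_wv ε N Q φ 6 (by decide) rfl, ?_⟩
  rw [disc_wv ε N Q h1 h2]
  have e1 : (zx ![0, 0, a + d, b + d, 2 * d, c + d, 1] : Fin 11 → ℤ) 1 = 0 := rfl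
  have e7 : (zx ![0, 0, a + d, b + d, 2 * d, c + d, 1] : Fin 11 → ℤ) 7 = 0 := rfl
  have e8 : uu (zx ![0, 0, a + d, b + d, 2 * d, c + d, 1]) =
    ![0, a + d, b + d, 2 * d, c + d, 0, 0, 1] := rfl
  rw [e1, e7, e8, hu]
  ring

/-! ### arithmetic -/

/-- the product of the bad prime numbers different from three -/
def mP (P : Finset ℕ) : ℕ := ∏ p ∈ P.erase 3, p

lemma mP_dvd {P : Finset ℕ} {p : ℕ} (hp : p ∈ P) (h3 : p ≠ 3) : p ∣ mP P :=
  Finset.dvd_prod_of_mem _ (Finset.mem_erase.2 ⟨h3, hp⟩)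

lemma mP_pos {P : Finset ℕ} (hP : ∀ p ∈ P, BadPrime p) : 0 < mP P :=
  Finset.prod_pos fun p hp => (hP p (Finset.mem_of_mem_erase hp)).1.pos

lemma mP_three {P : Finset ℕ} (hP : ∀ p ∈ P, BadPrime p) : ¬ 3 ∣ mP P := by
  intro h
  obtain ⟨p, hp, h3⟩ := (Nat.prime_three.prime.dvd_finsetProd_iff _).1 h
  have hpp := (hP p (Finset.mem_of_mem_erase hp)).1
  exact (Finset.mem_erase.1 hp).1 ((Nat.prime_dvd_prime_iff_eq Nat.prime_three hpp).1 h3).symm

lemma dvd_of_obs {P : Finset ℕ} (hP : ∀ p ∈ P, BadPrime p) {d : ℤ} (hd : d % 2 = 0)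
    (ho : ∀ p ∈ P, Obstructs p d) : 2 * (mP P : ℤ) ∣ d := by
  obtain ⟨e, rfl⟩ : (2 : ℤ) ∣ d := by omega
  refine mul_dvd_mul_left 2 ?_
  rw [Int.natCast_dvd]
  refine Finset.prod_primes_dvd _ (fun p hp => (hP p (Finset.mem_of_mem_erase hp)).1.prime) ?_
  intro p hp
  obtain ⟨h3, hp⟩ := Finset.mem_erase.1 hp
  have := ho p hp
  rw [Obstructs, if_neg h3] at this
  exact Int.natCast_dvd.1 (Int.dvd_of_mul_dvd_mul_left (by norm_num) this)

lemma sq_mod {c : ℤ} : ∃ t : ℤ, c ^ 2 = 3 * t ∨ c ^ 2 = 3 * t + 1 := by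
  by_cases h : (3 : ℤ) ∣ c
  · obtain ⟨s, rfl⟩ := h
    exact ⟨3 * s ^ 2, Or.inl (by ring)⟩
  · have := sq_mod_three h
    exact ⟨c ^ 2 / 3, Or.inr (by omega)⟩

/-- the coefficients of the universal lattice -/
theorem univ_coef {P : Finset ℕ} (hne : P.Nonempty) (hP : ∀ p ∈ P, BadPrime p) :
    ∃ ε N Q : ℤ, 8 ≤ 2 * ε ^ 2 + 6 * N ∧ 2 ≤ Q ∧
      (∀ c q : ℤ, 0 ≤ q → 0 < (2 * ε ^ 2 + 6 * N) * c ^ 2 + 6 * Q * q →
        Valid ((2 * ε ^ 2 + 6 * N) * c ^ 2 + 6 * Q * q) ∧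
          ∀ p ∈ P, Obstructs p ((2 * ε ^ 2 + 6 * N) * c ^ 2 + 6 * Q * q)) ∧
      ∀ d, Valid d → (∀ p ∈ P, Obstructs p d) →
        (∃ k, 0 ≤ k ∧ d = 2 * ε ^ 2 + 6 * N + 6 * Q * k) ∨ ∃ k, 1 ≤ k ∧ d = 6 * Q * k := by
  have hm0 := mP_pos hP
  have hm3 := mP_three hP
  have hdv : ∀ p ∈ P, p ≠ 3 → (p : ℤ) ∣ (mP P : ℤ) := fun p hp h3 => by
    exact_mod_cast mP_dvd hp h3
  have hobs : ∀ d : ℤ, Valid d → (∀ p ∈ P, Obstructs p d) → 2 * (mP P : ℤ) ∣ d := by
    intro d hd ho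
    refine dvd_of_obs hP ?_ ho
    obtain ⟨-, h⟩ := hd
    omega
  obtain ⟨m, hm⟩ : ∃ m : ℤ, m = (mP P : ℤ) := ⟨_, rfl⟩
  rw [← hm] at hdv hobs
  have hmpos : 0 < m := by omega
  have hm3' : m % 3 = 1 ∨ m % 3 = 2 := by omega
  by_cases h3 : 3 ∈ P
  · have hob3 : ∀ d : ℤ, (∀ p ∈ P, Obstructs p d) → d % 18 = 0 ∨ d % 18 = 12 := by
      intro d ho
      have := ho 3 h3
      rwa [Obstructs, if_pos rfl] at this
    have hob : ∀ x : ℤ, (2 * m * x) % 18 = 0 ∨ (2 * m * x) % 18 = 12 →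
        ∀ p ∈ P, Obstructs p (2 * m * x) := by
      intro x hx p hp
      by_cases hp3 : p = 3
      · rw [Obstructs, if_pos hp3]
        exact hx
      · rw [Obstructs, if_neg hp3]
        obtain ⟨s, hs⟩ := hdv p hp hp3
        exact ⟨s * x, by rw [hs]; ring⟩
    have hj3 : ∀ j : ℤ, (2 * m * j) % 18 = 0 ∨ (2 * m * j) % 18 = 12 → (3 : ℤ) ∣ j := by
      intro j hj
      have i1 : (3 : ℤ) ∣ (2 * m) * j := by omega
      rcases Int.prime_three.dvd_or_dvd i1 with h | h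
      · omega
      · exact h
    rcases hm3' with h | h
    · obtain ⟨n, rfl⟩ : ∃ n : ℤ, m = 3 * n + 1 := ⟨m / 3, by omega⟩
      refine ⟨0, 2 * (3 * n + 1), 3 * (3 * n + 1), by omega, by omega, fun c q hq hpos => ?_,
        fun d hd ho => ?_⟩
      · obtain ⟨t, ht⟩ := sq_mod (c := c)
        have e0 : (2 * (0 : ℤ) ^ 2 + 6 * (2 * (3 * n + 1))) * c ^ 2 + 6 * (3 * (3 * n + 1)) * q =
          2 * (3 * n + 1) * (6 * c ^ 2 + 9 * q) := by ring
        rw [e0] at hpos ⊢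
        have e1 : (2 * (3 * n + 1) * (6 * c ^ 2 + 9 * q)) % 18 = 0 ∨
            (2 * (3 * n + 1) * (6 * c ^ 2 + 9 * q)) % 18 = 12 := by
          rcases ht with ht | ht
          · left
            have : 2 * (3 * n + 1) * (6 * c ^ 2 + 9 * q) = 18 * ((3 * n + 1) * (2 * t + q)) := by
              rw [ht]; ring
            omega
          · right
            have : 2 * (3 * n + 1) * (6 * c ^ 2 + 9 * q) =
                18 * ((3 * n + 1) * (2 * t + q) + 2 * n) + 12 := by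
              rw [ht]; ring
            omega
        exact ⟨⟨by omega, by omega⟩, hob _ e1⟩
      · have h18 := hob3 d ho
        obtain ⟨j, hj⟩ := hobs d hd ho
        obtain ⟨h6, -⟩ := hd
        obtain ⟨e, rfl⟩ := hj3 j (by rw [← hj]; exact h18)
        have e0 : d = (3 * n + 1) * (6 * e) := by rw [hj]; ring
        have e1 : d = 18 * (n * e) + 6 * e := by rw [e0]; ring
        have epos : 0 < e := by
          by_contra hcon
          have : (3 * n + 1) * (6 * e) ≤ 0 := mul_nonpos_of_nonneg_of_nonpos hmpos.le (by omega)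
          omega
        have e3 : e % 3 = 0 ∨ e % 3 = 2 := by omega
        rcases e3 with e3 | e3
        · right
          obtain ⟨f, rfl⟩ : ∃ f : ℤ, e = 3 * f := ⟨e / 3, by omega⟩
          exact ⟨f, by omega, by rw [e0]; ring⟩
        · left
          obtain ⟨f, rfl⟩ : ∃ f : ℤ, e = 3 * f + 2 := ⟨e / 3, by omega⟩
          exact ⟨f, by omega, by rw [e0]; ring⟩
    · obtain ⟨n, rfl⟩ : ∃ n : ℤ, m = 3 * n + 2 := ⟨m / 3, by omega⟩
      refine ⟨0, 3 * n + 2, 3 * (3 * n + 2), by omega, by omega, fun c q hq hpos => ?_,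
        fun d hd ho => ?_⟩
      · obtain ⟨t, ht⟩ := sq_mod (c := c)
        have e0 : (2 * (0 : ℤ) ^ 2 + 6 * (3 * n + 2)) * c ^ 2 + 6 * (3 * (3 * n + 2)) * q =
          2 * (3 * n + 2) * (3 * c ^ 2 + 9 * q) := by ring
        rw [e0] at hpos ⊢
        have e1 : (2 * (3 * n + 2) * (3 * c ^ 2 + 9 * q)) % 18 = 0 ∨
            (2 * (3 * n + 2) * (3 * c ^ 2 + 9 * q)) % 18 = 12 := by
          rcases ht with ht | ht
          · left
            have : 2 * (3 * n + 2) * (3 * c ^ 2 + 9 * q) = 18 * ((3 * n + 2) * (t + q)) := by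
              rw [ht]; ring
            omega
          · right
            have : 2 * (3 * n + 2) * (3 * c ^ 2 + 9 * q) =
                18 * ((3 * n + 2) * (t + q) + n) + 12 := by
              rw [ht]; ring
            omega
        exact ⟨⟨by omega, by omega⟩, hob _ e1⟩
      · have h18 := hob3 d ho
        obtain ⟨j, hj⟩ := hobs d hd ho
        obtain ⟨h6, -⟩ := hd
        obtain ⟨e, rfl⟩ := hj3 j (by rw [← hj]; exact h18)
        have e0 : d = (3 * n + 2) * (6 * e) := by rw [hj]; ring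
        have e1 : d = 18 * (n * e) + 12 * e := by rw [e0]; ring
        have epos : 0 < e := by
          by_contra hcon
          have : (3 * n + 2) * (6 * e) ≤ 0 := mul_nonpos_of_nonneg_of_nonpos hmpos.le (by omega)
          omega
        have e3 : e % 3 = 0 ∨ e % 3 = 1 := by omega
        rcases e3 with e3 | e3
        · right
          obtain ⟨f, rfl⟩ : ∃ f : ℤ, e = 3 * f := ⟨e / 3, by omega⟩
          exact ⟨f, by omega, by rw [e0]; ring⟩
        · left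
          obtain ⟨f, rfl⟩ : ∃ f : ℤ, e = 3 * f + 1 := ⟨e / 3, by omega⟩
          exact ⟨f, by omega, by rw [e0]; ring⟩
  · have hob : ∀ x : ℤ, ∀ p ∈ P, Obstructs p (2 * m * x) := by
      intro x p hp
      have hp3 : p ≠ 3 := fun h => h3 (h ▸ hp)
      rw [Obstructs, if_neg hp3]
      obtain ⟨s, hs⟩ := hdv p hp hp3
      exact ⟨s * x, by rw [hs]; ring⟩
    have hm2 : 2 ≤ m := by
      obtain ⟨p, hp⟩ := hne
      have hp3 : p ≠ 3 := fun h => h3 (h ▸ hp)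
      have h1 := Int.le_of_dvd hmpos (hdv p hp hp3)
      have h2 := (hP p hp).1.two_le
      omega
    rcases hm3' with h | h
    · obtain ⟨n, rfl⟩ : ∃ n : ℤ, m = 3 * n + 1 := ⟨m / 3, by omega⟩
      refine ⟨1, n, 3 * n + 1, by omega, by omega, fun c q hq hpos => ?_, fun d hd ho => ?_⟩
      · obtain ⟨t, ht⟩ := sq_mod (c := c)
        have e0 : (2 * (1 : ℤ) ^ 2 + 6 * n) * c ^ 2 + 6 * (3 * n + 1) * q =
          2 * (3 * n + 1) * (c ^ 2 + 3 * q) := by ring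
        rw [e0] at hpos ⊢
        have e1 : 1 ≤ c ^ 2 + 3 * q := by
          have h4 := sq_nonneg c
          by_contra hcon
          have h5 : c ^ 2 + 3 * q = 0 := by omega
          rw [h5] at hpos
          omega
        have hn1 : 1 ≤ n := by omega
        refine ⟨⟨by nlinarith, ?_⟩, hob _⟩
        rcases ht with ht | ht
        · left
          have : 2 * (3 * n + 1) * (c ^ 2 + 3 * q) = 6 * ((3 * n + 1) * (t + q)) := by
            rw [ht]; ring
          omega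
        · right
          have : 2 * (3 * n + 1) * (c ^ 2 + 3 * q) = 6 * ((3 * n + 1) * (t + q) + n) + 2 := by
            rw [ht]; ring
          omega
      · obtain ⟨j, hj⟩ := hobs d hd ho
        obtain ⟨h6, h62⟩ := hd
        have e1 : d = 6 * (n * j) + 2 * j := by rw [hj]; ring
        have jpos : 0 < j := by
          by_contra hcon
          have : 2 * (3 * n + 1) * j ≤ 0 := mul_nonpos_of_nonneg_of_nonpos (by omega) (by omega)
          omega
        have e3 : j % 3 = 0 ∨ j % 3 = 1 := by omega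
        rcases e3 with e3 | e3
        · right
          obtain ⟨f, rfl⟩ : ∃ f : ℤ, j = 3 * f := ⟨j / 3, by omega⟩
          exact ⟨f, by omega, by rw [hj]; ring⟩
        · left
          obtain ⟨f, rfl⟩ : ∃ f : ℤ, j = 3 * f + 1 := ⟨j / 3, by omega⟩
          exact ⟨f, by omega, by rw [hj]; ring⟩
    · obtain ⟨n, rfl⟩ : ∃ n : ℤ, m = 3 * n + 2 := ⟨m / 3, by omega⟩
      refine ⟨1, 2 * n + 1, 3 * n + 2, by omega, by omega, fun c q hq hpos => ?_,
        fun d hd ho => ?_⟩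
      · obtain ⟨t, ht⟩ := sq_mod (c := c)
        have e0 : (2 * (1 : ℤ) ^ 2 + 6 * (2 * n + 1)) * c ^ 2 + 6 * (3 * n + 2) * q =
          2 * (3 * n + 2) * (2 * c ^ 2 + 3 * q) := by ring
        rw [e0] at hpos ⊢
        have e1 : 2 ≤ 2 * c ^ 2 + 3 * q := by
          have h4 := sq_nonneg c
          by_contra hcon
          have h5 : 2 * c ^ 2 + 3 * q = 0 := by omega
          rw [h5] at hpos
          omega
        refine ⟨⟨by nlinarith, ?_⟩, hob _⟩
        rcases ht with ht | ht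
        · left
          have : 2 * (3 * n + 2) * (2 * c ^ 2 + 3 * q) = 6 * ((3 * n + 2) * (2 * t + q)) := by
            rw [ht]; ring
          omega
        · right
          have : 2 * (3 * n + 2) * (2 * c ^ 2 + 3 * q) =
              6 * ((3 * n + 2) * (2 * t + q) + 2 * n + 1) + 2 := by
            rw [ht]; ring
          omega
      · obtain ⟨j, hj⟩ := hobs d hd ho
        obtain ⟨h6, h62⟩ := hd
        have e1 : d = 6 * (n * j) + 4 * j := by rw [hj]; ring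
        have jpos : 0 < j := by
          by_contra hcon
          have : 2 * (3 * n + 2) * j ≤ 0 := mul_nonpos_of_nonneg_of_nonpos (by omega) (by omega)
          omega
        have e3 : j % 3 = 0 ∨ j % 3 = 2 := by omega
        rcases e3 with e3 | e3
        · right
          obtain ⟨f, rfl⟩ : ∃ f : ℤ, j = 3 * f := ⟨j / 3, by omega⟩
          exact ⟨f, by omega, by rw [hj]; ring⟩
        · left
          obtain ⟨f, rfl⟩ : ∃ f : ℤ, j = 3 * f + 2 := ⟨j / 3, by omega⟩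
          exact ⟨f, by omega, by rw [hj]; ring⟩

/-- **The universal lattices** for a finite set of bad prime numbers. -/
theorem exists_univ {P : Finset ℕ} (hne : P.Nonempty) (hP : ∀ p ∈ P, BadPrime p) {r : ℕ}
    (h7 : 7 ≤ r) (h11 : r ≤ 11) :
    ∃ A : Submodule ℤ L, IsGood A ∧ finrank ℤ A = r ∧
      ∀ d, 0 < d → (In A d ↔ Valid d ∧ ∀ p ∈ P, Obstructs p d) := by
  obtain ⟨ε, N, Q, hE, hQ, hf, hb⟩ := univ_coef hne hP
  obtain ⟨φ, φ', f1, f2, -⟩ := exists_phi (Q - 1).toNat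
  have hc : (((Q - 1).toNat : ℕ) : ℤ) = Q - 1 := Int.toNat_of_nonneg (by omega)
  rw [hc] at f2
  refine ⟨MR ε N Q φ r, good_MR hE hQ f1 f2 (by omega) h11, finrank_MR _ _ _ _ h11,
    fun d hd => ⟨?_, ?_⟩⟩
  · rintro ⟨v, ⟨c, rfl⟩, -, rfl⟩
    rw [LinearMap.comp_apply, disc_wv ε N Q f1 f2] at hd ⊢
    exact hf _ _ (add_nonneg (sq_nonneg _) (e8q_nonneg _)) hd
  · rintro ⟨h1, h2⟩
    rcases hb d h1 h2 with ⟨k, hk, rfl⟩ | ⟨k, hk, rfl⟩
    · exact in_add f1 f2 hk h7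
    · exact in_mul f1 f2 hk h7

/-- discriminants which are not obstructed satisfy the local condition -/
lemma loc_of_family {A : Submodule ℤ L} {D : Set ℤ} (hD : ∀ d ∈ D, Valid d)
    (hA : ∀ d ∈ D, In A d) (hp : ∀ p, BadPrime p → ∃ d ∈ D, ¬ Obstructs p d) : Loc A := by
  constructor
  · intro p h1 h2
    obtain ⟨d, hd, ho⟩ := hp p ⟨h1, Or.inr h2⟩
    obtain ⟨v, hv, -, rfl⟩ := hA d hd
    refine ⟨v, hv, fun h3 => ho ?_⟩
    obtain ⟨-, h6⟩ := hD _ hd
    rw [Obstructs, if_neg (by omega)]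
    obtain ⟨s, hs⟩ := h3
    exact ⟨s, by rw [mul_assoc, ← hs]; omega⟩
  · obtain ⟨d, hd, ho⟩ := hp 3 ⟨Nat.prime_three, Or.inl rfl⟩
    obtain ⟨v, hv, -, rfl⟩ := hA d hd
    refine ⟨v, hv, ?_⟩
    obtain ⟨-, h6⟩ := hD _ hd
    rw [Obstructs, if_pos rfl] at ho
    omega

/-- a number which is two modulo three has a prime divisor of this kind -/
lemma exists_prime_two (n : ℕ) : n % 3 = 2 → ∃ p, p.Prime ∧ p ∣ n ∧ p % 3 = 2 := by
  induction n using Nat.strong_induction_on with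
  | _ n ih =>
    intro h
    have h1 : n ≠ 1 := by omega
    have hp := Nat.minFac_prime h1
    obtain ⟨k, hk⟩ := Nat.minFac_dvd n
    have h3 : n.minFac % 3 = 0 ∨ n.minFac % 3 = 1 ∨ n.minFac % 3 = 2 := by omega
    rcases h3 with h3 | h3 | h3
    · exfalso
      have h4 : (3 : ℕ) ∣ n := (Nat.dvd_of_mod_eq_zero h3).trans (Nat.minFac_dvd n)
      omega
    · have h4 : k % 3 = 2 := by
        have h5 : n.minFac = 3 * (n.minFac / 3) + 1 := by omega
        have h6 : n = 3 * (n.minFac / 3 * k) + k := by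
          conv_lhs => rw [hk, h5]
          ring
        omega
      have h5 : k < n := by
        have h6 := hp.two_le
        have h7 : 0 < k := by omega
        nlinarith
      obtain ⟨p, p1, p2, p3⟩ := ih k h5 h4
      exact ⟨p, p1, hk ▸ p2.mul_left _, p3⟩
    · exact ⟨_, hp, Nat.minFac_dvd n, h3⟩

/-- an admissible number is not obstructed by a bad prime number -/
lemma not_obs {d : ℤ} (hd : Admissible d) (hv : Valid d) {p : ℕ} (hp : BadPrime p) :
    ¬ Obstructs p d := by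
  obtain ⟨h60, h4, h9, hq⟩ := hd
  obtain ⟨-, h6⟩ := hv
  intro ho
  unfold Obstructs at ho
  split_ifs at ho with h3
  · rcases ho with ho | ho
    · exact h9 (by omega)
    · -- `d / 6` is `2` modulo `3`, so it has a prime divisor which is `2` modulo `3`
      obtain ⟨e, rfl⟩ : ∃ e : ℤ, d = 6 * e := ⟨d / 6, by omega⟩
      obtain ⟨q, q1, q2, q3⟩ := exists_prime_two e.toNat (by omega)
      have q4 : (q : ℤ) ∣ e := by
        have : (q : ℤ) ∣ (e.toNat : ℤ) := by exact_mod_cast q2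
        rwa [Int.toNat_of_nonneg (by omega)] at this
      by_cases h2 : q = 2
      · subst h2
        obtain ⟨s, rfl⟩ := q4
        exact h4 ⟨3 * s, by push_cast; ring⟩
      · exact hq q q1 h2 (q4.mul_left 6) q3
  · obtain ⟨hp1, hp2⟩ := hp
    rcases hp2 with hp2 | hp2
    · exact h3 hp2
    · by_cases h2 : p = 2
      · subst h2
        exact h4 (by simpa using ho)
      · exact hq p hp1 h2 ((Dvd.intro_left 2 rfl).trans ho) hp2

end Pool.Agent.H574.CF
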