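import Pool.Agent.H574.CF.Dens
import Pool.Agent.H574.CF.Univ

/-!
# The density of the reduced triples without an obstruction
-/

set_option autoImplicit false

namespace Pool.Agent.H574.CF.Dens

open Filter Topology Finset

/-- the number is `1` modulo `3` or `3` modulo `9` -/
def Fine (v : ℕ) : Prop := v % 3 = 1 ∨ v % 9 = 3

instance (v : ℕ) : Decidable (Fine v) := inferInstanceAs (Decidable (_ ∨ _))

/-- the classes modulo nine which occur -/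
def V9 : Finset (ZMod 9 × ZMod 9 × ZMod 9) := univ.filter fun t =>
  t.1.val % 3 ≠ 2 ∧ t.2.2.val % 3 ≠ 2 ∧ (t.2.1.val ^ 2) % 3 = t.1.val * t.2.2.val % 3

/-- the classes without an obstruction at three -/
def G9 : Finset (ZMod 9 × ZMod 9 × ZMod 9) := V9.filter fun t =>
  Fine t.1.val ∨ Fine t.2.2.val ∨ Fine (t.1.val + t.2.1.val + t.2.2.val) ∨
    Fine (t.1.val + 2 * t.2.1.val + 4 * t.2.2.val)

set_option maxRecDepth 100000 in
theorem card_V9 : V9.card = 135 := by decide +kernel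

set_option maxRecDepth 100000 in
theorem card_G9 : G9.card = 130 := by decide +kernel

/-- the conditions modulo three -/
def Mod3 (t : ℕ × ℕ × ℕ) : Prop :=
  t.1 % 3 ≠ 2 ∧ t.2.2 % 3 ≠ 2 ∧ t.2.1 ^ 2 % 3 = t.1 * t.2.2 % 3

/-- no obstruction at three -/
def Fine3 (t : ℕ × ℕ × ℕ) : Prop :=
  Fine t.1 ∨ Fine t.2.2 ∨ Fine (t.1 + t.2.1 + t.2.2) ∨ Fine (t.1 + 2 * t.2.1 + 4 * t.2.2)

/-- all three numbers are divisible by `p` -/
def DivAll (p : ℕ) (t : ℕ × ℕ × ℕ) : Prop := p ∣ t.1 ∧ p ∣ t.2.1 ∧ p ∣ t.2.2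

lemma fine_congr {v w : ℕ} (h : v % 9 = w % 9) : Fine v ↔ Fine w := by
  unfold Fine
  omega

lemma mem_V9 {t : ℕ × ℕ × ℕ} : cls 9 t ∈ V9 ↔ Mod3 t := by
  obtain ⟨A, B, C⟩ := t
  simp only [V9, mem_filter, mem_univ, true_and, cls, ZMod.val_natCast, Mod3]
  have h1 : (B % 9) ^ 2 % 3 = B ^ 2 % 3 := by
    rw [Nat.pow_mod, Nat.mod_mod_of_dvd B (by norm_num : 3 ∣ 9), ← Nat.pow_mod]
  have h2 : (A % 9) * (C % 9) % 3 = A * C % 3 := by
    rw [Nat.mul_mod, Nat.mod_mod_of_dvd A (by norm_num : 3 ∣ 9),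
      Nat.mod_mod_of_dvd C (by norm_num : 3 ∣ 9), ← Nat.mul_mod]
  rw [h1, h2, Nat.mod_mod_of_dvd A (by norm_num : 3 ∣ 9),
    Nat.mod_mod_of_dvd C (by norm_num : 3 ∣ 9)]

lemma mem_G9 {t : ℕ × ℕ × ℕ} : cls 9 t ∈ G9 ↔ Mod3 t ∧ Fine3 t := by
  rw [G9, mem_filter, mem_V9]
  obtain ⟨A, B, C⟩ := t
  simp only [cls, ZMod.val_natCast, Fine3]
  rw [fine_congr (by omega : A % 9 % 9 = A % 9), fine_congr (by omega : C % 9 % 9 = C % 9),
    fine_congr (by omega : (A % 9 + B % 9 + C % 9) % 9 = (A + B + C) % 9),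
    fine_congr (by omega : (A % 9 + 2 * (B % 9) + 4 * (C % 9)) % 9 = (A + 2 * B + 4 * C) % 9)]

lemma cls_zero {p : ℕ} {t : ℕ × ℕ × ℕ} : cls p t = 0 ↔ DivAll p t := by
  obtain ⟨A, B, C⟩ := t
  simp only [cls, DivAll, Prod.mk_eq_zero, ZMod.natCast_eq_zero_iff]

lemma card_div {p : ℕ} (hp : 0 < p) (D : ℕ) (s : Finset (ℕ × ℕ × ℕ))
    (hs : ∀ t ∈ s, t ∈ tri D ∧ 1 ≤ t.1 ∧ DivAll p t) : s.card ≤ 2 * (D / p) ^ 3 := by
  have h1 : s.card ≤ (Icc 1 (D / p) ×ˢ range (D / p + 1) ×ˢ Icc 1 (D / p)).card := by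
    refine card_le_card_of_injOn (fun t => (t.1 / p, t.2.1 / p, t.2.2 / p)) ?_ ?_
    · rintro ⟨A, B, C⟩ ht
      obtain ⟨h1, h2, h3, h4, h5⟩ := hs _ (mem_coe.1 ht)
      rw [mem_tri] at h1
      simp only at h1 h2 h3 h4 h5
      obtain ⟨a, rfl⟩ := h3
      obtain ⟨b, rfl⟩ := h4
      obtain ⟨c, rfl⟩ := h5
      have a1 : 1 ≤ a := by
        rcases Nat.eq_zero_or_pos a with rfl | h
        · simp at h2
        · exact h
      have a2 : a ≤ c := Nat.le_of_mul_le_mul_left h1.2.1 hp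
      have a3 : b ≤ a := Nat.le_of_mul_le_mul_left h1.1 hp
      have a4 : c ≤ D / p := (Nat.le_div_iff_mul_le hp).2 (by linarith [h1.2.2, mul_comm p c])
      simp only [coe_product, Set.mem_prod, mem_coe, mem_Icc, mem_range,
        Nat.mul_div_cancel_left _ hp]
      omega
    · rintro ⟨A, B, C⟩ ht ⟨A', B', C'⟩ ht' hh
      obtain ⟨-, -, h3, h4, h5⟩ := hs _ (mem_coe.1 ht)
      obtain ⟨-, -, h3', h4', h5'⟩ := hs _ (mem_coe.1 ht')
      simp only [Prod.mk.injEq] at hh h3 h4 h5 h3' h4' h5' ⊢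
      obtain ⟨a, rfl⟩ := h3
      obtain ⟨b, rfl⟩ := h4
      obtain ⟨c, rfl⟩ := h5
      obtain ⟨a', rfl⟩ := h3'
      obtain ⟨b', rfl⟩ := h4'
      obtain ⟨c', rfl⟩ := h5'
      simp only [Nat.mul_div_cancel_left _ hp] at hh
      obtain ⟨rfl, rfl, rfl⟩ := hh
      exact ⟨rfl, rfl, rfl⟩
  refine h1.trans ?_
  rw [card_product, card_product, Nat.card_Icc, card_range, Nat.add_sub_cancel]
  rcases Nat.eq_zero_or_pos (D / p) with h | h
  · rw [h]; simp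
  · nlinarith [Nat.mul_le_mul h (Nat.mul_le_mul (le_refl (D / p)) (le_refl (D / p)))]

lemma sum_cubes (z : ℕ) (hz : 1 ≤ z) (D : ℕ) :
    ∑ p ∈ Ioc z D, 1 / (p : ℝ) ^ 3 ≤ 1 / (2 * (z : ℝ) * (z + 1)) := by
  have hz0 : (0 : ℝ) < z := by exact_mod_cast hz
  rcases le_or_gt z D with hzD | hzD
  · have key : ∀ n : ℕ, ∑ p ∈ Ioc z (z + n), 1 / (p : ℝ) ^ 3 ≤
        1 / (2 * (z : ℝ) * (z + 1)) - 1 / (2 * ((z : ℝ) + n) * (z + n + 1)) := by
      intro n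
      induction n with
      | zero => simp
      | succ n ih =>
        rw [← add_assoc, sum_Ioc_succ_top (by omega)]
        have h1 : (0 : ℝ) < (z : ℝ) + n := by positivity
        have h2 : 1 / (((z + n + 1 : ℕ) : ℝ)) ^ 3 ≤ 1 / (2 * ((z : ℝ) + n) * (z + n + 1)) -
            1 / (2 * (z + (n + 1 : ℕ)) * (z + (n + 1 : ℕ) + 1)) := by
          push_cast
          have h3 : 1 / (2 * ((z : ℝ) + n) * (z + n + 1)) -
            1 / (2 * (z + (n + 1)) * (z + (n + 1) + 1)) =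
              1 / (((z : ℝ) + n) * (z + n + 1) * (z + n + 2)) := by
            field_simp
            ring
          rw [h3]
          refine one_div_le_one_div_of_le (by positivity) ?_
          nlinarith
        linarith
    obtain ⟨n, rfl⟩ := Nat.exists_eq_add_of_le hzD
    have h1 : (0 : ℝ) ≤ 1 / (2 * ((z : ℝ) + n) * (z + n + 1)) := by positivity
    linarith [key n]
  · rw [Ioc_eq_empty_of_le hzD.le, sum_empty]
    positivity

open Classical in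
lemma tail (z : ℕ) (hz : 1 ≤ z) (D : ℕ) :
    ((((tri D).filter fun t => 4 ≤ t.1 ∧ ∃ p, z < p ∧ DivAll p t).card : ℕ) : ℝ) ≤
      (D : ℝ) ^ 3 * (1 / z) := by
  have h1 : ((tri D).filter fun t => 4 ≤ t.1 ∧ ∃ p, z < p ∧ DivAll p t) ⊆
      (Ioc z D).biUnion fun p => (tri D).filter fun t => 4 ≤ t.1 ∧ DivAll p t := by
    intro t ht
    obtain ⟨ht, h4, p, hp, hd⟩ := mem_filter.1 ht
    refine mem_biUnion.2 ⟨p, mem_Ioc.2 ⟨hp, ?_⟩, mem_filter.2 ⟨ht, h4, hd⟩⟩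
    have h5 := Nat.le_of_dvd (by omega) hd.1
    have h6 := mem_tri.1 ht
    omega
  have h2 := (card_le_card h1).trans card_biUnion_le
  have h3 : ∀ p ∈ Ioc z D, ((tri D).filter fun t => 4 ≤ t.1 ∧ DivAll p t).card ≤
      2 * (D / p) ^ 3 := fun p hp => card_div (by have := (mem_Ioc.1 hp).1; omega) D _ fun t ht => by
    obtain ⟨h5, h6, h7⟩ := mem_filter.1 ht
    exact ⟨h5, by omega, h7⟩
  have h4 : ((((tri D).filter fun t => 4 ≤ t.1 ∧ ∃ p, z < p ∧ DivAll p t).card : ℕ) : ℝ) ≤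
      ∑ p ∈ Ioc z D, 2 * (((D / p : ℕ)) : ℝ) ^ 3 := by
    exact_mod_cast h2.trans (sum_le_sum h3)
  have h5 : ∑ p ∈ Ioc z D, 2 * (((D / p : ℕ)) : ℝ) ^ 3 ≤
      ∑ p ∈ Ioc z D, 2 * (D : ℝ) ^ 3 * (1 / (p : ℝ) ^ 3) := by
    refine sum_le_sum fun p hp => ?_
    have h6 : (((D / p : ℕ)) : ℝ) ≤ (D : ℝ) / p := Nat.cast_div_le
    have h7 : (((D / p : ℕ)) : ℝ) ^ 3 ≤ ((D : ℝ) / p) ^ 3 := by gcongr
    rw [div_pow] at h7
    calc 2 * (((D / p : ℕ)) : ℝ) ^ 3 ≤ 2 * ((D : ℝ) ^ 3 / (p : ℝ) ^ 3) := by linarith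
      _ = _ := by ring
  have h5' : ∑ p ∈ Ioc z D, 2 * (D : ℝ) ^ 3 * (1 / (p : ℝ) ^ 3) =
      2 * (D : ℝ) ^ 3 * ∑ p ∈ Ioc z D, 1 / (p : ℝ) ^ 3 := by rw [mul_sum]
  rw [h5'] at h5
  have h6 := sum_cubes z hz D
  have hz0 : (1 : ℝ) ≤ z := by exact_mod_cast hz
  have h7 : (1 : ℝ) / (2 * z * (z + 1)) ≤ 1 / (2 * z) := by
    refine one_div_le_one_div_of_le (by positivity) ?_
    nlinarith
  have h8 : (0 : ℝ) ≤ (D : ℝ) ^ 3 := by positivity
  calc _ ≤ _ := h4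
    _ ≤ _ := h5
    _ ≤ 2 * (D : ℝ) ^ 3 * (1 / (2 * z)) :=
      mul_le_mul_of_nonneg_left (h6.trans h7) (by positivity)
    _ = (D : ℝ) ^ 3 * (1 / z) := by field_simp

end Pool.Agent.H574.CF.Dens
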