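import Pool.Agent.H574.CF.Rank

/-!
# Groups of Hodge classes of rank eleven without an admissible discriminant
-/

set_option autoImplicit false

namespace Pool.Agent.H574.CF

open Pool.Agent.Q63.CF Pool.Agent.Y95.Q Matrix Module

/-- the coefficients -/
abbrev C0 : Type := ℤ × (Fin 2 → ℤ) × (Fin 8 → ℤ)

/-- the vectors `x h + y (e + N f) + (u, φ u)` -/
def xv0 (N : ℤ) (φ : Matrix (Fin 8) (Fin 8) ℤ) : C0 →ₗ[ℤ] L0 where
  toFun c := (fun _ => c.1, c.2.1, N • c.2.1, c.2.2, φ.mulVec c.2.2)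
  map_add' c d := by
    refine Prod.ext_iff.2 ⟨rfl, Prod.ext_iff.2 ⟨rfl, Prod.ext_iff.2 ⟨?_,
      Prod.ext_iff.2 ⟨rfl, ?_⟩⟩⟩⟩
    · exact smul_add N c.2.1 d.2.1
    · exact Matrix.mulVec_add φ c.2.2 d.2.2
  map_smul' n c := by
    refine Prod.ext_iff.2 ⟨?_, Prod.ext_iff.2 ⟨rfl, Prod.ext_iff.2 ⟨?_,
      Prod.ext_iff.2 ⟨rfl, ?_⟩⟩⟩⟩
    · funext i
      simp
    · exact smul_comm N n c.2.1
    · exact Matrix.mulVec_smul φ n c.2.2

/-- the vectors `x h + y (e + N f) + (u, φ u)` -/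
def xv (N : ℤ) (φ : Matrix (Fin 8) (Fin 8) ℤ) : C0 →ₗ[ℤ] L := toL0.symm.toLinearMap ∘ₗ xv0 N φ

/-- the group of rank eleven -/
def MX (N : ℤ) (φ : Matrix (Fin 8) (Fin 8) ℤ) : Submodule ℤ L := LinearMap.range (xv N φ)

lemma toL0_xv (N : ℤ) (φ : Matrix (Fin 8) (Fin 8) ℤ) (c : C0) : toL0 (xv N φ c) = xv0 N φ c := by
  simp [xv]

lemma xv_inj (N : ℤ) (φ : Matrix (Fin 8) (Fin 8) ℤ) : Function.Injective (xv N φ) := by
  intro c d hcd
  have h0 : xv0 N φ c = xv0 N φ d := by rw [← toL0_xv, ← toL0_xv, hcd]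
  have h1 : c.1 = d.1 := congrFun (congrArg (fun v : L0 => v.1) h0) 0
  have h2 : c.2.1 = d.2.1 := congrArg (fun v : L0 => v.2.1) h0
  have h3 : c.2.2 = d.2.2 := congrArg (fun v : L0 => v.2.2.2.1) h0
  exact Prod.ext_iff.2 ⟨h1, Prod.ext_iff.2 ⟨h2, h3⟩⟩

lemma finrank_MX (N : ℤ) (φ : Matrix (Fin 8) (Fin 8) ℤ) : finrank ℤ (MX N φ) = 11 := by
  unfold MX
  rw [LinearMap.finrank_range_of_inj (xv_inj N φ)]
  simp

lemma xv_h (N : ℤ) (φ : Matrix (Fin 8) (Fin 8) ℤ) : xv N φ (1, 0, 0) = h := by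
  apply toL0.injective
  rw [toL0_xv, toL0_h]
  refine Prod.ext_iff.2 ⟨rfl, Prod.ext_iff.2 ⟨rfl, Prod.ext_iff.2 ⟨?_,
      Prod.ext_iff.2 ⟨rfl, ?_⟩⟩⟩⟩
  · exact smul_zero N
  · exact Matrix.mulVec_zero φ

lemma sat_MX (N : ℤ) (φ : Matrix (Fin 8) (Fin 8) ℤ) : Saturated (MX N φ) := by
  rintro n v hn ⟨c, hc⟩
  refine ⟨((toL0 v).1 0, (toL0 v).2.1, (toL0 v).2.2.2.1), ?_⟩
  have h0 : xv0 N φ c = n • toL0 v := by rw [← toL0_xv, hc, map_smul]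
  have h1 : c.1 = n * (toL0 v).1 0 := congrFun (congrArg (fun v : L0 => v.1) h0) 0
  have h2 : c.2.1 = n • (toL0 v).2.1 := congrArg (fun v : L0 => v.2.1) h0
  have h3 : c.2.2 = n • (toL0 v).2.2.2.1 := congrArg (fun v : L0 => v.2.2.2.1) h0
  have h4 : c = n • ((toL0 v).1 0, (toL0 v).2.1, (toL0 v).2.2.2.1) :=
    Prod.ext_iff.2 ⟨h1, Prod.ext_iff.2 ⟨h2, h3⟩⟩
  apply toL0.injective
  rw [toL0_xv]
  have h5 : n • xv0 N φ ((toL0 v).1 0, (toL0 v).2.1, (toL0 v).2.2.2.1) = n • toL0 v := by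
    rw [← h0, ← map_smul, ← h4]
  exact smul_right_injective _ hn h5

lemma ip_xv {p : ℤ} (N : ℤ) {φ φ' : Matrix (Fin 8) (Fin 8) ℤ}
    (h1 : φᵀ * CartanMatrix.E₈ = CartanMatrix.E₈ * φ') (h2 : φ' * φ = (p - 1) • 1) (c : C0) :
    ip (xv N φ c) (xv N φ c) =
      3 * c.1 ^ 2 + 2 * N * (c.2.1 ⬝ᵥ c.2.1) + 2 * p * e8q c.2.2 := by
  show ip0 (xv0 N φ c) (xv0 N φ c) = _
  have h3 := e8_phi h1 h2 c.2.2 c.2.2
  rw [e8_self c.2.2] at h3
  show (fun _ : Fin 3 => c.1) ⬝ᵥ (fun _ : Fin 3 => c.1) + (c.2.1 ⬝ᵥ (N • c.2.1) +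
    (N • c.2.1) ⬝ᵥ c.2.1) + e8 c.2.2 c.2.2 + e8 (φ.mulVec c.2.2) (φ.mulVec c.2.2) = _
  rw [h3, e8_self, dotProduct_smul, smul_dotProduct]
  simp only [dotProduct, Fin.sum_univ_three, Fin.sum_univ_two, smul_eq_mul]
  ring

lemma ip_h_xv (N : ℤ) (φ : Matrix (Fin 8) (Fin 8) ℤ) (c : C0) : ip h (xv N φ c) = 3 * c.1 := by
  have h1 : ip h (xv N φ c) = ip0 (fun _ => 1, 0) (xv0 N φ c) := rfl
  rw [h1, ip0_h]
  show c.1 + c.1 + c.1 = _
  ring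

lemma disc_xv {p : ℤ} (N : ℤ) {φ φ' : Matrix (Fin 8) (Fin 8) ℤ}
    (h1 : φᵀ * CartanMatrix.E₈ = CartanMatrix.E₈ * φ') (h2 : φ' * φ = (p - 1) • 1) (c : C0) :
    disc (xv N φ c) = 6 * N * (c.2.1 ⬝ᵥ c.2.1) + 6 * p * e8q c.2.2 := by
  unfold disc
  rw [ip_xv N h1 h2, ip_h_xv]
  ring

lemma good_MX {p : ℤ} {N : ℤ} (hp : 2 ≤ p) (hN : 2 ≤ N) {φ φ' : Matrix (Fin 8) (Fin 8) ℤ}
    (h1 : φᵀ * CartanMatrix.E₈ = CartanMatrix.E₈ * φ') (h2 : φ' * φ = (p - 1) • 1) :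
    IsGood (MX N φ) where
  mem := ⟨_, xv_h N φ⟩
  sat := sat_MX N φ
  pos := by
    rintro _ ⟨c, rfl⟩ hc
    rw [ip_xv N h1 h2]
    have n1 : 0 ≤ c.2.1 ⬝ᵥ c.2.1 := by
      simp only [dotProduct, Fin.sum_univ_two]
      nlinarith [mul_self_nonneg (c.2.1 0), mul_self_nonneg (c.2.1 1)]
    have n2 := e8q_nonneg c.2.2
    by_cases hx : c.1 = 0
    · by_cases hu : c.2.2 = 0
      · have hy : c.2.1 ≠ 0 := by
          intro hy
          apply hc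
          have : c = 0 := Prod.ext_iff.2 ⟨hx, Prod.ext_iff.2 ⟨hy, hu⟩⟩
          rw [this, map_zero]
        have n3 : c.2.1 ⬝ᵥ c.2.1 ≠ 0 := fun h => hy (dotProduct_self_eq_zero.1 h)
        have n4 : 1 ≤ c.2.1 ⬝ᵥ c.2.1 := by omega
        nlinarith [sq_nonneg c.1]
      · have n4 : 1 ≤ e8q c.2.2 := e8q_pos _ hu
        nlinarith [sq_nonneg c.1]
    · have n3 : 1 ≤ c.1 ^ 2 := by
        have : 0 < c.1 ^ 2 := by positivity
        omega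
      nlinarith

lemma sat_xv (N : ℤ) (φ : Matrix (Fin 8) (Fin 8) ℤ) :
    Saturated (Submodule.span ℤ {h, xv N φ (0, Pi.single 0 1, 0)}) := by
  intro n v hn hv
  obtain ⟨x, y, hxy⟩ := Submodule.mem_span_pair.1 hv
  rw [← xv_h N φ, ← map_smul, ← map_smul, ← map_add] at hxy
  obtain ⟨c, rfl⟩ := sat_MX N φ n v hn ⟨_, hxy⟩
  rw [← map_smul] at hxy
  have h1 := xv_inj N φ hxy
  have h2 : (0 : Fin 8 → ℤ) = n • c.2.2 := by
    have := congrArg (fun c : C0 => c.2.2) h1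
    simpa using this
  have h3 : y • (Pi.single 0 1 : Fin 2 → ℤ) = n • c.2.1 := by
    have := congrArg (fun c : C0 => c.2.1) h1
    simpa using this
  have h4 : c.2.2 = 0 := by
    rcases smul_eq_zero.1 h2.symm with h | h
    · exact absurd h hn
    · exact h
  have h5 : c.2.1 1 = 0 := by
    have h6 := congrFun h3 1
    simp at h6
    rcases h6 with h | h
    · exact absurd h hn
    · exact h
  refine Submodule.mem_span_pair.2 ⟨c.1, c.2.1 0, ?_⟩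
  rw [← xv_h N φ, ← map_smul, ← map_smul, ← map_add]
  congr 1
  refine Prod.ext_iff.2 ⟨?_, Prod.ext_iff.2 ⟨?_, ?_⟩⟩
  · simp
  · funext i
    fin_cases i
    · simp
    · simpa using h5.symm
  · simp [h4]

/-- extension by zero -/
def zx {a n : ℕ} (y : Fin a → ℤ) (i : Fin n) : ℤ := if hi : i.1 < a then y ⟨i.1, hi⟩ else 0

/-- restriction -/
def rs {a n : ℕ} (ha : a ≤ n) (y : Fin n → ℤ) (i : Fin a) : ℤ := y ⟨i.1, i.2.trans_le ha⟩

lemma rs_zx {a n : ℕ} (ha : a ≤ n) (y : Fin a → ℤ) : rs ha (zx y : Fin n → ℤ) = y := by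
  funext i
  simp [rs, zx]

/-- the coefficients with all but `a + b + 1` coordinates zero -/
def inc (a b : ℕ) : (ℤ × (Fin a → ℤ) × (Fin b → ℤ)) →ₗ[ℤ] C0 where
  toFun c := (c.1, zx c.2.1, zx c.2.2)
  map_add' c d := by
    refine Prod.ext_iff.2 ⟨rfl, Prod.ext_iff.2 ⟨?_, ?_⟩⟩
    · funext i
      simp only [zx, Prod.fst_add, Prod.snd_add, Pi.add_apply]
      split_ifs <;> simp
    · funext i
      simp only [zx, Prod.fst_add, Prod.snd_add, Pi.add_apply]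
      split_ifs <;> simp
  map_smul' n c := by
    refine Prod.ext_iff.2 ⟨rfl, Prod.ext_iff.2 ⟨?_, ?_⟩⟩
    · funext i
      simp only [zx, Prod.smul_fst, Prod.smul_snd, Pi.smul_apply]
      split_ifs <;> simp
    · funext i
      simp only [zx, Prod.smul_fst, Prod.smul_snd, Pi.smul_apply]
      split_ifs <;> simp

lemma inc_inj {a b : ℕ} (ha : a ≤ 2) (hb : b ≤ 8) : Function.Injective (inc a b) := by
  intro c d hcd
  have h1 : c.1 = d.1 := congrArg (fun v : C0 => v.1) hcd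
  have h2 : c.2.1 = d.2.1 := by
    rw [← rs_zx ha c.2.1, ← rs_zx ha d.2.1]
    exact congrArg (fun v : C0 => rs ha v.2.1) hcd
  have h3 : c.2.2 = d.2.2 := by
    rw [← rs_zx hb c.2.2, ← rs_zx hb d.2.2]
    exact congrArg (fun v : C0 => rs hb v.2.2) hcd
  exact Prod.ext_iff.2 ⟨h1, Prod.ext_iff.2 ⟨h2, h3⟩⟩

/-- the group of rank `a + b + 1` -/
def MY (N : ℤ) (φ : Matrix (Fin 8) (Fin 8) ℤ) (a b : ℕ) : Submodule ℤ L :=
  LinearMap.range (xv N φ ∘ₗ inc a b)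

lemma MY_le (N : ℤ) (φ : Matrix (Fin 8) (Fin 8) ℤ) (a b : ℕ) : MY N φ a b ≤ MX N φ := by
  rintro _ ⟨c, rfl⟩
  exact ⟨_, rfl⟩

lemma finrank_MY (N : ℤ) (φ : Matrix (Fin 8) (Fin 8) ℤ) {a b : ℕ} (ha : a ≤ 2) (hb : b ≤ 8) :
    finrank ℤ (MY N φ a b) = a + b + 1 := by
  have hinj : Function.Injective (xv N φ ∘ₗ inc a b) := fun c d hcd =>
    inc_inj ha hb (xv_inj N φ hcd)
  unfold MY
  rw [LinearMap.finrank_range_of_inj hinj]
  simp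
  ring

lemma zx_zero {a n : ℕ} : (zx (0 : Fin a → ℤ) : Fin n → ℤ) = 0 := by
  funext i
  simp [zx]

lemma zx_rs {a n : ℕ} (ha : a ≤ n) {m : ℤ} (hm : m ≠ 0) {y : Fin n → ℤ} {z : Fin a → ℤ}
    (hy : m • y = zx z) : zx (rs ha y) = y := by
  funext i
  have h1 := congrFun hy i
  simp only [zx, rs, Pi.smul_apply, smul_eq_mul] at h1 ⊢
  split_ifs at h1 ⊢ with h
  · rfl
  · rcases mul_eq_zero.1 h1 with h2 | h2
    · exact absurd h2 hm
    · exact h2.symm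

lemma sat_MY (N : ℤ) (φ : Matrix (Fin 8) (Fin 8) ℤ) {a b : ℕ} (ha : a ≤ 2) (hb : b ≤ 8) :
    Saturated (MY N φ a b) := by
  rintro n v hn ⟨d, hd⟩
  obtain ⟨c, rfl⟩ := sat_MX N φ n v hn ⟨_, hd⟩
  rw [← map_smul] at hd
  have h1 : inc a b d = n • c := xv_inj N φ hd
  have h2 : n • c.2.1 = zx d.2.1 := congrArg (fun v : C0 => v.2.1) h1.symm
  have h3 : n • c.2.2 = zx d.2.2 := congrArg (fun v : C0 => v.2.2) h1.symm
  refine ⟨(c.1, rs ha c.2.1, rs hb c.2.2), ?_⟩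
  have h4 : inc a b (c.1, rs ha c.2.1, rs hb c.2.2) = c :=
    Prod.ext_iff.2 ⟨rfl, Prod.ext_iff.2 ⟨zx_rs ha hn h2, zx_rs hb hn h3⟩⟩
  rw [LinearMap.comp_apply, h4]

/-- **The bound is sharp**, at every bad prime number. -/
theorem exists_rank {p k : ℤ} (hp : 2 ≤ p) (hk : 0 < k) {r : ℕ} (h2 : 2 ≤ r) (h11 : r ≤ 11) :
    ∃ A, IsGood A ∧ finrank ℤ A = r ∧ In A (6 * p * k) ∧ ∀ v ∈ A, 6 * p ∣ disc v := by
  obtain ⟨φ, φ', f1, f2, -⟩ := exists_phi (p - 1).toNat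
  have hc : (((p - 1).toNat : ℕ) : ℤ) = p - 1 := Int.toNat_of_nonneg (by omega)
  rw [hc] at f2
  have hN : 2 ≤ p * k := by nlinarith
  obtain ⟨a, b, ha1, ha, hb, hab⟩ : ∃ a b : ℕ, 1 ≤ a ∧ a ≤ 2 ∧ b ≤ 8 ∧ a + b + 1 = r := by
    by_cases h : r = 2
    · exact ⟨1, 0, by omega, by omega, by omega, by omega⟩
    · exact ⟨2, r - 3, by omega, by omega, by omega, by omega⟩
  have hg : IsGood (MY (p * k) φ a b) := by
    have hg0 := good_MX hp hN f1 f2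
    refine ⟨⟨(1, 0, 0), ?_⟩, sat_MY _ _ ha hb, fun v hv => hg0.pos v (MY_le _ _ _ _ hv)⟩
    rw [LinearMap.comp_apply, ← xv_h (p * k) φ]
    congr 1
    exact Prod.ext_iff.2 ⟨rfl, Prod.ext_iff.2 ⟨zx_zero, zx_zero⟩⟩
  refine ⟨_, hg, hab ▸ finrank_MY _ _ ha hb, ⟨xv (p * k) φ (0, Pi.single 0 1, 0),
    ⟨(0, rs ha (Pi.single 0 1), 0), ?_⟩, sat_xv _ _, ?_⟩, ?_⟩
  · rw [LinearMap.comp_apply]
    congr 1
    refine Prod.ext_iff.2 ⟨rfl, Prod.ext_iff.2 ⟨?_, zx_zero⟩⟩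
    funext i
    show zx (rs ha (Pi.single 0 1)) i = (Pi.single 0 1 : Fin 2 → ℤ) i
    fin_cases i
    · have h0 : a ≠ 0 := by omega
      simp [zx, rs, h0]
    · simp [zx, rs]
  · rw [disc_xv _ f1 f2]
    simp [dotProduct, e8q]
    ring
  · rintro _ ⟨c, rfl⟩
    rw [LinearMap.comp_apply, disc_xv _ f1 f2]
    exact ⟨k * ((inc a b c).2.1 ⬝ᵥ (inc a b c).2.1) + e8q (inc a b c).2.2, by ring⟩

/-- the discriminants do not depend on the isometry -/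
lemma all_disc {R : CubicFourfold → Submodule ℤ L → Prop} (hR : IsHodgeTheory R)
    {X : CubicFourfold} {A A' : Submodule ℤ L} (hX : R X A) (hX' : R X A') {m : ℤ}
    (hm : ∀ v ∈ A, m ∣ disc v) : ∀ v ∈ A', m ∣ disc v := by
  intro v hv
  obtain ⟨g, hg1, hg2, rfl⟩ := hR.unique X _ _ hX hX'
  obtain ⟨w, hw, rfl⟩ := hv
  have h1 : disc ((g : L →ₗ[ℤ] L) w) = disc w := disc_map hg1 hg2 _
  rw [h1]
  exact hm w hw

lemma group_of_good {A : Submodule ℤ L} (hA : IsGood A) : IsHodgeGroup A where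
  mem := hA.mem
  sat := hA.sat
  pos v hv h0 := by
    have := hA.pos v hv h0
    omega
  disc_two v hv h1 h2 := by
    have h0 : v ≠ 0 := by
      rintro rfl
      revert h1
      decide
    have := hA.pos v hv h0
    omega
  disc_six v hv h1 h2 := by
    have h0 : v ≠ 0 := by
      rintro rfl
      revert h2
      decide
    have := hA.pos v hv h0
    omega

lemma not_adm {p : ℕ} (hp : p.Prime) (hb : p = 3 ∨ p % 3 = 2) {d : ℤ} (hd : 6 * (p : ℤ) ∣ d) :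
    ¬ Admissible d := by
  rintro ⟨-, h4, h9, hq⟩
  obtain ⟨e, rfl⟩ := hd
  rcases hb with rfl | hb
  · exact h9 ⟨2 * e, by push_cast; ring⟩
  · by_cases h2 : p = 2
    · subst h2
      exact h4 ⟨3 * e, by push_cast; ring⟩
    · exact hq p hp h2 ⟨6 * e, by ring⟩ hb

end Pool.Agent.H574.CF
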