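import Pool.Agent.H574.CF.Types2

/-!
# The numbers of types of groups of rank three
-/

set_option autoImplicit false

namespace Pool.Agent.H574.CF

open Pool.Agent.Q63.CF Pool.Agent.Y95.Q Module Dens Filter Topology

lemma eq_of_sat {N K : Submodule ℤ L} (hN : Saturated N) (hle : N ≤ K)
    (hr : finrank ℤ N = finrank ℤ K) : N = K := by
  refine le_antisymm hle fun v hv => ?_
  have h1 := Submodule.finrank_quotient_add_finrank (N.comap K.subtype)
  have h2 : finrank ℤ (N.comap K.subtype) = finrank ℤ N :=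
    LinearEquiv.finrank_eq (Submodule.comapSubtypeEquivOfLe hle)
  have h3 : finrank ℤ (K ⧸ N.comap K.subtype) = 0 := by omega
  rw [Module.finrank_eq_zero_iff_isTorsion] at h3
  obtain ⟨⟨n, hn⟩, h4⟩ := h3 (x := Submodule.Quotient.mk ⟨v, hv⟩)
  have h5 : n • (⟨v, hv⟩ : K) ∈ N.comap K.subtype := by
    rw [← Submodule.Quotient.mk_eq_zero]
    exact h4
  exact hN n v (nonZeroDivisors.ne_zero hn) h5

lemma one_le_of_occ {t : ℕ × ℕ × ℕ} (ho : Occ t) : 1 ≤ t.1 := le_trans (by norm_num) ho.1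

/-- a locus determines the form -/
theorem form_of_locus {R : CubicFourfold → Submodule ℤ L → Prop} (hR : IsHodgeTheory R)
    {M M' : Submodule ℤ L} {t t' : ℕ × ℕ × ℕ} (hM : IsGood M) (hr : finrank ℤ M = 3)
    (hf : HasForm M t) (hM' : IsGood M') (hr' : finrank ℤ M' = 3) (hf' : HasForm M' t')
    (hle : Locus R M ⊆ Locus R M') : t = t' := by
  obtain ⟨g, hg1, hg2, hle2⟩ := sub_of_locus hR hM hle
  let G : M ≃ₗ[ℤ] M.map (g : L →ₗ[ℤ] L) := g.submoduleMap M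
  have hG : ∀ x : M, (G x : L) = g x := fun x => LinearEquiv.submoduleMap_apply g M x
  have h1 : M' = M.map (g : L →ₗ[ℤ] L) := by
    refine eq_of_sat hM'.sat hle2 ?_
    rw [hr', ← hr]
    exact LinearEquiv.finrank_eq G
  have h2 : HasForm M' t := by
    rw [h1]
    refine form_of_isom hM.mem G (fun x y => ?_) (fun x hx => ?_) hf
    · rw [hG, hG, hg1]
    · rw [hG, hx, hg2]
  exact form_unique h2 hf' (one_le_of_occ (occ_of hM' hr' h2)) (one_le_of_occ (occ_of hM' hr' hf'))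

/-- `M` is good of rank three -/
def Good3 (M : Submodule ℤ L) : Prop := IsGood M ∧ finrank ℤ M = 3

/-- there is an additive bijection `M → M'` which preserves the form and takes `h` to `h` -/
def Isometric (M M' : Submodule ℤ L) : Prop :=
  ∃ f : L → L, Set.BijOn f {x | x ∈ M} {x | x ∈ M'} ∧
    (∀ x ∈ M, ∀ y ∈ M, f (x + y) = f x + f y ∧ ip (f x) (f y) = ip x y) ∧ f h = h

lemma isometric_of {M M' : Submodule ℤ L} (hM : h ∈ M) (g : M ≃ₗ[ℤ] M')
    (hg : ∀ x y : M, ip (g x) (g y) = ip x y) (hh : ∀ x : M, (x : L) = h → (g x : L) = h) :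
    Isometric M M' := by
  classical
  have e : ∀ x (hx : x ∈ M), (if hx : x ∈ M then (g ⟨x, hx⟩ : L) else x) = g ⟨x, hx⟩ :=
    fun x hx => dif_pos hx
  refine ⟨fun x => if hx : x ∈ M then (g ⟨x, hx⟩ : L) else x, ⟨fun x hx => ?_, fun x hx y hy hxy => ?_,
    fun y hy => ?_⟩, fun x hx y hy => ⟨?_, ?_⟩, ?_⟩
  · show (if hx : x ∈ M then (g ⟨x, hx⟩ : L) else x) ∈ M'
    rw [e x hx]
    exact (g _).2
  · have h1 : (if hx : x ∈ M then (g ⟨x, hx⟩ : L) else x) =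
      (if hx : y ∈ M then (g ⟨y, hx⟩ : L) else y) := hxy
    rw [e x hx, e y hy] at h1
    exact congrArg Subtype.val (g.injective (Subtype.ext h1))
  · obtain ⟨⟨x, hx⟩, h1⟩ := g.surjective ⟨y, hy⟩
    refine ⟨x, hx, ?_⟩
    show (if hx : x ∈ M then (g ⟨x, hx⟩ : L) else x) = y
    rw [e x hx, h1]
  · show (if hx : x + y ∈ M then (g ⟨x + y, hx⟩ : L) else x + y) =
      (if hx : x ∈ M then (g ⟨x, hx⟩ : L) else x) + (if hx : y ∈ M then (g ⟨y, hx⟩ : L) else y)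
    rw [e _ (M.add_mem hx hy), e x hx, e y hy]
    have h1 : (⟨x + y, M.add_mem hx hy⟩ : M) = ⟨x, hx⟩ + ⟨y, hy⟩ := rfl
    rw [h1, map_add]
    rfl
  · show ip (if hx : x ∈ M then (g ⟨x, hx⟩ : L) else x)
      (if hx : y ∈ M then (g ⟨y, hx⟩ : L) else y) = _
    rw [e x hx, e y hy]
    exact hg _ _
  · show (if hx : h ∈ M then (g ⟨h, hx⟩ : L) else h) = h
    rw [e h hM]
    exact hh _ rfl

lemma exists_of_isometric {M M' : Submodule ℤ L} (hi : Isometric M M') :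
    ∃ g : M ≃ₗ[ℤ] M', (∀ x y : M, ip (g x) (g y) = ip x y) ∧
      ∀ x : M, (x : L) = h → (g x : L) = h := by
  obtain ⟨f, ⟨h1, h2, h3⟩, h4, h5⟩ := hi
  let φ : M →+ M' := AddMonoidHom.mk' (fun x => ⟨f x, h1 x.2⟩) fun x y =>
    Subtype.ext (h4 x x.2 y y.2).1
  have hφ : Function.Bijective φ := by
    constructor
    · intro x y hxy
      exact Subtype.ext (h2 x.2 y.2 (congrArg Subtype.val hxy))
    · rintro ⟨y, hy⟩
      obtain ⟨x, hx, hxy⟩ := h3 hy
      exact ⟨⟨x, hx⟩, Subtype.ext hxy⟩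
  refine ⟨(AddEquiv.ofBijective φ hφ).toIntLinearEquiv, fun x y => (h4 x x.2 y y.2).2,
    fun x hx => ?_⟩
  show f x = h
  rw [hx, h5]

/-- `X` lies in a divisor `𝒞_d` with `d` admissible -/
def HasK3 (R : CubicFourfold → Submodule ℤ L → Prop) (X : CubicFourfold) : Prop :=
  ∃ d, Admissible d ∧ X ∈ Div R d

/-- the types `t = (A, B, C)` with `C ≤ D` of the groups of rank three -/
def Types (D : ℕ) : Set (ℕ × ℕ × ℕ) :=
  {t | t.2.2 ≤ D ∧ ∃ M : Submodule ℤ L, Good3 M ∧ HasForm M t}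

/-- the types with an admissible discriminant -/
def K3Types (D : ℕ) : Set (ℕ × ℕ × ℕ) :=
  {t | t.2.2 ≤ D ∧ ∃ M : Submodule ℤ L, Good3 M ∧ HasForm M t ∧ K3 M}

open Classical in
lemma types_eq (D : ℕ) : Types D = ((tri D).filter Occ : Finset (ℕ × ℕ × ℕ)) := by
  ext t
  simp only [Types, Set.mem_ofPred_eq, Finset.coe_filter, mem_tri]
  constructor
  · rintro ⟨h1, M, ⟨hM, hr⟩, hf⟩
    exact ⟨⟨hf.1, hf.2.1, h1⟩, occ_of hM hr hf⟩
  · rintro ⟨⟨h1, h2, h3⟩, h4⟩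
    obtain ⟨M, hM, hr, hf⟩ := exists_of_occ h1 h2 h4
    exact ⟨h3, M, ⟨hM, hr⟩, hf⟩

open Classical in
lemma k3types_eq (D : ℕ) :
    K3Types D = ((tri D).filter fun t => Occ t ∧ NoObs t : Finset (ℕ × ℕ × ℕ)) := by
  ext t
  simp only [K3Types, Set.mem_ofPred_eq, Finset.coe_filter, mem_tri]
  constructor
  · rintro ⟨h1, M, ⟨hM, hr⟩, hf, hK⟩
    exact ⟨⟨hf.1, hf.2.1, h1⟩, occ_of hM hr hf, (k3_iff_noObs hM hr hf).1 hK⟩
  · rintro ⟨⟨h1, h2, h3⟩, h4, h5⟩
    obtain ⟨M, hM, hr, hf⟩ := exists_of_occ h1 h2 h4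
    exact ⟨h3, M, ⟨hM, hr⟩, hf, (k3_iff_noObs hM hr hf).2 h5⟩

theorem lim_types : Tendsto (fun D : ℕ => ((Types D).ncard : ℝ) / (D : ℝ) ^ 3) atTop
    (𝓝 (5 / 162)) := by
  classical
  have h1 := lim_occ
  refine h1.congr fun D => ?_
  rw [types_eq, Set.ncard_coe_finset]

theorem lim_k3types : Tendsto (fun D : ℕ => ((K3Types D).ncard : ℝ) / (Types D).ncard) atTop
    (𝓝 kap) := by
  classical
  have h1 := lim_ratio
  refine h1.congr fun D => ?_
  rw [types_eq, k3types_eq, Set.ncard_coe_finset, Set.ncard_coe_finset]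

end Pool.Agent.H574.CF
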