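import Pool.Agent.H574.CF.Trans

/-!
# Similarities of the lattice `E₈`
-/

set_option autoImplicit false

namespace Pool.Agent.H574.CF

open Pool.Agent.Q63.CF Matrix

/-- a quaternion unit acting on `E₈` -/
def qI : Matrix (Fin 8) (Fin 8) ℤ :=
  !![-1, 0, 0, 0, 0, 0, 0, 2; -1, 0, -1, 1, -1, 1, -1, 3; -2, 1, 0, 0, -1, 1, -1, 4;
    -3, 0, 0, 1, -2, 2, -2, 6; -3, 0, 0, 1, -1, 1, -2, 5; -2, 0, 0, 0, 0, 1, -2, 4;
    -2, 0, 0, 0, 0, 1, -1, 2; -1, 0, 0, 0, 0, 0, 0, 1]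

/-- a quaternion unit acting on `E₈` -/
def qJ : Matrix (Fin 8) (Fin 8) ℤ :=
  !![1, 0, 0, 0, 0, 0, -2, 2; 2, 0, -1, 0, 1, 0, -3, 2; 2, 0, -1, 1, 0, 0, -4, 3;
    4, 0, -2, 1, 0, 1, -6, 4; 3, -1, -1, 1, 0, 1, -5, 3; 2, 0, 0, 0, 0, 1, -4, 2;
    1, 0, 0, 0, 0, 1, -3, 2; 0, 0, 0, 0, 0, 1, -2, 1]

/-- a quaternion unit acting on `E₈` -/
def qK : Matrix (Fin 8) (Fin 8) ℤ :=
  !![-1, 0, 0, 0, 0, 2, -2, 0; -1, 1, 0, -1, 0, 3, -2, -1; -2, 1, 0, -1, 1, 3, -3, -1;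
    -3, 2, 0, -1, 0, 5, -4, -2; -2, 1, -1, 0, 0, 4, -3, -2; -2, 0, 0, 0, 0, 3, -2, -2;
    -1, 0, 0, 0, 0, 2, -1, -2; -1, 0, 0, 0, 0, 1, 0, -1]

lemma II : qI * qI = -1 := by decide +kernel
lemma JJ : qJ * qJ = -1 := by decide +kernel
lemma KK : qK * qK = -1 := by decide +kernel
lemma IJ : qI * qJ = qK := by decide +kernel
lemma JI : qJ * qI = -qK := by decide +kernel
lemma JK : qJ * qK = qI := by decide +kernel
lemma KJ : qK * qJ = -qI := by decide +kernel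
lemma KI : qK * qI = qJ := by decide +kernel
lemma IK : qI * qK = -qJ := by decide +kernel
lemma EI : qIᵀ * CartanMatrix.E₈ = -(CartanMatrix.E₈ * qI) := by decide +kernel
lemma EJ : qJᵀ * CartanMatrix.E₈ = -(CartanMatrix.E₈ * qJ) := by decide +kernel
lemma EK : qKᵀ * CartanMatrix.E₈ = -(CartanMatrix.E₈ * qK) := by decide +kernel
lemma E8i_mul : E8i * CartanMatrix.E₈ = 1 := by decide +kernel

/-- a quaternion -/
def qt (a b c d : ℤ) : Matrix (Fin 8) (Fin 8) ℤ := a • 1 + b • qI + c • qJ + d • qK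

lemma qt_mul (a b c d : ℤ) :
    qt a (-b) (-c) (-d) * qt a b c d = (a ^ 2 + b ^ 2 + c ^ 2 + d ^ 2) • 1 := by
  unfold qt
  simp only [add_mul, mul_add, smul_mul_smul_comm, one_mul, mul_one, II, JJ, KK, IJ, JI, JK, KJ,
    KI, IK]
  module

lemma qt_transpose (a b c d : ℤ) :
    (qt a b c d)ᵀ * CartanMatrix.E₈ = CartanMatrix.E₈ * qt a (-b) (-c) (-d) := by
  unfold qt
  simp only [transpose_add, transpose_smul, transpose_one, add_mul, mul_add, smul_mul_assoc,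
    mul_smul_comm, one_mul, mul_one, EI, EJ, EK]
  module

/-- **Similarities of `E₈` with an arbitrary multiplier.** -/
theorem exists_phi (c : ℕ) : ∃ φ φ' : Matrix (Fin 8) (Fin 8) ℤ,
    φᵀ * CartanMatrix.E₈ = CartanMatrix.E₈ * φ' ∧ φ' * φ = (c : ℤ) • 1 ∧
      φ * φ' = (c : ℤ) • 1 := by
  obtain ⟨a, b, c', d, h⟩ := Nat.sum_four_squares c
  have h' : (c : ℤ) = (a : ℤ) ^ 2 + b ^ 2 + c' ^ 2 + d ^ 2 := by exact_mod_cast h.symm
  refine ⟨qt a b c' d, qt a (-b) (-c') (-d), qt_transpose _ _ _ _, ?_, ?_⟩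
  · rw [qt_mul, h']
  · have h1 := qt_mul a (-b) (-c') (-d)
    simp only [neg_neg, neg_sq] at h1
    rw [h1, h']

/-- the quadratic form of `E₈` -/
def e8q {S : Type*} [CommRing S] (x : Fin 8 → S) : S :=
  x 0 ^ 2 + x 1 ^ 2 + x 2 ^ 2 + x 3 ^ 2 + x 4 ^ 2 + x 5 ^ 2 + x 6 ^ 2 + x 7 ^ 2
    - x 0 * x 2 - x 1 * x 3 - x 2 * x 3 - x 3 * x 4 - x 4 * x 5 - x 5 * x 6 - x 6 * x 7

lemma e8_self (x : Fin 8 → ℤ) : e8 x x = 2 * e8q x := by
  simp [e8, Matrix.mulVec, dotProduct, CartanMatrix.E₈, Fin.sum_univ_succ, e8q]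
  ring

lemma e8_phi {φ φ' : Matrix (Fin 8) (Fin 8) ℤ} {c : ℤ}
    (h1 : φᵀ * CartanMatrix.E₈ = CartanMatrix.E₈ * φ') (h2 : φ' * φ = c • 1) (x y : Fin 8 → ℤ) :
    e8 (φ.mulVec x) (φ.mulVec y) = c * e8 x y := by
  unfold e8
  have h3 : φᵀ * (CartanMatrix.E₈ * φ) = c • CartanMatrix.E₈ := by
    rw [← Matrix.mul_assoc, h1, Matrix.mul_assoc, h2, mul_smul_comm, mul_one]
  rw [Matrix.mulVec_mulVec, dotProduct_comm, Matrix.dotProduct_mulVec, ← Matrix.mulVec_transpose,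
    Matrix.mulVec_mulVec, dotProduct_comm, h3, Matrix.smul_mulVec, dotProduct_smul, smul_eq_mul]

lemma e8q_sq (x : Fin 8 → ℤ) : 120 * e8q x = 30 * (2 * x 0 - x 2) ^ 2 + 10 * (3 * x 2 - 2 * x 3) ^ 2
    + 30 * (2 * x 1 - x 3) ^ 2 + 30 * (2 * x 7 - x 6) ^ 2 + 10 * (3 * x 6 - 2 * x 5) ^ 2
    + 5 * (4 * x 5 - 3 * x 4) ^ 2 + 3 * (5 * x 4 - 4 * x 3) ^ 2 + 2 * x 3 ^ 2 := by
  unfold e8q
  ring

lemma e8q_nonneg (x : Fin 8 → ℤ) : 0 ≤ e8q x := by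
  have h1 := e8q_sq x
  have h2 : 0 ≤ 120 * e8q x := by rw [h1]; positivity
  omega

lemma e8q_pos (x : Fin 8 → ℤ) (hx : x ≠ 0) : 0 < e8q x := by
  rcases (e8q_nonneg x).lt_or_eq with h | h
  · exact h
  · exfalso
    apply hx
    have h1 := e8q_sq x
    rw [← h] at h1
    have s1 := sq_nonneg (2 * x 0 - x 2)
    have s2 := sq_nonneg (3 * x 2 - 2 * x 3)
    have s3 := sq_nonneg (2 * x 1 - x 3)
    have s4 := sq_nonneg (2 * x 7 - x 6)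
    have s5 := sq_nonneg (3 * x 6 - 2 * x 5)
    have s6 := sq_nonneg (4 * x 5 - 3 * x 4)
    have s7 := sq_nonneg (5 * x 4 - 4 * x 3)
    have s8 := sq_nonneg (x 3)
    have z8 : x 3 = 0 := pow_eq_zero_iff two_ne_zero |>.1 (by linarith)
    have z7 : 5 * x 4 - 4 * x 3 = 0 := pow_eq_zero_iff two_ne_zero |>.1 (by linarith)
    have z6 : 4 * x 5 - 3 * x 4 = 0 := pow_eq_zero_iff two_ne_zero |>.1 (by linarith)
    have z5 : 3 * x 6 - 2 * x 5 = 0 := pow_eq_zero_iff two_ne_zero |>.1 (by linarith)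
    have z4 : 2 * x 7 - x 6 = 0 := pow_eq_zero_iff two_ne_zero |>.1 (by linarith)
    have z3 : 2 * x 1 - x 3 = 0 := pow_eq_zero_iff two_ne_zero |>.1 (by linarith)
    have z2 : 3 * x 2 - 2 * x 3 = 0 := pow_eq_zero_iff two_ne_zero |>.1 (by linarith)
    have z1 : 2 * x 0 - x 2 = 0 := pow_eq_zero_iff two_ne_zero |>.1 (by linarith)
    funext i
    fin_cases i
    · show x 0 = 0; omega
    · show x 1 = 0; omega
    · show x 2 = 0; omega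
    · show x 3 = 0; omega
    · show x 4 = 0; omega
    · show x 5 = 0; omega
    · show x 6 = 0; omega
    · show x 7 = 0; omega

end Pool.Agent.H574.CF
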