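import Mathlib

/-!
# A bound for the dimension of totally singular subspaces
-/

set_option autoImplicit false

namespace Pool.Agent.H574.CF

open Module

/-- **Witt's bound.** -/
theorem witt {F V : Type*} [Field F] [AddCommGroup V] [Module F V] [FiniteDimensional F V]
    (b : V →ₗ[F] V →ₗ[F] F) (W I : Submodule F V)
    (h1 : ∀ x ∈ W, ∀ k ∈ W, k ∈ I → b x k = 0)
    (h2 : ∀ x ∈ W, (∀ i ∈ I, b x i = 0) → x ∈ I) : finrank F W ≤ finrank F I := by
  let K : Submodule F I := W.comap I.subtype
  let f : W →ₗ[F] Module.Dual F I :=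
    { toFun := fun x => (b x).domRestrict I
      map_add' := fun x y => by
        ext i
        simp
      map_smul' := fun c x => by
        ext i
        simp }
  have hf : ∀ (x : W) (i : I), f x i = b x i := fun x i => rfl
  have h3 : LinearMap.range f ≤ K.dualAnnihilator := by
    rintro _ ⟨x, rfl⟩
    rw [Submodule.mem_dualAnnihilator]
    intro k hk
    rw [hf]
    exact h1 x x.2 k hk k.2
  have h4 : ∀ x : LinearMap.ker f, (x : V) ∈ I := by
    intro x
    refine h2 _ x.1.2 fun i hi => ?_
    have h6 : f x.1 = 0 := LinearMap.mem_ker.1 x.2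
    have h5 : f x.1 ⟨i, hi⟩ = 0 := by rw [h6]; rfl
    exact h5
  let g : LinearMap.ker f →ₗ[F] K :=
    { toFun := fun x => ⟨⟨x, h4 x⟩, x.1.2⟩
      map_add' := fun x y => rfl
      map_smul' := fun c x => rfl }
  have hg : Function.Injective g := by
    intro x y hxy
    have h5 := congrArg (fun z : K => ((z : I) : V)) hxy
    exact Subtype.ext (Subtype.ext h5)
  have e1 := LinearMap.finrank_le_finrank_of_injective hg
  have e2 := LinearMap.finrank_range_add_finrank_ker f
  have e3 := Submodule.finrank_mono h3
  have e4 := Subspace.finrank_add_finrank_dualAnnihilator_eq K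
  omega

end Pool.Agent.H574.CF
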