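import Pool.Agent.H574.CF.Phi
import Pool.Agent.H574.CF.Witt
import Pool.Graph.R_pool_sql_team_seeded_3997aac3.Q168.TW.Prim

/-!
# Groups of Hodge classes without an admissible discriminant have rank at most eleven
-/

set_option autoImplicit false

namespace Pool.Agent.H574.CF

open Pool.Agent.Q63.CF Matrix Module

section red

variable (p : ℕ) [hp : Fact p.Prime]

/-- the reduction of `L` modulo `p` -/
abbrev VF : Type := (Fin 3 → ZMod p) × (Fin 2 → ZMod p) × (Fin 2 → ZMod p) × (Fin 8 → ZMod p) ×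
  (Fin 8 → ZMod p)

/-- the reduction -/
def rd0 : L0 →+ VF p where
  toFun v := (fun i => (v.1 i : ZMod p), fun i => (v.2.1 i : ZMod p),
    fun i => (v.2.2.1 i : ZMod p), fun i => (v.2.2.2.1 i : ZMod p),
    fun i => (v.2.2.2.2 i : ZMod p))
  map_zero' := by ext <;> simp
  map_add' v w := by ext <;> simp

/-- the reduction -/
def rd : L →+ VF p := rd0 p

/-- the Cartan matrix modulo `p` -/
def EF : Matrix (Fin 8) (Fin 8) (ZMod p) := CartanMatrix.E₈.map (Int.castRingHom (ZMod p))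

/-- the form modulo `p` -/
def bF : VF p →ₗ[ZMod p] VF p →ₗ[ZMod p] ZMod p :=
  LinearMap.mk₂ (ZMod p) (fun x y => x.1 ⬝ᵥ y.1 + x.2.1 ⬝ᵥ y.2.2.1 + x.2.2.1 ⬝ᵥ y.2.1
    + x.2.2.2.1 ⬝ᵥ (EF p).mulVec y.2.2.2.1 + x.2.2.2.2 ⬝ᵥ (EF p).mulVec y.2.2.2.2)
    (fun x x' y => by
      simp only [Prod.fst_add, Prod.snd_add, add_dotProduct]
      ring)
    (fun c x y => by
      simp only [Prod.smul_fst, Prod.smul_snd, smul_dotProduct, smul_eq_mul]
      ring)
    (fun x y y' => by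
      simp only [Prod.fst_add, Prod.snd_add, dotProduct_add, mulVec_add]
      ring)
    (fun c x y => by
      simp only [Prod.smul_fst, Prod.smul_snd, dotProduct_smul, smul_eq_mul, mulVec_smul]
      ring)

lemma bF_apply (x y : VF p) : bF p x y = x.1 ⬝ᵥ y.1 + x.2.1 ⬝ᵥ y.2.2.1 + x.2.2.1 ⬝ᵥ y.2.1
    + x.2.2.2.1 ⬝ᵥ (EF p).mulVec y.2.2.2.1 + x.2.2.2.2 ⬝ᵥ (EF p).mulVec y.2.2.2.2 := rfl

lemma cast_dot {n : ℕ} (x y : Fin n → ℤ) :
    ((x ⬝ᵥ y : ℤ) : ZMod p) = (fun i => (x i : ZMod p)) ⬝ᵥ fun i => (y i : ZMod p) := by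
  simp [dotProduct]

lemma cast_mulVec (M : Matrix (Fin 8) (Fin 8) ℤ) (x : Fin 8 → ℤ) :
    (fun i => ((M.mulVec x i : ℤ) : ZMod p)) =
      (M.map (Int.castRingHom (ZMod p))).mulVec fun i => (x i : ZMod p) := by
  funext i
  simp [Matrix.mulVec, dotProduct]

lemma cast_e8 (x y : Fin 8 → ℤ) : ((e8 x y : ℤ) : ZMod p) =
    (fun i => (x i : ZMod p)) ⬝ᵥ (EF p).mulVec fun i => (y i : ZMod p) := by
  rw [e8, cast_dot, cast_mulVec]
  rfl

lemma bF_rd0 (v w : L0) : bF p (rd0 p v) (rd0 p w) = (ip0 v w : ZMod p) := by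
  rw [bF_apply, ip0]
  push_cast
  rw [cast_dot, cast_dot, cast_dot, cast_e8, cast_e8]
  simp only [rd0, AddMonoidHom.coe_mk, ZeroHom.coe_mk]
  ring

lemma bF_rd (v w : L) : bF p (rd p v) (rd p w) = (ip v w : ZMod p) := bF_rd0 p v w

/-- the reduction of a subgroup -/
def redW (A : Submodule ℤ L) : Submodule (ZMod p) (VF p) where
  carrier := {x | ∃ v ∈ A, rd p v = x}
  zero_mem' := ⟨0, A.zero_mem, map_zero _⟩
  add_mem' := by
    rintro _ _ ⟨v, hv, rfl⟩ ⟨w, hw, rfl⟩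
    exact ⟨v + w, A.add_mem hv hw, map_add _ _ _⟩
  smul_mem' := by
    rintro c _ ⟨v, hv, rfl⟩
    obtain ⟨n, rfl⟩ := ZMod.intCast_surjective c
    refine ⟨n • v, A.smul_mem n hv, ?_⟩
    rw [map_zsmul, Int.cast_smul_eq_zsmul]

lemma mem_redW {A : Submodule ℤ L} {x : VF p} : x ∈ redW p A ↔ ∃ v ∈ A, rd p v = x := Iff.rfl

lemma cast_zero {n : ℕ} {x : Fin n → ℤ} (h : (fun i => (x i : ZMod p)) = 0) :
    ∃ y : Fin n → ℤ, x = (p : ℤ) • y := by
  have h1 : ∀ i, ∃ y : ℤ, x i = p * y := fun i => by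
    have h2 := congrFun h i
    exact (ZMod.intCast_zmod_eq_zero_iff_dvd (x i) p).1 h2
  choose y hy using h1
  exact ⟨y, funext fun i => by simp [hy i]⟩

lemma rd0_zero {v : L0} (h : rd0 p v = 0) : ∃ w : L0, v = (p : ℤ) • w := by
  have h1 := congrArg Prod.fst h
  have h2 := congrArg (fun x : VF p => x.2.1) h
  have h3 := congrArg (fun x : VF p => x.2.2.1) h
  have h4 := congrArg (fun x : VF p => x.2.2.2.1) h
  have h5 := congrArg (fun x : VF p => x.2.2.2.2) h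
  obtain ⟨a, ha⟩ := cast_zero p h1
  obtain ⟨b, hb⟩ := cast_zero p h2
  obtain ⟨c, hc⟩ := cast_zero p h3
  obtain ⟨d, hd⟩ := cast_zero p h4
  obtain ⟨e, he⟩ := cast_zero p h5
  exact ⟨(a, b, c, d, e), Prod.ext_iff.2 ⟨ha, Prod.ext_iff.2 ⟨hb, Prod.ext_iff.2 ⟨hc,
    Prod.ext_iff.2 ⟨hd, he⟩⟩⟩⟩⟩

lemma rd_zero {v : L} (h : rd p v = 0) : ∃ w : L, v = (p : ℤ) • w := rd0_zero p h

instance : Module.Finite ℤ L := Module.Finite.equiv eL.symm

instance : Module.Free ℤ L := Module.Free.of_equiv eL.symm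

/-- a saturated group has at least the same dimension modulo `p` -/
theorem finrank_redW {A : Submodule ℤ L} (hA : Saturated A) :
    finrank ℤ A ≤ finrank (ZMod p) (redW p A) := by
  let b := Module.finBasis ℤ A
  let g : Fin (finrank ℤ A) → redW p A := fun i => ⟨rd p (b i : L), ⟨_, (b i).2, rfl⟩⟩
  have hli : LinearIndependent (ZMod p) g := by
    rw [Fintype.linearIndependent_iff]
    intro c hc i
    have h0 : ∑ i, c i • rd p (b i : L) = 0 := by
      have := congrArg (Submodule.subtype (redW p A)) hc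
      simpa [g] using this
    let x : A := ∑ i, ((c i).val : ℤ) • b i
    have h1 : rd p (x : L) = 0 := by
      rw [← h0]
      simp only [x, Submodule.coe_sum, Submodule.coe_smul, map_sum]
      refine Finset.sum_congr rfl fun i _ => ?_
      rw [map_zsmul, ← Int.cast_smul_eq_zsmul (ZMod p)]
      congr 1
      simp
    obtain ⟨w, hw⟩ := rd_zero p h1
    have hp0 : (p : ℤ) ≠ 0 := by exact_mod_cast hp.out.ne_zero
    have hwA : w ∈ A := hA p w hp0 (by rw [← hw]; exact x.2)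
    let w' : A := ⟨w, hwA⟩
    have h2 : x = (p : ℤ) • w' := Subtype.ext hw
    have h3 : b.repr x i = ((c i).val : ℤ) := by
      simp only [x, map_sum, map_smul, Finsupp.coe_finsetSum, Finset.sum_apply,
        Finsupp.smul_apply, Basis.repr_self, smul_eq_mul, Finsupp.single_apply]
      rw [Finset.sum_eq_single i]
      · simp
      · intro j _ hj
        simp [hj]
      · simp
    have h4 : b.repr x i = p * b.repr w' i := by
      rw [h2, map_smul, Finsupp.smul_apply, smul_eq_mul]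
    have h5 : ((c i).val : ℤ) = p * b.repr w' i := h3.symm.trans h4
    have h6 : (((c i).val : ℤ) : ZMod p) = c i := by simp
    rw [← h6, h5]
    simp
  simpa using hli.fintype_card_le_finrank

/-- the map `(y, u) ↦ (0, y, 0, u, ψ u)` -/
def iota (ψ : Matrix (Fin 8) (Fin 8) (ZMod p)) :
    ((Fin 2 → ZMod p) × (Fin 8 → ZMod p)) →ₗ[ZMod p] VF p where
  toFun s := (0, s.1, 0, s.2, ψ.mulVec s.2)
  map_add' s t := by
    simp [Matrix.mulVec_add]
  map_smul' c s := by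
    simp [Matrix.mulVec_smul]

/-- the reduction of a matrix -/
def mF (M : Matrix (Fin 8) (Fin 8) ℤ) : Matrix (Fin 8) (Fin 8) (ZMod p) :=
  M.map (Int.castRingHom (ZMod p))

lemma mF_mul (M N : Matrix (Fin 8) (Fin 8) ℤ) : mF p (M * N) = mF p M * mF p N := by
  unfold mF
  rw [Matrix.map_mul]

lemma mF_transpose (M : Matrix (Fin 8) (Fin 8) ℤ) : mF p Mᵀ = (mF p M)ᵀ := rfl

lemma mF_one : mF p 1 = 1 := by
  unfold mF
  exact Matrix.map_one _ (map_zero _) (map_one _)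

lemma mF_smul (c : ℤ) : mF p (c • (1 : Matrix (Fin 8) (Fin 8) ℤ)) = (c : ZMod p) • 1 := by
  ext i j
  rw [mF, Matrix.map_apply, Matrix.smul_apply, Matrix.smul_apply, Matrix.one_apply,
    Matrix.one_apply]
  split_ifs <;> simp

lemma EF_transpose : (EF p)ᵀ = EF p := by
  have h1 := congrArg (mF p) CartanMatrix.E₈_transpose
  rwa [mF_transpose] at h1

lemma EF_inj {x : Fin 8 → ZMod p} (h : (EF p).mulVec x = 0) : x = 0 := by
  have h1 := congrArg (mF p) E8i_mul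
  rw [mF_mul, mF_one] at h1
  have h2 : (mF p E8i * EF p).mulVec x = 0 := by
    rw [← Matrix.mulVec_mulVec, h, Matrix.mulVec_zero]
  have h3 : mF p E8i * EF p = 1 := h1
  rwa [h3, Matrix.one_mulVec] at h2

variable {p}

lemma perp {φ φ' : Matrix (Fin 8) (Fin 8) ℤ} {c : ℤ}
    (h1 : φᵀ * CartanMatrix.E₈ = CartanMatrix.E₈ * φ') (h2 : φ * φ' = c • 1)
    (hc : (p : ℤ) ∣ c + 1) {x : VF p} (hx : ∀ s, bF p x (iota p (mF p φ) s) = 0) :
    x.2.2.1 = 0 ∧ x.2.2.2.2 = (mF p φ).mulVec x.2.2.2.1 := by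
  have hcF : (c : ZMod p) = -1 := by
    have := (ZMod.intCast_zmod_eq_zero_iff_dvd (c + 1) p).2 hc
    push_cast at this
    linear_combination this
  constructor
  · funext k
    have h3 := hx (Pi.single k 1, 0)
    simpa [bF_apply, iota] using h3
  · have h3 : (EF p).mulVec (x.2.2.2.1 + (mF p φ').mulVec x.2.2.2.2) = 0 := by
      apply dotProduct_eq_zero
      intro u
      have h4 := hx (0, u)
      simp only [bF_apply, iota, LinearMap.coe_mk, AddHom.coe_mk, dotProduct_zero, add_zero,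
        zero_add] at h4
      have h5 := congrArg (mF p) h1
      rw [mF_mul, mF_mul, mF_transpose] at h5
      have h5' : (mF p φ)ᵀ * EF p = EF p * mF p φ' := h5
      have e1 : ∀ (M : Matrix (Fin 8) (Fin 8) (ZMod p)) (a b : Fin 8 → ZMod p),
          a ⬝ᵥ M.mulVec b = Mᵀ.mulVec a ⬝ᵥ b := fun M a b => by
        rw [Matrix.dotProduct_mulVec, ← Matrix.mulVec_transpose]
      rw [Matrix.mulVec_mulVec, e1, e1, EF_transpose, Matrix.transpose_mul, EF_transpose, h5']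
        at h4
      rw [Matrix.mulVec_add, Matrix.mulVec_mulVec, add_dotProduct]
      exact h4
    have h4 := EF_inj p h3
    have h5 := congrArg (mF p) h2
    rw [mF_mul, mF_smul, hcF] at h5
    have h6 : (mF p φ).mulVec (x.2.2.2.1 + (mF p φ').mulVec x.2.2.2.2) = 0 := by
      rw [h4, Matrix.mulVec_zero]
    rw [Matrix.mulVec_add, Matrix.mulVec_mulVec, h5, Matrix.smul_mulVec, Matrix.one_mulVec,
      neg_one_smul] at h6
    exact (add_neg_eq_zero.1 h6).symm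

end red

/-- the quadratic form on the orthogonal complement of `h` -/
def qz (v : L0) : ℤ := v.1 0 ^ 2 + v.1 0 * v.1 1 + v.1 1 ^ 2 + v.2.1 ⬝ᵥ v.2.2.1
  + e8q v.2.2.2.1 + e8q v.2.2.2.2

lemma ip0_h (v : L0) : ip0 (fun _ => 1, 0) v = v.1 0 + v.1 1 + v.1 2 := by
  simp [ip0, e8_zero, dotProduct, Fin.sum_univ_three]

lemma ip0_qz (v : L0) (h : v.1 0 + v.1 1 + v.1 2 = 0) : ip0 v v = 2 * qz v := by
  unfold ip0 qz
  rw [e8_self, e8_self, dotProduct_comm v.2.2.1 v.2.1]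
  simp only [dotProduct, Fin.sum_univ_three]
  have h2 : v.1 2 = -v.1 0 - v.1 1 := by linarith
  rw [h2]
  ring

lemma qz_add (v w : L0) (hv : v.1 0 + v.1 1 + v.1 2 = 0) (hw : w.1 0 + w.1 1 + w.1 2 = 0) :
    qz (v + w) = qz v + qz w + ip0 v w := by
  have h1 := ip0_qz v hv
  have h2 := ip0_qz w hw
  have h3 := ip0_qz (v + w) (by
    simp only [Prod.fst_add, Pi.add_apply]
    linarith)
  rw [ip0_add_left, ip0_comm v (v + w), ip0_comm w (v + w), ip0_add_left, ip0_add_left,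
    ip0_comm w v] at h3
  linarith

/-- the orthogonal complement of `h` in `A` -/
def orth (A : Submodule ℤ L) : Submodule ℤ L := A ⊓ LinearMap.ker (ipB h)

lemma mem_orth {A : Submodule ℤ L} {v : L} : v ∈ orth A ↔ v ∈ A ∧ ip h v = 0 := Iff.rfl

lemma sat_orth {A : Submodule ℤ L} (hA : Saturated A) : Saturated (orth A) := by
  intro n v hn hv
  rw [mem_orth, ip_smul_right] at hv
  exact ⟨hA n v hn hv.1, (mul_eq_zero.1 hv.2).resolve_left hn⟩

lemma finrank_orth (A : Submodule ℤ L) : finrank ℤ A ≤ finrank ℤ (orth A) + 1 := by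
  have h0 := Submodule.finrank_quotient_add_finrank (LinearMap.ker ((ipB h).domRestrict A))
  have h0' := (LinearMap.quotKerEquivRange ((ipB h).domRestrict A)).finrank_eq
  have h2 : finrank ℤ (LinearMap.range ((ipB h).domRestrict A)) ≤ 1 := by
    have := Submodule.finrank_le (LinearMap.range ((ipB h).domRestrict A))
    simpa using this
  have h3 : finrank ℤ (LinearMap.ker ((ipB h).domRestrict A)) = finrank ℤ (orth A) := by
    have h4 : (LinearMap.ker ((ipB h).domRestrict A)).map A.subtype = orth A := by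
      ext v
      rw [Submodule.mem_map, mem_orth]
      constructor
      · rintro ⟨w, hw, rfl⟩
        exact ⟨w.2, hw⟩
      · rintro ⟨hv, hv2⟩
        exact ⟨⟨v, hv⟩, hv2, rfl⟩
    rw [← h4]
    exact (LinearEquiv.finrank_eq (Submodule.equivMapOfInjective A.subtype
      A.injective_subtype _))
  omega

lemma cast_e8q (p : ℕ) (x : Fin 8 → ℤ) :
    ((e8q x : ℤ) : ZMod p) = e8q fun i => (x i : ZMod p) := by
  unfold e8q
  push_cast
  ring

lemma e8q_phi {φ φ' : Matrix (Fin 8) (Fin 8) ℤ} {c : ℤ}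
    (h1 : φᵀ * CartanMatrix.E₈ = CartanMatrix.E₈ * φ') (h2 : φ' * φ = c • 1) (x : Fin 8 → ℤ) :
    e8q (φ.mulVec x) = c * e8q x := by
  have h3 := e8_phi h1 h2 x x
  rw [e8_self, e8_self] at h3
  linarith

/-- the value of the quadratic form of the last component -/
lemma e8q_last {p : ℕ} [Fact p.Prime] {φ φ' : Matrix (Fin 8) (Fin 8) ℤ} {c : ℤ}
    (h1 : φᵀ * CartanMatrix.E₈ = CartanMatrix.E₈ * φ') (h2 : φ' * φ = c • 1)
    (hc : (p : ℤ) ∣ c + 1) {u w : Fin 8 → ℤ}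
    (hw : (fun i => (w i : ZMod p)) = (mF p φ).mulVec fun i => (u i : ZMod p)) :
    (p : ℤ) ∣ e8q u + e8q w := by
  rw [← ZMod.intCast_zmod_eq_zero_iff_dvd]
  have hcF : (c : ZMod p) = -1 := by
    have := (ZMod.intCast_zmod_eq_zero_iff_dvd (c + 1) p).2 hc
    push_cast at this
    linear_combination this
  push_cast
  rw [cast_e8q p w, hw]
  have e1 : (mF p φ).mulVec (fun i => (u i : ZMod p)) =
      fun i => ((φ.mulVec u i : ℤ) : ZMod p) := (cast_mulVec p φ u).symm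
  rw [e1, ← cast_e8q, e8q_phi h1 h2]
  push_cast
  rw [hcF]
  ring

lemma inert_end {p : ℕ} [Fact p.Prime] (hp : p.Prime) (h3 : p % 3 = 2)
    {φ : Matrix (Fin 8) (Fin 8) ℤ} (v : L0)
    (hs : v.1 0 + v.1 1 + v.1 2 = 0) (hq : (p : ℤ) ∣ qz v)
    (g1 : (p : ℤ) ∣ e8q v.2.2.2.1 + e8q v.2.2.2.2) {z' : Fin 2 → ℤ}
    (hz : v.2.2.1 = (p : ℤ) • z')
    (e2 : (rd0 p v).2.2.2.2 = (mF p φ).mulVec (rd0 p v).2.2.2.1) :
    rd0 p v ∈ LinearMap.range (iota p (mF p φ)) := by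
  have g2 : (p : ℤ) ∣ v.2.1 ⬝ᵥ v.2.2.1 := by
    rw [hz, dotProduct_smul, smul_eq_mul]
    exact dvd_mul_right _ _
  have g3 : (p : ℤ) ∣ v.1 0 ^ 2 - v.1 0 * (-v.1 1) + (-v.1 1) ^ 2 := by
    have h4 := dvd_sub hq (dvd_add g2 g1)
    have h5 : qz v - (v.2.1 ⬝ᵥ v.2.2.1 + (e8q v.2.2.2.1 + e8q v.2.2.2.2)) =
        v.1 0 ^ 2 - v.1 0 * (-v.1 1) + (-v.1 1) ^ 2 := by
      unfold qz
      ring
    rwa [h5] at h4
  obtain ⟨g4, g5⟩ := Pool.Agent.Q168.TW.inert_dvd hp h3 g3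
  have g6 : (p : ℤ) ∣ v.1 1 := (dvd_neg).1 g5
  have g7 : (p : ℤ) ∣ v.1 2 := by
    have h4 := (dvd_add g4 g6).neg_right
    have h5 : -(v.1 0 + v.1 1) = v.1 2 := by linarith
    rwa [h5] at h4
  refine ⟨((rd0 p v).2.1, (rd0 p v).2.2.2.1), ?_⟩
  have c0 : ∀ i, ((v.1 i : ℤ) : ZMod p) = 0 := by
    intro i
    rw [ZMod.intCast_zmod_eq_zero_iff_dvd]
    fin_cases i
    · exact g4
    · exact g6
    · exact g7
  refine Prod.ext_iff.2 ⟨?_, Prod.ext_iff.2 ⟨rfl, Prod.ext_iff.2 ⟨?_, Prod.ext_iff.2 ⟨rfl, ?_⟩⟩⟩⟩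
  · funext i
    exact (c0 i).symm
  · funext i
    show (0 : ZMod p) = ((v.2.2.1 i : ℤ) : ZMod p)
    rw [hz]
    simp
  · exact e2.symm

/-- **The bound at an inert prime number.** -/
theorem bound_inert {A : Submodule ℤ L} (hA : Saturated A) {p : ℕ} (hp : p.Prime)
    (h3 : p % 3 = 2) (hall : ∀ v ∈ A, (p : ℤ) ∣ disc v / 2) : finrank ℤ A ≤ 11 := by
  have : Fact p.Prime := ⟨hp⟩
  obtain ⟨φ, φ', f1, f2, f3⟩ := exists_phi (p - 1)
  have hp1 : ((p - 1 : ℕ) : ℤ) = p - 1 := by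
    rw [Nat.cast_sub hp.one_le]; simp
  have hc : (p : ℤ) ∣ ((p - 1 : ℕ) : ℤ) + 1 := by rw [hp1]; simp
  have hpi : Prime (p : ℤ) := Nat.prime_iff_prime_int.1 hp
  have hp3 : ¬ (p : ℤ) ∣ 3 := by
    intro hd
    have h4 : p ∣ 3 := by exact_mod_cast hd
    have := (Nat.prime_dvd_prime_iff_eq hp Nat.prime_three).1 h4
    omega
  -- the form is divisible on the orthogonal complement
  have hsum : ∀ v : L0, v ∈ orth A → v.1 0 + v.1 1 + v.1 2 = 0 := by
    intro v hv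
    rw [← ip0_h]
    exact (mem_orth.1 hv).2
  have hq : ∀ v : L0, v ∈ orth A → (p : ℤ) ∣ qz v := by
    intro v hv
    have h4 := hall v (mem_orth.1 hv).1
    have h5 : disc (v : L) = 2 * (3 * qz v) := by
      unfold disc
      rw [(mem_orth.1 hv).2]
      show 3 * ip0 v v - 0 ^ 2 = _
      rw [ip0_qz v (hsum v hv)]
      ring
    rw [h5, Int.mul_ediv_cancel_left _ (by norm_num)] at h4
    exact (hpi.dvd_or_dvd h4).resolve_left hp3
  have hb : ∀ v w : L0, v ∈ orth A → w ∈ orth A → (p : ℤ) ∣ ip0 v w := by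
    intro v w hv hw
    have h4 := hq (v + w) ((orth A).add_mem hv hw)
    rw [qz_add v w (hsum v hv) (hsum w hw)] at h4
    exact (dvd_add_right ((hq v hv).add (hq w hw))).1 h4
  -- Witt's bound
  have hW := witt (bF p) (redW p (orth A)) (LinearMap.range (iota p (mF p φ))) ?_ ?_
  · have h4 := finrank_redW p (sat_orth hA)
    have h5 := finrank_orth A
    have h6 : finrank (ZMod p) (LinearMap.range (iota p (mF p φ))) ≤ 10 := by
      have := LinearMap.finrank_range_le (iota p (mF p φ))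
      simpa using this
    omega
  · rintro _ ⟨v, hv, rfl⟩ _ ⟨w, hw, rfl⟩ -
    rw [bF_rd]
    exact (ZMod.intCast_zmod_eq_zero_iff_dvd _ p).2 (hb v w hv hw)
  · rintro _ ⟨v, hv, rfl⟩ hx
    obtain ⟨e1, e2⟩ := perp f1 f3 hc (fun s => hx _ ⟨s, rfl⟩)
    revert hv e1 e2
    show ∀ _ : v ∈ orth A, (rd0 p v).2.2.1 = 0 → (rd0 p v).2.2.2.2 =
      (mF p φ).mulVec (rd0 p v).2.2.2.1 → rd0 p v ∈ LinearMap.range (iota p (mF p φ))
    intro hv e1 e2
    have g1 : (p : ℤ) ∣ e8q (v : L0).2.2.2.1 + e8q (v : L0).2.2.2.2 := e8q_last f1 f2 hc e2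
    obtain ⟨z', hz'⟩ := cast_zero p e1
    exact inert_end hp h3 v (hsum v hv) (hq v hv) g1 hz' e2

/-! ### the prime number three -/

/-- the map `(t, y, u) ↦ (t h, y, 0, u, ψ u)` -/
def iota3 (ψ : Matrix (Fin 8) (Fin 8) (ZMod 3)) :
    (ZMod 3 × (Fin 2 → ZMod 3) × (Fin 8 → ZMod 3)) →ₗ[ZMod 3] VF 3 where
  toFun s := (fun _ => s.1, s.2.1, 0, s.2.2, ψ.mulVec s.2.2)
  map_add' s t := by
    simp [Matrix.mulVec_add]
    rfl
  map_smul' c s := by
    simp [Matrix.mulVec_smul]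
    rfl

lemma three_zero : (3 : ZMod 3) = 0 := by decide

lemma sq_mod_three {x : ℤ} (hx : ¬ (3 : ℤ) ∣ x) : x ^ 2 % 3 = 1 := by
  have h4 : x % 3 = 1 ∨ x % 3 = 2 := by omega
  have h5 : 3 * (x / 3) + x % 3 = x := Int.mul_ediv_add_emod x 3
  generalize x / 3 = k at h5
  rcases h4 with h4 | h4
  · rw [h4] at h5
    have h6 : x ^ 2 = 3 * (3 * k ^ 2 + 2 * k) + 1 := by rw [← h5]; ring
    omega
  · rw [h4] at h5
    have h6 : x ^ 2 = 3 * (3 * k ^ 2 + 4 * k + 1) + 1 := by rw [← h5]; ring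
    omega

lemma three_facts {A : Submodule ℤ L} (hall : ∀ v ∈ A, ¬ (disc v % 3 = 2 ∨ disc v % 18 = 6))
    {v : L} (hv : v ∈ A) : (3 : ℤ) ∣ ip h v ∧ ip v v % 3 ≠ 2 := by
  have h1 := hall v hv
  have h2 := ip_h_char v
  rw [ip_comm v h] at h2
  unfold disc at h1
  obtain ⟨k, hk⟩ := h2
  have h3 : (3 : ℤ) ∣ ip h v := by
    by_contra hcon
    apply h1
    left
    have h5 := sq_mod_three hcon
    omega
  refine ⟨h3, fun h4 => h1 (Or.inr ?_)⟩
  obtain ⟨s, hs⟩ := h3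
  have h6 : ip h v ^ 2 = 9 * s ^ 2 := by rw [hs]; ring
  have h7 : Even (s ^ 2 - s) := by
    have := Int.even_mul_pred_self s
    rwa [mul_sub, mul_one, ← pow_two] at this
  obtain ⟨m, hm⟩ := h7
  omega

lemma mod_three_self (w : L0) {φ φ' : Matrix (Fin 8) (Fin 8) ℤ} {c : ℤ}
    (h1 : φᵀ * CartanMatrix.E₈ = CartanMatrix.E₈ * φ') (h2 : φ' * φ = c • 1)
    (hc : (3 : ℤ) ∣ c + 1) (e1 : (rd0 3 w).2.2.1 = 0)
    (e2 : (rd0 3 w).2.2.2.2 = (mF 3 φ).mulVec (rd0 3 w).2.2.2.1) :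
    (3 : ℤ) ∣ ip0 w w - w.1 ⬝ᵥ w.1 := by
  have g1 : ((3 : ℕ) : ℤ) ∣ e8q w.2.2.2.1 + e8q w.2.2.2.2 := e8q_last h1 h2 hc e2
  obtain ⟨z', hz⟩ := cast_zero 3 e1
  have g2 : ((3 : ℕ) : ℤ) ∣ w.2.1 ⬝ᵥ w.2.2.1 := by
    rw [hz, dotProduct_smul, smul_eq_mul]
    exact dvd_mul_right _ _
  have h5 : ip0 w w - w.1 ⬝ᵥ w.1 =
      2 * (w.2.1 ⬝ᵥ w.2.2.1) + 2 * (e8q w.2.2.2.1 + e8q w.2.2.2.2) := by
    unfold ip0
    rw [e8_self, e8_self, dotProduct_comm w.2.2.1 w.2.1]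
    ring
  rw [h5]
  exact dvd_add (g2.mul_left 2) (g1.mul_left 2)

lemma three_end (v : L0) {φ : Matrix (Fin 8) (Fin 8) ℤ}
    (h0 : (3 : ℤ) ∣ v.1 0 + v.1 1 + v.1 2) (h1 : v.1 ⬝ᵥ v.1 % 3 ≠ 2)
    (e1 : (rd0 3 v).2.2.1 = 0)
    (e2 : (rd0 3 v).2.2.2.2 = (mF 3 φ).mulVec (rd0 3 v).2.2.2.1) :
    rd0 3 v ∈ LinearMap.range (iota3 (mF 3 φ)) := by
  simp only [dotProduct, Fin.sum_univ_three] at h1
  have h2 : (3 : ℤ) ∣ v.1 0 - v.1 1 := by
    by_contra hcon
    apply h1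
    obtain ⟨k, hk⟩ := h0
    have h3 : v.1 2 = 3 * k - v.1 0 - v.1 1 := by linarith
    have h4 : v.1 0 * v.1 0 + v.1 1 * v.1 1 + v.1 2 * v.1 2 =
        2 * (v.1 0 - v.1 1) ^ 2 + 3 * (2 * v.1 0 * v.1 1 + 3 * k ^ 2 - 2 * k * v.1 0
          - 2 * k * v.1 1) := by
      rw [h3]
      ring
    have h5 := sq_mod_three hcon
    rw [h4]
    omega
  have h3 : (3 : ℤ) ∣ v.1 0 - v.1 2 := by omega
  have c1 : ((v.1 1 : ℤ) : ZMod 3) = ((v.1 0 : ℤ) : ZMod 3) :=
    (ZMod.intCast_eq_intCast_iff_dvd_sub _ _ 3).2 h2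
  have c2 : ((v.1 2 : ℤ) : ZMod 3) = ((v.1 0 : ℤ) : ZMod 3) :=
    (ZMod.intCast_eq_intCast_iff_dvd_sub _ _ 3).2 h3
  refine ⟨((v.1 0 : ℤ), (rd0 3 v).2.1, (rd0 3 v).2.2.2.1), ?_⟩
  refine Prod.ext_iff.2 ⟨?_, Prod.ext_iff.2 ⟨rfl, Prod.ext_iff.2 ⟨e1.symm,
    Prod.ext_iff.2 ⟨rfl, e2.symm⟩⟩⟩⟩
  funext i
  fin_cases i
  · rfl
  · exact c1.symm
  · exact c2.symm

/-- **The bound at the prime number three.** -/
theorem bound_three {A : Submodule ℤ L} (hA : Saturated A)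
    (hall : ∀ v ∈ A, ¬ (disc v % 3 = 2 ∨ disc v % 18 = 6)) : finrank ℤ A ≤ 11 := by
  have : Fact (Nat.Prime 3) := ⟨Nat.prime_three⟩
  obtain ⟨φ, φ', f1, f2, f3⟩ := exists_phi 2
  have hc : (3 : ℤ) ∣ ((2 : ℕ) : ℤ) + 1 := by norm_num
  have hW := witt (bF 3) (redW 3 A) (LinearMap.range (iota3 (mF 3 φ))) ?_ ?_
  · have h4 := finrank_redW 3 hA
    have h6 : finrank (ZMod 3) (LinearMap.range (iota3 (mF 3 φ))) ≤ 11 := by
      have := LinearMap.finrank_range_le (iota3 (mF 3 φ))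
      simpa using this
    omega
  · rintro _ ⟨v, hv, rfl⟩ _ ⟨w, hw, rfl⟩ ⟨s, hs⟩
    have g1 : (rd0 3 (w : L0)).2.2.1 = 0 := by
      have := congrArg (fun x : VF 3 => x.2.2.1) hs
      exact this.symm
    have g2 : (rd0 3 (w : L0)).2.2.2.2 = (mF 3 φ).mulVec (rd0 3 (w : L0)).2.2.2.1 := by
      have i1 := congrArg (fun x : VF 3 => x.2.2.2.1) hs
      have i2 := congrArg (fun x : VF 3 => x.2.2.2.2) hs
      have i3 : (rd0 3 (w : L0)).2.2.2.1 = s.2.2 := i1.symm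
      rw [i3]
      exact i2.symm
    have g3 := mod_three_self (w : L0) f1 f2 hc g1 g2
    have g4 : ∀ i, (((w : L0).1 i : ℤ) : ZMod 3) = s.1 := by
      have i1 := congrArg (fun x : VF 3 => x.1) hs
      intro i
      exact (congrFun i1 i).symm
    have g5 : (3 : ℤ) ∣ (w : L0).1 ⬝ᵥ (w : L0).1 := by
      have h5 : (((w : L0).1 ⬝ᵥ (w : L0).1 : ℤ) : ZMod 3) = 0 := by
        simp only [dotProduct, Fin.sum_univ_three]
        push_cast
        rw [g4, g4, g4]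
        linear_combination (s.1 * s.1) * three_zero
      exact (ZMod.intCast_zmod_eq_zero_iff_dvd _ 3).1 h5
    have g6 : (3 : ℤ) ∣ ip w w := by
      have h5 := dvd_add g3 g5
      rwa [sub_add_cancel] at h5
    have n1 := (three_facts hall hv).2
    have n2 := (three_facts hall (A.add_mem hv hw)).2
    have n3 := (three_facts hall (A.sub_mem hv hw)).2
    have n4 : ip (v + w) (v + w) = ip v v + 2 * ip v w + ip w w := by
      rw [ip_add_left, ip_add_right, ip_add_right, ip_comm w v]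
      ring
    have n5 : ip (v - w) (v - w) = ip v v - 2 * ip v w + ip w w := by
      have h6 : v - w = v + (-1 : ℤ) • w := by simp [sub_eq_add_neg]
      rw [h6, ip_add_left, ip_add_right, ip_add_right, ip_smul_left, ip_smul_right,
        ip_smul_right, ip_smul_left, ip_comm w v]
      ring
    rw [n4] at n2
    rw [n5] at n3
    have n6 : (3 : ℤ) ∣ ip v w := by
      generalize ip v w = b at n2 n3 ⊢
      generalize ip v v = a at n1 n2 n3
      generalize ip w w = c at g6 n2 n3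
      by_contra hcon
      have c1 : a % 3 = 0 ∨ a % 3 = 1 := by omega
      have c2 : b % 3 = 1 ∨ b % 3 = 2 := by omega
      rcases c1 with c1 | c1 <;> rcases c2 with c2 | c2 <;> omega
    rw [bF_rd]
    exact (ZMod.intCast_zmod_eq_zero_iff_dvd _ 3).2 n6
  · rintro _ ⟨v, hv, rfl⟩ hx
    obtain ⟨e1, e2⟩ := perp (p := 3) f1 f3 hc (x := rd 3 v) (fun s => by
      have := hx (iota3 (mF 3 φ) (0, s.1, s.2)) ⟨_, rfl⟩
      exact this)
    have e3 := mod_three_self (v : L0) f1 f2 hc e1 e2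
    have e4 := (three_facts hall hv).2
    have e5 : (v : L0).1 ⬝ᵥ (v : L0).1 % 3 ≠ 2 := by
      have h7 : ip0 (v : L0) v % 3 ≠ 2 := e4
      omega
    refine three_end (v : L0) ?_ e5 e1 e2
    have h8 : (3 : ℤ) ∣ ip h v := (three_facts hall hv).1
    have h9 : ip h v = v.1 0 + v.1 1 + v.1 2 := ip0_h (v : L0)
    rwa [h9] at h8

/-- **Sharp rank bound.** A group of Hodge classes of rank at least twelve satisfies the local
conditions. -/
theorem loc_of_rank {A : Submodule ℤ L} (hA : Saturated A) (hr : 12 ≤ finrank ℤ A) : Loc A := by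
  constructor
  · intro p hp h3
    by_contra hcon
    push Not at hcon
    have := bound_inert hA hp h3 hcon
    omega
  · by_contra hcon
    push Not at hcon
    have := bound_three hA (fun v hv h => by
      rcases h with h | h
      · exact (hcon v hv).1 h
      · exact (hcon v hv).2 h)
    omega

end Pool.Agent.H574.CF
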