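import Pool.Agent.H574.CF.Dens3

/-!
# The reduced forms with a given first coefficient
-/

set_option autoImplicit false

namespace Pool.Agent.H574.CF.Dens

open Filter Topology Finset

/-! ### sums over residue classes -/

lemma sum_period {m : ℕ} (f : ℕ → ℝ) (hf : ∀ x, f (x + m) = f x) (k : ℕ) :
    ∑ x ∈ range (m * k), f x = k * ∑ x ∈ range m, f x := by
  have h1 : ∀ k x, f (m * k + x) = f x := by
    intro k
    induction k with
    | zero => intro x; rw [mul_zero, zero_add]
    | succ k ih =>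
      intro x
      have : m * (k + 1) + x = m * k + x + m := by ring
      rw [this, hf, ih]
  induction k with
  | zero => simp
  | succ k ih =>
    rw [mul_add, mul_one, sum_range_add, ih]
    simp only [h1]
    push_cast
    ring

lemma period_mod {m : ℕ} (f : ℕ → ℝ) (hf : ∀ x, f (x + m) = f x) (x : ℕ) : f (x % m) = f x := by
  have h1 : ∀ k x, f (m * k + x) = f x := by
    intro k
    induction k with
    | zero => intro x; rw [mul_zero, zero_add]
    | succ k ih =>
      intro x
      have : m * (k + 1) + x = m * k + x + m := by ring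
      rw [this, hf, ih]
  conv_rhs => rw [← Nat.div_add_mod x m]
  exact (h1 _ _).symm

lemma sum_unit {m p : ℕ} (hm : 0 < m) (hp : m.Coprime p) (f : ℕ → ℝ)
    (hf : ∀ x, f (x + m) = f x) : ∑ y ∈ range m, f (p * y) = ∑ y ∈ range m, f y := by
  have h1 : ∀ y ∈ range m, f (p * y) = f ((p * y) % m) := fun y _ => (period_mod f hf _).symm
  rw [sum_congr rfl h1]
  have hinj : Set.InjOn (fun y => (p * y) % m) (range m : Set ℕ) := by
    intro x hx y hy hxy
    simp only [coe_range, Set.mem_Iio] at hx hy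
    have h2 : p * x ≡ p * y [MOD m] := hxy
    have h3 : x ≡ y [MOD m] := Nat.ModEq.cancel_left_of_coprime (by
      rw [Nat.Coprime] at hp
      exact hp) h2
    have h4 : x % m = y % m := h3
    rwa [Nat.mod_eq_of_lt hx, Nat.mod_eq_of_lt hy] at h4
  rw [← sum_image (f := f) (g := fun y => (p * y) % m) hinj]
  congr 1
  refine eq_of_subset_of_card_le ?_ ?_
  · intro y hy
    obtain ⟨x, -, rfl⟩ := mem_image.1 hy
    exact mem_range.2 (Nat.mod_lt _ hm)
  · rw [card_image_of_injOn hinj]

lemma sum_prime {m p : ℕ} (hm : 0 < m) (hp0 : 0 < p) (hp : m.Coprime p) (f : ℕ → ℝ)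
    (hf : ∀ x, f (x + m) = f x) (a : ℝ) :
    ∑ x ∈ range (m * p), f x * (if p ∣ x then a else 1) =
      (∑ x ∈ range m, f x) * ((p : ℝ) - 1 + a) := by
  have h1 : ∀ x, f x * (if p ∣ x then a else 1) = f x + (a - 1) * (if p ∣ x then f x else 0) := by
    intro x
    split_ifs <;> ring
  have h2 : ∑ x ∈ range (m * p), (if p ∣ x then f x else 0) = ∑ y ∈ range m, f (p * y) := by
    rw [← sum_filter]
    symm
    refine sum_bij (fun y _ => p * y) ?_ ?_ ?_ ?_
    · intro y hy
      rw [mem_filter, mem_range]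
      refine ⟨?_, dvd_mul_right _ _⟩
      rw [mul_comm m p]
      exact Nat.mul_lt_mul_of_pos_left (mem_range.1 hy) hp0
    · intro y _ y' _ hh
      exact Nat.eq_of_mul_eq_mul_left hp0 hh
    · intro x hx
      obtain ⟨h3, y, rfl⟩ := mem_filter.1 hx
      refine ⟨y, mem_range.2 ?_, rfl⟩
      rw [mem_range, mul_comm m p] at h3
      exact Nat.lt_of_mul_lt_mul_left h3
    · intro y _
      rfl
  rw [sum_congr rfl fun x _ => h1 x, sum_add_distrib, ← mul_sum, h2, sum_unit hm hp f hf,
    sum_period f hf]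
  ring

/-- the Chinese remainder theorem for weighted sums -/
theorem sum_crt (a : ℕ → ℝ) (P : Finset ℕ) : ∀ (m : ℕ), 0 < m → ∀ f : ℕ → ℝ,
    (∀ x, f (x + m) = f x) → (∀ p ∈ P, p.Prime ∧ m.Coprime p) →
    ∑ x ∈ range (m * ∏ p ∈ P, p), f x * ∏ p ∈ P, (if p ∣ x then a p else 1) =
      (∑ x ∈ range m, f x) * ∏ p ∈ P, ((p : ℝ) - 1 + a p) := by
  induction P using Finset.induction_on with
  | empty =>
    intro m _ f _ _
    simp
  | insert p P hp ih =>
    intro m hm f hf hP
    obtain ⟨hpp, hmp⟩ := hP p (mem_insert_self p P)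
    have h1 := ih (m * p) (Nat.mul_pos hm hpp.pos) (fun x => f x * (if p ∣ x then a p else 1))
      (fun x => by
        have h2 : ∀ k x, f (x + m * k) = f x := by
          intro k
          induction k with
          | zero => intro x; rw [mul_zero, add_zero]
          | succ k ih =>
            intro x
            have : x + m * (k + 1) = x + m * k + m := by ring
            rw [this, hf, ih]
        show f (x + m * p) * (if p ∣ x + m * p then a p else 1) = _
        rw [h2]
        have h3 : p ∣ x + m * p ↔ p ∣ x := (Nat.dvd_add_iff_left (dvd_mul_left p m)).symm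
        simp only [h3])
      (fun q hq => by
        obtain ⟨hq1, hq2⟩ := hP q (mem_insert_of_mem hq)
        refine ⟨hq1, Nat.Coprime.mul_left hq2 ?_⟩
        rw [Nat.coprime_primes hpp hq1]
        rintro rfl
        exact hp hq)
    rw [prod_insert hp, prod_insert hp, ← mul_assoc]
    rw [sum_prime hm hpp.pos hmp f hf] at h1
    rw [← mul_assoc, ← h1]
    refine sum_congr rfl fun x _ => ?_
    rw [prod_insert hp]
    ring

/-- the same over a multiple of the period -/
theorem sum_crt' (a : ℕ → ℝ) (P : Finset ℕ) {m : ℕ} (hm : 0 < m) (f : ℕ → ℝ)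
    (hf : ∀ x, f (x + m) = f x) (hP : ∀ p ∈ P, p.Prime ∧ m.Coprime p) {N : ℕ}
    (hN : m * ∏ p ∈ P, p ∣ N) :
    ∑ x ∈ range N, f x * ∏ p ∈ P, (if p ∣ x then a p else 1) =
      N * ((∑ x ∈ range m, f x) / m) * ∏ p ∈ P, (1 - (1 - a p) / p) := by
  obtain ⟨k, rfl⟩ := hN
  have hpr : (0 : ℝ) < ∏ p ∈ P, (p : ℝ) := prod_pos fun p hp => by
    exact_mod_cast (hP p hp).1.pos
  have hm' : (0 : ℝ) < m := by exact_mod_cast hm
  have h3 : ∀ k x, f (x + m * k) = f x := by
    intro k
    induction k with
    | zero => intro x; rw [mul_zero, add_zero]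
    | succ k ih =>
      intro x
      have : x + m * (k + 1) = x + m * k + m := by ring
      rw [this, hf, ih]
  rw [sum_period (m := m * ∏ p ∈ P, p) (fun x => f x * ∏ p ∈ P, (if p ∣ x then a p else 1))
    (fun x => by
      show f (x + m * ∏ p ∈ P, p) * _ = _
      rw [h3]
      congr 1
      refine prod_congr rfl fun p hp => ?_
      have h4 : p ∣ x + m * ∏ p ∈ P, p ↔ p ∣ x :=
        (Nat.dvd_add_iff_left ((dvd_prod_of_mem _ hp).mul_left m)).symm
      simp only [h4]) k, sum_crt a P m hm f hf hP]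
  have h5 : ∏ p ∈ P, ((p : ℝ) - 1 + a p) = (∏ p ∈ P, (p : ℝ)) * ∏ p ∈ P, (1 - (1 - a p) / p) := by
    rw [← prod_mul_distrib]
    refine prod_congr rfl fun p hp => ?_
    have : (p : ℝ) ≠ 0 := by exact_mod_cast (hP p hp).1.ne_zero
    field_simp
    ring
  rw [h5]
  push_cast
  field_simp

/-! ### densities of periodic sets -/

open Classical in
lemma lim_periodic {m : ℕ} (hm : 0 < m) (p : ℕ → Prop) (hp : ∀ x, p (x + m) ↔ p x) :
    Tendsto (fun D : ℕ => (((range (D + 1)).filter p).card : ℝ) / D) atTop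
      (𝓝 ((((range m).filter p).card : ℝ) / m)) := by
  set f : ℕ → ℝ := fun x => if p x then 1 else 0 with hf
  have hper : ∀ x, f (x + m) = f x := fun x => by
    simp only [hf, hp]
  have hc : ∀ N, (((range N).filter p).card : ℝ) = ∑ x ∈ range N, f x := by
    intro N
    rw [card_filter]
    push_cast
    rfl
  have h0 : ∀ x, 0 ≤ f x := fun x => by
    simp only [hf]
    split_ifs <;> norm_num
  have hmono : ∀ N N', N ≤ N' → ∑ x ∈ range N, f x ≤ ∑ x ∈ range N', f x := fun N N' h =>
    sum_le_sum_of_subset_of_nonneg (range_mono h) fun x _ _ => h0 x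
  set s : ℝ := ∑ x ∈ range m, f x with hs
  have hs0 : 0 ≤ s := sum_nonneg fun x _ => h0 x
  have hm' : (0 : ℝ) < m := by exact_mod_cast hm
  rw [hc m]
  have hlow : ∀ D : ℕ, s / m * D - s ≤ ∑ x ∈ range (D + 1), f x := by
    intro D
    have h1 := hmono (m * ((D + 1) / m)) (D + 1) (Nat.mul_div_le _ _)
    rw [sum_period f hper] at h1
    have h2 : ((D : ℝ)) / m ≤ ((D + 1) / m : ℕ) + 1 := by
      have h3 := Nat.lt_mul_div_succ (D + 1) hm
      have h4 : ((D + 1 : ℕ) : ℝ) < m * (((D + 1) / m : ℕ) + 1) := by exact_mod_cast h3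
      rw [div_le_iff₀ hm']
      push_cast at h4
      nlinarith
    have h5 : s / m * D - s = (D / m - 1) * s := by field_simp
    rw [h5]
    exact (mul_le_mul_of_nonneg_right (by linarith) hs0).trans h1
  have hupp : ∀ D : ℕ, ∑ x ∈ range (D + 1), f x ≤ s / m * D + s * 2 := by
    intro D
    have h1 := hmono (D + 1) (m * ((D + 1) / m + 1)) (Nat.lt_mul_div_succ (D + 1) hm).le
    rw [sum_period f hper] at h1
    have h2 : (((D + 1) / m : ℕ) : ℝ) ≤ (D + 1) / m := by
      have := @Nat.cast_div_le ℝ _ _ _ (D + 1) m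
      push_cast at this
      exact this
    have h6 : (1 : ℝ) / m ≤ 1 := by
      rw [div_le_one hm']
      exact_mod_cast hm
    have h5 : s / m * D + s * 2 = (D / m + 2) * s := by field_simp
    rw [h5]
    refine h1.trans (mul_le_mul_of_nonneg_right ?_ hs0)
    push_cast
    rw [add_div] at h2
    linarith
  have hinv : Tendsto (fun D : ℕ => ((D : ℝ))⁻¹) atTop (𝓝 0) :=
    tendsto_inv_atTop_zero.comp tendsto_natCast_atTop_atTop
  have l1 : Tendsto (fun D : ℕ => s / m - s * ((D : ℝ))⁻¹) atTop (𝓝 (s / m - s * 0)) :=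
    tendsto_const_nhds.sub (hinv.const_mul _)
  have l2 : Tendsto (fun D : ℕ => s / m + s * 2 * ((D : ℝ))⁻¹) atTop (𝓝 (s / m + s * 2 * 0)) :=
    tendsto_const_nhds.add (hinv.const_mul _)
  rw [mul_zero, sub_zero] at l1
  rw [mul_zero, add_zero] at l2
  refine tendsto_of_tendsto_of_tendsto_of_le_of_le' l1 l2 ?_ ?_
  · filter_upwards [eventually_gt_atTop 0] with D hD
    have hD' : (0 : ℝ) < D := by exact_mod_cast hD
    rw [hc, le_div_iff₀ hD']
    have : (s / m - s * (D : ℝ)⁻¹) * D = s / m * D - s := by field_simp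
    rw [this]
    exact hlow D
  · filter_upwards [eventually_gt_atTop 0] with D hD
    have hD' : (0 : ℝ) < D := by exact_mod_cast hD
    rw [hc, div_le_iff₀ hD']
    have : (s / m + s * 2 * (D : ℝ)⁻¹) * D = s / m * D + s * 2 := by field_simp
    rw [this]
    exact hupp D

end Pool.Agent.H574.CF.Dens
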