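import Pool.Agent.H574.CF.Slice

/-!
# The densities of the reduced forms with a given first coefficient
-/

set_option autoImplicit false

namespace Pool.Agent.H574.CF.Dens

open Filter Topology Finset

instance (t : ℕ × ℕ × ℕ) : Decidable (Mod3 t) := inferInstanceAs (Decidable (_ ∧ _))
instance (t : ℕ × ℕ × ℕ) : Decidable (Fine3 t) := inferInstanceAs (Decidable (_ ∨ _))

/-- the bad prime divisors of `n`, without `3` -/
def Bad (n : ℕ) : Finset ℕ := n.primeFactors.filter fun p => p % 3 = 2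

lemma mem_Bad {n p : ℕ} (hn : n ≠ 0) : p ∈ Bad n ↔ p.Prime ∧ p % 3 = 2 ∧ p ∣ n := by
  rw [Bad, mem_filter, Nat.mem_primeFactors]
  tauto

lemma bad_prop {n p : ℕ} (hp : p ∈ Bad n) : p.Prime ∧ Nat.Coprime 9 p := by
  rw [Bad, mem_filter, Nat.mem_primeFactors] at hp
  refine ⟨hp.1.1, ?_⟩
  have h3 : Nat.Coprime 3 p := by
    rw [Nat.coprime_primes Nat.prime_three hp.1.1]
    rintro rfl
    omega
  have : (9 : ℕ) = 3 ^ 2 := rfl
  rw [this]
  exact Nat.Coprime.pow_left 2 h3

lemma prod_bad_dvd (n : ℕ) : ∏ p ∈ Bad n, p ∣ n :=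
  (prod_dvd_prod_of_subset _ _ _ (filter_subset _ _)).trans (Nat.prod_primeFactors_dvd n)

/-- the number of the classes of `C` modulo nine which occur -/
def v9 (n B : ℕ) : ℕ := ((range 9).filter fun c => Mod3 (n, B, c)).card

/-- the number of the classes of `C` modulo nine without an obstruction at three -/
def w9 (n B : ℕ) : ℕ := ((range 9).filter fun c => Mod3 (n, B, c) ∧ Fine3 (n, B, c)).card

lemma mod3_congr {A B C A' B' C' : ℕ} (hA : A % 3 = A' % 3) (hB : B % 3 = B' % 3)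
    (hC : C % 3 = C' % 3) : Mod3 (A, B, C) ↔ Mod3 (A', B', C') := by
  unfold Mod3
  simp only
  rw [hA, hC, Nat.pow_mod, hB, ← Nat.pow_mod, Nat.mul_mod, hA, hC, ← Nat.mul_mod]

lemma fine3_congr {A B C A' B' C' : ℕ} (hA : A % 9 = A' % 9) (hB : B % 9 = B' % 9)
    (hC : C % 9 = C' % 9) : Fine3 (A, B, C) ↔ Fine3 (A', B', C') := by
  unfold Fine3
  simp only
  rw [fine_congr hA, fine_congr hC, fine_congr (by omega : (A + B + C) % 9 = (A' + B' + C') % 9),
    fine_congr (by omega : (A + 2 * B + 4 * C) % 9 = (A' + 2 * B' + 4 * C') % 9)]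

lemma both_congr {A B C A' B' C' : ℕ} (hA : A % 9 = A' % 9) (hB : B % 9 = B' % 9)
    (hC : C % 9 = C' % 9) : (Mod3 (A, B, C) ∧ Fine3 (A, B, C)) ↔
      (Mod3 (A', B', C') ∧ Fine3 (A', B', C')) := by
  rw [fine3_congr hA hB hC, mod3_congr (A' := A') (B' := B') (C' := C') (by omega) (by omega)
    (by omega)]

lemma v9_congr {n B n' B' : ℕ} (hn : n % 9 = n' % 9) (hB : B % 9 = B' % 9) :
    v9 n B = v9 n' B' := by
  unfold v9
  congr 1
  exact filter_congr fun c _ => mod3_congr (by omega) (by omega) rfl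

lemma w9_congr {n B n' B' : ℕ} (hn : n % 9 = n' % 9) (hB : B % 9 = B' % 9) :
    w9 n B = w9 n' B' := by
  unfold w9
  congr 1
  exact filter_congr fun c _ => both_congr hn hB rfl

/-- the table of `v9` -/
def vt (n B : ℕ) : ℕ := if n % 3 = 1 then 3 else if B % 3 = 0 then 6 else 0

/-- the table of `w9` -/
def wt (n B : ℕ) : ℕ := if n % 3 = 1 then 3 else if B % 3 ≠ 0 then 0 else
  if n % 9 = 3 then 6 else if n % 9 = 6 then 5 else if B % 9 = 0 then 4 else 6

lemma v9_table : ∀ n < 9, ∀ B < 9, n % 3 ≠ 2 → v9 n B = vt n B := by decide +kernel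

lemma w9_table : ∀ n < 9, ∀ B < 9, n % 3 ≠ 2 → w9 n B = wt n B := by decide +kernel

lemma v9_eq {n B : ℕ} (hn : n % 3 ≠ 2) : v9 n B = vt n B := by
  rw [v9_congr (Nat.mod_mod n 9).symm (Nat.mod_mod B 9).symm,
    v9_table (n % 9) (by omega) (B % 9) (by omega) (by omega)]
  unfold vt
  have h1 : n % 9 % 3 = n % 3 := by omega
  have h2 : B % 9 % 3 = B % 3 := by omega
  rw [h1, h2]

lemma w9_eq {n B : ℕ} (hn : n % 3 ≠ 2) : w9 n B = wt n B := by
  rw [w9_congr (Nat.mod_mod n 9).symm (Nat.mod_mod B 9).symm,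
    w9_table (n % 9) (by omega) (B % 9) (by omega) (by omega)]
  unfold wt
  have h1 : n % 9 % 3 = n % 3 := by omega
  have h2 : B % 9 % 3 = B % 3 := by omega
  have h3 : n % 9 % 9 = n % 9 := by omega
  have h4 : B % 9 % 9 = B % 9 := by omega
  rw [h1, h2, h3, h4]

/-- the density of the `C` without an obstruction, for given `n` and `B` -/
noncomputable def den (n B : ℕ) : ℝ :=
  (w9 n B : ℝ) / 9 * ∏ p ∈ Bad n, if p ∣ B then 1 - 1 / (p : ℝ) else 1

/-- there is no obstruction -/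
def Ok (n B C : ℕ) : Prop := Mod3 (n, B, C) ∧ NoObs (n, B, C)

lemma ok_iff {n B C : ℕ} (hn : n ≠ 0) : Ok n B C ↔ (Mod3 (n, B, C) ∧ Fine3 (n, B, C)) ∧
    ∀ p ∈ Bad n, ¬ (p ∣ B ∧ p ∣ C) := by
  unfold Ok NoObs DivAll
  constructor
  · rintro ⟨h1, h2, h3⟩
    exact ⟨⟨h1, h2⟩, fun p hp ⟨h4, h5⟩ => by
      obtain ⟨a1, a2, a3⟩ := (mem_Bad hn).1 hp
      exact h3 p a1 a2 ⟨a3, h4, h5⟩⟩
  · rintro ⟨⟨h1, h2⟩, h3⟩
    exact ⟨h1, h2, fun p a1 a2 ⟨a3, h4, h5⟩ => h3 p ((mem_Bad hn).2 ⟨a1, a2, a3⟩) ⟨h4, h5⟩⟩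

open Classical in
lemma lim_ok {n : ℕ} (hn : 0 < n) (B : ℕ) :
    Tendsto (fun D : ℕ => (((range (D + 1)).filter fun C => Ok n B C).card : ℝ) / D) atTop
      (𝓝 (den n B)) := by
  have hn0 : n ≠ 0 := hn.ne'
  have h1 := lim_periodic (m := 9 * n) (by omega) (fun C => Ok n B C) fun C => by
    rw [ok_iff hn0, ok_iff hn0, both_congr (A := n) (A' := n) (B := B) (B' := B)
      (C := C + 9 * n) (C' := C) rfl rfl (by omega)]
    refine and_congr_right fun _ => forall₂_congr fun p hp => ?_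
    have h2 : p ∣ n := ((mem_Bad hn0).1 hp).2.2
    have h3 : p ∣ C + 9 * n ↔ p ∣ C := (Nat.dvd_add_iff_left (h2.mul_left 9)).symm
    rw [h3]
  have h2 : ((((range (9 * n)).filter fun C => Ok n B C).card : ℕ) : ℝ) / ((9 * n : ℕ) : ℝ) =
      den n B := by
    have h3 : ((((range (9 * n)).filter fun C => Ok n B C).card : ℕ) : ℝ) =
        ∑ C ∈ range (9 * n), (if Mod3 (n, B, C) ∧ Fine3 (n, B, C) then (1 : ℝ) else 0) *
          ∏ p ∈ Bad n, (if p ∣ C then (if p ∣ B then (0 : ℝ) else 1) else 1) := by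
      rw [card_filter]
      push_cast
      refine sum_congr rfl fun C _ => ?_
      by_cases h4 : Mod3 (n, B, C) ∧ Fine3 (n, B, C)
      · by_cases h5 : ∀ p ∈ Bad n, ¬ (p ∣ B ∧ p ∣ C)
        · rw [if_pos ((ok_iff hn0).2 ⟨h4, h5⟩), if_pos h4, one_mul]
          symm
          refine prod_eq_one fun p hp => ?_
          have := h5 p hp
          split_ifs with h6 h7
          · exact absurd ⟨h7, h6⟩ this
          · rfl
          · rfl
        · rw [if_neg fun h => h5 ((ok_iff hn0).1 h).2]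
          push Not at h5
          obtain ⟨p, hp, h6, h7⟩ := h5
          rw [prod_eq_zero hp (by rw [if_pos h7, if_pos h6]), mul_zero]
      · rw [if_neg fun h => h4 ((ok_iff hn0).1 h).1, if_neg h4, zero_mul]
    rw [h3, sum_crt' (fun p => if p ∣ B then (0 : ℝ) else 1) (Bad n) (m := 9) (by norm_num)
      (fun C => if Mod3 (n, B, C) ∧ Fine3 (n, B, C) then (1 : ℝ) else 0)
      (fun C => by
        simp only [both_congr (A := n) (A' := n) (B := B) (B' := B)
          (C := C + 9) (C' := C) rfl rfl (by omega)])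
      (fun p hp => bad_prop hp) (Nat.mul_dvd_mul_left 9 (prod_bad_dvd n))]
    have h4 : ∑ C ∈ range 9, (if Mod3 (n, B, C) ∧ Fine3 (n, B, C) then (1 : ℝ) else 0) =
        w9 n B := by
      unfold w9
      rw [card_filter]
      push_cast
      exact sum_congr rfl fun C _ => by congr
    rw [h4]
    have h5 : ((9 * n : ℕ) : ℝ) ≠ 0 := by positivity
    rw [mul_assoc, mul_div_cancel_left₀ _ h5]
    unfold den
    push_cast
    congr 1
    refine prod_congr rfl fun p _ => ?_
    split_ifs <;> ring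
  rw [h2] at h1
  exact h1

open Classical in
lemma lim_mod3 (n B : ℕ) :
    Tendsto (fun D : ℕ => (((range (D + 1)).filter fun C => Mod3 (n, B, C)).card : ℝ) / D) atTop
      (𝓝 ((v9 n B : ℝ) / 9)) := by
  have h1 := lim_periodic (m := 9) (by omega) (fun C => Mod3 (n, B, C)) fun C => by
    rw [mod3_congr (A := n) (A' := n) (B := B) (B' := B) (C := C + 9) (C' := C) rfl rfl (by omega)]
  unfold v9
  push_cast at h1
  convert h1 using 4 <;> congr

/-! ### sums of the densities -/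

/-- the first constant -/
noncomputable def cf (n : ℕ) : ℝ :=
  if n % 3 = 1 then 1 else if n % 9 = 3 then 1 else if n % 9 = 6 then 5 / 6 else 8 / 9

/-- the second constant -/
noncomputable def cg (n : ℕ) : ℝ :=
  if n % 3 = 1 then 1 else if n % 9 = 3 then 3 else if n % 9 = 6 then 5 / 2 else 2

/-- the third constant -/
noncomputable def ce (n : ℕ) : ℝ := if n % 3 = 1 then 1 else 3

/-- the density of the types -/
noncomputable def tot (n : ℕ) : ℝ := if n % 3 = 1 then ((n : ℝ) + 1) / 3 else 2 * ((n : ℝ) + 3) / 9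

/-- the proportion of the types without obstruction -/
noncomputable def prop (n : ℕ) : ℝ :=
  (n * cf n * ∏ p ∈ Bad n, (1 - 1 / (p : ℝ) ^ 2) + cg n * ∏ p ∈ Bad n, (1 - 1 / (p : ℝ))) /
    (n + ce n)

lemma den_period {n : ℕ} (hn : 0 < n) (h3 : n % 3 ≠ 2) (B : ℕ) : den n (B + n) = den n B := by
  unfold den
  have h1 : w9 n (B + n) = w9 n B := by
    rw [w9_eq h3, w9_eq h3]
    unfold wt
    have hcases : n % 9 = 0 ∨ n % 9 = 1 ∨ n % 9 = 3 ∨ n % 9 = 4 ∨ n % 9 = 6 ∨ n % 9 = 7 := by omega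
    rcases hcases with h | h | h | h | h | h
    · have e1 : n % 3 = 0 := by omega
      have e2 : (B + n) % 3 = B % 3 := by omega
      have e3 : (B + n) % 9 = B % 9 := by omega
      simp only [h, e1, e2, e3]
    · have e1 : n % 3 = 1 := by omega
      simp only [e1, if_true]
    · have e1 : n % 3 = 0 := by omega
      have e2 : (B + n) % 3 = B % 3 := by omega
      simp only [h, e1, e2, if_true]
    · have e1 : n % 3 = 1 := by omega
      simp only [e1, if_true]
    · have e1 : n % 3 = 0 := by omega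
      have e2 : (B + n) % 3 = B % 3 := by omega
      have e4 : ¬ (6 : ℕ) = 3 := by norm_num
      simp only [h, e1, e2, if_true, e4, if_false]
    · have e1 : n % 3 = 1 := by omega
      simp only [e1, if_true]
  rw [h1]
  congr 1
  refine prod_congr rfl fun p hp => ?_
  have h2 : p ∣ B + n ↔ p ∣ B :=
    (Nat.dvd_add_iff_left ((mem_Bad hn.ne').1 hp).2.2).symm
  simp only [h2]

lemma sum_w9 {n : ℕ} (h3 : n % 3 ≠ 2) : (∑ B ∈ range 9, ((w9 n B : ℝ) / 9)) / 9 =
    if n % 3 = 1 then 1 / 3 else 2 / 9 * cf n := by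
  simp only [w9_eq h3, sum_range_succ, range_zero, sum_empty, wt, cf]
  have hcases : n % 9 = 0 ∨ n % 9 = 1 ∨ n % 9 = 3 ∨ n % 9 = 4 ∨ n % 9 = 6 ∨ n % 9 = 7 := by omega
  rcases hcases with h | h | h | h | h | h
  · have e1 : n % 3 = 0 := by omega
    simp only [h, e1]
    norm_num
  · have e1 : n % 3 = 1 := by omega
    simp only [h, e1]
    norm_num
  · have e1 : n % 3 = 0 := by omega
    simp only [h, e1]
    norm_num
  · have e1 : n % 3 = 1 := by omega
    simp only [h, e1]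
    norm_num
  · have e1 : n % 3 = 0 := by omega
    simp only [h, e1]
    norm_num
  · have e1 : n % 3 = 1 := by omega
    simp only [h, e1]
    norm_num

lemma w9_zero {n : ℕ} (h3 : n % 3 ≠ 2) : (w9 n 0 : ℝ) / 9 =
    if n % 3 = 1 then 1 / 3 else 2 / 9 * cg n := by
  simp only [w9_eq h3, wt, cg]
  have hcases : n % 9 = 0 ∨ n % 9 = 1 ∨ n % 9 = 3 ∨ n % 9 = 4 ∨ n % 9 = 6 ∨ n % 9 = 7 := by omega
  rcases hcases with h | h | h | h | h | h
  · have e1 : n % 3 = 0 := by omega
    simp only [h, e1]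
    norm_num
  · have e1 : n % 3 = 1 := by omega
    simp only [h, e1]
    norm_num
  · have e1 : n % 3 = 0 := by omega
    simp only [h, e1]
    norm_num
  · have e1 : n % 3 = 1 := by omega
    simp only [h, e1]
    norm_num
  · have e1 : n % 3 = 0 := by omega
    simp only [h, e1]
    norm_num
  · have e1 : n % 3 = 1 := by omega
    simp only [h, e1]
    norm_num

/-- the sum of the densities -/
theorem sum_den {n : ℕ} (hn : 0 < n) (h3 : n % 3 ≠ 2) :
    ∑ B ∈ range (n + 1), den n B = tot n * prop n := by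
  have h9 : (∑ B ∈ range (n * 9), den n B) = 9 * ∑ B ∈ range n, den n B := by
    rw [sum_period (den n) (den_period hn h3) 9]
    norm_num
  have h1 : ∑ B ∈ range (n * 9), den n B =
      ((9 * n : ℕ) : ℝ) * ((∑ B ∈ range 9, ((w9 n B : ℝ) / 9)) / (9 : ℕ)) *
        ∏ p ∈ Bad n, (1 - (1 - (1 - 1 / (p : ℝ))) / p) := by
    rw [mul_comm n 9]
    have := sum_crt' (fun p => 1 - 1 / (p : ℝ)) (Bad n) (m := 9) (by norm_num)
      (fun B => (w9 n B : ℝ) / 9) (fun B => by
        show (w9 n (B + 9) : ℝ) / 9 = _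
        rw [w9_congr (n := n) (n' := n) (B := B + 9) (B' := B) rfl (by omega)])
      (fun p hp => bad_prop hp) (N := 9 * n) (Nat.mul_dvd_mul_left 9 (prod_bad_dvd n))
    rw [← this]
    rfl
  have h2 : ∏ p ∈ Bad n, (1 - (1 - (1 - 1 / (p : ℝ))) / p) = ∏ p ∈ Bad n, (1 - 1 / (p : ℝ) ^ 2) :=
    prod_congr rfl fun p hp => by
      have : (p : ℝ) ≠ 0 := by exact_mod_cast (bad_prop hp).1.ne_zero
      field_simp
      ring
  rw [h9, h2] at h1
  push_cast at h1
  rw [sum_w9 h3] at h1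
  have h4 : den n n = (w9 n 0 : ℝ) / 9 * ∏ p ∈ Bad n, (1 - 1 / (p : ℝ)) := by
    have h5 := den_period hn h3 0
    rw [zero_add] at h5
    rw [h5]
    unfold den
    rw [prod_congr rfl fun p _ => if_pos (dvd_zero p)]
  rw [w9_zero h3] at h4
  rw [sum_range_succ, h4]
  have hn' : (0 : ℝ) < n := by exact_mod_cast hn
  have h6 : ∑ B ∈ range n, den n B = n * (if n % 3 = 1 then 1 / 3 else 2 / 9 * cf n) *
      ∏ p ∈ Bad n, (1 - 1 / (p : ℝ) ^ 2) := by linarith
  rw [h6]
  unfold tot prop ce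
  by_cases h7 : n % 3 = 1
  · simp only [if_pos h7, cf, cg]
    field_simp
  · simp only [if_neg h7]
    field_simp

lemma sum_v9 {n : ℕ} (h3 : n % 3 ≠ 2) : ∑ B ∈ range (n + 1), (v9 n B : ℝ) / 9 = tot n := by
  simp only [v9_eq h3, vt, tot]
  by_cases h7 : n % 3 = 1
  · simp only [if_pos h7, sum_const, card_range, nsmul_eq_mul]
    push_cast
    ring
  · simp only [if_neg h7]
    obtain ⟨k, hk⟩ : ∃ k, n = 3 * k := ⟨n / 3, by omega⟩
    subst hk
    have h1 : ∀ k : ℕ, ∑ B ∈ range (3 * k + 1), (((if B % 3 = 0 then 6 else 0 : ℕ) : ℝ) / 9) =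
        2 * ((3 * k : ℝ) + 3) / 9 := by
      intro k
      induction k with
      | zero => norm_num
      | succ k ih =>
        have : 3 * (k + 1) + 1 = 3 * k + 1 + 1 + 1 + 1 := by ring
        rw [this, sum_range_succ, sum_range_succ, sum_range_succ, ih]
        have e1 : ¬ (3 * k + 1) % 3 = 0 := by omega
        have e2 : ¬ (3 * k + 1 + 1) % 3 = 0 := by omega
        have e3 : (3 * k + 1 + 1 + 1) % 3 = 0 := by omega
        rw [if_neg e1, if_neg e2, if_pos e3]
        push_cast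
        ring
    rw [h1]
    push_cast
    ring

end Pool.Agent.H574.CF.Dens
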