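import Pool.Agent.H574.CF.Slice2
import Pool.Agent.H574.CF.Types3

/-!
# The loci of codimension one in a Hassett divisor
-/

set_option autoImplicit false

namespace Pool.Agent.H574.CF

open Pool.Agent.Q63.CF Pool.Agent.Y95.Q Module Dens Filter Topology

variable {M : Submodule ℤ L} {t : ℕ × ℕ × ℕ}

lemma mem_span2 {v u : L} : u ∈ Submodule.span ℤ {h, v} ↔ ∃ x y : ℤ, u = x • h + y • v := by
  rw [Submodule.mem_span_pair]
  constructor
  · rintro ⟨a, b, rfl⟩
    exact ⟨a, b, rfl⟩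
  · rintro ⟨a, b, rfl⟩
    exact ⟨a, b, rfl⟩

/-- a primitive combination spans a saturated group with `h` -/
lemma sat_of_coprime {v w : L} {A B C : ℤ} (hM : Saturated M)
    (hs : M = Submodule.span ℤ {h, v, w}) (hv : disc v = 2 * A) (hw : disc w = 2 * C)
    (hvw : mix v w = B) (hA : 1 ≤ A) (hB : 0 ≤ B) (hBA : B ≤ A) (hAC : A ≤ C) {y z : ℤ}
    (hyz : IsCoprime y z) : Saturated (Submodule.span ℤ {h, y • v + z • w}) := by
  intro k u hk hu
  obtain ⟨a, b, hab⟩ := mem_span2.1 hu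
  have hvM : v ∈ M := by
    rw [hs]
    exact Submodule.subset_span (by simp)
  have hwM : w ∈ M := by
    rw [hs]
    exact Submodule.subset_span (by simp)
  have hhM : h ∈ M := by
    rw [hs]
    exact Submodule.subset_span (by simp)
  have huM : u ∈ M := hM k u hk (by
    rw [hab]
    exact M.add_mem (M.smul_mem _ hhM) (M.smul_mem _ (M.add_mem (M.smul_mem _ hvM)
      (M.smul_mem _ hwM))))
  rw [hs, mem_span3] at huM
  obtain ⟨x', y', z', rfl⟩ := huM
  have h1 : (k * x') • h + ((k * y') • v + (k * z') • w) = a • h + ((b * y) • v + (b * z) • w) := by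
    calc _ = k • (x' • h + (y' • v + z' • w)) := by simp only [smul_add, mul_smul]
      _ = a • h + b • (y • v + z • w) := hab
      _ = _ := by simp only [smul_add, mul_smul]
  obtain ⟨h2, h3⟩ := coef_unique hv hw hvw hA hB hBA hAC h1
  obtain ⟨α, β, hαβ⟩ := hyz
  have h4 : k * (α * y' + β * z') = b := by
    calc k * (α * y' + β * z') = α * (k * y') + β * (k * z') := by ring
      _ = α * (b * y) + β * (b * z) := by rw [h2, h3]
      _ = b * (α * y + β * z) := by ring
      _ = b := by rw [hαβ, mul_one]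
  have h5 : y' = (α * y' + β * z') * y := by
    apply mul_left_cancel₀ hk
    rw [h2, ← mul_assoc, h4]
  have h6 : z' = (α * y' + β * z') * z := by
    apply mul_left_cancel₀ hk
    rw [h3, ← mul_assoc, h4]
  refine mem_span2.2 ⟨x', α * y' + β * z', ?_⟩
  rw [smul_add, ← mul_smul, ← mul_smul, ← h5, ← h6]

/-- the nonzero discriminants of the saturated groups of rank two are the primitive values of the
form -/
theorem in_iff_value (hM : Good3 M) (hf : HasForm M t) {d : ℤ} (hd : d ≠ 0) :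
    In M d ↔ ∃ y z : ℤ, IsCoprime y z ∧
      d = 2 * (t.1 * y ^ 2 + t.2.1 * (y * z) + t.2.2 * z ^ 2) := by
  obtain ⟨hBA, hAC, -⟩ := id hf
  have hA := one_le_of_occ (occ_of hM.1 hM.2 hf)
  obtain ⟨v, w, hs, hv, hw, hvw⟩ := form_data hf
  have e1 : (1 : ℤ) ≤ (t.1 : ℤ) := by exact_mod_cast hA
  have e2 : (0 : ℤ) ≤ (t.2.1 : ℤ) := by positivity
  have e3 : (t.2.1 : ℤ) ≤ t.1 := by exact_mod_cast hBA
  have e4 : (t.1 : ℤ) ≤ t.2.2 := by exact_mod_cast hAC
  constructor
  · rintro ⟨u, huM, hsat, rfl⟩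
    rw [hs, mem_span3] at huM
    obtain ⟨x, y, z, rfl⟩ := huM
    rw [disc_hcomb, disc_comb, hv, hw, hvw] at hd ⊢
    refine ⟨y, z, ?_, by ring⟩
    have hg0 : Int.gcd y z ≠ 0 := by
      intro hg
      rw [Int.gcd_eq_zero_iff] at hg
      obtain ⟨rfl, rfl⟩ := hg
      exact hd (by ring)
    rw [Int.isCoprime_iff_gcd_eq_one]
    obtain ⟨y', hy'⟩ : (Int.gcd y z : ℤ) ∣ y := Int.gcd_dvd_left _ _
    obtain ⟨z', hz'⟩ : (Int.gcd y z : ℤ) ∣ z := Int.gcd_dvd_right _ _
    generalize Int.gcd y z = g at *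
    have hgz : (g : ℤ) ≠ 0 := by exact_mod_cast hg0
    have h1 : (g : ℤ) • (y' • v + z' • w) ∈
        Submodule.span ℤ {h, x • h + (y • v + z • w)} := by
      refine mem_span2.2 ⟨-x, 1, ?_⟩
      rw [one_smul, neg_smul, neg_add_cancel_left, smul_add, ← mul_smul, ← mul_smul, ← hy', ← hz']
    have h2 := hsat g _ hgz h1
    obtain ⟨a, b, hab⟩ := mem_span2.1 h2
    have h3 : (0 : ℤ) • h + (y' • v + z' • w) =
        (a + b * x) • h + ((b * y) • v + (b * z) • w) := by
      rw [zero_smul, zero_add, hab]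
      simp only [smul_add, mul_smul, add_smul]
      abel
    obtain ⟨h4, h5⟩ := coef_unique hv hw hvw e1 e2 e3 e4 h3
    have h6 : (g : ℤ) * b = 1 := by
      by_contra hne
      have h7 : (1 - b * g) ≠ 0 := fun h => hne (by linarith)
      have h8 : (1 - b * g) * y' = 0 := by
        rw [hy'] at h4
        linear_combination h4
      have h9 : (1 - b * g) * z' = 0 := by
        rw [hz'] at h5
        linear_combination h5
      have h10 : y' = 0 := (mul_eq_zero.1 h8).resolve_left h7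
      have h11 : z' = 0 := (mul_eq_zero.1 h9).resolve_left h7
      apply hd
      rw [hy', hz', h10, h11]
      ring
    have h7 : (g : ℤ) ∣ 1 := ⟨b, h6.symm⟩
    have h8 : g ∣ 1 := by exact_mod_cast h7
    exact Nat.dvd_one.1 h8
  · rintro ⟨y, z, hyz, rfl⟩
    refine ⟨y • v + z • w, ?_, sat_of_coprime hM.1.sat hs hv hw hvw e1 e2 e3 e4 hyz, ?_⟩
    · rw [hs, mem_span3]
      exact ⟨0, y, z, by rw [zero_smul, zero_add]⟩
    · rw [disc_comb, hv, hw, hvw]
      ring

/-- in a form with large last coefficient a small number is a primitive value only if it is the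
first coefficient -/
theorem in_iff_first (hM : Good3 M) (hf : HasForm M t) {n : ℕ} (hn : 0 < n) (hC : n < t.2.2) :
    In M (2 * n) ↔ t.1 = n := by
  obtain ⟨hBA, hAC, -⟩ := id hf
  have e2 : (0 : ℤ) ≤ (t.2.1 : ℤ) := by positivity
  have e3 : (t.2.1 : ℤ) ≤ t.1 := by exact_mod_cast hBA
  have e4 : (t.1 : ℤ) ≤ t.2.2 := by exact_mod_cast hAC
  rw [in_iff_value hM hf (by positivity)]
  constructor
  · rintro ⟨y, z, hyz, he⟩
    have hz : z = 0 := by
      by_contra hz
      have h1 := qmin (y := y) e2 e3 e4 hz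
      have h2 : (n : ℤ) < t.2.2 := by exact_mod_cast hC
      linarith
    subst hz
    rw [isCoprime_zero_right, Int.isUnit_iff] at hyz
    have h1 : y ^ 2 = 1 := by
      rcases hyz with rfl | rfl <;> norm_num
    rw [h1] at he
    have : (t.1 : ℤ) = n := by linarith
    exact_mod_cast this
  · rintro rfl
    exact ⟨1, 0, isCoprime_one_left, by ring⟩

/-- The types `t = (A, B, C)`, `C ≤ D`, of the groups `M` of rank three with the property `Q` in
which `h` and some vector span a saturated group of discriminant `d`. -/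
def TypesIn (d : ℤ) (Q : Submodule ℤ L → Prop) (D : ℕ) : Set (ℕ × ℕ × ℕ) :=
  {t | t.2.2 ≤ D ∧ ∃ M : Submodule ℤ L, Good3 M ∧ HasForm M t ∧ In M d ∧ Q M}

open Classical in
/-- the triples `(n, B, C)` with `P B C` -/
noncomputable def tab (n : ℕ) (P : ℕ → ℕ → Prop) (D : ℕ) : Finset (ℕ × ℕ × ℕ) :=
  ((Finset.range (n + 1)).sigma fun B => (Finset.range (D + 1)).filter (P B)).image
    fun x => (n, x.1, x.2)

open Classical in
lemma card_tab (n : ℕ) (P : ℕ → ℕ → Prop) (D : ℕ) :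
    (tab n P D).card = ∑ B ∈ Finset.range (n + 1), ((Finset.range (D + 1)).filter (P B)).card := by
  unfold tab
  rw [Finset.card_image_of_injective, Finset.card_sigma]
  rintro ⟨a, b⟩ ⟨c, d⟩ hh
  simp only [Prod.mk.injEq, true_and] at hh
  obtain ⟨rfl, rfl⟩ := hh
  rfl

lemma mem_tab {n : ℕ} {P : ℕ → ℕ → Prop} {D : ℕ} {t : ℕ × ℕ × ℕ} :
    t ∈ tab n P D ↔ t.1 = n ∧ t.2.1 ≤ n ∧ t.2.2 ≤ D ∧ P t.2.1 t.2.2 := by
  classical
  unfold tab
  obtain ⟨A, B, C⟩ := t
  simp only [Finset.mem_image, Finset.mem_sigma, Finset.mem_range, Finset.mem_filter, Sigma.exists,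
    Prod.mk.injEq]
  constructor
  · rintro ⟨a, b, ⟨h1, h2, h3⟩, rfl, rfl, rfl⟩
    exact ⟨rfl, by omega, by omega, h3⟩
  · rintro ⟨rfl, h1, h2, h3⟩
    exact ⟨B, C, ⟨by omega, by omega, h3⟩, rfl, rfl, rfl⟩

open Classical in
lemma lim_tab {n : ℕ} {P : ℕ → ℕ → Prop} {c : ℕ → ℝ}
    (hc : ∀ B, Tendsto (fun D : ℕ => (((Finset.range (D + 1)).filter (P B)).card : ℝ) / D) atTop
      (𝓝 (c B))) :
    Tendsto (fun D : ℕ => ((tab n P D).card : ℝ) / D) atTop
      (𝓝 (∑ B ∈ Finset.range (n + 1), c B)) := by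
  have h1 : (fun D : ℕ => ((tab n P D).card : ℝ) / D) = fun D : ℕ =>
      ∑ B ∈ Finset.range (n + 1), (((Finset.range (D + 1)).filter (P B)).card : ℝ) / D := by
    funext D
    rw [card_tab]
    push_cast
    rw [Finset.sum_div]
  rw [h1]
  exact tendsto_finsetSum _ fun B _ => hc B

lemma lim_of_close {X : ℕ → Set (ℕ × ℕ × ℕ)} {Y : ℕ → Finset (ℕ × ℕ × ℕ)}
    (F : Finset (ℕ × ℕ × ℕ)) (h1 : ∀ D, X D ⊆ (Y D : Set (ℕ × ℕ × ℕ)) ∪ F)
    (h2 : ∀ D, (Y D : Set (ℕ × ℕ × ℕ)) ⊆ X D ∪ F) {c : ℝ}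
    (hl : Tendsto (fun D : ℕ => ((Y D).card : ℝ) / D) atTop (𝓝 c)) :
    Tendsto (fun D : ℕ => ((X D).ncard : ℝ) / D) atTop (𝓝 c) := by
  have hinv : Tendsto (fun D : ℕ => ((D : ℝ))⁻¹) atTop (𝓝 0) :=
    tendsto_inv_atTop_zero.comp tendsto_natCast_atTop_atTop
  have hfin : ∀ D, (X D).Finite := fun D =>
    ((Y D).finite_toSet.union F.finite_toSet).subset (h1 D)
  have b1 : ∀ D, ((X D).ncard : ℝ) ≤ (Y D).card + F.card := by
    intro D
    have h3 := (Set.ncard_le_ncard (h1 D) ((Y D).finite_toSet.union F.finite_toSet)).trans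
      (Set.ncard_union_le _ _)
    rw [Set.ncard_coe_finset, Set.ncard_coe_finset] at h3
    exact_mod_cast h3
  have b2 : ∀ D, ((Y D).card : ℝ) ≤ (X D).ncard + F.card := by
    intro D
    have h3 := (Set.ncard_le_ncard (h2 D) ((hfin D).union F.finite_toSet)).trans
      (Set.ncard_union_le _ _)
    rw [Set.ncard_coe_finset, Set.ncard_coe_finset] at h3
    exact_mod_cast h3
  have l1 : Tendsto (fun D : ℕ => ((Y D).card : ℝ) / D - F.card * ((D : ℝ))⁻¹) atTop
      (𝓝 (c - F.card * 0)) := hl.sub (hinv.const_mul _)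
  have l2 : Tendsto (fun D : ℕ => ((Y D).card : ℝ) / D + F.card * ((D : ℝ))⁻¹) atTop
      (𝓝 (c + F.card * 0)) := hl.add (hinv.const_mul _)
  rw [mul_zero, sub_zero] at l1
  rw [mul_zero, add_zero] at l2
  refine tendsto_of_tendsto_of_tendsto_of_le_of_le' l1 l2 ?_ ?_
  · filter_upwards [eventually_gt_atTop 0] with D hD
    have hD' : (0 : ℝ) < D := by exact_mod_cast hD
    rw [← div_eq_mul_inv, ← sub_div]
    exact div_le_div_of_nonneg_right (by linarith [b2 D]) hD'.le
  · filter_upwards [eventually_gt_atTop 0] with D hD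
    have hD' : (0 : ℝ) < D := by exact_mod_cast hD
    rw [← div_eq_mul_inv, ← add_div]
    exact div_le_div_of_nonneg_right (b1 D) hD'.le

/-- the box of the exceptional triples -/
def box (n : ℕ) : Finset (ℕ × ℕ × ℕ) :=
  Finset.range (n + 1) ×ˢ Finset.range (n + 1) ×ˢ Finset.range (n + 1)

/-- the types in a divisor and the table -/
theorem lim_typesIn {n : ℕ} (hn : 4 ≤ n) {Q : Submodule ℤ L → Prop} {P : ℕ → ℕ → Prop}
    (hQ : ∀ M t, Good3 M → HasForm M t → t.1 = n → n < t.2.2 → (Q M ↔ P t.2.1 t.2.2))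
    (hP : ∀ B C, P B C → Mod3 (n, B, C)) {c : ℕ → ℝ}
    (hc : ∀ B, Tendsto (fun D : ℕ => ((open Classical in
      (Finset.range (D + 1)).filter (P B)).card : ℝ) / D) atTop (𝓝 (c B))) :
    Tendsto (fun D : ℕ => ((TypesIn (2 * n) Q D).ncard : ℝ) / D) atTop
      (𝓝 (∑ B ∈ Finset.range (n + 1), c B)) := by
  refine lim_of_close (Y := tab n P) (box n) (fun D => ?_) (fun D => ?_) (lim_tab hc)
  · rintro t ⟨h1, M, hM, hf, hi, hq⟩
    by_cases hC : n < t.2.2
    · left
      have hA := (in_iff_first hM hf (by omega) hC).1 hi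
      exact mem_tab.2 ⟨hA, hA ▸ hf.1, h1, (hQ M t hM hf hA hC).1 hq⟩
    · right
      obtain ⟨h2, h3, -⟩ := hf
      simp only [box, Finset.mem_coe, Finset.mem_product, Finset.mem_range]
      omega
  · intro t ht
    obtain ⟨h1, h2, h3, h4⟩ := mem_tab.1 (Finset.mem_coe.1 ht)
    by_cases hC : n < t.2.2
    · left
      obtain ⟨M, hM, hr, hf⟩ := exists_of_occ (t := t) (by omega) (by omega) ⟨by omega, by
        have := hP _ _ h4
        rw [← h1] at this
        exact this⟩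
      exact ⟨h3, M, ⟨hM, hr⟩, hf, (in_iff_first ⟨hM, hr⟩ hf (by omega) hC).2 h1,
        (hQ M t ⟨hM, hr⟩ hf h1 hC).2 h4⟩
    · right
      simp only [box, Finset.mem_coe, Finset.mem_product, Finset.mem_range]
      omega

/-- **The number of the loci of codimension one in a divisor.** -/
theorem lim_all {n : ℕ} (hn : 4 ≤ n) (h3 : n % 3 ≠ 2) :
    Tendsto (fun D : ℕ => ((TypesIn (2 * n) (fun _ => True) D).ncard : ℝ) / D) atTop
      (𝓝 (tot n)) := by
  have h1 := lim_typesIn hn (Q := fun _ => True) (P := fun B C => Mod3 (n, B, C))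
    (fun M t hM hf hA _ => ⟨fun _ => by
      have := (occ_of hM.1 hM.2 hf).2
      rw [← hA]
      exact this, fun _ => trivial⟩) (fun B C h => h) (c := fun B => (v9 n B : ℝ) / 9)
    (fun B => by convert lim_mod3 n B)
  rw [sum_v9 h3] at h1
  exact h1

/-- **The number of the loci of codimension one with associated K3 surface.** -/
theorem lim_k3 {n : ℕ} (hn : 4 ≤ n) (h3 : n % 3 ≠ 2) :
    Tendsto (fun D : ℕ => ((TypesIn (2 * n) K3 D).ncard : ℝ) / D) atTop
      (𝓝 (tot n * prop n)) := by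
  have h1 := lim_typesIn hn (Q := K3) (P := fun B C => Ok n B C)
    (fun M t hM hf hA _ => by
      have h5 : K3 M ↔ NoObs t := k3_iff_noObs hM.1 hM.2 hf
      rw [h5]
      have h2 := (occ_of hM.1 hM.2 hf).2
      subst hA
      exact ⟨fun h => ⟨h2, h⟩, fun h => h.2⟩) (fun B C h => h.1) (c := fun B => den n B)
    (fun B => lim_ok (by omega) B)
  rw [sum_den (by omega) h3] at h1
  exact h1

lemma tot_pos (n : ℕ) : 0 < tot n := by
  unfold tot
  split_ifs <;> positivity

/-- **The proportion.** -/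
theorem lim_prop {n : ℕ} (hn : 4 ≤ n) (h3 : n % 3 ≠ 2) :
    Tendsto (fun D : ℕ => ((TypesIn (2 * n) K3 D).ncard : ℝ) /
      (TypesIn (2 * n) (fun _ => True) D).ncard) atTop (𝓝 (prop n)) := by
  have h1 := (lim_k3 hn h3).div (lim_all hn h3) (tot_pos n).ne'
  rw [mul_div_cancel_left₀ _ (tot_pos n).ne'] at h1
  refine h1.congr' ?_
  filter_upwards [eventually_gt_atTop 0] with D hD
  have hD' : (D : ℝ) ≠ 0 := by positivity
  simp only [Pi.div_apply]
  rw [div_div_div_cancel_right₀ hD']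

end Pool.Agent.H574.CF
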