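import Pool.Agent.H574.CF.Slice3

/-!
# Bounds for the proportion, and the divisor of the fourfolds which contain a plane
-/

set_option autoImplicit false

namespace Pool.Agent.H574.CF

namespace Dens

open Finset

lemma one_sub_sum_le (S : Finset ℕ) (x : ℕ → ℝ) (h0 : ∀ p ∈ S, 0 ≤ x p) (h1 : ∀ p ∈ S, x p ≤ 1) :
    0 ≤ ∏ p ∈ S, (1 - x p) ∧ 1 - ∑ p ∈ S, x p ≤ ∏ p ∈ S, (1 - x p) ∧
      ∏ p ∈ S, (1 - x p) ≤ 1 := by
  induction S using Finset.induction_on with
  | empty => simp
  | insert p S hp ih =>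
    obtain ⟨i1, i2, i3⟩ := ih (fun q hq => h0 q (mem_insert_of_mem hq))
      fun q hq => h1 q (mem_insert_of_mem hq)
    have g0 := h0 p (mem_insert_self p S)
    have g1 := h1 p (mem_insert_self p S)
    rw [prod_insert hp, sum_insert hp]
    refine ⟨mul_nonneg (by linarith) i1, by nlinarith, by nlinarith⟩

lemma sum_tail (J : ℕ) : ∑ j ∈ Icc 1 J, 1 / ((6 * j + 5 : ℕ) : ℝ) ^ 2 ≤
    1 / 48 - 1 / (6 * (6 * (J : ℝ) + 8)) := by
  induction J with
  | zero => norm_num
  | succ J ih =>
    rw [sum_Icc_succ_top (by omega)]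
    have h1 : 1 / ((6 * (J + 1) + 5 : ℕ) : ℝ) ^ 2 ≤
        1 / (6 * (6 * (J : ℝ) + 8)) - 1 / (6 * (6 * ((J + 1 : ℕ) : ℝ) + 8)) := by
      push_cast
      have h2 : 1 / (6 * (6 * (J : ℝ) + 8)) - 1 / (6 * (6 * ((J : ℝ) + 1) + 8)) =
          1 / ((6 * (J : ℝ) + 8) * (6 * (J : ℝ) + 14)) := by
        field_simp
        ring
      rw [h2]
      refine one_div_le_one_div_of_le (by positivity) ?_
      nlinarith
    linarith

/-- the product of the `1 - p⁻²` -/
lemma prod_sq_ge (n : ℕ) : (141 / 200 : ℝ) ≤ ∏ p ∈ Bad n, (1 - 1 / (p : ℝ) ^ 2) := by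
  have hsplit : Bad n = (Bad n).filter (fun p => p < 11) ∪ (Bad n).filter (fun p => ¬ p < 11) :=
    (filter_union_filter_not_eq _ _).symm
  have hdis : Disjoint ((Bad n).filter (fun p => p < 11)) ((Bad n).filter (fun p => ¬ p < 11)) :=
    disjoint_filter_filter_not _ _ _
  rw [hsplit, prod_union hdis]
  have hp : ∀ p ∈ Bad n, p.Prime ∧ p % 3 = 2 := fun p hp => by
    rw [Bad, mem_filter, Nat.mem_primeFactors] at hp
    exact ⟨hp.1.1, hp.2⟩
  have hle : ∀ p : ℕ, 1 ≤ p → 1 / (p : ℝ) ^ 2 ≤ 1 := fun p hp => by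
    rw [div_le_one (by positivity)]
    have : (1 : ℝ) ≤ p := by exact_mod_cast hp
    nlinarith
  -- the small primes
  have hsmall : (18 / 25 : ℝ) ≤ ∏ p ∈ (Bad n).filter (fun p => p < 11), (1 - 1 / (p : ℝ) ^ 2) := by
    have h1 : (Bad n).filter (fun p => p < 11) ⊆ {2, 5} := by
      intro p hp'
      obtain ⟨h1, h2⟩ := mem_filter.1 hp'
      obtain ⟨h3, h4⟩ := hp p h1
      have h5 : p ≠ 8 := by
        rintro rfl
        revert h3
        decide
      simp only [mem_insert, mem_singleton]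
      omega
    have h2 : ∏ p ∈ ({2, 5} : Finset ℕ), (1 - 1 / (p : ℝ) ^ 2) = 18 / 25 := by
      rw [prod_pair (by norm_num)]
      norm_num
    rw [← h2, ← prod_sdiff h1]
    have h3 := one_sub_sum_le ({2, 5} \ (Bad n).filter (fun p => p < 11)) (fun p => 1 / (p : ℝ) ^ 2)
      (fun p _ => by positivity) (fun p hp' => hle p (by
        have := (mem_sdiff.1 hp').1
        simp only [mem_insert, mem_singleton] at this
        omega))
    have h4 := one_sub_sum_le ((Bad n).filter (fun p => p < 11)) (fun p => 1 / (p : ℝ) ^ 2)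
      (fun p _ => by positivity) (fun p hp' => hle p (hp p (mem_filter.1 hp').1).1.one_lt.le)
    nlinarith [h3.2.2, h4.1]
  have hlarge : (47 / 48 : ℝ) ≤
      ∏ p ∈ (Bad n).filter (fun p => ¬ p < 11), (1 - 1 / (p : ℝ) ^ 2) := by
    have h4 := one_sub_sum_le ((Bad n).filter (fun p => ¬ p < 11)) (fun p => 1 / (p : ℝ) ^ 2)
      (fun p _ => by positivity) (fun p hp' => hle p (hp p (mem_filter.1 hp').1).1.one_lt.le)
    have h5 : (Bad n).filter (fun p => ¬ p < 11) ⊆ (Icc 1 n).image fun j => 6 * j + 5 := by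
      intro p hp'
      obtain ⟨h1, h2⟩ := mem_filter.1 hp'
      obtain ⟨h3, h4⟩ := hp p h1
      have h5 : p % 2 = 1 := by
        rcases h3.eq_two_or_odd with h | h
        · omega
        · exact h
      have h6 : p ≤ n := by
        have h7 : n ≠ 0 := by
          rintro rfl
          simp [Bad] at h1
        exact Nat.le_of_dvd (by omega) ((mem_Bad h7).1 h1).2.2
      refine mem_image.2 ⟨p / 6, mem_Icc.2 ⟨by omega, by omega⟩, by omega⟩
    have h6 : ∑ p ∈ (Bad n).filter (fun p => ¬ p < 11), 1 / (p : ℝ) ^ 2 ≤ 1 / 48 := by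
      refine (sum_le_sum_of_subset_of_nonneg h5 fun _ _ _ => by positivity).trans ?_
      rw [sum_image (fun a _ b _ h => by omega)]
      have h7 := sum_tail n
      have h8 : (0 : ℝ) ≤ 1 / (6 * (6 * (n : ℝ) + 8)) := by positivity
      linarith
    linarith [h4.2.1]
  nlinarith

lemma prod_one_bounds (n : ℕ) : 0 ≤ ∏ p ∈ Bad n, (1 - 1 / (p : ℝ)) ∧
    ∏ p ∈ Bad n, (1 - 1 / (p : ℝ)) ≤ 1 ∧ ∏ p ∈ Bad n, (1 - 1 / (p : ℝ) ^ 2) ≤ 1 := by
  have hp : ∀ p ∈ Bad n, (1 : ℝ) ≤ p := fun p hp => by
    exact_mod_cast (bad_prop hp).1.one_lt.le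
  have h1 := one_sub_sum_le (Bad n) (fun p => 1 / (p : ℝ)) (fun p _ => by positivity)
    fun p hp' => by
      rw [div_le_one (by linarith [hp p hp'])]
      exact hp p hp'
  have h2 := one_sub_sum_le (Bad n) (fun p => 1 / (p : ℝ) ^ 2) (fun p _ => by positivity)
    fun p hp' => by
      have := hp p hp'
      rw [div_le_one (by positivity)]
      nlinarith
  exact ⟨h1.1, h1.2.2, h2.2.2⟩

lemma bad_of {n : ℕ} (hn : n ≠ 0) (S : Finset ℕ)
    (h : ∀ p ∈ Finset.range (n + 1), (p.Prime ∧ p % 3 = 2 ∧ p ∣ n ↔ p ∈ S))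
    (h' : ∀ p ∈ S, p ≤ n) : Bad n = S := by
  ext p
  rw [mem_Bad hn]
  by_cases hp : p ≤ n
  · exact h p (Finset.mem_range.2 (by omega))
  · constructor
    · rintro ⟨-, -, h1⟩
      exact absurd (Nat.le_of_dvd (by omega) h1) hp
    · intro h1
      exact absurd (h' p h1) hp

lemma cf_pos (n : ℕ) : 5 / 6 ≤ cf n ∧ cf n ≤ 1 := by
  unfold cf
  split_ifs <;> norm_num

lemma cg_pos (n : ℕ) : 0 < cg n ∧ cg n ≤ ce n := by
  unfold cg ce
  split_ifs <;> norm_num

lemma ce_pos (n : ℕ) : 0 < ce n := by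
  unfold ce
  split_ifs <;> norm_num

/-- a sufficient condition -/
lemma prop_gt {n : ℕ} (hn : 0 < n) (h : 5 * ((n : ℝ) + ce n) < 9 * (n * cf n * (141 / 200))) :
    5 / 9 < prop n := by
  have h1 := prod_sq_ge n
  obtain ⟨h2, -, -⟩ := prod_one_bounds n
  have hn' : (0 : ℝ) < n := by exact_mod_cast hn
  have h3 : 0 < (n : ℝ) + ce n := by linarith [ce_pos n]
  unfold prop
  rw [lt_div_iff₀ h3]
  have h4 := mul_nonneg (cg_pos n).1.le h2
  have h5 : n * cf n * (141 / 200) ≤ n * cf n * ∏ p ∈ Bad n, (1 - 1 / (p : ℝ) ^ 2) :=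
    mul_le_mul_of_nonneg_left h1 (mul_nonneg hn'.le (by linarith [(cf_pos n).1]))
  linarith

lemma prop_val {n : ℕ} (S : Finset ℕ) (h : Bad n = S) : prop n =
    (n * cf n * ∏ p ∈ S, (1 - 1 / (p : ℝ) ^ 2) + cg n * ∏ p ∈ S, (1 - 1 / (p : ℝ))) /
    (n + ce n) := by
  unfold prop
  rw [h]

lemma prop_six : prop 6 = 5 / 9 := by
  rw [prop_val {2} (bad_of (by norm_num) _ (by decide) (by decide))]
  simp only [prod_singleton, cf, cg, ce]
  norm_num

lemma prop_four : prop 4 = 7 / 10 := by
  rw [prop_val {2} (bad_of (by norm_num) _ (by decide) (by decide))]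
  simp only [prod_singleton, cf, cg, ce]
  norm_num

/-- **The least proportion.** -/
theorem prop_ge {n : ℕ} (hn : 4 ≤ n) (h3 : n % 3 ≠ 2) : n ≠ 6 → 5 / 9 < prop n := by
  intro h6
  have hn0 : 0 < n := by omega
  by_cases h1 : n % 3 = 1
  · refine prop_gt hn0 ?_
    have hn' : (4 : ℝ) ≤ n := by exact_mod_cast hn
    simp only [cf, ce, if_pos h1]
    linarith
  · by_cases h2 : n % 9 = 3
    · refine prop_gt hn0 ?_
      have hn' : (12 : ℝ) ≤ n := by
        have : 12 ≤ n := by omega
        exact_mod_cast this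
      simp only [cf, ce, if_neg h1, if_pos h2]
      linarith
    · by_cases h4 : n % 9 = 6
      · by_cases h5 : 60 ≤ n
        · refine prop_gt hn0 ?_
          have hn' : (60 : ℝ) ≤ n := by exact_mod_cast h5
          simp only [cf, ce, if_neg h1, if_neg h2, if_pos h4]
          linarith
        · have hc : n = 15 ∨ n = 24 ∨ n = 33 ∨ n = 42 ∨ n = 51 := by omega
          rcases hc with rfl | rfl | rfl | rfl | rfl
          · rw [prop_val {5} (bad_of (by norm_num) _ (by decide) (by decide))]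
            simp only [prod_singleton, cf, cg, ce]
            norm_num
          · rw [prop_val {2} (bad_of (by norm_num) _ (by decide) (by decide))]
            simp only [prod_singleton, cf, cg, ce]
            norm_num
          · rw [prop_val {11} (bad_of (by norm_num) _ (by decide) (by decide))]
            simp only [prod_singleton, cf, cg, ce]
            norm_num
          · rw [prop_val {2} (bad_of (by norm_num) _ (by decide) (by decide))]
            simp only [prod_singleton, cf, cg, ce]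
            norm_num
          · rw [prop_val {17} (bad_of (by norm_num) _ (by decide) (by decide))]
            simp only [prod_singleton, cf, cg, ce]
            norm_num
      · by_cases h5 : 24 ≤ n
        · refine prop_gt hn0 ?_
          have hn' : (24 : ℝ) ≤ n := by exact_mod_cast h5
          simp only [cf, ce, if_neg h1, if_neg h2, if_neg h4]
          linarith
        · have hc : n = 9 ∨ n = 18 := by omega
          rcases hc with rfl | rfl
          · rw [prop_val ∅ (bad_of (by norm_num) _ (by decide) (by decide))]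
            simp only [prod_empty, cf, cg, ce]
            norm_num
          · rw [prop_val {2} (bad_of (by norm_num) _ (by decide) (by decide))]
            simp only [prod_singleton, cf, cg, ce]
            norm_num

/-- the proportion is one only if there is no obstruction at all -/
theorem prop_lt_one {n : ℕ} (hn : 0 < n) (h3 : n % 3 ≠ 2) :
    prop n ≤ 1 ∧ (prop n = 1 ↔ Bad n = ∅ ∧ n % 9 ≠ 0 ∧ n % 9 ≠ 6) := by
  obtain ⟨a1, a2, a3⟩ := prod_one_bounds n
  have hn' : (0 : ℝ) < n := by exact_mod_cast hn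
  have hc := ce_pos n
  have hden : 0 < (n : ℝ) + ce n := by linarith
  obtain ⟨c1, c2⟩ := cf_pos n
  obtain ⟨g1, g2⟩ := cg_pos n
  have b0 := prod_sq_ge n
  have hb : cg n * ∏ p ∈ Bad n, (1 - 1 / (p : ℝ)) ≤ ce n := by nlinarith
  have hcs : cf n * ∏ p ∈ Bad n, (1 - 1 / (p : ℝ) ^ 2) ≤ 1 := by nlinarith
  have hle : prop n ≤ 1 := by
    unfold prop
    rw [div_le_one hden]
    nlinarith
  refine ⟨hle, ?_, ?_⟩
  · intro he
    have h4 : cf n * ∏ p ∈ Bad n, (1 - 1 / (p : ℝ) ^ 2) = 1 := by
      unfold prop at he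
      rw [div_eq_one_iff_eq hden.ne'] at he
      by_contra hne
      have h5 := lt_of_le_of_ne hcs hne
      nlinarith
    have h5 : cf n = 1 := by nlinarith
    have h6 : ∏ p ∈ Bad n, (1 - 1 / (p : ℝ) ^ 2) = 1 := by
      rw [h5, one_mul] at h4
      exact h4
    refine ⟨?_, ?_, ?_⟩
    · by_contra hne
      obtain ⟨q, hq⟩ := nonempty_iff_ne_empty.2 hne
      rw [← mul_prod_erase _ _ hq] at h6
      have hq1 : (1 : ℝ) < q := by exact_mod_cast (bad_prop hq).1.one_lt
      have h7 := one_sub_sum_le ((Bad n).erase q) (fun p => 1 / (p : ℝ) ^ 2)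
        (fun p _ => by positivity) fun p hp' => by
          have : (1 : ℝ) ≤ p := by exact_mod_cast (bad_prop (mem_of_mem_erase hp')).1.one_lt.le
          rw [div_le_one (by positivity)]
          nlinarith
      have h8 : 0 < 1 / (q : ℝ) ^ 2 := by positivity
      have h9 : 1 / (q : ℝ) ^ 2 ≤ 1 := by
        rw [div_le_one (by positivity)]
        nlinarith
      nlinarith [h7.1, h7.2.2]
    · intro h7
      have e1 : ¬ n % 3 = 1 := by omega
      have e2 : ¬ n % 9 = 3 := by omega
      have e3 : ¬ n % 9 = 6 := by omega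
      unfold cf at h5
      rw [if_neg e1, if_neg e2, if_neg e3] at h5
      norm_num at h5
    · intro h7
      have e1 : ¬ n % 3 = 1 := by omega
      have e2 : ¬ n % 9 = 3 := by omega
      unfold cf at h5
      rw [if_neg e1, if_neg e2, if_pos h7] at h5
      norm_num at h5
  · rintro ⟨h4, h5, h6⟩
    unfold prop cf cg ce
    rw [h4]
    by_cases e1 : n % 3 = 1
    · simp only [if_pos e1, prod_empty]
      field_simp
    · have e2 : n % 9 = 3 := by omega
      simp only [if_neg e1, if_pos e2, prod_empty]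
      field_simp

end Dens

end Pool.Agent.H574.CF
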