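import Pool.Agent.H574.CF.Slice4

/-!
# The divisor of the fourfolds which contain a plane
-/

set_option autoImplicit false

namespace Pool.Agent.H574.CF

open Pool.Agent.Q63.CF Pool.Agent.Y95.Q Module Dens Filter Topology

variable {M : Submodule ℤ L} {t : ℕ × ℕ × ℕ}

/-- there are the class `P` of a plane and a class `T` such that `T.(h - P)` is odd: the condition
of Hassett for the rationality of the fourfolds which contain a plane -/
def OddClass (M : Submodule ℤ L) : Prop :=
  ∃ P ∈ M, ip h P = 1 ∧ ip P P = 3 ∧ ∃ T ∈ M, Odd (ip T (h - P))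

lemma ip_sub_right (T P : L) : ip T (h - P) = ip h T - ip P T := by
  have h1 : h - P = h + (-1 : ℤ) • P := by
    rw [neg_smul, one_smul, sub_eq_add_neg]
  rw [h1, ip_add_right, ip_smul_right, ip_comm T h, ip_comm T P]
  ring

theorem odd_iff (hM : Good3 M) (hf : HasForm M t) (hA : t.1 = 4) (hC : 4 < t.2.2) :
    OddClass M ↔ Odd t.2.1 := by
  obtain ⟨hBA, hAC, -⟩ := id hf
  obtain ⟨v, w, hs, hv, hw, hvw⟩ := form_data hf
  have e2 : (0 : ℤ) ≤ (t.2.1 : ℤ) := by positivity
  have e3 : (t.2.1 : ℤ) ≤ (t.1 : ℤ) := by exact_mod_cast hBA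
  have e4 : (t.1 : ℤ) ≤ t.2.2 := by exact_mod_cast hAC
  have e5 : (4 : ℤ) < t.2.2 := by exact_mod_cast hC
  have e6 : (t.1 : ℤ) = 4 := by exact_mod_cast hA
  constructor
  · rintro ⟨P, hP, hP1, hP2, T, hT, hodd⟩
    rw [hs, mem_span3] at hP hT
    obtain ⟨x, y, z, hPe⟩ := hP
    obtain ⟨x', y', z', hTe⟩ := hT
    have hdP : disc P = 8 := by
      unfold disc
      rw [hP1, hP2]
      norm_num
    have h1 : (t.1 : ℤ) * y ^ 2 + t.2.1 * (y * z) + t.2.2 * z ^ 2 = 4 := by
      rw [hPe, disc_hcomb, disc_comb, hv, hw, hvw] at hdP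
      linarith
    have hz : z = 0 := by
      by_contra hz
      have := qmin (y := y) e2 e3 e4 hz
      linarith
    have h2 : mix P T = y * (8 * y') + y * z' * t.2.1 := by
      rw [hPe, hTe, mix_comb, hv, hvw, hz, e6]
      ring
    have h3 : mix P T = 3 * ip P T - ip h T := by
      unfold mix
      rw [hP1, one_mul]
    rw [ip_sub_right] at hodd
    have h4 : Odd (y * z' * (t.2.1 : ℤ)) := by
      obtain ⟨k, hk⟩ := hodd
      refine ⟨ip P T - k - 1 - 4 * (y * y'), ?_⟩
      linarith
    have h5 := Int.Odd.of_mul_right h4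
    exact_mod_cast h5
  · intro hB
    have hr : (ip h v) % 3 = 1 ∨ (ip h v) % 3 = 2 := by
      have h0 : (ip h v) % 3 = 0 ∨ (ip h v) % 3 = 1 ∨ (ip h v) % 3 = 2 := by omega
      rcases h0 with h0 | h0 | h0
      · exfalso
        obtain ⟨k, hk⟩ : (3 : ℤ) ∣ ip h v := Int.dvd_of_emod_eq_zero h0
        unfold disc at hv
        rw [hk, e6] at hv
        have : 3 * (ip v v - 3 * k ^ 2) = 8 := by linarith
        omega
      · exact Or.inl h0
      · exact Or.inr h0
    obtain ⟨ε, hε, k, hk⟩ : ∃ ε : ℤ, ε ^ 2 = 1 ∧ ∃ k : ℤ, 3 * k + ε * ip h v = 1 := by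
      rcases hr with h0 | h0
      · exact ⟨1, by norm_num, (1 - ip h v) / 3, by omega⟩
      · exact ⟨-1, by norm_num, (1 + ip h v) / 3, by omega⟩
    have hvM : v ∈ M := by
      rw [hs]
      exact Submodule.subset_span (by simp)
    have hwM : w ∈ M := by
      rw [hs]
      exact Submodule.subset_span (by simp)
    have hP1 : ip h (k • h + ε • v) = 1 := by
      rw [ip_h_comb, ip_smul_right, hk]
    have hdP : disc (k • h + ε • v) = 8 := by
      rw [disc_hcomb, disc_smul, hε, hv, e6]
      norm_num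
    have hP2 : ip (k • h + ε • v) (k • h + ε • v) = 3 := by
      unfold disc at hdP
      rw [hP1] at hdP
      linarith
    refine ⟨k • h + ε • v, M.add_mem (M.smul_mem _ hM.1.mem) (M.smul_mem _ hvM), hP1, hP2, w, hwM, ?_⟩
    have hmix : mix (k • h + ε • v) w = ε * t.2.1 := by
      have h1 := mix_hcomb k ε 0 v v w
      rw [zero_smul, add_zero] at h1
      rw [h1, hvw]
      ring
    have hmix2 : mix (k • h + ε • v) w = 3 * ip (k • h + ε • v) w - ip h w := by
      unfold mix
      rw [hP1, one_mul]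
    rw [ip_sub_right]
    have hBz : Odd (ε * (t.2.1 : ℤ)) := by
      have h1 : Odd ε := by
        have h0 : (ε - 1) * (ε + 1) = 0 := by linear_combination hε
        rcases mul_eq_zero.1 h0 with h0 | h0
        · exact ⟨0, by linarith⟩
        · exact ⟨-1, by linarith⟩
      exact h1.mul (by exact_mod_cast hB)
    obtain ⟨j, hj⟩ := hBz
    exact ⟨ip (k • h + ε • v) w - j - 1, by linarith⟩

open Classical in
/-- **The loci in `𝒞_8` with an odd class.** -/
theorem lim_odd : Tendsto (fun D : ℕ => ((TypesIn 8 OddClass D).ncard : ℝ) /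
      (TypesIn 8 (fun _ => True) D).ncard) atTop (𝓝 (2 / 5)) := by
  have h1 := lim_typesIn (n := 4) le_rfl (Q := OddClass)
    (P := fun B C => Mod3 (4, B, C) ∧ Odd B)
    (fun M t hM hf hA hC => by
      rw [odd_iff hM hf hA hC]
      have := (occ_of hM.1 hM.2 hf).2
      have h2 : Mod3 (4, t.2.1, t.2.2) := by
        rw [← hA]
        exact this
      exact ⟨fun h => ⟨h2, h⟩, fun h => h.2⟩) (fun B C h => h.1)
    (c := fun B => if Odd B then (v9 4 B : ℝ) / 9 else 0)
    (fun B => by
      by_cases hB : Odd B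
      · simp only [hB, and_true, if_true]
        convert lim_mod3 4 B
      · simp only [hB, and_false, if_false, Finset.filter_false, Finset.card_empty]
        simp)
  have h2 : ∑ B ∈ Finset.range (4 + 1), (if Odd B then (v9 4 B : ℝ) / 9 else 0) = 2 / 3 := by
    simp only [v9_eq (n := 4) (by norm_num), vt, Finset.sum_range_succ, Finset.range_zero,
      Finset.sum_empty]
    have o0 : ¬ Odd 0 := by decide
    have o1 : Odd 1 := by decide
    have o2 : ¬ Odd 2 := by decide
    have o3 : Odd 3 := by decide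
    have o4 : ¬ Odd 4 := by decide
    simp only [o0, o1, o2, o3, o4, if_true, if_false]
    norm_num
  rw [h2] at h1
  have h3 := lim_all (n := 4) le_rfl (by norm_num)
  have h4 : tot 4 = 5 / 3 := by
    unfold tot
    norm_num
  rw [h4] at h3
  have h5 := h1.div h3 (by norm_num)
  have e : (2 : ℤ) * ((4 : ℕ) : ℤ) = 8 := by norm_num
  rw [e] at h5
  have e2 : (2 / 3 : ℝ) / (5 / 3) = 2 / 5 := by norm_num
  rw [e2] at h5
  refine h5.congr' ?_
  filter_upwards [eventually_gt_atTop 0] with D hD
  have hD' : (D : ℝ) ≠ 0 := by positivity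
  simp only [Pi.div_apply]
  rw [div_div_div_cancel_right₀ hD']

end Pool.Agent.H574.CF
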