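import Pool.Agent.H574.CF.Slice4
import Pool.Graph.R_pool_sql_team_seeded_63374d34.N801.CF.Rk3

/-!
# Hilbert squares inside the divisors `𝒞_d`, `d = 2 a²`
-/

set_option autoImplicit false

namespace Pool.Agent.H574.CF

open Pool.Agent.Q63.CF Pool.Agent.Y95.Q Module Dens Filter Topology Pool.Agent.N801.CF

variable {M : Submodule ℤ L} {t : ℕ × ℕ × ℕ}

/-- the condition of Addington on the discriminant -/
def IsStar (d : ℤ) : Prop := ∃ a n : ℤ, a ^ 2 * d = 2 * n ^ 2 + 2 * n + 2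

/-- some vector spans with `h` a saturated group whose discriminant satisfies the condition of
Addington: the variety of the lines is birational to the Hilbert square of a K3 surface -/
def Hilb (M : Submodule ℤ L) : Prop := ∃ d, IsStar d ∧ In M d

/-- the binary quadratic form -/
def bq (A B C : ℤ) : QF (ℤ × ℤ) where
  f x := A * x.1 ^ 2 + B * (x.1 * x.2) + C * x.2 ^ 2
  b x y := 2 * A * (x.1 * y.1) + B * (x.1 * y.2 + x.2 * y.1) + 2 * C * (x.2 * y.2)
  b_add x y z := by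
    simp only [Prod.fst_add, Prod.snd_add]
    ring
  b_comm x y := by ring
  f_add x y := by
    simp only [Prod.fst_add, Prod.snd_add]
    ring
  f_smul n x := by
    simp only [Prod.smul_fst, Prod.smul_snd, smul_eq_mul]
    ring

theorem hilb_iff (hM : Good3 M) (hf : HasForm M t) : Hilb M ↔ ∃ y z n : ℤ,
    (t.1 : ℤ) * y ^ 2 + t.2.1 * (y * z) + t.2.2 * z ^ 2 = n ^ 2 + n + 1 := by
  constructor
  · rintro ⟨d, ⟨a, n, han⟩, hd⟩
    have hd0 : d ≠ 0 := by
      rintro rfl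
      have : (0 : ℤ) < 2 * n ^ 2 + 2 * n + 2 := by nlinarith
      rw [← han, mul_zero] at this
      exact lt_irrefl _ this
    obtain ⟨y, z, -, rfl⟩ := (in_iff_value hM hf hd0).1 hd
    refine ⟨a * y, a * z, n, ?_⟩
    have : 2 * ((t.1 : ℤ) * (a * y) ^ 2 + t.2.1 * (a * y * (a * z)) + t.2.2 * (a * z) ^ 2) =
        2 * (n ^ 2 + n + 1) := by linear_combination han
    linarith
  · rintro ⟨y, z, n, hyz⟩
    have hg0 : Int.gcd y z ≠ 0 := by
      intro hg
      rw [Int.gcd_eq_zero_iff] at hg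
      obtain ⟨rfl, rfl⟩ := hg
      have : (0 : ℤ) < n ^ 2 + n + 1 := by nlinarith
      rw [← hyz] at this
      norm_num at this
    obtain ⟨g, y', z', hg, hco, hy, hz⟩ : ∃ g y' z' : ℤ, g ≠ 0 ∧ IsCoprime y' z' ∧ y = g * y' ∧
        z = g * z' := by
      obtain ⟨y', hy'⟩ : (Int.gcd y z : ℤ) ∣ y := Int.gcd_dvd_left _ _
      obtain ⟨z', hz'⟩ : (Int.gcd y z : ℤ) ∣ z := Int.gcd_dvd_right _ _
      refine ⟨Int.gcd y z, y', z', by exact_mod_cast hg0, ?_, hy', hz'⟩
      refine ⟨Int.gcdA y z, Int.gcdB y z, ?_⟩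
      have hgz : (Int.gcd y z : ℤ) ≠ 0 := by exact_mod_cast hg0
      apply mul_left_cancel₀ hgz
      have hb := Int.gcd_eq_gcd_ab y z
      calc (Int.gcd y z : ℤ) * (Int.gcdA y z * y' + Int.gcdB y z * z') =
          ((Int.gcd y z : ℤ) * y') * Int.gcdA y z + ((Int.gcd y z : ℤ) * z') * Int.gcdB y z := by ring
        _ = y * Int.gcdA y z + z * Int.gcdB y z := by rw [← hy', ← hz']
        _ = (Int.gcd y z : ℤ) * 1 := by rw [mul_one, ← hb]
    subst hy
    subst hz
    have hd0 : (2 : ℤ) * (t.1 * y' ^ 2 + t.2.1 * (y' * z') + t.2.2 * z' ^ 2) ≠ 0 := by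
      intro h0
      have h1 : (0 : ℤ) < n ^ 2 + n + 1 := by nlinarith
      have h2 : g ^ 2 * (2 * (t.1 * y' ^ 2 + t.2.1 * (y' * z') + t.2.2 * z' ^ 2)) =
          2 * (n ^ 2 + n + 1) := by linear_combination 2 * hyz
      rw [h0, mul_zero] at h2
      linarith
    exact ⟨_, ⟨g, n, by linear_combination 2 * hyz⟩, (in_iff_value hM hf hd0).2 ⟨y', z', hco, rfl⟩⟩

/-- the Hilbert square condition implies the K3 condition -/
theorem k3_of_hilb (hM : Good3 M) (hf : HasForm M t) (hH : Hilb M) : K3 M := by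
  obtain ⟨y, z, n, hyz⟩ := (hilb_iff hM hf).1 hH
  have ho := occ_of hM.1 hM.2 hf
  have h0 : NoObs t := by
    refine ⟨?_, fun p hp hp2 hdiv => ?_⟩
    · obtain ⟨A, B, C⟩ := t
      refine fine3_of ho.2 (y := y) (z := z) ?_
      simp only at hyz
      rw [hyz]
      have h3 : n % 9 = 0 ∨ n % 9 = 1 ∨ n % 9 = 2 ∨ n % 9 = 3 ∨ n % 9 = 4 ∨ n % 9 = 5 ∨ n % 9 = 6 ∨
        n % 9 = 7 ∨ n % 9 = 8 := by omega
      obtain ⟨k, hk⟩ : ∃ k, n = 9 * k + n % 9 := ⟨n / 9, by omega⟩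
      rcases h3 with h | h | h | h | h | h | h | h | h <;> rw [h] at hk <;> rw [hk] <;> ring_nf <;> omega
    · obtain ⟨d1, d2, d3⟩ := hdiv
      have e1 : (p : ℤ) ∣ t.1 := by exact_mod_cast d1
      have e2 : (p : ℤ) ∣ t.2.1 := by exact_mod_cast d2
      have e3 : (p : ℤ) ∣ t.2.2 := by exact_mod_cast d3
      have e4 : (p : ℤ) ∣ nm n 1 := by
        have : nm n 1 = n ^ 2 + n + 1 := by
          unfold nm
          ring
        rw [this, ← hyz]
        exact dvd_add (dvd_add (e1.mul_right _) (e2.mul_right _)) (e3.mul_right _)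
      have e5 := (inert hp hp2 e4).2
      have : p ∣ 1 := by exact_mod_cast e5
      exact hp.one_lt.ne' (Nat.dvd_one.1 this)
  exact (k3_iff_noObs hM.1 hM.2 hf).2 h0

lemma dvd_of_odd {K m s c : ℕ} (hK : K ≠ 0) (hms : s ^ 2 * m = K) (hsq : Squarefree m)
    (h : ∀ l : ℕ, l.Prime → Odd (padicValNat l K) → l ∣ c) : m ∣ c := by
  have hm : m ≠ 0 := by
    rintro rfl
    exact hK (by rw [← hms, mul_zero])
  have hs : s ≠ 0 := by
    rintro rfl
    exact hK (by rw [← hms]; ring)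
  rw [← Nat.prod_primeFactors_of_squarefree hsq]
  refine Finset.prod_primes_dvd _ (fun l hl => (Nat.prime_of_mem_primeFactors hl).prime)
    fun l hl => ?_
  have hlp := Nat.prime_of_mem_primeFactors hl
  have : Fact l.Prime := ⟨hlp⟩
  refine h l hlp ?_
  rw [← hms, padicValNat.mul (pow_ne_zero 2 hs) hm, padicValNat.pow]
  have h1 : padicValNat l m = 1 := by
    rw [← Nat.factorization_def m hlp]
    have h2 := hsq.natFactorization_le_one l
    have h3 : m.factorization l ≠ 0 := by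
      rw [← Finsupp.mem_support_iff, Nat.support_factorization]
      exact hl
    omega
  rw [h1]
  exact ⟨padicValNat l s, by ring⟩

/-- **The loci with associated K3 surface whose varieties of lines are not Hilbert squares are
given by few discriminants.** -/
theorem exceptional (hM : Good3 M) (hf : HasForm M t) {a : ℕ} (ha : 0 < a) (hA : t.1 = a ^ 2)
    (hK : K3 M) (hH : ¬ Hilb M) :
    ∃ m s : ℕ, m ∣ 2 * a ∧ 4 * (t.1 * t.2.2) = 3 * (m * s ^ 2) + t.2.1 ^ 2 := by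
  obtain ⟨hBA, hAC, -⟩ := id hf
  have ho := occ_of hM.1 hM.2 hf
  have hA1 := one_le_of_occ ho
  obtain ⟨A, B, C⟩ := t
  simp only at hBA hAC hA1 hA ⊢
  have hlt : B ^ 2 < 4 * (A * C) := by nlinarith
  obtain ⟨K, hKe⟩ : ∃ K : ℕ, 4 * (A * C) = 3 * K + B ^ 2 := by
    have h1 : B ^ 2 % 3 = A * C % 3 := ho.2.2.2
    have h2 : (4 * (A * C) - B ^ 2) % 3 = 0 := by omega
    exact ⟨(4 * (A * C) - B ^ 2) / 3, by omega⟩
  have hK0 : K ≠ 0 := by
    rintro rfl
    omega
  have haz : (a : ℤ) ≠ 0 := by exact_mod_cast ha.ne'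
  have hAz : (A : ℤ) = (a : ℤ) ^ 2 := by exact_mod_cast hA
  have hKz : 4 * ((A : ℤ) * C) = 3 * K + B ^ 2 := by exact_mod_cast hKe
  -- the primitive norm
  obtain ⟨d, hadm, hd⟩ := hK
  have hd0 : d ≠ 0 := by
    have := hadm.1
    omega
  have hval : Valid d := by
    obtain ⟨u, huM, -, hu⟩ := hd
    obtain ⟨k, hk⟩ := disc_even u
    refine ⟨hadm.1, ?_⟩
    unfold disc at hu hk
    have h1 := sq_mod3 (ip h u)
    omega
  have hloc := (adm_iff hval).1 hadm
  obtain ⟨y, z, -, rfl⟩ := (in_iff_value hM hf hd0).1 hd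
  simp only at hadm
  set F : ℤ := (A : ℤ) * y ^ 2 + B * (y * z) + C * z ^ 2 with hF
  have hFpos : 0 < F := by
    have := hadm.1
    linarith
  obtain ⟨s, r, hsr, hco⟩ := prim_good hFpos fun p hp h3 => by
    obtain ⟨-, h4, h9, hpr⟩ := hadm
    constructor
    · rintro rfl
      have h5 := hloc 3 ⟨Nat.prime_three, Or.inl rfl⟩
      unfold Obstructs at h5
      rw [if_pos rfl] at h5
      have h6 := hval.2
      omega
    · intro hp3 hdvd
      have h5 : p % 3 = 2 := by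
        have h6 : p % 3 ≠ 0 := fun h => by
          have : 3 ∣ p := Nat.dvd_of_mod_eq_zero h
          rw [Nat.prime_dvd_prime_iff_eq Nat.prime_three hp] at this
          omega
        omega
      by_cases hp2 : p = 2
      · subst hp2
        obtain ⟨k, hk⟩ := hdvd
        exact h4 ⟨k, by rw [hk]; push_cast; ring⟩
      · exact hpr p hp hp2 (hdvd.mul_left 2) h5
  by_contra hcon
  apply hH
  rw [hilb_iff hM hf]
  set Q := bq A B C with hQ
  have key := rk3_core Q (v0 := ((1 : ℤ), (0 : ℤ))) (a0 := (a : ℤ)) (by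
      show (A : ℤ) * 1 ^ 2 + B * (1 * 0) + C * 0 ^ 2 = _
      rw [hAz]
      ring) haz (u1 := (-(B : ℤ), 2 * (A : ℤ))) (by
      show 2 * (A : ℤ) * (1 * -B) + B * (1 * (2 * A) + 0 * -B) + 2 * C * (0 * (2 * A)) = 0
      ring) (K := K) (r := 3 * a) hK0 (mul_ne_zero (by norm_num) haz) (by
      show 3 * ((A : ℤ) * (-B) ^ 2 + B * (-B * (2 * A)) + C * (2 * A) ^ 2) = _
      have : 3 * ((A : ℤ) * (-B) ^ 2 + B * (-B * (2 * A)) + C * (2 * A) ^ 2) =
        3 * A * (4 * (A * C) - B ^ 2) := by ring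
      rw [this, hKz, hAz]
      ring) (by
      by_contra hno
      apply hcon
      obtain ⟨m, s, hms, hsq⟩ := Nat.sq_mul_squarefree K
      refine ⟨m, s, dvd_of_odd hK0 hms hsq fun l hl hodd => ?_, by rw [hKe, ← hms]; ring⟩
      by_contra hnd
      exact hno (Or.inr ⟨l, hl, hodd, Or.inr fun hd => hnd (by exact_mod_cast hd)⟩)) (v := (y, z)) (a := s) (b := r) (by
      show (A : ℤ) * y ^ 2 + B * (y * z) + C * z ^ 2 = _
      rw [hsr]) hco (by
      show 4 * (a : ℤ) ^ 2 * ((A : ℤ) * (-B) ^ 2 + B * (-B * (2 * A)) + C * (2 * A) ^ 2) *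
        ((A : ℤ) * y ^ 2 + B * (y * z) + C * z ^ 2) =
        ((A : ℤ) * (-B) ^ 2 + B * (-B * (2 * A)) + C * (2 * A) ^ 2) *
          (2 * (A : ℤ) * (1 * y) + B * (1 * z + 0 * y) + 2 * C * (0 * z)) ^ 2 +
        (a : ℤ) ^ 2 * (2 * (A : ℤ) * (y * -B) + B * (y * (2 * A) + z * -B) + 2 * C * (z * (2 * A))) ^ 2
      rw [← hAz]
      ring)
  obtain ⟨⟨y', z'⟩, n, hn⟩ := key
  exact ⟨y', z', n, hn⟩

end Pool.Agent.H574.CF
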