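import Pool.Agent.H574.CF.Slice6

/-!
# The number of the exceptional loci in `𝒞_d`, `d = 2 a²`
-/

set_option autoImplicit false

namespace Pool.Agent.H574.CF

open Pool.Agent.Q63.CF Pool.Agent.Y95.Q Module Dens Filter Topology Pool.Agent.N801.CF

variable {M : Submodule ℤ L} {t : ℕ × ℕ × ℕ}

/-- a finite set with the exceptional types -/
def exc (a D : ℕ) : Finset (ℕ × ℕ × ℕ) :=
  box (a ^ 2) ∪ (Finset.range (a ^ 2 + 1) ×ˢ Finset.range (2 * a + 1) ×ˢ
    Finset.range (Nat.sqrt (4 * a ^ 2 * D) + 1)).image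
      fun x => (a ^ 2, x.1, (3 * (x.2.1 * x.2.2 ^ 2) + x.1 ^ 2) / (4 * a ^ 2))

lemma sub_exc {a : ℕ} (ha : 0 < a) (D : ℕ) :
    TypesIn (2 * ((a ^ 2 : ℕ) : ℤ)) (fun M => K3 M ∧ ¬ Hilb M) D ⊆ (exc a D : Set (ℕ × ℕ × ℕ)) := by
  rintro t ⟨h1, M, hM, hf, hi, hK, hH⟩
  have hn : 0 < a ^ 2 := by positivity
  rw [Finset.mem_coe, exc, Finset.mem_union]
  by_cases hC : a ^ 2 < t.2.2
  · right
    have hA := (in_iff_first hM hf hn hC).1 hi
    obtain ⟨m, s, hm, hms⟩ := exceptional hM hf ha hA hK hH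
    obtain ⟨A, B, C⟩ := t
    simp only at hA hms h1 hC
    have hBA : B ≤ A := hf.1
    subst hA
    have hm0 : 0 < m := Nat.pos_of_dvd_of_pos hm (by positivity)
    refine Finset.mem_image.2 ⟨(B, m, s), ?_, ?_⟩
    · simp only [Finset.mem_product, Finset.mem_range]
      refine ⟨by omega, ?_, ?_⟩
      · have := Nat.le_of_dvd (by positivity) hm
        omega
      · rw [Nat.lt_succ_iff, Nat.le_sqrt]
        have e1 : a ^ 2 * C ≤ a ^ 2 * D := Nat.mul_le_mul_left _ h1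
        have e2 : s * s ≤ m * s ^ 2 := by
          rw [pow_two]
          exact Nat.le_mul_of_pos_left _ hm0
        have e3 : 4 * a ^ 2 * D = 4 * (a ^ 2 * D) := by ring
        rw [e3]
        nlinarith [Nat.zero_le (B ^ 2)]
    · simp only [Prod.mk.injEq, true_and]
      rw [← hms, ← mul_assoc]
      exact Nat.mul_div_cancel_left _ (by positivity)
  · left
    obtain ⟨h2, h3, -⟩ := hf
    simp only [box, Finset.mem_product, Finset.mem_range]
    omega

/-- the constant in the bound -/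
def cst (a : ℕ) : ℕ := (a ^ 2 + 1) ^ 3 + (a ^ 2 + 1) * (2 * a + 1) ^ 2

lemma card_exc (a D : ℕ) (hD : 1 ≤ D) : ((exc a D).card : ℝ) ≤ cst a * √D := by
  have h1 : (exc a D).card ≤ (a ^ 2 + 1) ^ 3 +
      (a ^ 2 + 1) * ((2 * a + 1) * (Nat.sqrt (4 * a ^ 2 * D) + 1)) := by
    unfold exc
    refine (Finset.card_union_le _ _).trans (Nat.add_le_add ?_ ?_)
    · unfold box
      rw [Finset.card_product, Finset.card_product, Finset.card_range]
      exact le_of_eq (by ring)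
    · refine Finset.card_image_le.trans ?_
      rw [Finset.card_product, Finset.card_product, Finset.card_range, Finset.card_range,
        Finset.card_range]
  have hs1 : (1 : ℝ) ≤ √D := by
    rw [Real.one_le_sqrt]
    exact_mod_cast hD
  have h2 : ((Nat.sqrt (4 * a ^ 2 * D) : ℕ) : ℝ) ≤ 2 * a * √D := by
    apply Nat.cast_le.2 (le_refl (Nat.sqrt (4 * a ^ 2 * D))) |>.trans
    refine (Real.nat_sqrt_le_real_sqrt).trans ?_
    have : ((4 * a ^ 2 * D : ℕ) : ℝ) = (2 * a) ^ 2 * D := by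
      push_cast
      ring
    rw [this, Real.sqrt_mul (by positivity), Real.sqrt_sq (by positivity)]
  have h3 : ((exc a D).card : ℝ) ≤ ((a : ℝ) ^ 2 + 1) ^ 3 + ((a : ℝ) ^ 2 + 1) *
      ((2 * a + 1) * (Nat.sqrt (4 * a ^ 2 * D) + 1)) := by exact_mod_cast h1
  have h4 : ((Nat.sqrt (4 * a ^ 2 * D) : ℕ) : ℝ) + 1 ≤ (2 * a + 1) * √D := by
    have : (2 * (a : ℝ) + 1) * √D = 2 * a * √D + √D := by ring
    rw [this]
    linarith
  calc ((exc a D).card : ℝ) ≤ _ := h3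
    _ ≤ ((a : ℝ) ^ 2 + 1) ^ 3 * √D + ((a : ℝ) ^ 2 + 1) * ((2 * a + 1) * ((2 * a + 1) * √D)) := by
        gcongr
        exact le_mul_of_one_le_right (by positivity) hs1
    _ = cst a * √D := by
        unfold cst
        push_cast
        ring

/-- **The loci with associated K3 surface and no Hilbert square are rare.** -/
theorem exc_le {a : ℕ} (ha : 0 < a) (D : ℕ) (hD : 1 ≤ D) :
    ((TypesIn (2 * ((a ^ 2 : ℕ) : ℤ)) (fun M => K3 M ∧ ¬ Hilb M) D).ncard : ℝ) ≤ cst a * √D := by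
  refine le_trans ?_ (card_exc a D hD)
  have := Set.ncard_le_ncard (sub_exc ha D) (Finset.finite_toSet _)
  rw [Set.ncard_coe_finset] at this
  exact_mod_cast this

lemma typesIn_finite (d : ℤ) (Q : Submodule ℤ L → Prop) (D : ℕ) : (TypesIn d Q D).Finite := by
  refine ((Finset.range (D + 1) ×ˢ Finset.range (D + 1) ×ˢ
    Finset.range (D + 1)).finite_toSet).subset ?_
  rintro t ⟨h1, M, hM, ⟨h2, h3, -⟩, -⟩
  simp only [Finset.mem_coe, Finset.mem_product, Finset.mem_range]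
  omega

/-- **The number of the loci in `𝒞_d`, `d = 2 a²`, whose varieties of lines are Hilbert squares.** -/
theorem lim_hilb {a : ℕ} (ha : 2 ≤ a) :
    Tendsto (fun D : ℕ => ((TypesIn (2 * ((a ^ 2 : ℕ) : ℤ)) Hilb D).ncard : ℝ) / D) atTop
      (𝓝 (tot (a ^ 2) * prop (a ^ 2))) := by
  have hn : 4 ≤ a ^ 2 := by nlinarith
  have h3 : a ^ 2 % 3 ≠ 2 := by
    have : a % 3 = 0 ∨ a % 3 = 1 ∨ a % 3 = 2 := by omega
    rcases this with h | h | h <;> simp [Nat.pow_mod, h]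
  have hk := lim_k3 hn h3
  have b1 : ∀ D, ((TypesIn (2 * ((a ^ 2 : ℕ) : ℤ)) Hilb D).ncard : ℝ) ≤
      (TypesIn (2 * ((a ^ 2 : ℕ) : ℤ)) K3 D).ncard := by
    intro D
    have : (TypesIn (2 * ((a ^ 2 : ℕ) : ℤ)) Hilb D).ncard ≤
        (TypesIn (2 * ((a ^ 2 : ℕ) : ℤ)) K3 D).ncard := by
      refine Set.ncard_le_ncard ?_ (typesIn_finite _ _ _)
      rintro t ⟨e1, M, hM, hf, e2, e3⟩
      exact ⟨e1, M, hM, hf, e2, k3_of_hilb hM hf e3⟩
    exact_mod_cast this
  have b2 : ∀ D, 1 ≤ D → ((TypesIn (2 * ((a ^ 2 : ℕ) : ℤ)) K3 D).ncard : ℝ) ≤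
      (TypesIn (2 * ((a ^ 2 : ℕ) : ℤ)) Hilb D).ncard + cst a * √D := by
    intro D hD
    have : (TypesIn (2 * ((a ^ 2 : ℕ) : ℤ)) K3 D).ncard ≤
        (TypesIn (2 * ((a ^ 2 : ℕ) : ℤ)) Hilb D).ncard +
        (TypesIn (2 * ((a ^ 2 : ℕ) : ℤ)) (fun M => K3 M ∧ ¬ Hilb M) D).ncard := by
      refine (Set.ncard_le_ncard ?_ ((typesIn_finite _ _ _).union (typesIn_finite _ _ _))).trans
        (Set.ncard_union_le _ _)
      rintro t ⟨e1, M, hM, hf, e2, e3⟩
      by_cases hH : Hilb M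
      · exact Or.inl ⟨e1, M, hM, hf, e2, hH⟩
      · exact Or.inr ⟨e1, M, hM, hf, e2, e3, hH⟩
    have h4 : ((TypesIn (2 * ((a ^ 2 : ℕ) : ℤ)) K3 D).ncard : ℝ) ≤
        (TypesIn (2 * ((a ^ 2 : ℕ) : ℤ)) Hilb D).ncard +
        (TypesIn (2 * ((a ^ 2 : ℕ) : ℤ)) (fun M => K3 M ∧ ¬ Hilb M) D).ncard := by
      exact_mod_cast this
    linarith [exc_le (by omega : 0 < a) D hD]
  have hs : Tendsto (fun D : ℕ => (cst a : ℝ) * (√(D : ℝ))⁻¹) atTop (𝓝 (cst a * 0)) := by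
    refine Tendsto.const_mul _ ?_
    exact tendsto_inv_atTop_zero.comp
      (Real.tendsto_sqrt_atTop.comp tendsto_natCast_atTop_atTop)
  have hlow := hk.sub hs
  rw [mul_zero, sub_zero] at hlow
  refine tendsto_of_tendsto_of_tendsto_of_le_of_le' hlow hk ?_ ?_
  · filter_upwards [eventually_ge_atTop 1] with D hD
    have hD' : (0 : ℝ) < D := by exact_mod_cast hD
    have e1 : (cst a : ℝ) * (√(D : ℝ))⁻¹ = cst a * √D / D := by
      have h5 : √(D : ℝ) * √(D : ℝ) = D := Real.mul_self_sqrt hD'.le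
      have h6 : √(D : ℝ) ≠ 0 := by positivity
      field_simp
      rw [pow_two, h5]
    rw [e1, ← sub_div]
    exact div_le_div_of_nonneg_right (by linarith [b2 D hD]) hD'.le
  · filter_upwards [eventually_ge_atTop 1] with D hD
    have hD' : (0 : ℝ) < D := by exact_mod_cast hD
    exact div_le_div_of_nonneg_right (b1 D) hD'.le

end Pool.Agent.H574.CF
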