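import Pool.Agent.H574.CF.Slice7

/-!
# The general member of `𝒞_d`, `d = 2 a²`, and a family of exceptional loci
-/

set_option autoImplicit false

namespace Pool.Agent.H574.CF

open Pool.Agent.Q63.CF Pool.Agent.Y95.Q Module Dens Filter Topology Pool.Agent.N801.CF

variable {M : Submodule ℤ L} {t : ℕ × ℕ × ℕ}

/-! ### rank two -/

/-- a group of rank two has a basis with `h` -/
lemma exists_span2 (hM : h ∈ M) (hr : finrank ℤ M = 2) : ∃ v : L, M = Submodule.span ℤ {h, v} := by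
  let K : Submodule ℤ L := M ⊓ LinearMap.ker co
  let φ : (ℤ × K) →ₗ[ℤ] M :=
    { toFun := fun x => ⟨x.1 • h + x.2, M.add_mem (M.smul_mem _ hM) x.2.2.1⟩
      map_add' := fun x y => Subtype.ext (by
        show (x.1 + y.1) • h + ((x.2 : L) + (y.2 : L)) = (x.1 • h + x.2) + (y.1 • h + y.2)
        rw [add_smul]
        abel)
      map_smul' := fun n x => Subtype.ext (by
        show (n * x.1) • h + n • (x.2 : L) = n • (x.1 • h + (x.2 : L))
        rw [smul_add, mul_smul]) }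
  have hφ : Function.Bijective φ := by
    constructor
    · intro x y hxy
      have h1 : x.1 • h + (x.2 : L) = y.1 • h + (y.2 : L) := congrArg Subtype.val hxy
      have h2 := congrArg co h1
      have hx : co (x.2 : L) = 0 := x.2.2.2
      have hy : co (y.2 : L) = 0 := y.2.2.2
      rw [map_add, map_add, map_smul, map_smul, co_h, hx, hy] at h2
      have h3 : x.1 = y.1 := by simpa using h2
      rw [h3] at h1
      exact Prod.ext h3 (Subtype.ext (add_left_cancel h1))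
    · rintro ⟨v, hv⟩
      refine ⟨(co v, ⟨v - co v • h, M.sub_mem hv (M.smul_mem _ hM), ?_⟩), Subtype.ext ?_⟩
      · show co (v - co v • h) = 0
        rw [map_sub, map_smul, co_h]
        simp
      · show co v • h + (v - co v • h) = v
        abel
  have h1 : finrank ℤ (ℤ × K) = 2 := by
    rw [← hr]
    exact LinearEquiv.finrank_eq (LinearEquiv.ofBijective φ hφ)
  have h2 : finrank ℤ K = 1 := by
    rw [finrank_prod, finrank_self] at h1
    omega
  let b := finBasisOfFinrankEq ℤ K h2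
  refine ⟨b 0, le_antisymm ?_ ?_⟩
  · intro v hv
    obtain ⟨⟨n, k⟩, hk⟩ := hφ.2 ⟨v, hv⟩
    have h3 : n • h + (k : L) = v := congrArg Subtype.val hk
    have h4 := b.sum_repr k
    rw [Fin.sum_univ_one] at h4
    have h5 : b.repr k 0 • (b 0 : L) = k := by
      have := congrArg Subtype.val h4
      simpa using this
    rw [← h3, ← h5]
    exact Submodule.mem_span_pair.2 ⟨n, _, rfl⟩
  · rw [Submodule.span_le]
    rintro x (rfl | rfl)
    · exact hM
    · exact (b 0).2.1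

lemma disc_span2 {v0 v : L} {d : ℤ} (hv : v ∈ Submodule.span ℤ {h, v0})
    (hsat : Saturated (Submodule.span ℤ {h, v})) (hd : disc v = d) (hd0 : d ≠ 0) :
    d = disc v0 := by
  obtain ⟨x, y, rfl⟩ := mem_span2.1 hv
  have e1 : ∀ a b : ℤ, disc (a • h + b • v0) = b ^ 2 * disc v0 := by
    intro a b
    have := disc_hcomb a (b • v0)
    rw [this, disc_smul]
  rw [e1] at hd
  have hy : y ≠ 0 := by
    rintro rfl
    apply hd0
    rw [← hd]
    ring
  have h1 : y • v0 ∈ Submodule.span ℤ {h, x • h + y • v0} :=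
    mem_span2.2 ⟨-x, 1, by rw [one_smul, neg_smul, neg_add_cancel_left]⟩
  obtain ⟨a, b, hab⟩ := mem_span2.1 (hsat y v0 hy h1)
  have h2 : (0 : ℤ) • h + (1 - b * y) • v0 = (a + b * x) • h + (0 : ℤ) • v0 := by
    rw [sub_smul, one_smul, zero_smul, zero_smul, zero_add, add_zero]
    nth_rewrite 1 [hab]
    rw [smul_add, ← mul_smul, ← mul_smul, add_smul]
    abel
  have h3 := e1 0 (1 - b * y)
  rw [h2, e1] at h3
  have h4 : disc v0 ≠ 0 := by
    intro h0
    rw [h0, mul_zero] at hd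
    exact hd0 hd.symm
  have h5 : (1 - b * y) ^ 2 = 0 := by
    have : (1 - b * y) ^ 2 * disc v0 = 0 := by rw [← h3]; ring
    exact (mul_eq_zero.1 this).resolve_right h4
  have h6 : y * b = 1 := by
    have := pow_eq_zero_iff (two_ne_zero) |>.1 h5
    linarith
  have h7 : y ^ 2 = 1 := by
    rcases Int.isUnit_iff.1 (IsUnit.of_mul_eq_one b h6) with rfl | rfl <;> norm_num
  rw [h7] at hd
  linarith

/-- in rank two there is only one discriminant -/
theorem in_unique (hM : h ∈ M) (hr : finrank ℤ M = 2) {d d' : ℤ} (h1 : In M d) (h2 : In M d')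
    (hd : d ≠ 0) (hd' : d' ≠ 0) : d = d' := by
  obtain ⟨v0, hv0⟩ := exists_span2 hM hr
  obtain ⟨v, hv, hs, he⟩ := h1
  obtain ⟨v', hv', hs', he'⟩ := h2
  rw [hv0] at hv hv'
  rw [disc_span2 hv hs he hd, disc_span2 hv' hs' he' hd']

lemma not_star_sq {a : ℕ} (ha : 2 ≤ a) : ¬ IsStar (2 * ((a ^ 2 : ℕ) : ℤ)) := by
  rintro ⟨b, n, hb⟩
  push_cast at hb
  -- `(a b)² = n² + n + 1`
  have h1 : (2 * (a * b)) ^ 2 = (2 * n + 1) ^ 2 + 3 := by linear_combination 2 * hb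
  have h2 : (2 * |a * b| - |2 * n + 1|) * (2 * |a * b| + |2 * n + 1|) = 3 := by
    have e1 : |(a : ℤ) * b| ^ 2 = (a * b) ^ 2 := sq_abs _
    have e2 : |2 * n + 1| ^ 2 = (2 * n + 1) ^ 2 := sq_abs _
    linear_combination h1 + 4 * e1 - e2
  have h3 : 0 < 2 * |(a : ℤ) * b| + |2 * n + 1| := by
    by_contra hc
    have e1 := abs_nonneg ((a : ℤ) * b)
    have e2 := abs_nonneg (2 * n + 1)
    have e3 : 2 * |(a : ℤ) * b| + |2 * n + 1| = 0 := by omega
    rw [e3, mul_zero] at h2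
    norm_num at h2
  have h4 : 0 < 2 * |(a : ℤ) * b| - |2 * n + 1| := by
    by_contra hc
    nlinarith
  have h5 : 2 * |(a : ℤ) * b| + |2 * n + 1| ≤ 3 := by nlinarith
  have h6 : b ≠ 0 := by
    rintro rfl
    rw [mul_zero] at h1
    nlinarith [sq_nonneg (2 * n + 1)]
  have h7 : (2 : ℤ) ≤ |(a : ℤ) * b| := by
    rw [abs_mul]
    have e1 : (1 : ℤ) ≤ |b| := Int.one_le_abs h6
    have e2 : (2 : ℤ) ≤ |(a : ℤ)| := by
      rw [abs_of_nonneg (by positivity)]
      exact_mod_cast ha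
    nlinarith
  have e2 := abs_nonneg (2 * n + 1)
  linarith

/-- **The general member of `𝒞_d`, `d = 2 a²`.** -/
theorem not_hilb_two (hM : h ∈ M) (hr : finrank ℤ M = 2) {a : ℕ} (ha : 2 ≤ a)
    (h1 : In M (2 * ((a ^ 2 : ℕ) : ℤ))) : ¬ Hilb M := by
  rintro ⟨d, hd, h2⟩
  have hd0 : d ≠ 0 := by
    rintro rfl
    obtain ⟨b, n, hb⟩ := hd
    nlinarith
  have h3 : d = 2 * ((a ^ 2 : ℕ) : ℤ) := in_unique hM hr h2 h1 hd0 (by positivity)
  subst h3
  exact not_star_sq ha hd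

/-! ### the family -/

/-- if all prime factors of `b` have symbol one, then `b` has symbol one -/
lemma jacobi_of_primes (a : ℤ) (b : ℕ) (hb : b ≠ 0)
    (h : ∀ p : ℕ, p.Prime → p ∣ b → jacobiSym a p = 1) : jacobiSym a b = 1 := by
  induction b using induction_on_primes with
  | zero => exact absurd rfl hb
  | one => exact jacobiSym.one_right a
  | prime_mul p b hp ih =>
    have hb0 : b ≠ 0 := right_ne_zero_of_mul hb
    have : NeZero p := ⟨hp.ne_zero⟩
    have : NeZero b := ⟨hb0⟩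
    rw [jacobiSym.mul_right, h p hp (dvd_mul_right _ _), one_mul]
    exact ih hb0 fun q hq hd => h q hq (hd.mul_left _)

/-- **A reciprocity obstruction.** -/
theorem no_value {l : ℕ} (hl : l.Prime) (h12 : l % 12 = 1) (h4 : ∀ x : ZMod l, x ^ 4 ≠ -3)
    (y w n : ℤ) : (l : ℤ) ^ 2 * y ^ 2 + 3 * l * w ^ 2 ≠ n ^ 2 + n + 1 := by
  intro he
  have : Fact l.Prime := ⟨hl⟩
  set U : ℤ := 2 * l * y - (2 * n + 1) with hU
  set V : ℤ := 2 * l * y + (2 * n + 1) with hV
  have hUV : U * V = 3 * (1 - 4 * l * w ^ 2) := by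
    rw [hU, hV]
    linear_combination 4 * he
  have hUodd : Odd U.natAbs := by
    rw [Int.natAbs_odd]
    exact ⟨l * y - n - 1, by rw [hU]; ring⟩
  have hU0 : U.natAbs ≠ 0 := fun h0 => by
    rw [h0] at hUodd
    exact absurd hUodd (by decide)
  -- all prime factors
  have h1 : jacobiSym (l : ℤ) U.natAbs = 1 := by
    refine jacobi_of_primes _ _ hU0 fun p hp hpU => ?_
    have : Fact p.Prime := ⟨hp⟩
    have hpU' : (p : ℤ) ∣ U := Int.natCast_dvd.2 hpU
    have h3 : (p : ℤ) ∣ 3 * (1 - 4 * l * w ^ 2) := by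
      rw [← hUV]
      exact hpU'.mul_right _
    rw [← jacobiSym.legendreSym.to_jacobiSym]
    rcases (Nat.prime_iff_prime_int.1 hp).dvd_or_dvd h3 with h3 | h3
    · have hp3 : p = 3 := by
        have : p ∣ 3 := by exact_mod_cast h3
        exact (Nat.prime_dvd_prime_iff_eq hp Nat.prime_three).1 this
      subst hp3
      have e1 : ((l : ℤ) : ZMod 3) = ((1 : ℤ) : ZMod 3) := by
        rw [ZMod.intCast_eq_intCast_iff]
        show (l : ℤ) % 3 = 1 % 3
        omega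
      rw [legendreSym.eq_one_iff]
      · exact ⟨1, by rw [e1]; norm_num⟩
      · rw [e1, Int.cast_one]
        exact one_ne_zero
    · have e1 : ((l : ℤ) : ZMod p) * (2 * (w : ZMod p)) ^ 2 = 1 := by
        have h5 : ((1 - 4 * l * w ^ 2 : ℤ) : ZMod p) = 0 := by
          rw [ZMod.intCast_zmod_eq_zero_iff_dvd]
          exact h3
        push_cast at h5 ⊢
        linear_combination (-1 : ZMod p) * h5
      have e2 : ((l : ℤ) : ZMod p) ≠ 0 := by
        intro h0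
        rw [h0, zero_mul] at e1
        exact zero_ne_one e1
      rw [legendreSym.eq_one_iff p e2]
      have e3 : (2 * (w : ZMod p)) ≠ 0 := by
        intro h0
        rw [h0] at e1
        norm_num at e1
      refine ⟨(2 * (w : ZMod p))⁻¹, ?_⟩
      have e4 : (2 * (w : ZMod p)) * (2 * (w : ZMod p))⁻¹ = 1 := mul_inv_cancel₀ e3
      linear_combination ((2 * (w : ZMod p))⁻¹) ^ 2 * e1 -
        ((l : ℤ) : ZMod p) * ((2 * (w : ZMod p)) * (2 * (w : ZMod p))⁻¹ + 1) * e4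
  -- reciprocity
  have h2 : jacobiSym (U.natAbs : ℤ) l = 1 := by
    rw [← jacobiSym.quadratic_reciprocity_one_mod_four (by omega) hUodd]
    exact h1
  rw [← jacobiSym.legendreSym.to_jacobiSym] at h2
  have hU1 : ((U.natAbs : ℤ) : ZMod l) ≠ 0 := by
    intro h0
    have := (legendreSym.eq_zero_iff l (U.natAbs : ℤ)).2 h0
    rw [this] at h2
    exact zero_ne_one h2
  rw [legendreSym.eq_one_iff l hU1] at h2
  obtain ⟨x, hx⟩ := h2
  obtain ⟨i, hi⟩ : IsSquare (-1 : ZMod l) := by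
    rw [ZMod.exists_sq_eq_neg_one_iff]
    omega
  -- `U ^ 2` is a fourth power
  have h3 : ((U : ℤ) : ZMod l) ^ 2 = x ^ 4 := by
    have e1 : ((U.natAbs : ℤ) : ZMod l) ^ 2 = ((U : ℤ) : ZMod l) ^ 2 := by
      have : ((U.natAbs : ℤ)) ^ 2 = U ^ 2 := by
        rw [Int.natCast_natAbs, sq_abs]
      exact_mod_cast congrArg (fun z : ℤ => (z : ZMod l)) this
    rw [← e1, hx]
    ring
  have h5 : ((U : ℤ) : ZMod l) ^ 2 = -3 := by
    have e1 : ((l : ℕ) : ZMod l) = 0 := ZMod.natCast_self l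
    have e2 : (((l : ℤ) ^ 2 * y ^ 2 + 3 * l * w ^ 2 : ℤ) : ZMod l) = ((n ^ 2 + n + 1 : ℤ) : ZMod l) := by
      rw [he]
    push_cast at e2
    rw [e1] at e2
    rw [hU]
    push_cast
    rw [e1]
    linear_combination (-4 : ZMod l) * e2
  exact h4 x (by rw [← h3, h5])

/-- the types of the family -/
theorem family {l : ℕ} (hl : l.Prime) (h12 : l % 12 = 1) (h4 : ∀ x : ZMod l, x ^ 4 ≠ -3) {s : ℕ}
    (hs : l ≤ s) : ∃ M : Submodule ℤ L, Good3 M ∧ HasForm M (l ^ 2, 0, 3 * l * s ^ 2) ∧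
      In M (2 * ((l ^ 2 : ℕ) : ℤ)) ∧ K3 M ∧ ¬ Hilb M := by
  have hl0 : 0 < l := hl.pos
  have hl4 : 13 ≤ l := by
    have := hl.two_le
    omega
  have hle : l ^ 2 < 3 * l * s ^ 2 := by
    have e1 : l * l ≤ l * s := Nat.mul_le_mul_left _ hs
    nlinarith
  have hm : Mod3 (l ^ 2, 0, 3 * l * s ^ 2) := by
    have hl3 : l % 3 = 1 := by omega
    refine ⟨?_, ?_, ?_⟩
    · show l ^ 2 % 3 ≠ 2
      simp [Nat.pow_mod, hl3]
    · show 3 * l * s ^ 2 % 3 ≠ 2
      have : 3 * l * s ^ 2 = 3 * (l * s ^ 2) := by ring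
      omega
    · show 0 ^ 2 % 3 = l ^ 2 * (3 * l * s ^ 2) % 3
      have : l ^ 2 * (3 * l * s ^ 2) = 3 * (l ^ 2 * (l * s ^ 2)) := by ring
      omega
  obtain ⟨M, hM, hr, hf⟩ := exists_of_occ (t := (l ^ 2, 0, 3 * l * s ^ 2)) (Nat.zero_le _) hle.le
    ⟨by show 4 ≤ l ^ 2; nlinarith, hm⟩
  have hi : In M (2 * ((l ^ 2 : ℕ) : ℤ)) :=
    (in_iff_first ⟨hM, hr⟩ hf (by positivity) hle).2 rfl
  refine ⟨M, ⟨hM, hr⟩, hf, hi, (k3_iff_noObs hM hr hf).2 ⟨Or.inl (Or.inl ?_), ?_⟩, ?_⟩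
  · show l ^ 2 % 3 = 1
    have hl3 : l % 3 = 1 := by omega
    simp [Nat.pow_mod, hl3]
  · rintro p hp hp2 ⟨d1, -, -⟩
    have h1 : p ∣ l := hp.dvd_of_dvd_pow d1
    rw [Nat.prime_dvd_prime_iff_eq hp hl] at h1
    omega
  · rw [hilb_iff ⟨hM, hr⟩ hf]
    rintro ⟨y, z, n, he⟩
    refine no_value hl h12 h4 y (s * z) n ?_
    rw [← he]
    push_cast
    ring

/-- **The order of magnitude of the number of the exceptional loci.** -/
theorem exc_ge {l : ℕ} (hl : l.Prime) (h12 : l % 12 = 1) (h4 : ∀ x : ZMod l, x ^ 4 ≠ -3) :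
    ∃ c : ℝ, 0 < c ∧ ∀ᶠ D : ℕ in atTop, c * √D ≤
      ((TypesIn (2 * ((l ^ 2 : ℕ) : ℤ)) (fun M => K3 M ∧ ¬ Hilb M) D).ncard : ℝ) := by
  have hl0 : (0 : ℝ) < l := by exact_mod_cast hl.pos
  have hk : (0 : ℝ) < √(3 * l) := by positivity
  refine ⟨1 / (2 * √(3 * l)), by positivity, ?_⟩
  have h1 : Tendsto (fun D : ℕ => √(D : ℝ)) atTop atTop :=
    Real.tendsto_sqrt_atTop.comp tendsto_natCast_atTop_atTop
  filter_upwards [h1.eventually_ge_atTop (2 * √(3 * l) * (l + 1))] with D hD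
  set S : ℕ := ⌊√(D : ℝ) / √(3 * l)⌋₊ with hS
  have hS1 : (S : ℝ) ≤ √(D : ℝ) / √(3 * l) := Nat.floor_le (by positivity)
  have hS2 : √(D : ℝ) / √(3 * l) < S + 1 := Nat.lt_floor_add_one _
  have hS3 : 3 * l * S ^ 2 ≤ D := by
    have e1 : (S : ℝ) * √(3 * l) ≤ √(D : ℝ) := by
      rwa [le_div_iff₀ hk] at hS1
    have e2 : ((S : ℝ) * √(3 * l)) ^ 2 ≤ (√(D : ℝ)) ^ 2 := by gcongr
    rw [mul_pow, Real.sq_sqrt (by positivity), Real.sq_sqrt (by positivity)] at e2
    have e3 : ((3 * l * S ^ 2 : ℕ) : ℝ) ≤ (D : ℝ) := by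
      push_cast
      linarith
    exact_mod_cast e3
  have hcard : S + 1 - l ≤ (TypesIn (2 * ((l ^ 2 : ℕ) : ℤ)) (fun M => K3 M ∧ ¬ Hilb M) D).ncard := by
    have hinj : Set.InjOn (fun s : ℕ => (l ^ 2, 0, 3 * l * s ^ 2)) (Finset.Icc l S : Set ℕ) := by
      intro s hs s' hs' he
      simp only [Prod.mk.injEq, true_and] at he
      have e1 : s ^ 2 = s' ^ 2 := Nat.eq_of_mul_eq_mul_left (by
        have := hl.pos
        positivity) he
      exact Nat.pow_left_injective (by norm_num : (2 : ℕ) ≠ 0) e1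
    have h2 : ((Finset.Icc l S).image fun s : ℕ => (l ^ 2, 0, 3 * l * s ^ 2)).card = S + 1 - l := by
      rw [Finset.card_image_of_injOn hinj, Nat.card_Icc]
    rw [← h2, ← Set.ncard_coe_finset]
    refine Set.ncard_le_ncard ?_ (typesIn_finite _ _ _)
    intro t ht
    obtain ⟨s, hs, rfl⟩ := Finset.mem_image.1 (Finset.mem_coe.1 ht)
    obtain ⟨hs1, hs2⟩ := Finset.mem_Icc.1 hs
    obtain ⟨M, hM, hf, hi, hK, hH⟩ := family hl h12 h4 hs1
    refine ⟨?_, M, hM, hf, hi, hK, hH⟩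
    show 3 * l * s ^ 2 ≤ D
    refine le_trans ?_ hS3
    gcongr
  have h5 : (S : ℝ) + 1 - l ≤
      ((TypesIn (2 * ((l ^ 2 : ℕ) : ℤ)) (fun M => K3 M ∧ ¬ Hilb M) D).ncard : ℝ) := by
    have e1 : ((S + 1 - l : ℕ) : ℝ) ≤ ((TypesIn (2 * ((l ^ 2 : ℕ) : ℤ))
        (fun M => K3 M ∧ ¬ Hilb M) D).ncard : ℝ) := by exact_mod_cast hcard
    have e2 : (S : ℝ) + 1 - l ≤ ((S + 1 - l : ℕ) : ℝ) := by
      have : S + 1 ≤ (S + 1 - l) + l := by omega
      have e3 : ((S + 1 : ℕ) : ℝ) ≤ (((S + 1 - l) + l : ℕ) : ℝ) := by exact_mod_cast this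
      push_cast at e3
      linarith
    linarith
  refine le_trans ?_ h5
  have h6 : (l : ℝ) ≤ √(D : ℝ) / √(3 * l) / 2 := by
    rw [le_div_iff₀ (by norm_num), le_div_iff₀ hk]
    nlinarith
  have h7 : 1 / (2 * √(3 * l)) * √(D : ℝ) = √(D : ℝ) / √(3 * l) / 2 := by
    field_simp
  rw [h7]
  linarith

end Pool.Agent.H574.CF
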