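import Pool.Agent.H574.CF.Slice8

/-!
# The general member of `𝒞_d`, `d = 2 a²`, and the proportions
-/

set_option autoImplicit false

namespace Pool.Agent.H574.CF

open Pool.Agent.Q63.CF Pool.Agent.Y95.Q Module Dens Filter Topology

variable {M : Submodule ℤ L} {t : ℕ × ℕ × ℕ}

lemma adm_sq_iff {a : ℕ} (ha : 2 ≤ a) :
    Admissible (2 * ((a ^ 2 : ℕ) : ℤ)) ↔ ∀ p : ℕ, p.Prime → p ∣ a → p % 3 = 1 := by
  have h4 : 4 ≤ a ^ 2 := by nlinarith
  constructor
  · rintro ⟨-, h2, h9, hp⟩ p hpp hd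
    obtain ⟨k, rfl⟩ := hd
    have h3 : p % 3 ≠ 0 := by
      intro h
      have : 3 ∣ p := Nat.dvd_of_mod_eq_zero h
      rw [Nat.prime_dvd_prime_iff_eq Nat.prime_three hpp] at this
      subst this
      apply h9
      refine ⟨2 * k ^ 2, ?_⟩
      push_cast
      ring
    by_cases hp2 : p = 2
    · exfalso
      subst hp2
      apply h2
      refine ⟨2 * k ^ 2, ?_⟩
      push_cast
      ring
    · have := hp p hpp hp2 (by
        refine ⟨2 * (p * k ^ 2), ?_⟩
        push_cast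
        ring)
      omega
  · intro h
    have h2 : ¬ 2 ∣ a := fun hd => by
      have := h 2 Nat.prime_two hd
      omega
    have h3 : ¬ 3 ∣ a := fun hd => by
      have := h 3 Nat.prime_three hd
      omega
    refine ⟨by omega, ?_, ?_, ?_⟩
    · intro hd
      have h5 : 2 ∣ a ^ 2 := by omega
      exact h2 (Nat.prime_two.dvd_of_dvd_pow h5)
    · intro hd
      have h5 : 3 ∣ a ^ 2 := by omega
      exact h3 (Nat.prime_three.dvd_of_dvd_pow h5)
    · intro p hp hp2 hd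
      have hd' : p ∣ 2 * a ^ 2 := by exact_mod_cast hd
      rcases (Nat.Prime.dvd_mul hp).1 hd' with h5 | h5
      · exact absurd ((Nat.prime_dvd_prime_iff_eq hp Nat.prime_two).1 h5) hp2
      · have := h p hp (hp.dvd_of_dvd_pow h5)
        omega

lemma prop_sq_iff {a : ℕ} (ha : 2 ≤ a) :
    prop (a ^ 2) = 1 ↔ ∀ p : ℕ, p.Prime → p ∣ a → p % 3 = 1 := by
  have h3 : a ^ 2 % 3 ≠ 2 := by
    have : a % 3 = 0 ∨ a % 3 = 1 ∨ a % 3 = 2 := by omega
    rcases this with h | h | h <;> simp [Nat.pow_mod, h]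
  have hn : a ^ 2 ≠ 0 := by positivity
  rw [(prop_lt_one (by positivity) h3).2]
  constructor
  · rintro ⟨h1, h2, h4⟩ p hp hd
    have h5 : p % 3 ≠ 0 := by
      intro h
      have : 3 ∣ p := Nat.dvd_of_mod_eq_zero h
      rw [Nat.prime_dvd_prime_iff_eq Nat.prime_three hp] at this
      subst this
      apply h2
      have : a % 9 = 0 ∨ a % 9 = 3 ∨ a % 9 = 6 := by omega
      rcases this with h | h | h <;> simp [Nat.pow_mod, h]
    by_contra h6
    have h7 : p ∈ Bad (a ^ 2) := (mem_Bad hn).2 ⟨hp, by omega, dvd_pow hd two_ne_zero⟩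
    rw [h1] at h7
    simp at h7
  · intro h
    have h6 : ¬ 3 ∣ a := fun hd => by
      have := h 3 Nat.prime_three hd
      omega
    have h7 : ¬ 3 ∣ a ^ 2 := fun hd => h6 (Nat.prime_three.dvd_of_dvd_pow hd)
    refine ⟨?_, by omega, by omega⟩
    by_contra hne
    obtain ⟨p, hp⟩ := Finset.nonempty_iff_ne_empty.2 hne
    obtain ⟨a1, a2, a3⟩ := (mem_Bad hn).1 hp
    have := h p a1 (a1.dvd_of_dvd_pow a3)
    omega

/-- **The general member of `𝒞_d`, `d = 2 a²`.** -/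
theorem k3_two_iff (hM : h ∈ M) (hr : finrank ℤ M = 2) {a : ℕ} (ha : 2 ≤ a)
    (h1 : In M (2 * ((a ^ 2 : ℕ) : ℤ))) : K3 M ↔ ∀ p : ℕ, p.Prime → p ∣ a → p % 3 = 1 := by
  rw [← adm_sq_iff ha]
  constructor
  · rintro ⟨d, hd, h2⟩
    have h3 : d = 2 * ((a ^ 2 : ℕ) : ℤ) := in_unique hM hr h2 h1 (by
      have := hd.1
      omega) (by positivity)
    rwa [← h3]
  · exact fun hd => ⟨_, hd, h1⟩

/-- **The proportion of the loci with Hilbert squares.** -/
theorem lim_prop_hilb {a : ℕ} (ha : 2 ≤ a) :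
    Tendsto (fun D : ℕ => ((TypesIn (2 * ((a ^ 2 : ℕ) : ℤ)) Hilb D).ncard : ℝ) /
      (TypesIn (2 * ((a ^ 2 : ℕ) : ℤ)) (fun _ => True) D).ncard) atTop (𝓝 (prop (a ^ 2))) := by
  have hn : 4 ≤ a ^ 2 := by nlinarith
  have h3 : a ^ 2 % 3 ≠ 2 := by
    have : a % 3 = 0 ∨ a % 3 = 1 ∨ a % 3 = 2 := by omega
    rcases this with h | h | h <;> simp [Nat.pow_mod, h]
  have h1 := (lim_hilb ha).div (lim_all hn h3) (tot_pos (a ^ 2)).ne'
  rw [mul_div_cancel_left₀ _ (tot_pos (a ^ 2)).ne'] at h1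
  refine h1.congr' ?_
  filter_upwards [eventually_gt_atTop 0] with D hD
  have hD' : (D : ℝ) ≠ 0 := by positivity
  simp only [Pi.div_apply]
  rw [div_div_div_cancel_right₀ hD']

lemma prop_sq_gt {a : ℕ} (ha : 2 ≤ a) : 5 / 9 < prop (a ^ 2) := by
  have hn : 4 ≤ a ^ 2 := by nlinarith
  have h3 : a ^ 2 % 3 ≠ 2 := by
    have : a % 3 = 0 ∨ a % 3 = 1 ∨ a % 3 = 2 := by omega
    rcases this with h | h | h <;> simp [Nat.pow_mod, h]
  refine prop_ge hn h3 ?_
  intro h6
  have h7 : a < 3 := by nlinarith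
  have : a = 2 := by omega
  subst this
  norm_num at h6

lemma prop_nine : prop 9 = 5 / 6 := by
  rw [prop_val ∅ (bad_of (by norm_num) _ (by decide) (by decide))]
  simp only [Finset.prod_empty, cf, cg, ce]
  norm_num

/-- `X` lies in a divisor `𝒞_d` such that `d` satisfies the condition of Addington -/
def HasHilb (R : CubicFourfold → Submodule ℤ L → Prop) (X : CubicFourfold) : Prop :=
  ∃ d, IsStar d ∧ X ∈ Div R d

end Pool.Agent.H574.CF
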