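import Pool.Graph.R_pool_sql_team_seeded_3997aac3.Q53.LFT.Gens
import Pool.Graph.R_pool_sql_team_seeded_3997aac3.Q53.LFM.Many3
import Pool.Graph.R_pool_sql_team_seeded_2aa45f1a.Q63.CF.Plane

/-!
# Groups of Hodge classes in the explicit lattice and lattices of cubic type
-/

set_option autoImplicit false

namespace Pool.Agent.H574.CF

open Pool.Agent.Q63.CF Pool.Agent.Y95.Q

/-- The properties of the group `A ⊆ L` of the Hodge classes of a smooth cubic fourfold: it contains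
`h`, it is saturated, the form is positive on it, and there is no `v` with `v.h = 1`, `v.v = 1` or
`v.h = 0`, `v.v = 2` (the discriminants `2` and `6` do not occur; Hodge, Riemann, Voisin, Hassett). -/
structure IsHodgeGroup (A : Submodule ℤ L) : Prop where
  mem : h ∈ A
  sat : Saturated A
  pos : ∀ v ∈ A, v ≠ 0 → 0 < ip v v
  disc_two : ∀ v ∈ A, ip v h = 1 → ip v v ≠ 1
  disc_six : ∀ v ∈ A, ip v h = 0 → ip v v ≠ 2

/-- The known theorems on the relation `R X A` (there is an isometry `H^4(X, ℤ) ≅ L` which takes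
the square of the hyperplane class to `h` and the group of Hodge classes onto `A`):
`IsHodgeTheory` of the library, and the properties of the groups of Hodge classes. -/
structure IsPeriodTheory (R : CubicFourfold → Submodule ℤ L → Prop) : Prop extends
    IsHodgeTheory R where
  group : ∀ X A, R X A → IsHodgeGroup A

/-! ### the form is bilinear -/

lemma e8_add_left (x y z : Fin 8 → ℤ) : e8 (x + y) z = e8 x z + e8 y z := by
  simp [e8, add_dotProduct]

lemma e8_comm (x y : Fin 8 → ℤ) : e8 x y = e8 y x := by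
  unfold e8
  rw [Matrix.dotProduct_mulVec, dotProduct_comm]
  congr 1
  rw [← Matrix.mulVec_transpose, CartanMatrix.E₈_transpose]

lemma e8_smul_left (n : ℤ) (x y : Fin 8 → ℤ) : e8 (n • x) y = n * e8 x y := by
  unfold e8
  rw [smul_dotProduct, smul_eq_mul]

lemma ip0_add_left (u v w : L0) : ip0 (u + v) w = ip0 u w + ip0 v w := by
  unfold ip0
  simp only [Prod.fst_add, Prod.snd_add, add_dotProduct, e8_add_left]
  ring

lemma ip0_smul_left (n : ℤ) (v w : L0) : ip0 (n • v) w = n * ip0 v w := by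
  unfold ip0
  simp only [Prod.smul_fst, Prod.smul_snd, smul_dotProduct, e8_smul_left, smul_eq_mul]
  ring

lemma ip0_comm (v w : L0) : ip0 v w = ip0 w v := by
  unfold ip0
  rw [dotProduct_comm v.1, dotProduct_comm v.2.1, dotProduct_comm v.2.2.1, e8_comm v.2.2.2.1,
    e8_comm v.2.2.2.2]
  ring

lemma ip_comm (v w : L) : ip v w = ip w v := ip0_comm v w

lemma ip_add_left (u v w : L) : ip (u + v) w = ip u w + ip v w := ip0_add_left u v w

lemma ip_smul_left (n : ℤ) (v w : L) : ip (n • v) w = n * ip v w := ip0_smul_left n v w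

lemma ip_add_right (u v w : L) : ip u (v + w) = ip u v + ip u w := by
  rw [ip_comm, ip_add_left, ip_comm v, ip_comm w]

lemma ip_smul_right (n : ℤ) (v w : L) : ip v (n • w) = n * ip v w := by
  rw [ip_comm, ip_smul_left, ip_comm w]

/-- the form as a bilinear map -/
def ipB : L →ₗ[ℤ] L →ₗ[ℤ] ℤ :=
  LinearMap.mk₂ ℤ ip ip_add_left ip_smul_left ip_add_right fun n v w => ip_smul_right n v w

@[simp] lemma ipB_apply (v w : L) : ipB v w = ip v w := rfl

/-! ### coordinates -/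

/-- coordinates -/
def en (v : L0) (i : Fin 23) : ℤ :=
  if h3 : i.1 < 3 then v.1 ⟨i.1, h3⟩
  else if h5 : i.1 < 5 then v.2.1 ⟨i.1 - 3, by omega⟩
  else if h7 : i.1 < 7 then v.2.2.1 ⟨i.1 - 5, by omega⟩
  else if h15 : i.1 < 15 then v.2.2.2.1 ⟨i.1 - 7, by omega⟩
  else v.2.2.2.2 ⟨i.1 - 15, by omega⟩

/-- the vector with given coordinates -/
def de (f : Fin 23 → ℤ) : L0 :=
  (fun i => f ⟨i.1, by omega⟩, fun i => f ⟨i.1 + 3, by omega⟩, fun i => f ⟨i.1 + 5, by omega⟩,
    fun i => f ⟨i.1 + 7, by omega⟩, fun i => f ⟨i.1 + 15, by omega⟩)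

lemma de_en (v : L0) : de (en v) = v := by
  refine Prod.ext_iff.2 ⟨?_, Prod.ext_iff.2 ⟨?_, Prod.ext_iff.2 ⟨?_, Prod.ext_iff.2 ⟨?_, ?_⟩⟩⟩⟩
  all_goals
    funext i
    fin_cases i <;> rfl

lemma en_de (f : Fin 23 → ℤ) : en (de f) = f := by
  funext i
  fin_cases i <;> rfl

/-- the coordinates as a linear equivalence -/
def eL : L ≃ₗ[ℤ] (Fin 23 → ℤ) :=
  toL0.trans
    { toFun := en
      invFun := de
      left_inv := de_en
      right_inv := en_de
      map_add' := fun v w => by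
        funext i
        fin_cases i <;> rfl
      map_smul' := fun n v => by
        funext i
        fin_cases i <;> rfl }

lemma eL_symm (f : Fin 23 → ℤ) : eL.symm f = (de f : L0) := rfl

/-- the standard basis -/
def bs (i : Fin 23) : L := eL.symm (Pi.single i 1)

/-- the Gram matrix -/
def BM : Matrix (Fin 23) (Fin 23) ℤ := fun i j => ip (bs i) (bs j)

/-- the inverse of the Cartan matrix of `E₈` -/
def E8i : Matrix (Fin 8) (Fin 8) ℤ :=
  !![4, 5, 7, 10, 8, 6, 4, 2; 5, 8, 10, 15, 12, 9, 6, 3; 7, 10, 14, 20, 16, 12, 8, 4;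
    10, 15, 20, 30, 24, 18, 12, 6; 8, 12, 16, 24, 20, 15, 10, 5; 6, 9, 12, 18, 15, 12, 8, 4;
    4, 6, 8, 12, 10, 8, 6, 3; 2, 3, 4, 6, 5, 4, 3, 2]

/-- the dual basis -/
def db (j : Fin 23) : L0 :=
  (fun i => if j.1 = i.1 then 1 else 0, fun i => if j.1 = i.1 + 5 then 1 else 0,
    fun i => if j.1 = i.1 + 3 then 1 else 0,
    fun i => if h : 7 ≤ j.1 ∧ j.1 < 15 then E8i i ⟨j.1 - 7, by omega⟩ else 0,
    fun i => if h : 15 ≤ j.1 then E8i i ⟨j.1 - 15, by omega⟩ else 0)

lemma dual_basis (i j : Fin 23) : ip0 (de (Pi.single i 1)) (db j) = if i = j then 1 else 0 := by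
  revert i j
  decide +kernel

lemma vec_sum (v : Fin 23 → ℤ) : v = ∑ i, v i • (Pi.single i 1 : Fin 23 → ℤ) := by
  funext k
  simp [Finset.sum_apply, Pi.single_apply]

lemma ip_sum_left (v : Fin 23 → ℤ) (w : L) : ip (eL.symm v) w = ∑ i, v i * ip (bs i) w := by
  conv_lhs => rw [vec_sum v]
  rw [map_sum, ← ipB_apply, map_sum, LinearMap.sum_apply]
  refine Finset.sum_congr rfl fun i _ => ?_
  rw [map_smul, ipB_apply, ip_smul_left]
  rfl

lemma ip_sum_right (w : L) (v : Fin 23 → ℤ) : ip w (eL.symm v) = ∑ i, ip w (bs i) * v i := by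
  rw [ip_comm, ip_sum_left]
  refine Finset.sum_congr rfl fun i _ => ?_
  rw [ip_comm, mul_comm]

lemma ip_eq (v w : Fin 23 → ℤ) :
    ip (eL.symm v) (eL.symm w) = ∑ i, ∑ j, v i * BM i j * w j := by
  rw [ip_sum_left]
  refine Finset.sum_congr rfl fun i _ => ?_
  rw [ip_sum_right, Finset.mul_sum]
  refine Finset.sum_congr rfl fun j _ => ?_
  rw [BM, mul_assoc]

/-- the inverse matrix -/
def BI : Matrix (Fin 23) (Fin 23) ℤ := fun i j => en (db j) i

lemma BM_mul_BI : BM * BI = 1 := by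
  ext i j
  rw [Matrix.mul_apply, Matrix.one_apply, ← dual_basis i j]
  have h1 : ip (bs i) (eL.symm (en (db j))) = ip0 (de (Pi.single i 1)) (db j) := by
    rw [eL_symm, de_en]
    rfl
  rw [← h1, ip_sum_right]
  rfl

lemma BM_unit : IsUnit BM.det := by
  have h1 : BM.det * BI.det = 1 := by rw [← Matrix.det_mul, BM_mul_BI, Matrix.det_one]
  exact IsUnit.of_mul_eq_one _ h1

/-! ### periods -/

open Module in
/-- independent powers -/
lemma powers_indep {ι : Type*} [Fintype ι] :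
    ∃ f : ι → ℂ, ∀ c : ι → ℤ, ∑ i, (c i : ℂ) * f i = 0 → c = 0 := by
  classical
  have ht : Transcendental ℤ ((liouvilleNumber ((2 : ℕ) : ℝ) : ℝ) : ℂ) := by
    have h1 : Transcendental ℤ (liouvilleNumber ((2 : ℕ) : ℝ)) :=
      transcendental_liouvilleNumber le_rfl
    intro h2
    exact h1 ((isAlgebraic_algebraMap_iff (algebraMap ℝ ℂ).injective).1 h2)
  set τ : ℂ := ((liouvilleNumber ((2 : ℕ) : ℝ) : ℝ) : ℂ)
  let e := Fintype.equivFin ι
  refine ⟨fun i => τ ^ (e i : ℕ), fun c hc => ?_⟩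
  let q : Polynomial ℤ := ∑ i, Polynomial.C (c i) * Polynomial.X ^ (e i : ℕ)
  have hq : Polynomial.aeval τ q = 0 := by
    simp only [q, map_sum, map_mul, Polynomial.aeval_C, map_pow, Polynomial.aeval_X]
    exact hc
  have hq0 : q = 0 := by
    by_contra h
    exact ht ⟨q, h, hq⟩
  funext i
  have h1 := congrArg (fun r : Polynomial ℤ => r.coeff (e i : ℕ)) hq0
  simp only [q, Polynomial.finsetSum_coeff, Polynomial.coeff_C_mul, Polynomial.coeff_X_pow,
    Polynomial.coeff_zero] at h1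
  rw [Finset.sum_eq_single i] at h1
  · simpa using h1
  · intro j _ hj
    rw [if_neg, mul_zero]
    intro h2
    exact hj (e.injective (Fin.ext h2.symm))
  · simp

open Module in
/-- a saturated group is the kernel of a homomorphism to `ℂ` -/
lemma exists_functional {A : Submodule ℤ L} (hA : Saturated A) :
    ∃ g : L →ₗ[ℤ] ℂ, ∀ v, g v = 0 ↔ v ∈ A := by
  have : Module.Finite ℤ L := Module.Finite.equiv eL.symm
  have : Module.IsTorsionFree ℤ (L ⧸ A) := by
    refine ⟨fun r hr x y hxy => ?_⟩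
    have hr0 : r ≠ 0 := hr.ne_zero
    obtain ⟨x, rfl⟩ := Submodule.mkQ_surjective A x
    obtain ⟨y, rfl⟩ := Submodule.mkQ_surjective A y
    simp only [← map_smul] at hxy
    rw [← sub_eq_zero, ← map_sub, Submodule.mkQ_apply, Submodule.Quotient.mk_eq_zero] at hxy ⊢
    rw [← smul_sub] at hxy
    exact hA r _ hr0 hxy
  have : Module.Free ℤ (L ⧸ A) := Module.free_of_finite_type_torsion_free'
  let b := Module.Free.chooseBasis ℤ (L ⧸ A)
  obtain ⟨f, hf⟩ := powers_indep (ι := Module.Free.ChooseBasisIndex ℤ (L ⧸ A))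
  refine ⟨(b.constr ℤ f) ∘ₗ A.mkQ, fun v => ?_⟩
  rw [LinearMap.comp_apply, Basis.constr_apply_fintype]
  constructor
  · intro h1
    have h2 := hf (b.equivFun (A.mkQ v)) (by simpa [zsmul_eq_mul] using h1)
    have h3 : A.mkQ v = 0 := b.equivFun.map_eq_zero_iff.1 h2
    rwa [Submodule.mkQ_apply, Submodule.Quotient.mk_eq_zero] at h3
  · intro h1
    have h3 : A.mkQ v = 0 := by rwa [Submodule.mkQ_apply, Submodule.Quotient.mk_eq_zero]
    rw [h3]
    simp

lemma exists_period {A : Submodule ℤ L} (hA : Saturated A) :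
    ∃ ω : Fin 23 → ℂ, ∀ v : Fin 23 → ℤ,
      (∑ i, ∑ j, (v i : ℂ) * (BM i j : ℂ) * ω j = 0) ↔ eL.symm v ∈ A := by
  obtain ⟨g, hg⟩ := exists_functional hA
  refine ⟨fun j => ∑ k, (BI j k : ℂ) * g (bs k), fun v => ?_⟩
  rw [← hg]
  have h1 : g (eL.symm v) = ∑ i, (v i : ℂ) * g (bs i) := by
    conv_lhs => rw [vec_sum v]
    rw [map_sum, map_sum]
    refine Finset.sum_congr rfl fun i _ => ?_
    rw [map_smul, map_smul, zsmul_eq_mul]
    rfl
  have h2 : ∀ i, ∑ j, (BM i j : ℂ) * ∑ k, (BI j k : ℂ) * g (bs k) = g (bs i) := by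
    intro i
    have h3 : ∀ k, ∑ j, (BM i j : ℂ) * (BI j k : ℂ) = if i = k then 1 else 0 := by
      intro k
      have h4 := congrFun (congrFun BM_mul_BI i) k
      rw [Matrix.mul_apply, Matrix.one_apply] at h4
      have h5 := congrArg (fun z : ℤ => (z : ℂ)) h4
      simp only [Int.cast_sum, Int.cast_mul, Int.cast_ite, Int.cast_one, Int.cast_zero] at h5
      exact h5
    calc ∑ j, (BM i j : ℂ) * ∑ k, (BI j k : ℂ) * g (bs k)
        = ∑ k, (∑ j, (BM i j : ℂ) * (BI j k : ℂ)) * g (bs k) := by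
          simp only [Finset.mul_sum, Finset.sum_mul]
          rw [Finset.sum_comm]
          refine Finset.sum_congr rfl fun j _ => Finset.sum_congr rfl fun k _ => by ring
      _ = g (bs i) := by simp [h3]
  rw [h1]
  have h6 : ∑ i, ∑ j, (v i : ℂ) * (BM i j : ℂ) * ∑ k, (BI j k : ℂ) * g (bs k) =
      ∑ i, (v i : ℂ) * g (bs i) := by
    refine Finset.sum_congr rfl fun i _ => ?_
    rw [← h2 i, Finset.mul_sum]
    refine Finset.sum_congr rfl fun j _ => by ring
  rw [h6]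

/-! ### the lattice of cubic type -/

open Pool.Agent.Q53.LFY Pool.Agent.Q53.LFA

lemma e8_even (x : Fin 8 → ℤ) : Even (e8 x x) := by
  refine ⟨x 0 ^ 2 + x 1 ^ 2 + x 2 ^ 2 + x 3 ^ 2 + x 4 ^ 2 + x 5 ^ 2 + x 6 ^ 2 + x 7 ^ 2
    - x 0 * x 2 - x 1 * x 3 - x 2 * x 3 - x 3 * x 4 - x 4 * x 5 - x 5 * x 6 - x 6 * x 7, ?_⟩
  simp [e8, Matrix.mulVec, dotProduct, CartanMatrix.E₈, Fin.sum_univ_succ]
  ring

lemma sq_even (a : Fin 3 → ℤ) : Even (a ⬝ᵥ a - a ⬝ᵥ fun _ => 1) := by
  simp only [dotProduct, Fin.sum_univ_three, mul_one]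
  have h1 : ∀ x : ℤ, Even (x * x - x) := fun x => by
    have := Int.even_mul_pred_self x
    rwa [mul_sub, mul_one] at this
  have h2 := ((h1 (a 0)).add (h1 (a 1))).add (h1 (a 2))
  have e : a 0 * a 0 + a 1 * a 1 + a 2 * a 2 - (a 0 + a 1 + a 2) =
      a 0 * a 0 - a 0 + (a 1 * a 1 - a 1) + (a 2 * a 2 - a 2) := by ring
  rw [e]
  exact h2

lemma ip0_h_char (v : L0) : Even (ip0 v v - ip0 v (fun _ => 1, 0)) := by
  unfold ip0
  obtain ⟨a, ha⟩ := e8_even v.2.2.2.1
  obtain ⟨b, hb⟩ := e8_even v.2.2.2.2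
  obtain ⟨c, hc⟩ := sq_even v.1
  rw [ha, hb]
  simp only [Prod.fst_zero, Prod.snd_zero, dotProduct_zero, e8_comm _ 0, e8_zero,
    dotProduct_comm v.2.2.1 v.2.1]
  exact ⟨c + v.2.1 ⬝ᵥ v.2.2.1 + a + b, by linarith⟩

lemma ip_h_char (v : L) : Even (ip v v - ip v h) := ip0_h_char v

lemma ip_h_h : ip h h = 3 := by decide

/-- the lattice of cubic type of a group of Hodge classes -/
theorem exists_lat {A : Submodule ℤ L} (hA : IsHodgeGroup A) : ∃ H : CubLat, H.IsCubic ∧
    (∀ v, H.IsHodge v ↔ eL.symm v ∈ A) ∧ (∀ v w, H.ip v w = ip (eL.symm v) (eL.symm w)) ∧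
    H.h = eL h := by
  obtain ⟨ω, hω⟩ := exists_period hA.sat
  have hip : ∀ v w, (⟨BM, eL h, ω⟩ : CubLat).ip v w = ip (eL.symm v) (eL.symm w) :=
    fun v w => (ip_eq v w).symm
  have hh : ∀ v, (⟨BM, eL h, ω⟩ : CubLat).IsHodge v ↔ eL.symm v ∈ A := hω
  refine ⟨⟨BM, eL h, ω⟩, ?_, hh, hip, rfl⟩
  constructor
  · intro i j
    exact ip_comm _ _
  · exact BM_unit
  · rw [hh]
    simpa using hA.mem
  · rw [hip]
    simp only [LinearEquiv.symm_apply_apply]
    exact ip_h_h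
  · intro v
    rw [hip, hip]
    simp only [LinearEquiv.symm_apply_apply]
    exact ip_h_char _
  · intro v hv hv0
    rw [hip]
    exact hA.pos _ ((hh v).1 hv) (fun h0 => hv0 (eL.symm.map_eq_zero_iff.1 h0))
  · intro v hv
    rw [hip, hip]
    simp only [LinearEquiv.symm_apply_apply]
    exact hA.disc_two _ ((hh v).1 hv)
  · intro v hv
    rw [hip, hip]
    simp only [LinearEquiv.symm_apply_apply]
    exact hA.disc_six _ ((hh v).1 hv)

/-- `A` contains a vector `v` which spans with `h` a saturated group of discriminant `d` -/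
def In (A : Submodule ℤ L) (d : ℤ) : Prop :=
  ∃ v ∈ A, Saturated (Submodule.span ℤ {h, v}) ∧ disc v = d

lemma mem_div {R : CubicFourfold → Submodule ℤ L → Prop} {d : ℤ} {X : CubicFourfold} :
    X ∈ Div R d ↔ ∃ A, R X A ∧ In A d := Iff.rfl

section lat

variable {A : Submodule ℤ L} {H : CubLat} (h1 : ∀ v, H.IsHodge v ↔ eL.symm v ∈ A)
  (h2 : ∀ v w, H.ip v w = ip (eL.symm v) (eL.symm w)) (h3 : H.h = eL h)

include h2 h3 in
lemma disc_lat (v : Fin 23 → ℤ) : H.disc v = disc (eL.symm v) := by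
  unfold CubLat.disc disc
  rw [h2, h2, h3, LinearEquiv.symm_apply_apply]

include h3 in
lemma sat_lat (v : L) : H.Saturated (eL v) ↔ Saturated (Submodule.span ℤ {h, v}) := by
  constructor
  · intro hs n w hn hw
    obtain ⟨a, b, hab⟩ := Submodule.mem_span_pair.1 hw
    obtain ⟨a', b', h4⟩ := hs (eL w) n a b hn (by
      rw [h3, ← map_smul, ← map_smul, ← map_smul, ← map_add, hab])
    refine Submodule.mem_span_pair.2 ⟨a', b', ?_⟩
    apply eL.injective
    rw [h4, h3, map_add, map_smul, map_smul]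
  · intro hs x m a b hm hx
    have h4 : m • eL.symm x ∈ Submodule.span ℤ {h, v} := by
      refine Submodule.mem_span_pair.2 ⟨a, b, ?_⟩
      apply eL.injective
      rw [map_add, map_smul, map_smul, map_smul, LinearEquiv.apply_symm_apply, hx, h3]
    obtain ⟨a', b', h5⟩ := Submodule.mem_span_pair.1 (hs m _ hm h4)
    refine ⟨a', b', ?_⟩
    have h6 := congrArg eL h5
    rw [map_add, map_smul, map_smul, LinearEquiv.apply_symm_apply] at h6
    rw [← h6, h3]

include h1 h2 h3 in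
lemma inC_lat (d : ℤ) : InC H d ↔ In A d := by
  constructor
  · rintro ⟨v, hv, hs, hd⟩
    refine ⟨eL.symm v, (h1 v).1 hv, ?_, ?_⟩
    · rw [← sat_lat h3, LinearEquiv.apply_symm_apply]
      exact hs
    · rw [← disc_lat h2 h3]
      exact hd
  · rintro ⟨v, hv, hs, hd⟩
    refine ⟨eL v, (h1 _).2 (by simpa using hv), (sat_lat h3 v).2 hs, ?_⟩
    rw [disc_lat h2 h3, LinearEquiv.symm_apply_apply]
    exact hd

include h1 in
lemma finrank_lat : Module.finrank ℤ H.hodge = Module.finrank ℤ A := by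
  have h4 : A.map (eL : L →ₗ[ℤ] (Fin 23 → ℤ)) = H.hodge := by
    ext v
    rw [Submodule.mem_map]
    constructor
    · rintro ⟨w, hw, rfl⟩
      show H.IsHodge _
      rw [h1]
      simpa using hw
    · intro hv
      exact ⟨eL.symm v, (h1 v).1 hv, by simp⟩
  rw [← h4]
  exact (LinearEquiv.finrank_eq (eL.submoduleMap A)).symm

end lat

/-- `A` has an admissible discriminant -/
def K3 (A : Submodule ℤ L) : Prop := ∃ d, Pool.Agent.Y95.Q.Admissible d ∧ In A d

/-- the local conditions -/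
def Loc (A : Submodule ℤ L) : Prop :=
  (∀ p : ℕ, p.Prime → p % 3 = 2 → ∃ v ∈ A, ¬ (p : ℤ) ∣ disc v / 2) ∧
    ∃ v ∈ A, disc v % 3 = 2 ∨ disc v % 18 = 6

/-- **The local criterion**, for groups of Hodge classes in the explicit lattice. -/
theorem k3_iff_loc {A : Submodule ℤ L} (hA : IsHodgeGroup A) : K3 A ↔ Loc A := by
  obtain ⟨H, hH, h1, h2, h3⟩ := exists_lat hA
  have e1 : H.HasK3 ↔ K3 A := by
    constructor
    · rintro ⟨v, hv, hs, hd⟩
      exact ⟨_, hd, (inC_lat h1 h2 h3 _).1 ⟨v, hv, hs, rfl⟩⟩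
    · rintro ⟨d, hd, hin⟩
      obtain ⟨v, hv, hs, rfl⟩ := (inC_lat h1 h2 h3 _).2 hin
      exact ⟨v, hv, hs, hd⟩
  rw [← e1, Pool.Agent.Q53.LFT.hasK3_iff_local hH]
  constructor
  · rintro ⟨hp, v, hv, hd⟩
    refine ⟨fun p h4 h5 => ?_, eL.symm v, (h1 v).1 hv, ?_⟩
    · obtain ⟨w, hw, hw2⟩ := hp p h4 h5
      exact ⟨eL.symm w, (h1 w).1 hw, by rw [← disc_lat h2 h3]; exact hw2⟩
    · rw [← disc_lat h2 h3]
      exact hd
  · rintro ⟨hp, v, hv, hd⟩
    refine ⟨fun p h4 h5 => ?_, eL v, (h1 _).2 (by simpa using hv), ?_⟩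
    · obtain ⟨w, hw, hw2⟩ := hp p h4 h5
      exact ⟨eL w, (h1 _).2 (by simpa using hw), by rw [disc_lat h2 h3]; simpa using hw2⟩
    · rw [disc_lat h2 h3]
      simpa using hd

/-- In rank at least five a group with an admissible discriminant has infinitely many of the form
`2 n ^ 2 + 2 n + 2`. -/
theorem hilb_of_k3 {A : Submodule ℤ L} (hA : IsHodgeGroup A) (h5 : 5 ≤ Module.finrank ℤ A)
    (hK : K3 A) (N : ℤ) : ∃ n : ℤ, N < n ∧ In A (2 * n ^ 2 + 2 * n + 2) := by
  obtain ⟨H, hH, h1, h2, h3⟩ := exists_lat hA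
  have hf := finrank_lat h1
  obtain ⟨hr, v, k, hv, hk, hd⟩ := Pool.Agent.Q53.LFM.exists_square_of hH (Or.inl (by omega))
  have e1 : H.HasK3 := by
    obtain ⟨d, hd, hin⟩ := hK
    obtain ⟨v, hv, hs, rfl⟩ := (inC_lat h1 h2 h3 _).2 hin
    exact ⟨v, hv, hs, hd⟩
  obtain ⟨n, hn, hC⟩ := Pool.Agent.Q53.LFM.many_of_hasK3 hH hr hv hk hd e1 N
  exact ⟨n, hn, (inC_lat h1 h2 h3 _).1 hC⟩

end Pool.Agent.H574.CF
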