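import Pool.Agent.H574.CF.Cod2

/-!
# The groups of rank three: classification and local conditions
-/

set_option autoImplicit false

namespace Pool.Agent.H574.CF

open Pool.Agent.Q63.CF Pool.Agent.Y95.Q Module Dens

lemma mix_add_left (u v w : L) : mix (u + v) w = mix u w + mix v w := by
  unfold mix
  rw [ip_add_left, ip_add_right]
  ring

lemma mix_smul_left (n : ℤ) (v w : L) : mix (n • v) w = n * mix v w := by
  have := mix_smul n 1 v w
  rw [one_smul] at this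
  rw [this]
  ring

lemma mix_self (v : L) : mix v v = disc v := by
  unfold mix disc
  ring

lemma mix_hcomb (x y z : ℤ) (v w u : L) :
    mix (x • h + (y • v + z • w)) u = y * mix v u + z * mix w u := by
  rw [mix_add_left, mix_add_left, mix_smul_left, mix_smul_left, mix_smul_left, mix_h]
  ring

lemma mix_comb (x y z x' y' z' : ℤ) (v w : L) :
    mix (x • h + (y • v + z • w)) (x' • h + (y' • v + z' • w)) =
      y * y' * disc v + (y * z' + z * y') * mix v w + z * z' * disc w := by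
  rw [mix_hcomb, mix_comm v, mix_comm w, mix_hcomb, mix_hcomb, mix_self, mix_self, mix_comm w v]
  ring

variable {M : Submodule ℤ L} {t : ℕ × ℕ × ℕ}

lemma form_data (hf : HasForm M t) : ∃ v w : L, M = Submodule.span ℤ {h, v, w} ∧
    disc v = 2 * t.1 ∧ disc w = 2 * t.2.2 ∧ mix v w = t.2.1 := by
  obtain ⟨-, -, v, w, hM, hd⟩ := hf
  have h1 := hd 1 0
  have h2 := hd 0 1
  have h3 := hd 1 1
  simp only [one_smul, zero_smul, add_zero, zero_add] at h1 h2 h3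
  rw [disc_add, h1, h2] at h3
  refine ⟨v, w, hM, by rw [h1]; ring, by rw [h2]; ring, by linarith⟩

lemma data_form {v w : L} (h1 : t.2.1 ≤ t.1) (h2 : t.1 ≤ t.2.2)
    (hM : M = Submodule.span ℤ {h, v, w}) (hv : disc v = 2 * t.1) (hw : disc w = 2 * t.2.2)
    (hvw : mix v w = t.2.1) : HasForm M t := by
  refine ⟨h1, h2, v, w, hM, fun y z => ?_⟩
  rw [disc_comb, hv, hw, hvw]
  ring

lemma coef_unique {v w : L} {A B C : ℤ} (hv : disc v = 2 * A) (hw : disc w = 2 * C)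
    (hvw : mix v w = B) (hA : 1 ≤ A) (hB : 0 ≤ B) (hBA : B ≤ A) (hAC : A ≤ C)
    {x y z x' y' z' : ℤ}
    (he : x • h + (y • v + z • w) = x' • h + (y' • v + z' • w)) : y = y' ∧ z = z' := by
  have h1 : (x - x') • h + ((y - y') • v + (z - z') • w) = 0 := by
    have : (x - x') • h + ((y - y') • v + (z - z') • w) =
      (x • h + (y • v + z • w)) - (x' • h + (y' • v + z' • w)) := by
      simp only [sub_smul]
      abel
    rw [this, he, sub_self]
  have h2 : disc ((y - y') • v + (z - z') • w) = 0 := by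
    rw [← disc_hcomb (x - x'), h1]
    have := disc_smul 0 h
    rw [zero_smul] at this
    rw [this]
    ring
  rw [disc_comb, hv, hw, hvw] at h2
  by_contra hcon
  have h3 : y - y' ≠ 0 ∨ z - z' ≠ 0 := by omega
  have h4 := qmin' hB hBA hAC h3
  linarith

/-- the reduced form is unique -/
theorem form_unique {t' : ℕ × ℕ × ℕ} (hf : HasForm M t) (hf' : HasForm M t') (hA : 1 ≤ t.1)
    (hA' : 1 ≤ t'.1) : t = t' := by
  obtain ⟨A, B, C⟩ := t
  obtain ⟨A', B', C'⟩ := t'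
  have b1 := hf.1
  have b2 := hf.2.1
  have b1' := hf'.1
  have b2' := hf'.2.1
  obtain ⟨v, w, hM, hv, hw, hvw⟩ := form_data hf
  obtain ⟨v', w', hM', hv', hw', hvw'⟩ := form_data hf'
  simp only at hA hA' b1 b2 b1' b2' hv hw hvw hv' hw' hvw'
  have m1 : v' ∈ M := by rw [hM']; exact Submodule.subset_span (by simp)
  have m2 : w' ∈ M := by rw [hM']; exact Submodule.subset_span (by simp)
  have m3 : v ∈ M := by rw [hM]; exact Submodule.subset_span (by simp)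
  have m4 : w ∈ M := by rw [hM]; exact Submodule.subset_span (by simp)
  rw [hM, mem_span3] at m1 m2
  rw [hM', mem_span3] at m3 m4
  obtain ⟨x1, α, β, e1⟩ := m1
  obtain ⟨x2, γ, δ, e2⟩ := m2
  obtain ⟨x3, α', β', e3⟩ := m3
  obtain ⟨x4, γ', δ', e4⟩ := m4
  have f1 : (0 : ℤ) • h + ((1 : ℤ) • v + (0 : ℤ) • w) = (x3 + α' * x1 + β' * x2) • h +
      ((α' * α + β' * γ) • v + (α' * β + β' * δ) • w) := by
    rw [zero_smul, zero_smul, one_smul, zero_add, add_zero]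
    conv_lhs => rw [e3, e1, e2]
    simp only [smul_add, add_smul, mul_smul]
    abel
  have f2 : (0 : ℤ) • h + ((0 : ℤ) • v + (1 : ℤ) • w) = (x4 + γ' * x1 + δ' * x2) • h +
      ((γ' * α + δ' * γ) • v + (γ' * β + δ' * δ) • w) := by
    rw [zero_smul, zero_smul, one_smul, zero_add, zero_add]
    conv_lhs => rw [e4, e1, e2]
    simp only [smul_add, add_smul, mul_smul]
    abel
  obtain ⟨g1, g2⟩ := coef_unique hv hw hvw (by exact_mod_cast hA) (by positivity)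
    (by exact_mod_cast b1) (by exact_mod_cast b2) f1
  obtain ⟨g3, g4⟩ := coef_unique hv hw hvw (by exact_mod_cast hA) (by positivity)
    (by exact_mod_cast b1) (by exact_mod_cast b2) f2
  have hdet : (α * δ - β * γ) * (α' * δ' - β' * γ') = 1 := by
    have : (α * δ - β * γ) * (α' * δ' - β' * γ') = (α' * α + β' * γ) * (γ' * β + δ' * δ) -
      (α' * β + β' * δ) * (γ' * α + δ' * γ) := by ring
    rw [this, ← g1, ← g2, ← g3, ← g4]
    norm_num
  have hd1 : α * δ - β * γ ≠ 0 := left_ne_zero_of_mul_eq_one hdet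
  have hd2 : α' * δ' - β' * γ' ≠ 0 := right_ne_zero_of_mul_eq_one hdet
  have q1 : (A' : ℤ) = A * α ^ 2 + B * (α * β) + C * β ^ 2 := by
    have := disc_hcomb x1 (α • v + β • w)
    rw [← e1, disc_comb, hv, hw, hvw, hv'] at this
    linarith
  have q2 : (C' : ℤ) = A * γ ^ 2 + B * (γ * δ) + C * δ ^ 2 := by
    have := disc_hcomb x2 (γ • v + δ • w)
    rw [← e2, disc_comb, hv, hw, hvw, hw'] at this
    linarith
  have q3 : (A : ℤ) = A' * α' ^ 2 + B' * (α' * β') + C' * β' ^ 2 := by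
    have := disc_hcomb x3 (α' • v' + β' • w')
    rw [← e3, disc_comb, hv', hw', hvw', hv] at this
    linarith
  have q4 : (C : ℤ) = A' * γ' ^ 2 + B' * (γ' * δ') + C' * δ' ^ 2 := by
    have := disc_hcomb x4 (γ' • v' + δ' • w')
    rw [← e4, disc_comb, hv', hw', hvw', hw] at this
    linarith
  have q5 : (B' : ℤ) = 2 * A * (α * γ) + B * (α * δ + β * γ) + 2 * C * (β * δ) := by
    have := mix_comb x1 α β x2 γ δ v w
    rw [← e1, ← e2, hv, hw, hvw, hvw'] at this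
    linarith
  obtain ⟨r1, r2⟩ := red_le (by positivity) (by exact_mod_cast b1) (by exact_mod_cast b2)
    (by exact_mod_cast b2') q1 q2 hd1
  obtain ⟨r3, r4⟩ := red_le (by positivity) (by exact_mod_cast b1') (by exact_mod_cast b2')
    (by exact_mod_cast b2) q3 q4 hd2
  have s1 : A = A' := by omega
  have s2 : C = C' := by omega
  subst s1 s2
  have hd3 : (α * δ - β * γ) ^ 2 = 1 := by
    rcases Int.isUnit_iff.1 (IsUnit.of_mul_eq_one _ hdet) with h | h <;> rw [h] <;> norm_num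
  have s3 : 4 * (A : ℤ) * C - (B' : ℤ) ^ 2 = 4 * (A : ℤ) * C - (B : ℤ) ^ 2 := by
    calc 4 * (A : ℤ) * C - (B' : ℤ) ^ 2 = 4 * (A * α ^ 2 + B * (α * β) + C * β ^ 2) *
          (A * γ ^ 2 + B * (γ * δ) + C * δ ^ 2) -
            (2 * A * (α * γ) + B * (α * δ + β * γ) + 2 * C * (β * δ)) ^ 2 := by
            rw [← q1, ← q2, ← q5]
      _ = (4 * (A : ℤ) * C - (B : ℤ) ^ 2) * (α * δ - β * γ) ^ 2 := by ring
      _ = _ := by rw [hd3, mul_one]
  have s4 : (B : ℤ) ^ 2 = (B' : ℤ) ^ 2 := by linarith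
  have s5 : B = B' := by
    have : B ^ 2 = B' ^ 2 := by exact_mod_cast s4
    exact (Nat.pow_left_injective (n := 2) (by norm_num)) this
  rw [s5]

lemma sq_mod3 (n : ℤ) : n ^ 2 % 3 = 0 ∨ n ^ 2 % 3 = 1 := by
  have h1 : n % 3 = 0 ∨ n % 3 = 1 ∨ n % 3 = 2 := by omega
  rcases h1 with h | h | h <;> rw [pow_two, Int.mul_emod, h] <;> norm_num

/-- the conditions for the reduced form -/
theorem occ_of (hM : IsGood M) (hr : finrank ℤ M = 3) (hf : HasForm M t) : Occ t := by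
  obtain ⟨A, B, C⟩ := t
  obtain ⟨v, w, hs, hv, hw, hvw⟩ := form_data hf
  simp only at hv hw hvw
  have m3 : v ∈ M := by rw [hs]; exact Submodule.subset_span (by simp)
  have h8 : 8 ≤ disc v := by
    rcases disc_ge hM m3 with h | ⟨k, hk⟩
    · exact h
    · exact absurd hk (not_h hr hs k)
  have e1 : 2 * (A : ℤ) = 3 * ip v v - ip h v ^ 2 := hv.symm
  have e2 : 2 * (C : ℤ) = 3 * ip w w - ip h w ^ 2 := hw.symm
  have e3 : (B : ℤ) = 3 * ip v w - ip h v * ip h w := hvw.symm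
  have s1 := sq_mod3 (ip h v)
  have s2 := sq_mod3 (ip h w)
  refine ⟨?_, ?_, ?_, ?_⟩
  · show 4 ≤ A
    omega
  · show A % 3 ≠ 2
    omega
  · show C % 3 ≠ 2
    omega
  · show B ^ 2 % 3 = A * C % 3
    have h1 : (A : ℤ) ≡ ip h v ^ 2 [ZMOD 3] := by
      show (A : ℤ) % 3 = ip h v ^ 2 % 3
      omega
    have h2 : (C : ℤ) ≡ ip h w ^ 2 [ZMOD 3] := by
      show (C : ℤ) % 3 = ip h w ^ 2 % 3
      omega
    have h3 : (B : ℤ) ^ 2 ≡ ip h v ^ 2 * ip h w ^ 2 [ZMOD 3] := by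
      rw [e3]
      refine Int.ModEq.symm ((Int.modEq_iff_dvd).2 ⟨3 * ip v w ^ 2 - 2 * ip v w * (ip h v * ip h w),
        by ring⟩)
    have h4 : (B : ℤ) ^ 2 ≡ A * C [ZMOD 3] := h3.trans (h1.mul h2).symm
    have h5 : ((B ^ 2 : ℕ) : ℤ) ≡ ((A * C : ℕ) : ℤ) [ZMOD ((3 : ℕ) : ℤ)] := by
      push_cast
      exact h4
    exact Int.natCast_modEq_iff.1 h5

/-- a lattice whose discriminants are large is good -/
lemma good_ML' {a e' b e t d0 d : ℤ} (he' : e' * e' = e') (he : e * e = e)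
    (hd0 : d0 = 6 * a + 2 * e') (hd : d = 6 * b + 2 * e)
    (hmin : ∀ y z : ℤ, y ≠ 0 ∨ z ≠ 0 → 8 ≤ d0 * y ^ 2 + 2 * (3 * t - e' * e) * y * z + d * z ^ 2) :
    IsGood (ML a e' b e t) where
  mem := mem_ML.2 ⟨1, 0, 0, h_eq a e' b e t⟩
  sat := sat_ML a e' b e t
  pos := by
    intro v hv hv0
    obtain ⟨x, y, z, rfl⟩ := mem_ML.1 hv
    have h3 := three_ip (t := t) (x := x) (y := y) (z := z) he' he hd0 hd
    by_cases hyz : y ≠ 0 ∨ z ≠ 0
    · have h4 := hmin y z hyz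
      have h5 := sq_nonneg (3 * x + e' * y + e * z)
      omega
    · push Not at hyz
      obtain ⟨rfl, rfl⟩ := hyz
      have hx : x ≠ 0 := by
        rintro rfl
        apply hv0
        have := smul_cv a e' b e t 0 0 0 0
        simpa using this.symm
      have : 0 < x ^ 2 := by positivity
      have h6 : (3 * x + e' * 0 + e * 0) ^ 2 = 9 * x ^ 2 := by ring
      rw [h6] at h3
      have h7 : d0 * (0 : ℤ) ^ 2 + 2 * (3 * t - e' * e) * 0 * 0 + d * 0 ^ 2 = 0 := by ring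
      rw [h7] at h3
      omega

/-- all these forms occur -/
theorem exists_of_occ (h1 : t.2.1 ≤ t.1) (h2 : t.1 ≤ t.2.2) (ho : Occ t) :
    ∃ M : Submodule ℤ L, IsGood M ∧ finrank ℤ M = 3 ∧ HasForm M t := by
  obtain ⟨A, B, C⟩ := t
  obtain ⟨h4, hA, hC, hB⟩ := ho
  simp only at h1 h2 h4 hA hC hB
  have he' : ((A % 3 : ℕ) : ℤ) * ((A % 3 : ℕ) : ℤ) = ((A % 3 : ℕ) : ℤ) := by
    have : A % 3 = 0 ∨ A % 3 = 1 := by omega
    rcases this with h | h <;> rw [h] <;> norm_num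
  have he : ((C % 3 : ℕ) : ℤ) * ((C % 3 : ℕ) : ℤ) = ((C % 3 : ℕ) : ℤ) := by
    have : C % 3 = 0 ∨ C % 3 = 1 := by omega
    rcases this with h | h <;> rw [h] <;> norm_num
  have hd0 : 2 * (A : ℤ) = 6 * ((A / 3 : ℕ) : ℤ) + 2 * ((A % 3 : ℕ) : ℤ) := by omega
  have hd : 2 * (C : ℤ) = 6 * ((C / 3 : ℕ) : ℤ) + 2 * ((C % 3 : ℕ) : ℤ) := by omega
  obtain ⟨σ, s, hσ, hs⟩ : ∃ σ s : ℤ, σ * σ = 1 ∧
      3 * s - ((A % 3 : ℕ) : ℤ) * ((C % 3 : ℕ) : ℤ) = σ * B := by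
    have hB3 : B % 3 = 0 ∨ B % 3 = 1 ∨ B % 3 = 2 := by omega
    have hB' : (B % 3) ^ 2 % 3 = (A % 3) * (C % 3) % 3 := by
      rw [← Nat.pow_mod, ← Nat.mul_mod]
      exact hB
    have hA3 : A % 3 = 0 ∨ A % 3 = 1 := by omega
    have hC3 : C % 3 = 0 ∨ C % 3 = 1 := by omega
    rcases hA3 with ha | ha <;> rcases hC3 with hc | hc <;> rcases hB3 with hb | hb | hb <;>
      rw [ha, hc, hb] at hB' <;> norm_num at hB'
    · exact ⟨1, B / 3, by norm_num, by rw [ha, hc]; push_cast; omega⟩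
    · exact ⟨1, B / 3, by norm_num, by rw [ha, hc]; push_cast; omega⟩
    · exact ⟨1, B / 3, by norm_num, by rw [ha, hc]; push_cast; omega⟩
    · exact ⟨-1, (1 - B) / 3, by norm_num, by rw [ha, hc]; push_cast; omega⟩
    · exact ⟨1, (B + 1) / 3, by norm_num, by rw [ha, hc]; push_cast; omega⟩
  have hgood : IsGood (ML ((A / 3 : ℕ) : ℤ) ((A % 3 : ℕ) : ℤ) ((C / 3 : ℕ) : ℤ)
      ((C % 3 : ℕ) : ℤ) s) := by
    refine good_ML' he' he hd0 hd fun y z hyz => ?_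
    rw [hs]
    have h5 : y ≠ 0 ∨ σ * z ≠ 0 := by
      rcases hyz with h | h
      · exact Or.inl h
      · right
        intro h6
        apply h
        have : z = σ * (σ * z) := by rw [← mul_assoc, hσ, one_mul]
        rw [this, h6, mul_zero]
    have h6 := qmin' (A := A) (B := B) (C := C) (by positivity) (by exact_mod_cast h1)
      (by exact_mod_cast h2) h5
    have h7 : (A : ℤ) * y ^ 2 + B * (y * (σ * z)) + C * (σ * z) ^ 2 =
        A * y ^ 2 + B * (y * (σ * z)) + C * z ^ 2 := by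
      linear_combination (C * z ^ 2) * hσ
    rw [h7] at h6
    have h8 : (4 : ℤ) ≤ A := by exact_mod_cast h4
    nlinarith
  refine ⟨_, hgood, finrank_ML _ _ _ _ _, data_form h1 h2
    (v := cv ((A / 3 : ℕ) : ℤ) ((A % 3 : ℕ) : ℤ) ((C / 3 : ℕ) : ℤ) ((C % 3 : ℕ) : ℤ) s 0 1 0)
    (w := cv ((A / 3 : ℕ) : ℤ) ((A % 3 : ℕ) : ℤ) ((C / 3 : ℕ) : ℤ) ((C % 3 : ℕ) : ℤ) s 0 0 σ)
    ?_ ?_ ?_ ?_⟩
  · ext u
    rw [mem_span3, mem_ML]
    constructor
    · rintro ⟨x, y, z, rfl⟩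
      refine ⟨x, y, σ * z, ?_⟩
      rw [h_eq ((A / 3 : ℕ) : ℤ) ((A % 3 : ℕ) : ℤ) ((C / 3 : ℕ) : ℤ) ((C % 3 : ℕ) : ℤ) s,
        smul_cv, smul_cv, smul_cv, add_cv, add_cv]
      congr 1
      · ring
      · ring
      · linear_combination (-z) * hσ
    · rintro ⟨x, y, z, rfl⟩
      refine ⟨x, y, σ * z, ?_⟩
      rw [h_eq ((A / 3 : ℕ) : ℤ) ((A % 3 : ℕ) : ℤ) ((C / 3 : ℕ) : ℤ) ((C % 3 : ℕ) : ℤ) s,
        smul_cv, smul_cv, smul_cv, add_cv, add_cv]
      congr 1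
      · ring
      · ring
      · ring
  · rw [disc_cv he' he hd0 hd]
    ring
  · rw [disc_cv he' he hd0 hd]
    linear_combination (2 * (C : ℤ)) * hσ
  · have h9 := disc_add
      (cv ((A / 3 : ℕ) : ℤ) ((A % 3 : ℕ) : ℤ) ((C / 3 : ℕ) : ℤ) ((C % 3 : ℕ) : ℤ) s 0 1 0)
      (cv ((A / 3 : ℕ) : ℤ) ((A % 3 : ℕ) : ℤ) ((C / 3 : ℕ) : ℤ) ((C % 3 : ℕ) : ℤ) s 0 0 σ)
    rw [add_cv, disc_cv he' he hd0 hd, disc_cv he' he hd0 hd, disc_cv he' he hd0 hd, hs] at h9
    have h10 : 2 * mix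
      (cv ((A / 3 : ℕ) : ℤ) ((A % 3 : ℕ) : ℤ) ((C / 3 : ℕ) : ℤ) ((C % 3 : ℕ) : ℤ) s 0 1 0)
      (cv ((A / 3 : ℕ) : ℤ) ((A % 3 : ℕ) : ℤ) ((C / 3 : ℕ) : ℤ) ((C % 3 : ℕ) : ℤ) s 0 0 σ) =
        2 * B := by linear_combination (-1) * h9 + (2 * (B : ℤ)) * hσ
    linarith

end Pool.Agent.H574.CF
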