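import Pool.Agent.H574.CF.Types

/-!
# The groups of rank three: local conditions, isometries and loci
-/

set_option autoImplicit false

namespace Pool.Agent.H574.CF

open Pool.Agent.Q63.CF Pool.Agent.Y95.Q Module Dens

variable {M : Submodule ℤ L} {t : ℕ × ℕ × ℕ}

lemma fine3_of {A B C : ℕ} (hm : Mod3 (A, B, C)) {y z : ℤ}
    (hQ : ((A : ℤ) * y ^ 2 + B * (y * z) + C * z ^ 2) % 3 = 1 ∨
      ((A : ℤ) * y ^ 2 + B * (y * z) + C * z ^ 2) % 9 = 3) : Fine3 (A, B, C) := by
  obtain ⟨hA, hC, hB⟩ := hm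
  simp only at hA hC hB
  by_cases hA1 : A % 3 = 1
  · exact Or.inl (Or.inl hA1)
  by_cases hC1 : C % 3 = 1
  · exact Or.inr (Or.inl (Or.inl hC1))
  obtain ⟨a, rfl⟩ : 3 ∣ A := by omega
  obtain ⟨c, rfl⟩ : 3 ∣ C := by omega
  have hB1 : B ^ 2 % 3 = 0 := by
    rw [hB]
    exact Nat.mod_eq_zero_of_dvd (Dvd.intro _ (by ring : 3 * (a * (3 * c)) = _))
  obtain ⟨b, rfl⟩ : 3 ∣ B := Nat.prime_three.dvd_of_dvd_pow (Nat.dvd_of_mod_eq_zero hB1)
  have h1 : ((3 * a : ℕ) : ℤ) * y ^ 2 + ((3 * b : ℕ) : ℤ) * (y * z) + ((3 * c : ℕ) : ℤ) * z ^ 2 =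
      3 * ((a : ℤ) * y ^ 2 + b * (y * z) + c * z ^ 2) := by
    push_cast
    ring
  rw [h1] at hQ
  have h2 : ((a : ℤ) * y ^ 2 + b * (y * z) + c * z ^ 2) % 3 = 1 := by omega
  have h3 : ((((a : ℤ) * y ^ 2 + b * (y * z) + c * z ^ 2 : ℤ)) : ZMod 3) = ((1 : ℤ) : ZMod 3) := by
    rw [ZMod.intCast_eq_intCast_iff]
    exact h2
  push_cast at h3
  have key : ∀ a b c y z : ZMod 3, a * y ^ 2 + b * (y * z) + c * z ^ 2 = 1 →
      a = 1 ∨ c = 1 ∨ a + b + c = 1 ∨ a + 2 * b + 4 * c = 1 := by decide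
  have hn : ∀ n : ℕ, (n : ZMod 3) = 1 → n % 3 = 1 := fun n hn => by
    have : (n : ZMod 3) = ((1 : ℕ) : ZMod 3) := by rw [hn]; norm_num
    rw [ZMod.natCast_eq_natCast_iff'] at this
    exact this
  rcases key _ _ _ _ _ h3 with h | h | h | h
  · left
    right
    have := hn _ h
    show 3 * a % 9 = 3
    omega
  · right; left; right
    have := hn _ h
    show 3 * c % 9 = 3
    omega
  · right; right; left; right
    have := hn (a + b + c) (by push_cast; exact h)
    show (3 * a + 3 * b + 3 * c) % 9 = 3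
    omega
  · right; right; right; right
    have := hn (a + 2 * b + 4 * c) (by push_cast; exact h)
    show (3 * a + 2 * (3 * b) + 4 * (3 * c)) % 9 = 3
    omega

/-- the local conditions for a group with a given form -/
theorem loc_iff (hf : HasForm M t) (ho : Occ t) : Loc M ↔ NoObs t := by
  obtain ⟨A, B, C⟩ := t
  obtain ⟨-, -, v, w, hM, hd⟩ := hf
  simp only at hd
  have hmem : ∀ u, u ∈ M → ∃ y z : ℤ, disc u = 2 * ((A : ℤ) * y ^ 2 + B * (y * z) + C * z ^ 2) := by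
    intro u hu
    rw [hM, mem_span3] at hu
    obtain ⟨x, y, z, rfl⟩ := hu
    exact ⟨y, z, by rw [disc_hcomb, hd]⟩
  have hmem' : ∀ y z : ℤ, y • v + z • w ∈ M := fun y z => by
    rw [hM, mem_span3]
    exact ⟨0, y, z, by simp⟩
  constructor
  · rintro ⟨h1, u, hu, h2⟩
    refine ⟨?_, fun p hp hp2 hdiv => ?_⟩
    · obtain ⟨y, z, hyz⟩ := hmem u hu
      rw [hyz] at h2
      exact fine3_of ho.2 (y := y) (z := z) (by omega)
    · obtain ⟨u', hu', h3⟩ := h1 p hp hp2
      obtain ⟨y, z, hyz⟩ := hmem u' hu'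
      apply h3
      rw [hyz, Int.mul_ediv_cancel_left _ (by norm_num)]
      obtain ⟨d1, d2, d3⟩ := hdiv
      simp only at d1 d2 d3
      have d1' : (p : ℤ) ∣ A := by exact_mod_cast d1
      have d2' : (p : ℤ) ∣ B := by exact_mod_cast d2
      have d3' : (p : ℤ) ∣ C := by exact_mod_cast d3
      exact dvd_add (dvd_add (d1'.mul_right _) (d2'.mul_right _)) (d3'.mul_right _)
  · rintro ⟨h1, h2⟩
    constructor
    · intro p hp hp2
      by_contra hcon
      push Not at hcon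
      apply h2 p hp hp2
      have g1 := hcon _ (hmem' 1 0)
      have g2 := hcon _ (hmem' 0 1)
      have g3 := hcon _ (hmem' 1 1)
      rw [hd, Int.mul_ediv_cancel_left _ (by norm_num)] at g1 g2 g3
      have k1 : (p : ℤ) ∣ A := by
        have : (A : ℤ) * 1 ^ 2 + B * (1 * 0) + C * 0 ^ 2 = A := by ring
        rwa [this] at g1
      have k2 : (p : ℤ) ∣ C := by
        have : (A : ℤ) * 0 ^ 2 + B * (0 * 1) + C * 1 ^ 2 = C := by ring
        rwa [this] at g2
      have k3 : (p : ℤ) ∣ B := by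
        have : (A : ℤ) * 1 ^ 2 + B * (1 * 1) + C * 1 ^ 2 = A + B + C := by ring
        rw [this] at g3
        have h4 := dvd_sub (dvd_sub g3 k1) k2
        have h5 : (A : ℤ) + B + C - A - C = B := by ring
        rwa [h5] at h4
      exact ⟨by exact_mod_cast k1, by exact_mod_cast k3, by exact_mod_cast k2⟩
    · rcases h1 with h | h | h | h
      · refine ⟨_, hmem' 1 0, ?_⟩
        rw [hd]
        have : 2 * ((A : ℤ) * 1 ^ 2 + B * (1 * 0) + C * 0 ^ 2) = 2 * A := by ring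
        rw [this]
        unfold Fine at h
        simp only at h
        omega
      · refine ⟨_, hmem' 0 1, ?_⟩
        rw [hd]
        have : 2 * ((A : ℤ) * 0 ^ 2 + B * (0 * 1) + C * 1 ^ 2) = 2 * C := by ring
        rw [this]
        unfold Fine at h
        simp only at h
        omega
      · refine ⟨_, hmem' 1 1, ?_⟩
        rw [hd]
        have : 2 * ((A : ℤ) * 1 ^ 2 + B * (1 * 1) + C * 1 ^ 2) = 2 * (A + B + C) := by ring
        rw [this]
        unfold Fine at h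
        simp only at h
        omega
      · refine ⟨_, hmem' 1 2, ?_⟩
        rw [hd]
        have : 2 * ((A : ℤ) * 1 ^ 2 + B * (1 * 2) + C * 2 ^ 2) = 2 * (A + 2 * B + 4 * C) := by ring
        rw [this]
        unfold Fine at h
        simp only at h
        omega

/-- the criterion for a group of rank three -/
theorem k3_iff_noObs (hM : IsGood M) (hr : finrank ℤ M = 3) (hf : HasForm M t) :
    (∃ d, Admissible d ∧ In M d) ↔ NoObs t :=
  (k3_iff_loc (group_of_good hM)).trans (loc_iff hf (occ_of hM hr hf))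

/-! ### isometries -/

lemma exists_coord {v w : L} {A B C : ℤ} (hM : M = Submodule.span ℤ {h, v, w})
    (hv : disc v = 2 * A) (hw : disc w = 2 * C)
    (hvw : mix v w = B) (hA : 1 ≤ A) (hB : 0 ≤ B) (hBA : B ≤ A) (hAC : A ≤ C) :
    ∃ φ : (ℤ × ℤ × ℤ) ≃ₗ[ℤ] M, ∀ c, (φ c : L) = c.1 • h + (c.2.1 • v + c.2.2 • w) := by
  let φ : (ℤ × ℤ × ℤ) →ₗ[ℤ] M :=
    { toFun := fun c => ⟨c.1 • h + (c.2.1 • v + c.2.2 • w), by
        rw [hM, mem_span3]
        exact ⟨_, _, _, rfl⟩⟩
      map_add' := fun x y => Subtype.ext (by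
        show (x.1 + y.1) • h + ((x.2.1 + y.2.1) • v + (x.2.2 + y.2.2) • w) =
          (x.1 • h + (x.2.1 • v + x.2.2 • w)) + (y.1 • h + (y.2.1 • v + y.2.2 • w))
        simp only [add_smul]
        abel)
      map_smul' := fun n x => Subtype.ext (by
        show (n * x.1) • h + ((n * x.2.1) • v + (n * x.2.2) • w) =
          n • (x.1 • h + (x.2.1 • v + x.2.2 • w))
        simp only [smul_add, mul_smul]) }
  refine ⟨LinearEquiv.ofBijective φ ⟨?_, ?_⟩, fun c => rfl⟩
  · rintro ⟨x, y, z⟩ ⟨x', y', z'⟩ hxy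
    have h1 : x • h + (y • v + z • w) = x' • h + (y' • v + z' • w) := congrArg Subtype.val hxy
    obtain ⟨rfl, rfl⟩ := coef_unique hv hw hvw hA hB hBA hAC h1
    have h2 := congrArg co (add_right_cancel h1)
    rw [map_smul, map_smul, co_h] at h2
    have h3 : x = x' := by simpa using h2
    rw [h3]
  · rintro ⟨u, hu⟩
    have hu' := hu
    rw [hM, mem_span3] at hu'
    obtain ⟨x, y, z, hxyz⟩ := hu'
    exact ⟨(x, y, z), Subtype.ext hxyz.symm⟩

lemma ip_comb (v w : L) (x y z x' y' z' : ℤ) :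
    ip (x • h + (y • v + z • w)) (x' • h + (y' • v + z' • w)) =
      3 * (x * x') + (x * y' + y * x') * ip h v + (x * z' + z * x') * ip h w +
        y * y' * ip v v + (y * z' + z * y') * ip v w + z * z' * ip w w := by
  simp only [ip_add_left, ip_add_right, ip_smul_left, ip_smul_right, ip_h_h]
  rw [ip_comm v h, ip_comm w h, ip_comm w v]
  ring

lemma sign_match {a b a' b' : ℤ} (h1 : (3 : ℤ) ∣ a ^ 2 - a' ^ 2) (h2 : (3 : ℤ) ∣ b ^ 2 - b' ^ 2)
    (h3 : (3 : ℤ) ∣ a * b - a' * b') :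
    ∃ σ k l : ℤ, σ * σ = 1 ∧ a = 3 * k + σ * a' ∧ b = 3 * l + σ * b' := by
  have key : ∀ a b a' b' : ZMod 3, a ^ 2 - a' ^ 2 = 0 → b ^ 2 - b' ^ 2 = 0 → a * b - a' * b' = 0 →
      (a - a' = 0 ∧ b - b' = 0) ∨ (a + a' = 0 ∧ b + b' = 0) := by decide
  have e1 : ((a ^ 2 - a' ^ 2 : ℤ) : ZMod 3) = 0 := (ZMod.intCast_zmod_eq_zero_iff_dvd _ _).2 h1
  have e2 : ((b ^ 2 - b' ^ 2 : ℤ) : ZMod 3) = 0 := (ZMod.intCast_zmod_eq_zero_iff_dvd _ _).2 h2
  have e3 : ((a * b - a' * b' : ℤ) : ZMod 3) = 0 := (ZMod.intCast_zmod_eq_zero_iff_dvd _ _).2 h3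
  push_cast at e1 e2 e3
  rcases key _ _ _ _ e1 e2 e3 with ⟨f1, f2⟩ | ⟨f1, f2⟩
  · have g1 : ((a - a' : ℤ) : ZMod 3) = 0 := by push_cast; exact f1
    have g2 : ((b - b' : ℤ) : ZMod 3) = 0 := by push_cast; exact f2
    obtain ⟨k, hk⟩ := (ZMod.intCast_zmod_eq_zero_iff_dvd _ _).1 g1
    obtain ⟨l, hl⟩ := (ZMod.intCast_zmod_eq_zero_iff_dvd _ _).1 g2
    push_cast at hk hl
    exact ⟨1, k, l, by norm_num, by linarith, by linarith⟩
  · have g1 : ((a + a' : ℤ) : ZMod 3) = 0 := by push_cast; exact f1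
    have g2 : ((b + b' : ℤ) : ZMod 3) = 0 := by push_cast; exact f2
    obtain ⟨k, hk⟩ := (ZMod.intCast_zmod_eq_zero_iff_dvd _ _).1 g1
    obtain ⟨l, hl⟩ := (ZMod.intCast_zmod_eq_zero_iff_dvd _ _).1 g2
    push_cast at hk hl
    exact ⟨-1, k, l, by norm_num, by linarith, by linarith⟩

/-- groups with the same form are isometric -/
theorem isom_of_form {M' : Submodule ℤ L} (hf : HasForm M t) (hf' : HasForm M' t)
    (hA : 1 ≤ t.1) : ∃ g : M ≃ₗ[ℤ] M', (∀ x y : M, ip (g x) (g y) = ip x y) ∧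
      ∀ x : M, (x : L) = h → (g x : L) = h := by
  obtain ⟨A, B, C⟩ := t
  have b1 := hf.1
  have b2 := hf.2.1
  obtain ⟨v, w, hM, hv, hw, hvw⟩ := form_data hf
  obtain ⟨v', w', hM', hv', hw', hvw'⟩ := form_data hf'
  simp only at hA b1 b2 hv hw hvw hv' hw' hvw'
  obtain ⟨σ, k, l, hσ, hk, hl⟩ : ∃ σ k l : ℤ, σ * σ = 1 ∧ ip h v = 3 * k + σ * ip h v' ∧
      ip h w = 3 * l + σ * ip h w' := by
    have e1 := hv.trans hv'.symm
    have e2 := hw.trans hw'.symm
    have e3 := hvw.trans hvw'.symm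
    unfold disc at e1 e2
    unfold mix at e3
    refine sign_match ⟨ip v v - ip v' v', by linarith⟩ ⟨ip w w - ip w' w', by linarith⟩
      ⟨ip v w - ip v' w', by linarith⟩
  have dv : disc (k • h + σ • v') = 2 * A := by
    rw [disc_hcomb, disc_smul, hv']
    linear_combination (2 * (A : ℤ)) * hσ
  have dw : disc (l • h + σ • w') = 2 * C := by
    rw [disc_hcomb, disc_smul, hw']
    linear_combination (2 * (C : ℤ)) * hσ
  have dvw : mix (k • h + σ • v') (l • h + σ • w') = B := by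
    have h1 := mix_comb k σ 0 l 0 σ v' w'
    simp only [zero_smul, add_zero, zero_add] at h1
    rw [h1, hvw']
    linear_combination (B : ℤ) * hσ
  have hM2 : M' = Submodule.span ℤ {h, k • h + σ • v', l • h + σ • w'} := by
    rw [hM']
    ext u
    rw [mem_span3, mem_span3]
    constructor
    · rintro ⟨x, y, z, rfl⟩
      refine ⟨x - σ * y * k - σ * z * l, σ * y, σ * z, ?_⟩
      have s1 : (σ * y) • (k • h + σ • v') = (σ * y * k) • h + y • v' := by
        rw [smul_add, smul_smul, smul_smul]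
        congr 2
        linear_combination y * hσ
      have s2 : (σ * z) • (l • h + σ • w') = (σ * z * l) • h + z • w' := by
        rw [smul_add, smul_smul, smul_smul]
        congr 2
        linear_combination z * hσ
      rw [s1, s2, sub_smul, sub_smul]
      abel
    · rintro ⟨x, y, z, rfl⟩
      refine ⟨x + y * k + z * l, y * σ, z * σ, ?_⟩
      rw [smul_add, smul_add, smul_smul, smul_smul, smul_smul, smul_smul, add_smul, add_smul]
      abel
  have hAz : (1 : ℤ) ≤ A := by exact_mod_cast hA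
  have hB0 : (0 : ℤ) ≤ B := by positivity
  have hBA : (B : ℤ) ≤ A := by exact_mod_cast b1
  have hAC : (A : ℤ) ≤ C := by exact_mod_cast b2
  obtain ⟨φ, hφ⟩ := exists_coord hM hv hw hvw hAz hB0 hBA hAC
  obtain ⟨ψ, hψ⟩ := exists_coord hM2 dv dw dvw hAz hB0 hBA hAC
  have g1 : ip h (k • h + σ • v') = ip h v := by
    rw [ip_h_comb, ip_smul_right, hk]
  have g2 : ip h (l • h + σ • w') = ip h w := by
    rw [ip_h_comb, ip_smul_right, hl]
  have g3 : ip (k • h + σ • v') (k • h + σ • v') = ip v v := by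
    have h1 := dv.trans hv.symm
    unfold disc at h1
    rw [g1] at h1
    linarith
  have g4 : ip (l • h + σ • w') (l • h + σ • w') = ip w w := by
    have h1 := dw.trans hw.symm
    unfold disc at h1
    rw [g2] at h1
    linarith
  have g5 : ip (k • h + σ • v') (l • h + σ • w') = ip v w := by
    have h1 := dvw.trans hvw.symm
    unfold mix at h1
    rw [g1, g2] at h1
    linarith
  refine ⟨φ.symm.trans ψ, fun x y => ?_, fun x hx => ?_⟩
  · obtain ⟨c, rfl⟩ := φ.surjective x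
    obtain ⟨c', rfl⟩ := φ.surjective y
    simp only [LinearEquiv.trans_apply, LinearEquiv.symm_apply_apply]
    rw [hφ, hφ, hψ, hψ, ip_comb, ip_comb, g1, g2, g3, g4, g5]
  · have h1 : φ (1, 0, 0) = x := by
      apply Subtype.ext
      rw [hφ, hx]
      simp
    rw [← h1]
    simp only [LinearEquiv.trans_apply, LinearEquiv.symm_apply_apply]
    rw [hψ]
    simp

/-- an isometry which fixes `h` preserves the form -/
theorem form_of_isom {M' : Submodule ℤ L} (hM : h ∈ M) (g : M ≃ₗ[ℤ] M')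
    (hg : ∀ x y : M, ip (g x) (g y) = ip x y) (hh : ∀ x : M, (x : L) = h → (g x : L) = h)
    (hf : HasForm M t) : HasForm M' t := by
  obtain ⟨h1, h2, v, w, hs, hd⟩ := hf
  have hv : v ∈ M := by rw [hs]; exact Submodule.subset_span (by simp)
  have hw : w ∈ M := by rw [hs]; exact Submodule.subset_span (by simp)
  have gh : (g ⟨h, hM⟩ : L) = h := hh _ rfl
  have gd : ∀ x : M, disc (g x : L) = disc (x : L) := fun x => by
    unfold disc
    rw [hg]
    conv_lhs => rw [← gh, hg]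
  refine ⟨h1, h2, g ⟨v, hv⟩, g ⟨w, hw⟩, ?_, fun y z => ?_⟩
  · ext u
    rw [mem_span3]
    constructor
    · intro hu
      obtain ⟨⟨x, hx⟩, hx2⟩ := g.surjective ⟨u, hu⟩
      have hx3 := hx
      rw [hs, mem_span3] at hx3
      obtain ⟨a, b, c, rfl⟩ := hx3
      refine ⟨a, b, c, ?_⟩
      have h3 : (⟨a • h + (b • v + c • w), hx⟩ : M) =
          a • (⟨h, hM⟩ : M) + (b • (⟨v, hv⟩ : M) + c • (⟨w, hw⟩ : M)) := rfl
      rw [h3, map_add, map_add, map_smul, map_smul, map_smul] at hx2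
      have h4 := congrArg Subtype.val hx2
      simp only [Submodule.coe_add, Submodule.coe_smul] at h4
      rw [← h4, gh]
    · rintro ⟨a, b, c, rfl⟩
      refine M'.add_mem (M'.smul_mem _ ?_) (M'.add_mem (M'.smul_mem _ (g _).2)
        (M'.smul_mem _ (g _).2))
      rw [← gh]
      exact (g _).2
  · have h3 : y • (g ⟨v, hv⟩ : L) + z • (g ⟨w, hw⟩ : L) =
        (g (y • (⟨v, hv⟩ : M) + z • (⟨w, hw⟩ : M)) : L) := by
      rw [map_add, map_smul, map_smul]
      rfl
    rw [h3, gd]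
    exact hd y z

/-! ### loci -/

lemma sub_of_locus {R : CubicFourfold → Submodule ℤ L → Prop} (hR : IsHodgeTheory R)
    {M' : Submodule ℤ L} (hM : IsGood M) (hle : Locus R M ⊆ Locus R M') :
    ∃ g : L ≃ₗ[ℤ] L, (∀ v w, ip (g v) (g w) = ip v w) ∧ g h = h ∧
      M' ≤ M.map (g : L →ₗ[ℤ] L) := by
  obtain ⟨X, hX⟩ := hR.exist _ hM
  obtain ⟨A, hA, hA2⟩ := hle (show X ∈ Locus R M from ⟨_, hX, le_rfl⟩)
  obtain ⟨g, hg1, hg2, rfl⟩ := hR.unique X _ _ hX hA
  exact ⟨g, hg1, hg2, hA2⟩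

end Pool.Agent.H574.CF
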